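import Pool.Agent.Lib.MP_938ce2_ag_H7f.RefData

/-!
The reference function for points of order ten.
-/

set_option autoImplicit false
set_option linter.style.haveILetI false
set_option linter.unusedSectionVars false

open Finset

namespace Pool.Agent.Lib.MP_938ce2_ag_H7f

open Pool.Agent.Lib.MP_938ce2_ag_h99 Pool.Agent.Lib.MP_938ce2_ag_H7e Pool.Agent.Lib.MP_938ce2_ag_h6

variable {m Q n q : ℕ} [NeZero m]

lemma addOrderOf_unit_mul (s : (ZMod m)ˣ) (a : ZMod m) :
    addOrderOf ((s : ZMod m) * a) = addOrderOf a := by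
  apply Nat.dvd_antisymm
  · apply addOrderOf_dvd_of_nsmul_eq_zero
    rw [nsmul_eq_mul, mul_left_comm, ← nsmul_eq_mul, addOrderOf_nsmul_eq_zero, mul_zero]
  · apply addOrderOf_dvd_of_nsmul_eq_zero
    have h1 : addOrderOf ((s : ZMod m) * a) • ((s : ZMod m) * a) = 0 := addOrderOf_nsmul_eq_zero _
    rw [nsmul_eq_mul, mul_left_comm] at h1
    rw [nsmul_eq_mul]
    exact (Units.mul_right_eq_zero s).mp h1

/-- translates of reference functions by units -/
lemma Ref.smul {hD : Dat m Q n q} [NeZero n] {K : ℕ} {b : ZMod n}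
    {N0 : ℤ} {A : ZMod m → ℤ} (h : Ref hD K ⊤ b N0 A) (s : (ZMod m)ˣ) :
    Ref hD K ⊤ (((ZMod.unitsMap hD.nm s : (ZMod n)ˣ) : ZMod n) * b) N0
      (fun a => A (((s⁻¹ : (ZMod m)ˣ) : ZMod m) * a)) where
  odd := by
    intro a
    beta_reduce
    rw [mul_neg, h.odd]
  tate := by
    intro t
    have h1 := h.tate (t * s)
    rw [← h1]
    refine (Fintype.sum_equiv (Units.mulLeft s) _ _ fun y => ?_).symm
    show A y * _ = A (((s⁻¹ : (ZMod m)ˣ) : ZMod m) * ((s : ZMod m) * y)) *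
      ((((t : ZMod m) * ((s : ZMod m) * y)).val : ℕ) : ℤ)
    rw [Units.inv_mul_cancel_left, Units.val_mul, mul_assoc]
  mem := AddSubgroup.mem_top _
  psh := by
    intro t
    have e1 : part1 q (fun a => A (((s⁻¹ : (ZMod m)ˣ) : ZMod m) * a))
        = fun a => part1 q A (((s⁻¹ : (ZMod m)ˣ) : ZMod m) * a) := by
      funext a
      unfold part1
      rw [addOrderOf_unit_mul]
    have e2 : upF Q q K (fun a => part1 q A (((s⁻¹ : (ZMod m)ˣ) : ZMod m) * a))
        = fun a => upF Q q K (part1 q A) (((s⁻¹ : (ZMod m)ˣ) : ZMod m) * a) := by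
      funext a
      unfold upF
      rw [addOrderOf_unit_mul]
      split_ifs
      · refine sum_congr rfl fun j _ => ?_
        rw [mul_left_comm]
      · rfl
    rw [e1, e2, PH_push, W_unit_mul, ← h.psh, PH_push]
    refine (Fintype.sum_equiv (Units.mulLeft s) _ _ fun y => ?_).symm
    rw [Units.mulLeft_apply, Units.inv_mul_cancel_left, map_mul]
    have h3 : ZMod.castHom hD.nm (ZMod n) (s : ZMod m)
        = ((ZMod.unitsMap hD.nm s : (ZMod n)ˣ) : ZMod n) := by
      rw [ZMod.unitsMap_val]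
      rfl
    rw [h3, W_unit_mul]
  norm := by
    refine le_trans (le_of_eq ?_) h.norm
    have e1 : ∀ a, part0 q (fun a => A (((s⁻¹ : (ZMod m)ˣ) : ZMod m) * a)) a
        = part0 q A (((s⁻¹ : (ZMod m)ˣ) : ZMod m) * a) := by
      intro a
      unfold part0
      rw [addOrderOf_unit_mul]
    rw [sum_congr rfl fun a _ => by rw [e1 a]]
    exact Fintype.sum_equiv (Units.mulLeft s⁻¹) _ _ fun y => rfl
  supp0 := by
    intro a ha
    have e1 : part0 q (fun a => A (((s⁻¹ : (ZMod m)ˣ) : ZMod m) * a)) a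
        = part0 q A (((s⁻¹ : (ZMod m)ˣ) : ZMod m) * a) := by
      unfold part0
      rw [addOrderOf_unit_mul]
    rw [e1] at ha
    have h1 := h.supp0 _ ha
    rwa [addOrderOf_unit_mul] at h1

/-- the sporadic character of degree `110` -/
noncomputable def spor (h : 110 ∣ m) (u : (ZMod 110)ˣ) : Multiset (ZMod m) :=
  ((↑(([7, 34, 38, 57, 87, 107] : List ℕ).map (Nat.cast : ℕ → ZMod 110)) :
    Multiset (ZMod 110)).map fun a => (u : ZMod 110) * a).map (jj h)

lemma isTate_110 (h : 110 ∣ m) : IsTate (quad h [7, 34, 38, 57, 87, 107]) :=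
  isTate_quad h _ (by decide) (by decide) (by decide)

lemma spor_eq (h : 110 ∣ m) (s : (ZMod m)ˣ) :
    spor h (ZMod.unitsMap h s) = (quad h [7, 34, 38, 57, 87, 107]).map fun a => (s : ZMod m) * a := by
  unfold spor quad
  rw [Multiset.map_map, Multiset.map_map]
  apply Multiset.map_congr rfl
  intro a _
  show jj h (((ZMod.unitsMap h s : (ZMod 110)ˣ) : ZMod 110) * a) = (s : ZMod m) * jj h a
  rw [jj_mul, ZMod.unitsMap_val]
  rfl

lemma oddPart_map_unit (s : (ZMod m)ˣ) (r : Multiset (ZMod m)) :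
    oddPart (r.map fun a => (s : ZMod m) * a)
      = fun a => oddPart r (((s⁻¹ : (ZMod m)ˣ) : ZMod m) * a) := by
  funext a
  have hinj : Function.Injective (fun a : ZMod m => (s : ZMod m) * a) :=
    fun x y h => by simpa using h
  have key : ∀ a, (r.map fun a => (s : ZMod m) * a).count a
      = r.count (((s⁻¹ : (ZMod m)ˣ) : ZMod m) * a) := by
    intro a
    conv_lhs => rw [← Units.mul_inv_cancel_left s a]
    exact Multiset.count_map_eq_count' _ _ hinj _
  unfold oddPart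
  rw [key, key, mul_neg]

lemma order_ten {y : ZMod 10} (h2 : ¬ (2 : ℕ) • y = 0) (h5 : ¬ (5 : ℕ) • y = 0) :
    ∃ s : (ZMod 10)ˣ, y = s * 7 := by
  have h : y = 1 ∨ y = 3 ∨ y = 7 ∨ y = 9 := by
    revert y; decide
  rcases h with rfl | rfl | rfl | rfl
  · exact ⟨⟨3, 7, by decide, by decide⟩, by decide⟩
  · exact ⟨⟨9, 9, by decide, by decide⟩, by decide⟩
  · exact ⟨1, by decide⟩
  · exact ⟨⟨7, 3, by decide, by decide⟩, by decide⟩

theorem ref_ten (hD : Dat m Q n q) [NeZero n] {K : ℕ} (hQ : Q = q ^ K) (h10 : 10 ∣ n)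
    (hq : q = 11) (h110 : 110 ∣ m) {b : ZMod n} (hb : addOrderOf b = 10) :
    ∃ u : (ZMod 110)ˣ, Ref hD K ⊤ b 0 (oddPart (spor h110 u)) := by
  have hK := K_ne_zero hD hQ
  subst hq
  have hbase : Ref hD K ⊤ (jj h10 7) 0 (oddPart (quad h110 [7, 34, 38, 57, 87, 107])) :=
    ref_of_list hD hK hQ (f := 110) (d := 10) (by norm_num) h110 h10
      (by norm_num) [7, 34, 38, 57, 87, 107] (isTate_110 h110) (AddSubgroup.mem_top _) 7
      (by decide +kernel) 0 (by decide +kernel) (by decide +kernel)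
  obtain ⟨y, hy⟩ := exists_of_smul h10 (a := b) (by
    apply addOrderOf_dvd_iff_nsmul_eq_zero.mp
    rw [hb])
  have key : ∀ k : ℕ, ¬ 10 ∣ k → ¬ k • y = 0 := by
    intro k hk h2
    have h4 : k • b = 0 := by rw [← hy, ← map_nsmul, h2, map_zero]
    have := addOrderOf_dvd_of_nsmul_eq_zero h4
    rw [hb] at this
    exact hk this
  obtain ⟨s10, hs10⟩ := order_ten (key 2 (by norm_num)) (key 5 (by norm_num))
  have h10m : 10 ∣ m := h10.trans hD.nm
  obtain ⟨s, hs⟩ := ZMod.unitsMap_surjective h10m s10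
  refine ⟨ZMod.unitsMap h110 s, ?_⟩
  rw [spor_eq, oddPart_map_unit]
  have h1 := hbase.smul s
  convert h1 using 1
  rw [← hy, hs10, ← hs]
  have e1 : jj h10 (((ZMod.unitsMap h10m s : (ZMod 10)ˣ) : ZMod 10) * 7)
      = ((ZMod.unitsMap hD.nm s : (ZMod n)ˣ) : ZMod n) * jj h10 7 := by
    rw [jj_mul]
    congr 1
    rw [ZMod.unitsMap_val, ZMod.unitsMap_val]
    congr 1
    have e2 : (ZMod.castHom h10m (ZMod 10))
        = (ZMod.castHom h10 (ZMod 10)).comp (ZMod.castHom hD.nm (ZMod n)) := RingHom.ext_zmod _ _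
    exact DFunLike.congr_fun e2 (s : ZMod m)
  exact e1

end Pool.Agent.Lib.MP_938ce2_ag_H7f
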