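import Pool.Agent.Lib.MP_938ce2_ag_H7f.Reduce
import Pool.Agent.Lib.MP_938ce2_ag_H7f.RefTen

/-!
Tate characters of Fermat fourfolds.
-/

set_option autoImplicit false
set_option linter.style.haveILetI false
set_option linter.unusedSectionVars false

open Finset

namespace Pool.Agent.Lib.MP_938ce2_ag_H7f

open Pool.Agent.Lib.MP_938ce2_ag_h99 Pool.Agent.Lib.MP_938ce2_ag_H7e Pool.Agent.Lib.MP_938ce2_ag_h6

variable {m : ℕ} [NeZero m]

lemma refThree (h12 : 12 ∣ m) : RefThree m (XF m) := by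
  intro q Q n K hD _ hQ h11 h19 b hb
  have h12n : 12 ∣ n := twelve_dvd hD h11 (coprime_small hD.hq h11) h12
  have h1 := prime_cases hD.hq h11 (by omega)
  exact ref_three hD hQ h12n (by omega) hb

lemma refFour (h12 : 12 ∣ m) : RefFour m (XF m) := by
  intro q Q n K hD _ hQ h11 h13 b hb
  have h12n : 12 ∣ n := twelve_dvd hD h11 (coprime_small hD.hq h11) h12
  have h1 := prime_cases hD.hq h11 (by omega)
  exact ref_four hD hQ h12n (by omega) hb

/-- odd parts of the sporadic characters -/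
def ESpor (m : ℕ) [NeZero m] (A : ZMod m → ℤ) : Prop :=
  ∃ (h : 110 ∣ m) (u : (ZMod 110)ˣ), A = oddPart (spor h u)

lemma refTen (h10 : 10 ∣ m) : RefTen m (ESpor m) := by
  intro Q n K hD _ hQ b hb
  have h10n : 10 ∣ n := hb ▸ addOrderOf_dvd_m b
  have h110 : 110 ∣ m := by
    rw [hD.hm]
    exact mul_dvd_mul hD.qQ h10n
  obtain ⟨u, hu⟩ := ref_ten hD hQ h10n rfl h110 hb
  exact ⟨_, ⟨h110, u, rfl⟩, hu⟩

lemma IsTate.map_unit {r : Multiset (ZMod m)} (h : IsTate r) (s : (ZMod m)ˣ) :
    IsTate (r.map fun a => (s : ZMod m) * a) := by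
  obtain ⟨h0, h1, h2⟩ := h
  refine ⟨?_, ?_, ?_⟩
  · intro h
    obtain ⟨a, ha, ha0⟩ := Multiset.mem_map.mp h
    have : a = 0 := (Units.mul_right_eq_zero s).mp ha0
    exact h0 (this ▸ ha)
  · rw [Multiset.sum_map_mul_left, Multiset.map_id', h1, mul_zero]
  · intro t
    rw [Multiset.map_map, Multiset.card_map]
    have h3 := h2 (t * s)
    rw [← h3]
    congr 3
    funext a
    simp only [Function.comp_apply, Units.val_mul]
    rw [mul_assoc]

lemma isTate_spor (h : 110 ∣ m) (u : (ZMod 110)ˣ) : IsTate (spor h u) := by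
  obtain ⟨s, rfl⟩ := ZMod.unitsMap_surjective h u
  rw [spor_eq]
  exact IsTate.map_unit (isTate_110 h) s

lemma spor_neg (h : 110 ∣ m) (u : (ZMod 110)ˣ) : (spor h u).map (fun a => -a) = spor h (-u) := by
  unfold spor
  rw [Multiset.map_map, Multiset.map_map, Multiset.map_map]
  apply Multiset.map_congr rfl
  intro a _
  simp only [Function.comp_apply, Units.val_neg, neg_mul, map_neg]

/-- Characters of Fermat fourfolds. -/
theorem fourfold (hbase : Base) (hm : m ∣ 420 * m) {s : Multiset (ZMod m)} (hs : IsTate s)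
    (h6 : s.card ≤ 6) :
    haveI : NeZero (420 * m) := ⟨mul_ne_zero (by norm_num) (NeZero.ne m)⟩
    IsAlgG Fano (s.map (jj hm)) ∨
      (110 ∣ m ∧ ∃ (h : 110 ∣ 420 * m) (u : (ZMod 110)ˣ), IsAlgG Fano (s.map (jj hm) + spor h u)) := by
  haveI : NeZero (420 * m) := ⟨mul_ne_zero (by norm_num) (NeZero.ne m)⟩
  set s' := s.map (jj hm) with hs'
  have hT := hs.lift hm
  have h420 : 420 ∣ 420 * m := Dvd.intro _ rfl
  have hl1 := l1_le s'
  have hcard : s'.card = s.card := Multiset.card_map _ _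
  have h6' : (s'.card : ℤ) ≤ 6 := by rw [hcard]; exact_mod_cast h6
  have hmain := main_fun (m := 420 * m) hbase h420
    (refThree ((by norm_num : 12 ∣ 420).trans h420)) (refFour ((by norm_num : 12 ∣ 420).trans h420))
    (refTen ((by norm_num : 10 ∣ 420).trans h420)) (F := oddPart s') (oddPart_odd s')
    (isTate_iff.mp hT).2.2 (by linarith) (m0 := m) (by
      intro a ha
      by_cases h : ∃ y, jj hm y = a
      · obtain ⟨y, rfl⟩ := h
        exact order_jj_dvd hm y
      · push Not at h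
        exact absurd (oddPart_lift_of_forall_ne hm s h) ha)
  have hG : ∀ r : Multiset (ZMod (420 * m)), Fano r → Fano (r.map fun x => -x) :=
    fun r hr => hr.neg
  rcases hmain with h | ⟨h110, A, ⟨h, u, rfl⟩, hA⟩
  · left
    exact isAlgG_of_mem hG hT h
  · right
    refine ⟨h110, h, -u, ?_⟩
    apply isAlgG_of_mem hG (hT.add (isTate_spor h (-u)))
    rw [oddPart_add, ← spor_neg, oddPart_neg, ← sub_eq_add_neg]
    exact hA

end Pool.Agent.Lib.MP_938ce2_ag_H7f
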