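import Mathlib
import Pool.Agent.Lib.MP_938ce2_ag_H7f.Assembly
import Pool.Agent.Lib.MP_938ce2_ag_h85c.Base420
import Pool.Agent.Lib.MP_938ce2_ag_h6.Frobenius

/-!
# Tate classes on Fermat fourfolds

The primitive cohomology `H^4` of the Fermat fourfold of degree `m` is the direct sum of lines
`V(s)`, where `s` runs over the families of six nonzero residues modulo `m` with sum zero.  By Weil
the Frobenius at a prime of `ℚ(μ_m)` of degree one above `p` acts on `V(s)`, up to sign, as
`p⁻¹ ∏ g(χ ^ a, ψ)`, where `χ` is a character of order `m` modulo `p`; so `V(s)(2)` consists of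
Tate classes iff `IsTate s`.  `IsAlg` collects the characters whose lines are spanned by algebraic
classes by geometric constructions.  The pull-back of `V(s)` to the Fermat fourfold of degree `k m`
is `V(lift s)`.
-/

set_option autoImplicit false

open Finset

namespace Pool.Agent.Results.MP_938ce2_ag.FermatFourfolds

/-- The Tate condition, in terms of Frobenius eigenvalues: some power of
`∏ g(χ ^ a, ψ) / p ^ (l / 2)`, the product over the `l` elements `a` of `s`, is one, for all `p`,
`χ`, `ψ`. -/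
def IsTate {m : ℕ} (s : Multiset (ZMod m)) : Prop :=
  (0 : ZMod m) ∉ s ∧ s.sum = 0 ∧
    ∀ (p : ℕ) [Fact p.Prime] (χ : MulChar (ZMod p) ℂ) (ψ : AddChar (ZMod p) ℂ),
      orderOf χ = m → ψ ≠ 1 → ∃ k, 0 < k ∧
        (s.map fun a => gaussSum (χ ^ a.val) ψ).prod ^ (2 * k) = (p : ℂ) ^ (s.card * k)

/-- `s` is a character of a product of `k ≤ 2` Fermat varieties of total dimension four, one for
each zero-sum block, whose quotient by the kernel of `s` is dominated by the Delsarte complete
intersection `∑_{g i = b} ∏_j X_j ^ μ j i = 0` (`b < k`) in the weighted projective space with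
weights `c`, of degrees `d b` with `∑ d b < ∑ c j`; so this quotient is a uniruled fourfold. -/
def Fano {m : ℕ} (s : Multiset (ZMod m)) : Prop :=
  ∃ (k : ℕ) (a : Fin (2 * k + 4) → ZMod m) (g : Fin (2 * k + 4) → Fin k)
    (μ : Fin (k + 5) → Fin (2 * k + 4) → ℕ) (c : Fin (k + 5) → ℕ) (d : Fin k → ℕ),
    k ≤ 2 ∧ s = univ.val.map a ∧ Function.Surjective g ∧ (∀ b, ∑ i with g i = b, a i = 0) ∧
    (∀ j, ∑ i, μ j i * a i = 0) ∧ (∀ j, 0 < c j) ∧ (∀ i, ∑ j, c j * μ j i = d (g i)) ∧
    ∑ b, d b < ∑ j, c j ∧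
    ∀ u : Fin (k + 5) → ℤ, (∀ i i', g i = g i' → ∑ j, u j * μ j i = ∑ j, u j * μ j i') →
      ∀ j j', c j * u j' = c j' * u j

/-- Characters of algebraic cycles: `low`, cycles on Fermat surfaces (and curves, points); `aoki`,
the cycles of Aoki attached to an odd prime `p` dividing `m`; `fano`, uniruled fourfolds; `join`
and `cut`, the inductive structure of Shioda and Katsura. -/
inductive IsAlg {m : ℕ} [NeZero m] : Multiset (ZMod m) → Prop
  | low (s : Multiset (ZMod m)) : IsTate s → s.card ≤ 4 → IsAlg s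
  | fano (s : Multiset (ZMod m)) : IsTate s → Fano s → IsAlg s
  | aoki (p : ℕ) (a : ZMod m) : p.Prime → p ≠ 2 → p ∣ m → (p : ZMod m) * a ≠ 0 →
      IsAlg ((univ.filter fun x : ZMod m => (p : ZMod m) * x = (p : ZMod m) * a).val
        + {-((p : ZMod m) * a)})
  | join (s t : Multiset (ZMod m)) : IsAlg s → IsAlg t → IsAlg (s + t)
  | cut (s : Multiset (ZMod m)) (b : ZMod m) : b ≠ 0 → IsAlg (s + {b, -b}) → IsAlg s

/-- The character of degree `M` obtained from one of degree `m`, for `m ∣ M`. -/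
def lift (M : ℕ) {m : ℕ} (s : Multiset (ZMod m)) : Multiset (ZMod M) :=
  s.map fun a => ((M / m * a.val : ℕ) : ZMod M)

/-- The characters of degree `110` in the orbit of `(7, 34, 38, 57, 87, 107)` under the units. -/
def spor (u : (ZMod 110)ˣ) : Multiset (ZMod 110) :=
  ({7, 34, 38, 57, 87, 107} : Multiset (ZMod 110)).map fun a => (u : ZMod 110) * a

open Pool.Agent.Lib

lemma isTate_iff {m : ℕ} [NeZero m] (s : Multiset (ZMod m)) :
    IsTate s ↔ MP_938ce2_ag_h6.IsTate s :=
  MP_938ce2_ag_h6.Frob.frobTate_iff s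

lemma toAlg {m : ℕ} [NeZero m] {s : Multiset (ZMod m)}
    (h : MP_938ce2_ag_h99.IsAlgG MP_938ce2_ag_h99.Fano s) : IsAlg s := by
  induction h with
  | low s h1 h2 => exact IsAlg.low s ((isTate_iff s).mpr h1) h2
  | base s h1 h2 => exact IsAlg.fano s ((isTate_iff s).mpr h1) h2
  | aoki p a h1 h2 h3 h4 => exact IsAlg.aoki p a h1 h2 h3 h4
  | join s t _ _ h1 h2 => exact IsAlg.join s t h1 h2
  | cut s b h1 _ h2 => exact IsAlg.cut s b h1 h2

lemma lift_eq {m M : ℕ} [NeZero m] (h : m ∣ M) (s : Multiset (ZMod m)) :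
    lift M s = s.map (MP_938ce2_ag_h99.jj h) := by
  unfold lift
  apply Multiset.map_congr rfl
  intro a _
  rw [← MP_938ce2_ag_h99.jj_natCast h, ZMod.natCast_zmod_val]

lemma lift_spor {M : ℕ} [NeZero M] (h : 110 ∣ M) (u : (ZMod 110)ˣ) :
    lift M (spor u) = MP_938ce2_ag_H7f.spor h u := by
  rw [lift_eq h]
  unfold MP_938ce2_ag_H7f.spor
  congr 1

instance {m : ℕ} [NeZero m] : NeZero (420 * m) := ⟨mul_ne_zero (by norm_num) (NeZero.ne m)⟩

lemma base : MP_938ce2_ag_H7f.Base := fun _ _ h1 h2 G h3 h4 h5 =>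
  MP_938ce2_ag_h85c.base420 h1 h2 G h3 h4 h5

/-- All Tate characters of the Fermat fourfold of degree `m` are algebraic if `110` does not divide
`m`; otherwise this holds up to characters in the orbit of `(7, 34, 38, 57, 87, 107)` modulo `110`. -/
theorem result (m : ℕ) [NeZero m] (s : Multiset (ZMod m))
    (hs : IsTate s) (h6 : s.card ≤ 6) :
    IsAlg (lift (420 * m) s) ∨ 110 ∣ m ∧ ∃ u : (ZMod 110)ˣ, IsAlg (lift (420 * m) s +
      lift (420 * m) (spor u)) := by
  have hm : m ∣ 420 * m := Dvd.intro_left _ rfl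
  rcases MP_938ce2_ag_H7f.fourfold base hm ((isTate_iff s).mp hs) h6 with h | ⟨h110, h, u, hu⟩
  · left
    rw [lift_eq hm]
    exact toAlg h
  · right
    refine ⟨h110, u, ?_⟩
    rw [lift_eq hm, lift_spor h]
    exact toAlg hu

end Pool.Agent.Results.MP_938ce2_ag.FermatFourfolds
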