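import Mathlib
import Pool.Agent.Lib.MP_938ce2_ag_H7e.Explicit
import Pool.Agent.Lib.MP_938ce2_ag_h6.FrobeniusCircle

/-!
# Tate classes on Fermat varieties: one explicit degree in each dimension

The primitive cohomology `H^n` of the Fermat variety `X` of degree `m` and even dimension `n` is the
direct sum of lines `V(a)`, where `a` runs over the families of `N = n + 2` nonzero residues modulo
`m` with sum zero.  By Weil the Frobenius at a prime of `ℚ(μ_m)` of degree one above `p` acts on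
`V(a)`, up to sign, as `p⁻¹ ∏ g(χ ^ a_i, ψ)`, where `χ` is a character of order `m` modulo `p`.
So `V(a)(n / 2)` consists of Tate classes iff `∏ g(χ ^ a_i, ψ) / p ^ (N / 2)` is a root of unity for
all these `p`: this is `IsTate a`.

The standard relations `Std` are realised by linear subspaces and by the cycles of Shioda and Aoki.
-/

set_option autoImplicit false

open Finset

namespace Pool.Agent.Results.MP_938ce2_ag.FermatOneDegree

/-- The Tate condition, in terms of Frobenius eigenvalues: some power of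
`∏ g(χ ^ a_i, ψ) / p ^ (N / 2)` is one, for all `p`, `χ`, `ψ`. -/
def IsTate {m N : ℕ} (a : Fin N → ZMod m) : Prop :=
  (∀ i, a i ≠ 0) ∧ ∑ i, a i = 0 ∧
    ∀ (p : ℕ) [Fact p.Prime] (χ : MulChar (ZMod p) ℂ) (ψ : AddChar (ZMod p) ℂ),
      orderOf χ = m → ψ ≠ 1 →
        ∃ k, 0 < k ∧ (∏ i, gaussSum (χ ^ (a i).val) ψ) ^ (2 * k) = (p : ℂ) ^ (N * k)

/-- The formal sum of the elements `a_i / m` of `ℚ / ℤ`. -/
noncomputable def fs {m N : ℕ} [NeZero m] (a : Fin N → ZMod m) : UnitAddCircle →₀ ℤ :=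
  ∑ i, Finsupp.single (ZMod.toAddCircle (a i)) 1

/-- The point `1 / s` of `ℝ / ℤ`. -/
noncomputable def pt (s : ℕ) : UnitAddCircle := ((1 / (s : ℝ) : ℝ) : UnitAddCircle)

/-- The standard relations. -/
def stdGen : Set (UnitAddCircle →₀ ℤ) :=
  {w | (∃ x : UnitAddCircle, IsOfFinAddOrder x ∧ x ≠ 0 ∧
        w = Finsupp.single x 1 + Finsupp.single (-x) 1) ∨
    (∃ (p : ℕ) (x : UnitAddCircle), p.Prime ∧ p ≠ 2 ∧ IsOfFinAddOrder x ∧ p • x ≠ 0 ∧
        w = ∑ j ∈ range p, Finsupp.single (x + j • pt p) 1 + Finsupp.single (-(p • x)) 1) ∨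
    (∃ x : UnitAddCircle, IsOfFinAddOrder x ∧ 2 • x ≠ 0 ∧
        w = Finsupp.single x 1 + Finsupp.single (x + pt 2) 1 + Finsupp.single (-(2 • x)) 1 +
          Finsupp.single (pt 2) 1)}

/-- The group generated by the standard relations. -/
noncomputable def Std : AddSubgroup (UnitAddCircle →₀ ℤ) := AddSubgroup.closure stdGen

/-- The degree: the product of the `p ^ (N * log_p (12 N))` over the primes `p ≤ 6 N + 1`. -/
def M (N : ℕ) : ℕ :=
  ∏ p ∈ (range (6 * N + 2)).filter Nat.Prime, p ^ (N * Nat.log p (12 * N))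

instance (N : ℕ) : NeZero (M N) := ⟨(Pool.Agent.Lib.MP_938ce2_ag_H7e.MM_pos N).ne'⟩

open Pool.Agent.Lib

lemma isTate_iff {m N : ℕ} [NeZero m] (hN : Even N) (a : Fin N → ZMod m) :
    IsTate a ↔ MP_938ce2_ag_H7.IsTate (fun i => ZMod.toAddCircle (a i)) := by
  rw [MP_938ce2_ag_h6.Frob.isTate_toAddCircle_iff (by simpa using hN)]
  unfold IsTate MP_938ce2_ag_h6.Frob.FrobTate
  have h1 : (∀ i, a i ≠ 0) ↔ (0 : ZMod m) ∉ univ.val.map a := by
    simp
  have h2 : (univ.val.map a).sum = ∑ i, a i := rfl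
  have h3 : (univ.val.map a).card = N := by simp
  rw [h1, h2, h3]
  simp_rw [Multiset.map_map]
  rfl

lemma fs_eq {m N : ℕ} [NeZero m] (a : Fin N → ZMod m) :
    fs a = MP_938ce2_ag_H7.fs (fun i => ZMod.toAddCircle (a i)) := rfl

lemma std_eq : Std = MP_938ce2_ag_H7.Std := rfl

lemma lift_family {N : ℕ} (b : Fin N → UnitAddCircle) {m : ℕ} [NeZero m] (h : ∀ i, m • b i = 0) :
    ∃ c : Fin N → ZMod m, (fun i => ZMod.toAddCircle (c i)) = b := by
  choose c hc using fun i => MP_938ce2_ag_h6.Frob.exists_toAddCircle (h i)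
  exact ⟨c, funext hc⟩

/-- Let `N` be even and `M = ∏ p ^ (N * log_p (12 N))`, over the primes `p ≤ 6 N + 1`.  Every Tate
family `a` of length `N`, modulo any `m`, agrees modulo the standard relations with a Tate family
`b` of length `N` modulo `M`, which is obtained from `a` by replacing some of its members by
`1 / 2`. -/
theorem result (N : ℕ) (hN : Even N) (m : ℕ) [NeZero m] (a : Fin N → ZMod m) (ha : IsTate a) :
    ∃ b : Fin N → ZMod (M N), IsTate b ∧ fs a - fs b ∈ Std ∧
      ∀ i, ZMod.toAddCircle (b i) = ZMod.toAddCircle (a i) ∨ ZMod.toAddCircle (b i) = pt 2 := by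
  obtain ⟨b, hb, hM, hab, hmem⟩ :=
    MP_938ce2_ag_H7e.explicit_degree N hN _ ((isTate_iff hN a).mp ha)
  obtain ⟨c, rfl⟩ := lift_family b (m := M N) hM
  exact ⟨c, (isTate_iff hN c).mpr hb, hmem, hab⟩

end Pool.Agent.Results.MP_938ce2_ag.FermatOneDegree
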