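import Pool.Agent.Lib.MP_938ce2_ag_H7f.Pull

/-!
The integral class `g` at the level prime to `q`.
-/

set_option autoImplicit false
set_option linter.style.haveILetI false
set_option linter.unusedSectionVars false

open Finset

namespace Pool.Agent.Lib.MP_938ce2_ag_H7f

open Pool.Agent.Lib.MP_938ce2_ag_h99 Pool.Agent.Lib.MP_938ce2_ag_H7e

/-- the even part of `g` is a relation -/
def EvRel {n : ℕ} [NeZero n] (g : ZMod n → ℤ) : Prop :=
  ∃ (r : ℕ) (_ : NeZero r) (e : ZMod r → ℤ), n < r ∧ Aux n r e ∧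
    TateF (sharp n r e (fun a => g a + g (-a)))

variable {m Q n q : ℕ} [NeZero m]

lemma relN_reflect {d : ZMod m → ℤ} (hd : d ∈ relN m n) : (fun a => d (-a)) ∈ relN m n := by
  unfold relN at hd
  induction hd using AddSubgroup.closure_induction with
  | mem x hx =>
    obtain ⟨p, g, hp, hpn, hs, rfl⟩ := hx
    apply AddSubgroup.subset_closure
    refine ⟨p, fun a => g (-a), hp, hpn, ?_, ?_⟩
    · intro a ha
      obtain ⟨b, hb⟩ := hs _ ha
      exact ⟨-b, by rw [mul_neg, ← hb, neg_neg]⟩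
    · funext a
      unfold rel
      rw [mul_neg]
  | zero => exact (relN m n).zero_mem
  | add x y _ _ hx hy => exact (relN m n).add_mem hx hy
  | neg x _ hx => exact (relN m n).neg_mem hx

lemma sharp_relN {r : ℕ} [NeZero r] {e : ZMod r → ℤ} (he : Aux n r e) (hnm : n ∣ m)
    {d : ZMod m → ℤ} (hd : d ∈ relN m n) : sharp m r e d ∈ relN (m * r) (n * r) := by
  unfold relN at hd
  induction hd using AddSubgroup.closure_induction with
  | mem x hx =>
    obtain ⟨p, g, hp, hpn, hs, rfl⟩ := hx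
    rw [sharp_rel he hp hpn]
    apply AddSubgroup.subset_closure
    exact ⟨p, sharp m r e g, hp, hpn.trans (Dvd.intro _ rfl), sharp_supp (hpn.trans hnm) hs, rfl⟩
  | zero =>
    rw [show ((0 : ZMod m → ℤ)) = 0 from rfl, sharp_zero]
    exact (relN (m * r) (n * r)).zero_mem
  | add x y _ _ hx hy =>
    rw [sharp_add]
    exact (relN (m * r) (n * r)).add_mem hx hy
  | neg x _ hx =>
    rw [sharp_neg]
    exact (relN (m * r) (n * r)).neg_mem hx

lemma Dat.mulr (hD : Dat m Q n q) {r : ℕ} (hr0 : r ≠ 0) (hrm : Nat.Coprime r m) :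
    Dat (m * r) Q (n * r) q where
  hm := by rw [hD.hm, mul_assoc]
  hq := hD.hq
  hQ := hD.hQ
  hcop := Nat.Coprime.mul_right hD.hcop (Nat.Coprime.coprime_dvd_right hD.Qm hrm).symm
  hn := mul_ne_zero hD.hn hr0

/-- push-forward commutes with the transfer -/
lemma push_sharp (hD : Dat m Q n q) [NeZero n] {r : ℕ} [NeZero r] {e : ZMod r → ℤ}
    (hD' : Dat (m * r) Q (n * r) q) (H : ZMod m → ℤ) :
    push hD' (sharp m r e H) = sharp n r e (push hD H) := by
  funext z
  haveI : NeZero Q := ⟨hD.Qpos.ne'⟩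
  unfold push sharp
  rw [sum_mul]
  have hnr : n ∣ n * r := Dvd.intro _ rfl
  have hrr : r ∣ n * r := Dvd.intro_left _ rfl
  have hmm : m ∣ m * r := Dvd.intro _ rfl
  have hrm : r ∣ m * r := Dvd.intro_left _ rfl
  refine sum_congr rfl fun x _ => ?_
  set a := hD'.crt.symm (x, z) with ha
  have h1 : hD'.crt a = (x, z) := by rw [ha, RingEquiv.apply_symm_apply]
  -- the two ring homs to ZMod Q and to ZMod n
  have h2 : hD.crt (ZMod.castHom hmm (ZMod m) a) = (x, ZMod.castHom hnr (ZMod n) z) := by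
    have e1 : (hD.crt : ZMod m →+* ZMod Q × ZMod n).comp (ZMod.castHom hmm (ZMod m))
        = ((RingHom.fst (ZMod Q) (ZMod (n * r))).prod
          ((ZMod.castHom hnr (ZMod n)).comp (RingHom.snd (ZMod Q) (ZMod (n * r))))).comp
          (hD'.crt : ZMod (m * r) →+* ZMod Q × ZMod (n * r)) := RingHom.ext_zmod _ _
    have e2 := DFunLike.congr_fun e1 a
    simp only [RingHom.comp_apply, RingHom.prod_apply, RingHom.coe_fst, RingHom.coe_snd] at e2
    have e3 : (hD'.crt : ZMod (m * r) →+* ZMod Q × ZMod (n * r)) a = (x, z) := h1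
    rw [e3] at e2
    exact e2
  have h3 : ZMod.castHom hmm (ZMod m) a = hD.crt.symm (x, ZMod.castHom hnr (ZMod n) z) := by
    rw [← h2, RingEquiv.symm_apply_apply]
  have h4 : ZMod.castHom hrm (ZMod r) a = ZMod.castHom hrr (ZMod r) z := by
    have e1 : ZMod.castHom hrm (ZMod r) = ((ZMod.castHom hrr (ZMod r)).comp
        (RingHom.snd (ZMod Q) (ZMod (n * r)))).comp
          (hD'.crt : ZMod (m * r) →+* ZMod Q × ZMod (n * r)) := RingHom.ext_zmod _ _
    have e2 := DFunLike.congr_fun e1 a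
    simp only [RingHom.comp_apply, RingHom.coe_snd] at e2
    have e3 : (hD'.crt : ZMod (m * r) →+* ZMod Q × ZMod (n * r)) a = (x, z) := h1
    rw [e3] at e2
    exact e2
  rw [h3, h4]

lemma PH_smul [NeZero n] (c : ℤ) (g : ZMod n → ℤ) (t : (ZMod n)ˣ) :
    PH (fun y => c * g y) t = c * PH g t := by
  unfold PH
  rw [mul_sum]
  refine sum_congr rfl fun a _ => by ring

/-- The class `g` of the part of `F` of order divisible by `q`. -/
theorem core (hD : Dat m Q n q) [NeZero n] {K : ℕ} (hQ : Q = q ^ K) {F0 F1 : ZMod m → ℤ}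
    (ho : OddF F1) (hT : TateF (F0 + F1)) (hs0 : ∀ a, F0 a ≠ 0 → addOrderOf a ∣ n)
    (hs1 : ∀ a, F1 a ≠ 0 → q ∣ addOrderOf a) :
    SInv Q (upF Q q K F1) ∧ ∃ g : ZMod n → ℤ, EvRel g ∧
      (∀ t : (ZMod n)ˣ, PH (push hD (upF Q q K F1)) t = Q.totient * PH g t) ∧
      (F0 = 0 → ∀ s t : (ZMod n)ˣ, (s : ZMod n) = q → PH g (s * t) = PH g t) := by
  set F := upF Q q K F1 with hF
  have hodd : OddF F := upF_odd ho
  have hsupp : ∀ a, F a ≠ 0 → Q ∣ addOrderOf a := upF_supp
  have hmem : F - F1 ∈ relSub m := upF_sub_mem hD hQ ho hs1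
  have hSF : ∀ t, SS F t = - SS F0 t := by
    intro t
    have h1 : SS (F - F1) t = 0 := TateF_of_mem_relSub hmem t
    have h2 : SS (F0 + F1) t = 0 := hT t
    have h3 := SS_add (F - F1) F1 t
    rw [sub_add_cancel, h1, zero_add] at h3
    rw [SS_add] at h2
    linarith
  have hS : SInv Q F := by
    intro u hu t
    rw [hSF, hSF, SS_fix (m' := n) hD.hm hD.hn hs0 u hu t]
  refine ⟨hS, ?_⟩
  obtain ⟨r, e, hrb, he⟩ := exists_aux n hD.hn m
  haveI : NeZero r := ⟨he.hr.ne_zero⟩
  have hrm : Nat.Coprime r m := by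
    apply Nat.Coprime.symm
    rw [Nat.coprime_comm, Nat.Prime.coprime_iff_not_dvd he.hr]
    intro h
    have := Nat.le_of_dvd (Nat.pos_of_ne_zero (NeZero.ne m)) h
    omega
  obtain ⟨E, hE1, hE2, hE3⟩ := tail_aux hD he hrm m F (TP.of_sinv hodd hS) hsupp
    (fun a _ => Nat.le_of_dvd (Nat.pos_of_ne_zero (NeZero.ne m)) (addOrderOf_dvd_m a))
  set g : ZMod n → ℤ := fun y => E (hD.crt.symm (1, y)) with hg
  have hpushE : push hD E = fun y => (Q.totient : ℤ) * g y := push_inv hD hE1 hE2
  have hφ : (0 : ℤ) < Q.totient := by exact_mod_cast Nat.totient_pos.mpr hD.Qpos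
  refine ⟨g, ⟨r, inferInstance, e, ?_, he, ?_⟩, ?_, ?_⟩
  · exact lt_of_le_of_lt (Nat.le_of_dvd (Nat.pos_of_ne_zero (NeZero.ne m)) hD.nm) hrb
  · -- the even part
    have hD' : Dat (m * r) Q (n * r) q := Dat.mulr hD he.hr.ne_zero hrm
    set H : ZMod m → ℤ := fun a => E a + E (-a) with hH
    have hHrel : H ∈ relN m n := by
      have h1 := (relN m n).neg_mem ((relN m n).add_mem hE3 (relN_reflect hE3))
      convert h1 using 1
      funext a
      simp only [hH, Pi.neg_apply, Pi.add_apply, Pi.sub_apply]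
      rw [hodd a]
      ring
    have hHinv : GInv Q H := by
      intro u hu a
      simp only [hH]
      rw [hE1 u hu, ← mul_neg, hE1 u hu]
    have hHsupp : ∀ a, H a ≠ 0 → Q ∣ addOrderOf a := by
      intro a ha
      by_cases h1 : E a = 0
      · by_cases h2 : E (-a) = 0
        · exact absurd (by simp only [hH]; rw [h1, h2, add_zero]) ha
        · have := hE2 _ h2
          rwa [addOrderOf_neg] at this
      · exact hE2 a h1
    have hpushH : push hD H = fun y => (Q.totient : ℤ) * (g y + g (-y)) := by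
      rw [push_inv hD hHinv hHsupp]
      funext y
      simp only [hH, hg]
      congr 2
      have h1 : -(hD.crt.symm (1, y)) = (((Units.map (hD.crt.symm : ZMod Q × ZMod n →* ZMod m)
          (MulEquiv.prodUnits.symm (-1, 1)) : (ZMod m)ˣ) : ZMod m)) * hD.crt.symm (1, -y) := by
        have h3 : ((Units.map (hD.crt.symm : ZMod Q × ZMod n →* ZMod m)
          (MulEquiv.prodUnits.symm (-1, 1)) : (ZMod m)ˣ) : ZMod m)
            = hD.crt.symm (-1, 1) := rfl
        rw [h3, ← map_mul, Prod.mk_mul_mk, ← map_neg]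
        simp
      rw [h1, hE1 _ (crt_unit_mem hD (-1))]
    have h1 : ∀ t, PH (push hD' (sharp m r e H)) t = 0 :=
      PH_push_relN hD' (sharp_relN he hD.nm hHrel)
    rw [push_sharp hD hD', hpushH] at h1
    have h2 : sharp n r e (fun y => (Q.totient : ℤ) * (g y + g (-y)))
        = fun y => (Q.totient : ℤ) * sharp n r e (fun y => g y + g (-y)) y := by
      funext y
      unfold sharp
      ring
    rw [h2] at h1
    have hev : OddF (sharp n r e (fun y => g y + g (-y))) := by
      apply sharp_odd he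
      intro a
      beta_reduce
      rw [neg_neg, add_comm]
    intro t
    have h3 := h1 t
    rw [PH_smul, PH_odd hev] at h3
    have h4 : SS (sharp n r e (fun y => g y + g (-y))) t = 0 := by
      rcases mul_eq_zero.mp h3 with h5 | h5
      · exact absurd h5 hφ.ne'
      · linarith
    exact h4
  · intro t
    have h1 := PH_push_relN hD hE3 t
    have h2 : push hD F = push hD (F - E) + push hD E := by
      rw [← push_add, sub_add_cancel]
    rw [h2, PH_add, h1, zero_add, hpushE, PH_smul]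
  · intro h0 s t hs
    refine PH_inv hD hE1 hE2 ?_ s t hs
    intro T
    have h1 : PH F T = 0 := by
      rw [PH_odd hodd, hSF, h0]
      unfold SS
      simp
    have h2 := PH_relN hD.nm hE3 T
    have h3 : F = (F - E) + E := by rw [sub_add_cancel]
    rw [h3, PH_add, h2, zero_add] at h1
    exact h1

end Pool.Agent.Lib.MP_938ce2_ag_H7f
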