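import Pool.Agent.Lib.MP_938ce2_ag_H7e.Push

/-!
Fibres of the multiplication by a prime on `ZMod n`, and the odd representative.
-/

set_option autoImplicit false
set_option linter.style.haveILetI false
set_option linter.unusedSectionVars false

open Finset

namespace Pool.Agent.Lib.MP_938ce2_ag_H7f

open Pool.Agent.Lib.MP_938ce2_ag_h99 Pool.Agent.Lib.MP_938ce2_ag_H7e

variable {n : ℕ} [NeZero n]

/-- the odd representative of `t * b` -/
def W (t : (ZMod n)ˣ) (b : ZMod n) : ℤ := if b = 0 then 0 else 2 * (((t : ZMod n) * b).val : ℤ) - n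

lemma PH_eq (h : ZMod n → ℤ) (t : (ZMod n)ˣ) : PH h t = ∑ a, h a * W t a := rfl

lemma W_unit_mul (t s : (ZMod n)ˣ) (b : ZMod n) : W t ((s : ZMod n) * b) = W (t * s) b := by
  unfold W
  by_cases hb : b = 0
  · rw [hb, mul_zero]
    simp
  · rw [if_neg hb, if_neg (fun h => hb ((Units.mul_right_eq_zero s).mp h)), Units.val_mul, mul_assoc]

/-- the fibre of the multiplication by `p` through `z` -/
def fib (p : ℕ) (z : ZMod n) : Finset (ZMod n) :=
  univ.filter fun b => (p : ZMod n) * b = (p : ZMod n) * z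

lemma mem_fib {p : ℕ} {z b : ZMod n} : b ∈ fib p z ↔ (p : ZMod n) * b = (p : ZMod n) * z := by
  unfold fib
  rw [mem_filter]
  simp

lemma self_mem_fib (p : ℕ) (z : ZMod n) : z ∈ fib p z := mem_fib.mpr rfl

lemma card_fib {p : ℕ} (hp : 0 < p) (hpn : p ∣ n) (z : ZMod n) : (fib p z).card = p := by
  refine Eq.trans ?_ (card_ker hp hpn)
  refine card_bij' (fun b _ => b - z) (fun b _ => b + z) ?_ ?_ ?_ ?_
  · intro b hb
    rw [mem_fib] at hb
    rw [mem_filter, mul_sub, hb, sub_self]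
    exact ⟨mem_univ _, rfl⟩
  · intro b hb
    rw [mem_filter] at hb
    rw [mem_fib, mul_add, hb.2, zero_add]
  · intro b _
    ring
  · intro b _
    ring

lemma sum_fib_W {p : ℕ} (hp : 0 < p) (hpn : p ∣ n) (t : (ZMod n)ˣ) (z : ZMod n) :
    ∑ b ∈ fib p z, W t b = W t ((p : ZMod n) * z) := by
  have h1 : ∀ b, W t b = 2 * (((t : ZMod n) * b).val : ℤ) - n + (if b = 0 then (n : ℤ) else 0) := by
    intro b
    unfold W
    by_cases hb : b = 0
    · rw [if_pos hb, if_pos hb, hb, mul_zero, ZMod.val_zero]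
      simp
    · rw [if_neg hb, if_neg hb, add_zero]
  have h2 : ∑ b ∈ fib p z, (((t : ZMod n) * b).val : ℤ)
      = ∑ b ∈ fib p ((t : ZMod n) * z), (b.val : ℤ) := by
    refine sum_bij' (fun b _ => (t : ZMod n) * b) (fun b _ => ((t⁻¹ : (ZMod n)ˣ) : ZMod n) * b)
      ?_ ?_ ?_ ?_ ?_
    · intro b hb
      rw [mem_fib] at hb ⊢
      linear_combination (t : ZMod n) * hb
    · intro b hb
      rw [mem_fib] at hb ⊢
      have h3 : ((t⁻¹ : (ZMod n)ˣ) : ZMod n) * (t : ZMod n) = 1 := by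
        rw [← Units.val_mul, inv_mul_cancel, Units.val_one]
      linear_combination ((t⁻¹ : (ZMod n)ˣ) : ZMod n) * hb + (p : ZMod n) * z * h3
    · intro b _
      rw [← mul_assoc, ← Units.val_mul, inv_mul_cancel, Units.val_one, one_mul]
    · intro b _
      rw [← mul_assoc, ← Units.val_mul, mul_inv_cancel, Units.val_one, one_mul]
    · intro b _
      rfl
  have h3 := fiber_val (m := n) hp hpn ((t : ZMod n) * z)
  have h4 : ∑ b ∈ fib p z, (if b = 0 then (n : ℤ) else 0)
      = if (p : ZMod n) * z = 0 then (n : ℤ) else 0 := by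
    rw [sum_ite_eq']
    by_cases h : (p : ZMod n) * z = 0
    · rw [if_pos h, if_pos (mem_fib.mpr (by rw [h, mul_zero]))]
    · rw [if_neg h, if_neg]
      intro h0
      rw [mem_fib, mul_zero] at h0
      exact h h0.symm
  simp_rw [h1]
  rw [sum_add_distrib, sum_sub_distrib, ← mul_sum, h2, h4, sum_const, card_fib hp hpn, nsmul_eq_mul]
  change 2 * ∑ b ∈ fib p ((t : ZMod n) * z), (b.val : ℤ) = _ at h3
  rw [h3]
  have h5 : (p : ZMod n) * ((t : ZMod n) * z) = (t : ZMod n) * ((p : ZMod n) * z) := by ring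
  rw [h5]
  ring

/-! ### orders in a fibre -/

lemma order_fib_A {p : ℕ} (hp : p.Prime) {z b : ZMod n} (hz : p * p ∣ addOrderOf z)
    (hb : b ∈ fib p z) : addOrderOf b = addOrderOf z := by
  rw [mem_fib] at hb
  obtain ⟨e, he⟩ := hz
  have hpz : p ∣ addOrderOf z := ⟨p * e, by rw [he, mul_assoc]⟩
  have h1 : addOrderOf ((p : ZMod n) * b) = p * e := by
    rw [hb, addOrderOf_natCast_mul hp.ne_zero hpz, he, mul_assoc, Nat.mul_div_cancel_left _ hp.pos]
  rcases order_of_mul hp h1 with h2 | h2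
  · exfalso
    have h3 : p ∣ addOrderOf b := ⟨e, h2⟩
    rw [addOrderOf_natCast_mul hp.ne_zero h3, h2, Nat.mul_div_cancel_left _ hp.pos] at h1
    have he0 : 0 < e := by
      rcases Nat.eq_zero_or_pos e with h | h
      · rw [h, mul_zero] at he
        have := addOrderOf_pos z
        omega
      · exact h
    have := hp.two_le
    nlinarith
  · rw [h2, he, mul_assoc]

lemma fib_B {p : ℕ} (hp : p.Prime) {z : ZMod n} (hz : p ∣ addOrderOf z)
    (hz' : ¬ p * p ∣ addOrderOf z) : ∃ b0 ∈ fib p z, addOrderOf b0 = addOrderOf z / p ∧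
      ∀ b ∈ fib p z, b ≠ b0 → addOrderOf b = addOrderOf z := by
  obtain ⟨e, he⟩ := hz
  have he0 : 0 < e := by
    rcases Nat.eq_zero_or_pos e with h | h
    · rw [h, mul_zero] at he
      have := addOrderOf_pos z
      omega
    · exact h
  have hpe : ¬ p ∣ e := by
    rintro ⟨c, hc⟩
    exact hz' ⟨c, by rw [he, hc, mul_assoc]⟩
  have hcop : Nat.Coprime p e := (Nat.Prime.coprime_iff_not_dvd hp).mpr hpe
  have hpz : addOrderOf ((p : ZMod n) * z) = e := by
    rw [addOrderOf_natCast_mul hp.ne_zero ⟨e, he⟩, he, Nat.mul_div_cancel_left _ hp.pos]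
  obtain ⟨k, hk⟩ : ∃ k : ℕ, p * k ≡ 1 [MOD e] := by
    obtain ⟨k, hk⟩ := Nat.chineseRemainder hcop 0 1
    obtain ⟨c, hc⟩ := (Nat.modEq_zero_iff_dvd.mp hk.1)
    exact ⟨c, hc ▸ hk.2⟩
  have hb0 : (p : ZMod n) * ((k : ZMod n) * ((p : ZMod n) * z)) = (p : ZMod n) * z := by
    have h1 : (p * k) • ((p : ZMod n) * z) = 1 • ((p : ZMod n) * z) := by
      rw [nsmul_eq_nsmul_iff_modEq, hpz]
      exact hk
    rw [one_smul, nsmul_eq_mul, Nat.cast_mul] at h1
    linear_combination h1
  have hez : addOrderOf z / p = e := by rw [he, Nat.mul_div_cancel_left _ hp.pos]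
  have hord0 : addOrderOf ((k : ZMod n) * ((p : ZMod n) * z)) = e := by
    rcases order_of_mul hp (hb0 ▸ hpz) with h1 | h1
    · exact h1
    · exfalso
      have h2 : addOrderOf ((k : ZMod n) * ((p : ZMod n) * z)) ∣ e := by
        apply addOrderOf_dvd_of_nsmul_eq_zero
        rw [← mul_smul_comm, ← hpz, addOrderOf_nsmul_eq_zero, mul_zero]
      rw [h1] at h2
      have := Nat.le_of_dvd he0 h2
      have := hp.two_le
      nlinarith
  refine ⟨(k : ZMod n) * ((p : ZMod n) * z), mem_fib.mpr hb0, by rw [hez, hord0], ?_⟩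
  intro b hb hne
  rw [mem_fib] at hb
  rcases order_of_mul hp (hb ▸ hpz) with h1 | h1
  · exfalso
    apply hne
    rw [← sub_eq_zero, ← AddMonoid.addOrderOf_eq_one_iff]
    have h2 : addOrderOf (b - (k : ZMod n) * ((p : ZMod n) * z)) ∣ p := by
      apply addOrderOf_dvd_of_nsmul_eq_zero
      rw [nsmul_eq_mul, mul_sub, hb, hb0, sub_self]
    have h3 : addOrderOf (b - (k : ZMod n) * ((p : ZMod n) * z)) ∣ e := by
      apply addOrderOf_dvd_of_nsmul_eq_zero
      rw [nsmul_sub]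
      conv_lhs =>
        congr
        · rw [← h1, addOrderOf_nsmul_eq_zero]
        · rw [← hord0, addOrderOf_nsmul_eq_zero]
      rw [sub_zero]
    have h4 := Nat.dvd_gcd h2 h3
    rw [hcop] at h4
    exact Nat.dvd_one.mp h4
  · rw [h1, he]

/-- elements of the same order differ by a unit -/
lemma exists_unit_mul {z b : ZMod n} (h : addOrderOf b = addOrderOf z) :
    ∃ s : (ZMod n)ˣ, (s : ZMod n) * z = b := by
  have hd := addOrderOf_dvd_m z
  obtain ⟨u, hu⟩ := exists_unit_of_order hd (a := z) rfl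
  obtain ⟨v, hv⟩ := exists_unit_of_order hd (a := b) h
  obtain ⟨s, hs⟩ := ZMod.unitsMap_surjective hd (v * u⁻¹)
  refine ⟨s, ?_⟩
  rw [← hu, jj_mul, ← hv]
  congr 1
  have h2 : ZMod.castHom hd (ZMod (addOrderOf z)) (s : ZMod n)
      = ((ZMod.unitsMap hd s : (ZMod (addOrderOf z))ˣ) : ZMod (addOrderOf z)) := by
    rw [ZMod.unitsMap_val]; rfl
  rw [h2, hs, ← Units.val_mul, mul_assoc, inv_mul_cancel, mul_one]

/-- factors acting in the same way agree modulo the order -/
lemma cast_eq_of_mul {f : ℕ} (hf : f ∣ n) {w x y : ZMod n} (hw : f ∣ addOrderOf w)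
    (h : x * w = y * w) : ZMod.castHom hf (ZMod f) x = ZMod.castHom hf (ZMod f) y := by
  have h1 : (x - y).val • w = 0 := by
    rw [nsmul_eq_mul, ZMod.natCast_zmod_val, sub_mul, h, sub_self]
  have h2 : f ∣ (x - y).val := hw.trans (addOrderOf_dvd_of_nsmul_eq_zero h1)
  rw [← sub_eq_zero, ← map_sub, ← ZMod.natCast_zmod_val (x - y), map_natCast,
    ZMod.natCast_eq_zero_iff]
  exact h2

end Pool.Agent.Lib.MP_938ce2_ag_H7f
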