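import Pool.Agent.Lib.MP_938ce2_ag_H7f.Fibre

/-!
Functions whose sums against the odd representative are those of a multiple of one point of order
`3`, `4`, `10` or `12` (module V).
-/

set_option autoImplicit false
set_option linter.style.haveILetI false
set_option linter.unusedSectionVars false

open Finset

namespace Pool.Agent.Lib.MP_938ce2_ag_H7f

open Pool.Agent.Lib.MP_938ce2_ag_h99 Pool.Agent.Lib.MP_938ce2_ag_H7e

variable {n f : ℕ} [NeZero n]

/-- the transform of the odd representative -/
noncomputable def Vx (hf : f ∣ n) (χ : ZMod f →* ℂ) (z : ZMod n) : ℂ :=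
  ∑ t : (ZMod n)ˣ, χ (ZMod.castHom hf (ZMod f) (t : ZMod n)) * (W t z : ℂ)

lemma Vx_mul (hf : f ∣ n) (χ : ZMod f →* ℂ) (s : (ZMod n)ˣ) (z : ZMod n) :
    χ (ZMod.castHom hf (ZMod f) (s : ZMod n)) * Vx hf χ ((s : ZMod n) * z) = Vx hf χ z := by
  unfold Vx
  rw [mul_sum]
  refine Fintype.sum_equiv (Equiv.mulRight s) _ _ fun t => ?_
  rw [Equiv.coe_mulRight, W_unit_mul, Units.val_mul, map_mul, map_mul]
  ring

lemma Vx_fib (hf : f ∣ n) (χ : ZMod f →* ℂ) {p : ℕ} (hp : 0 < p) (hpn : p ∣ n) (z : ZMod n) :
    ∑ b ∈ fib p z, Vx hf χ b = Vx hf χ ((p : ZMod n) * z) := by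
  unfold Vx
  rw [sum_comm]
  refine sum_congr rfl fun t _ => ?_
  rw [← mul_sum, ← sum_fib_W hp hpn t z]
  push_cast
  rfl

lemma sum_PH (hf : f ∣ n) (χ : ZMod f →* ℂ) (h : ZMod n → ℤ) :
    ∑ t : (ZMod n)ˣ, χ (ZMod.castHom hf (ZMod f) (t : ZMod n)) * (PH h t : ℂ)
      = ∑ a, (h a : ℂ) * Vx hf χ a := by
  have h1 : ∀ t : (ZMod n)ˣ, χ (ZMod.castHom hf (ZMod f) (t : ZMod n)) * (PH h t : ℂ)
      = ∑ a, (h a : ℂ) * (χ (ZMod.castHom hf (ZMod f) (t : ZMod n)) * (W t a : ℂ)) := by
    intro t
    rw [PH_eq]
    push_cast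
    rw [mul_sum]
    refine sum_congr rfl fun a _ => ?_
    ring
  rw [sum_congr rfl fun t _ => h1 t, sum_comm]
  refine sum_congr rfl fun a _ => ?_
  unfold Vx
  rw [mul_sum]

section rules

variable (hf : f ∣ n) (χ : ZMod f →* ℂ)

lemma Vx_A {p : ℕ} (hp : p.Prime) {z : ZMod n} (hz : p * p ∣ addOrderOf z)
    (hfz : f ∣ addOrderOf z / p) : Vx hf χ ((p : ZMod n) * z) = p * Vx hf χ z := by
  have hpz : p ∣ addOrderOf z := (Dvd.intro_left p rfl).trans hz
  have hpn : p ∣ n := hpz.trans (addOrderOf_dvd_m z)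
  rw [← Vx_fib hf χ hp.pos hpn]
  have h1 : ∀ b ∈ fib p z, Vx hf χ b = Vx hf χ z := by
    intro b hb
    obtain ⟨s, hs⟩ := exists_unit_mul (order_fib_A hp hz hb)
    rw [mem_fib] at hb
    have h2 : ZMod.castHom hf (ZMod f) (s : ZMod n) = ZMod.castHom hf (ZMod f) 1 := by
      apply cast_eq_of_mul hf (w := (p : ZMod n) * z)
      · rw [addOrderOf_natCast_mul hp.ne_zero hpz]
        exact hfz
      · rw [one_mul]
        linear_combination (p : ZMod n) * hs + hb
    rw [map_one] at h2
    have h3 := Vx_mul hf χ s z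
    rw [h2, map_one, one_mul, hs] at h3
    exact h3
  rw [sum_congr rfl h1, sum_const, card_fib hp.pos hpn, nsmul_eq_mul]

lemma Vx_B {p : ℕ} (hp : p.Prime) {z : ZMod n} (hz : p ∣ addOrderOf z)
    (hz' : ¬ p * p ∣ addOrderOf z) (hfz : f ∣ addOrderOf z / p) :
    ((p : ℂ) - 1) * Vx hf χ z = (1 - χ (p : ZMod f)) * Vx hf χ ((p : ZMod n) * z) := by
  have hpn : p ∣ n := hz.trans (addOrderOf_dvd_m z)
  have hopz := addOrderOf_natCast_mul hp.ne_zero hz
  obtain ⟨b0, hb0, hord, hoth⟩ := fib_B hp hz hz'
  have h1 : ∀ b ∈ (fib p z).erase b0, Vx hf χ b = Vx hf χ z := by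
    intro b hb
    rw [mem_erase] at hb
    obtain ⟨s, hs⟩ := exists_unit_mul (hoth b hb.2 hb.1)
    have hb2 := mem_fib.mp hb.2
    have h2 : ZMod.castHom hf (ZMod f) (s : ZMod n) = ZMod.castHom hf (ZMod f) 1 := by
      apply cast_eq_of_mul hf (w := (p : ZMod n) * z)
      · rw [hopz]
        exact hfz
      · rw [one_mul]
        linear_combination (p : ZMod n) * hs + hb2
    rw [map_one] at h2
    have h3 := Vx_mul hf χ s z
    rw [h2, map_one, one_mul, hs] at h3
    exact h3
  have h2 : Vx hf χ b0 = χ (p : ZMod f) * Vx hf χ ((p : ZMod n) * z) := by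
    obtain ⟨s, hs⟩ := exists_unit_mul (z := (p : ZMod n) * z) (b := b0) (by rw [hord, hopz])
    have hb2 := mem_fib.mp hb0
    have h3 : ZMod.castHom hf (ZMod f) ((p : ZMod n) * (s : ZMod n))
        = ZMod.castHom hf (ZMod f) 1 := by
      apply cast_eq_of_mul hf (w := (p : ZMod n) * z)
      · rw [hopz]
        exact hfz
      · rw [one_mul]
        linear_combination (p : ZMod n) * hs + hb2
    rw [map_one, map_mul, map_natCast] at h3
    have h4 := Vx_mul hf χ s ((p : ZMod n) * z)
    rw [hs] at h4
    rw [← h4, ← mul_assoc, ← map_mul, h3, map_one, one_mul]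
  have h3 := Vx_fib hf χ hp.pos hpn z
  rw [← add_sum_erase _ _ hb0, sum_congr rfl h1, sum_const, card_erase_of_mem hb0,
    card_fib hp.pos hpn, h2, nsmul_eq_mul, Nat.cast_sub hp.one_le] at h3
  push_cast at h3
  linear_combination h3

variable (hχ : ∀ u : (ZMod f)ˣ, ‖χ (u : ZMod f)‖ = 1)
include hχ

lemma norm_cast_unit (s : (ZMod n)ˣ) : ‖χ (ZMod.castHom hf (ZMod f) (s : ZMod n))‖ = 1 := by
  have h1 : ZMod.castHom hf (ZMod f) (s : ZMod n)
      = ((ZMod.unitsMap hf s : (ZMod f)ˣ) : ZMod f) := by
    rw [ZMod.unitsMap_val]; rfl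
  rw [h1]
  exact hχ _

lemma norm_Vx_eq {z b : ZMod n} (h : addOrderOf b = addOrderOf z) :
    ‖Vx hf χ b‖ = ‖Vx hf χ z‖ := by
  obtain ⟨s, hs⟩ := exists_unit_mul h
  rw [← Vx_mul hf χ s z, norm_mul, norm_cast_unit hf χ hχ, one_mul, hs]

/-- The transform is largest at the points of order `f` (or `2 f`). -/
theorem norm_Vx_le (hvan : ∀ z : ZMod n, ¬ f ∣ addOrderOf z → Vx hf χ z = 0) {c : ℝ} (hc : 1 ≤ c)
    (hc2 : ¬ 2 ∣ f → ‖1 - χ (2 : ZMod f)‖ ≤ c) {z0 : ZMod n} (hz0 : addOrderOf z0 = f) :
    ∀ z : ZMod n, ‖Vx hf χ z‖ ≤ (if 2 ∣ addOrderOf z then c else 1) * ‖Vx hf χ z0‖ := by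
  have key : ∀ k : ℕ, ∀ z : ZMod n, addOrderOf z = k →
      ‖Vx hf χ z‖ ≤ (if 2 ∣ k then c else 1) * ‖Vx hf χ z0‖ := by
    intro k
    induction k using Nat.strong_induction_on with
    | _ k ih =>
      intro z hz
      have hV0 := norm_nonneg (Vx hf χ z0)
      have hc1 : (1 : ℝ) ≤ if 2 ∣ k then c else 1 := by
        split_ifs
        · exact hc
        · exact le_rfl
      have hc0 : (0 : ℝ) ≤ (if 2 ∣ k then c else 1) * ‖Vx hf χ z0‖ := by
        apply mul_nonneg (by linarith) hV0
      by_cases hfk : f ∣ k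
      · by_cases hfe : k = f
        · rw [norm_Vx_eq hf χ hχ (z := z0) (by rw [hz, hz0, hfe])]
          nlinarith
        · have hk0 : 0 < k := hz ▸ addOrderOf_pos z
          obtain ⟨e, he⟩ := hfk
          have he0 : e ≠ 0 := by
            rintro rfl
            rw [mul_zero] at he
            omega
          have he1 : e ≠ 1 := by
            rintro rfl
            rw [mul_one] at he
            exact hfe he
          obtain ⟨p, hp, hpe⟩ := Nat.exists_prime_and_dvd he1
          obtain ⟨e', he'⟩ := hpe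
          have hkp : k = p * (f * e') := by rw [he, he']; ring
          have hpk : p ∣ addOrderOf z := by rw [hz, hkp]; exact Dvd.intro _ rfl
          have hdiv : addOrderOf z / p = f * e' := by
            rw [hz, hkp, Nat.mul_div_cancel_left _ hp.pos]
          have hfz : f ∣ addOrderOf z / p := by rw [hdiv]; exact Dvd.intro _ rfl
          have hpz : addOrderOf ((p : ZMod n) * z) = f * e' := by
            rw [addOrderOf_natCast_mul hp.ne_zero hpk, hdiv]
          have hfe0 : 0 < f * e' := by
            rcases Nat.eq_zero_or_pos (f * e') with h | h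
            · rw [h, mul_zero] at hkp; omega
            · exact h
          have hlt : f * e' < k := by
            have := hp.two_le
            rw [hkp]
            nlinarith
          have hih := ih (f * e') hlt ((p : ZMod n) * z) hpz
          have hcle : (if 2 ∣ f * e' then c else 1) ≤ if 2 ∣ k then c else 1 := by
            by_cases h2 : 2 ∣ f * e'
            · rw [if_pos h2, if_pos]
              rw [hkp]
              exact Dvd.dvd.mul_left h2 p
            · rw [if_neg h2]
              exact hc1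
          have hih' : ‖Vx hf χ ((p : ZMod n) * z)‖ ≤ (if 2 ∣ k then c else 1) * ‖Vx hf χ z0‖ :=
            hih.trans (mul_le_mul_of_nonneg_right hcle hV0)
          have hp2 : (2 : ℝ) ≤ p := by exact_mod_cast hp.two_le
          by_cases hpp : p * p ∣ addOrderOf z
          · have h1 := Vx_A hf χ hp hpp hfz
            have h2 : ‖Vx hf χ ((p : ZMod n) * z)‖ = p * ‖Vx hf χ z‖ := by
              rw [h1, norm_mul, Complex.norm_natCast]
            rw [h2] at hih'
            have h3 := norm_nonneg (Vx hf χ z)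
            nlinarith
          · have h1 := Vx_B hf χ hp hpk hpp hfz
            have h2 : ((p : ℝ) - 1) * ‖Vx hf χ z‖
                = ‖1 - χ (p : ZMod f)‖ * ‖Vx hf χ ((p : ZMod n) * z)‖ := by
              rw [← norm_mul, ← h1, norm_mul]
              congr 1
              have h3 : ((p : ℂ) - 1) = (((p : ℝ) - 1 : ℝ) : ℂ) := by push_cast; rfl
              rw [h3, Complex.norm_real, Real.norm_of_nonneg (by linarith)]
            have hpnf : ¬ p ∣ f * e' := by
              rintro ⟨d, hd⟩
              apply hpp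
              rw [hz, hkp, hd]
              exact ⟨d, by ring⟩
            have hpf : Nat.Coprime p f := (Nat.Prime.coprime_iff_not_dvd hp).mpr
              fun h => hpnf (Dvd.dvd.mul_right h e')
            rcases hp.eq_two_or_odd with h2p | hodd
            · -- p = 2
              subst h2p
              have h2f : ¬ 2 ∣ f := fun h => hpnf (Dvd.dvd.mul_right h e')
              have h3 := hc2 h2f
              rw [if_neg hpnf, one_mul] at hih
              have h2k : 2 ∣ k := by rw [hkp]; exact Dvd.intro _ rfl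
              rw [if_pos h2k]
              norm_num at h2
              have h5 : (((2 : ℕ) : ZMod f)) = (2 : ZMod f) := by norm_cast
              rw [h2]
              have h4 := norm_nonneg (1 - χ (2 : ZMod f))
              exact mul_le_mul h3 hih (norm_nonneg _) (by linarith)
            · have hp3 : (3 : ℝ) ≤ p := by
                have : 3 ≤ p := by
                  have := hp.two_le
                  omega
                exact_mod_cast this
              have h3 : ‖1 - χ (p : ZMod f)‖ ≤ 2 := by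
                refine (norm_sub_le _ _).trans ?_
                have h4 := hχ (ZMod.unitOfCoprime p hpf)
                rw [ZMod.coe_unitOfCoprime] at h4
                rw [norm_one, h4]
                norm_num
              have h4 := norm_nonneg (Vx hf χ ((p : ZMod n) * z))
              have h5 := norm_nonneg (Vx hf χ z)
              nlinarith
      · rw [hvan z (by rw [hz]; exact hfk), norm_zero]
        exact hc0
  intro z
  exact key _ z rfl

end rules

end Pool.Agent.Lib.MP_938ce2_ag_H7f
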