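import Pool.Agent.Lib.MP_938ce2_ag_H7f.Func

/-!
Module V, second part: the characters of conductor `3`, `4`, `5`, and the bounds.
-/

set_option autoImplicit false
set_option linter.style.haveILetI false
set_option linter.unusedSectionVars false

open Finset

namespace Pool.Agent.Lib.MP_938ce2_ag_H7f

open Pool.Agent.Lib.MP_938ce2_ag_h99 Pool.Agent.Lib.MP_938ce2_ag_H7e

/-! ### three characters -/

def c3 : ZMod 3 → ℤ := fun x => (![0, 1, -1] : Fin 3 → ℤ) x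

def c4 : ZMod 4 → ℤ := fun x => (![0, 1, 0, -1] : Fin 4 → ℤ) x

def c5 : ZMod 5 → GaussianInt := fun x => (![0, 1, ⟨0, 1⟩, ⟨0, -1⟩, -1] : Fin 5 → GaussianInt) x

lemma c3_mul : ∀ x y, c3 (x * y) = c3 x * c3 y := by decide

lemma c4_mul : ∀ x y, c4 (x * y) = c4 x * c4 y := by decide

lemma c5_mul : ∀ x y, c5 (x * y) = c5 x * c5 y := by decide

noncomputable def chi3 : ZMod 3 →* ℂ where
  toFun x := (c3 x : ℂ)
  map_one' := by
    have : c3 1 = 1 := by decide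
    rw [this]
    norm_num
  map_mul' x y := by
    rw [c3_mul]
    push_cast
    rfl

noncomputable def chi4 : ZMod 4 →* ℂ where
  toFun x := (c4 x : ℂ)
  map_one' := by
    have : c4 1 = 1 := by decide
    rw [this]
    norm_num
  map_mul' x y := by
    rw [c4_mul]
    push_cast
    rfl

noncomputable def chi5 : ZMod 5 →* ℂ where
  toFun x := GaussianInt.toComplex (c5 x)
  map_one' := by
    have : c5 1 = 1 := by decide
    rw [this, map_one]
  map_mul' x y := by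
    rw [c5_mul, map_mul]

lemma chi3_norm (u : (ZMod 3)ˣ) : ‖chi3 (u : ZMod 3)‖ = 1 := by
  have h : ∀ x : ZMod 3, IsUnit x → c3 x = 1 ∨ c3 x = -1 := by decide
  show ‖((c3 (u : ZMod 3) : ℤ) : ℂ)‖ = 1
  rcases h _ u.isUnit with h | h <;> rw [h] <;> simp

lemma chi4_norm (u : (ZMod 4)ˣ) : ‖chi4 (u : ZMod 4)‖ = 1 := by
  have h : ∀ x : ZMod 4, IsUnit x → c4 x = 1 ∨ c4 x = -1 := by decide
  show ‖((c4 (u : ZMod 4) : ℤ) : ℂ)‖ = 1
  rcases h _ u.isUnit with h | h <;> rw [h] <;> simp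

lemma chi5_norm (u : (ZMod 5)ˣ) : ‖chi5 (u : ZMod 5)‖ = 1 := by
  have h : ∀ x : ZMod 5, IsUnit x → c5 x = 1 ∨ c5 x = -1 ∨ c5 x = ⟨0, 1⟩ ∨ c5 x = ⟨0, -1⟩ := by
    decide
  show ‖GaussianInt.toComplex (c5 (u : ZMod 5))‖ = 1
  rcases h _ u.isUnit with h | h | h | h <;> rw [h] <;> simp [GaussianInt.toComplex_def]

lemma chi3_two : chi3 2 = -1 := by
  show ((c3 2 : ℤ) : ℂ) = -1
  have : c3 2 = -1 := by decide
  rw [this]
  norm_num

lemma chi4_three : chi4 3 = -1 := by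
  show ((c4 3 : ℤ) : ℂ) = -1
  have : c4 3 = -1 := by decide
  rw [this]
  norm_num

lemma chi5_two : chi5 2 = Complex.I := by
  show GaussianInt.toComplex (c5 2) = Complex.I
  have : c5 2 = ⟨0, 1⟩ := by decide
  rw [this]
  simp [GaussianInt.toComplex_def]

lemma norm_one_sub_I : ‖(1 : ℂ) - Complex.I‖ = Real.sqrt 2 := by
  rw [Complex.norm_def]
  congr 1
  simp [Complex.normSq_apply]
  norm_num

/-! ### units with prescribed residues, vanishing -/

section van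

variable {n f : ℕ} [NeZero n]

lemma exists_unit_pm {m' : ℕ} (hm' : m' ∣ n) (hf : f ∣ n) (hcop : Nat.Coprime m' f) :
    ∃ s : (ZMod n)ˣ, ZMod.castHom hm' (ZMod m') (s : ZMod n) = 1
      ∧ ZMod.castHom hf (ZMod f) (s : ZMod n) = -1 := by
  have hmf : m' * f ∣ n := hcop.mul_dvd_of_dvd_of_dvd hm' hf
  haveI : NeZero (m' * f) := ⟨fun h => NeZero.ne n (by rw [h] at hmf; exact Nat.eq_zero_of_zero_dvd hmf)⟩
  set E := ZMod.chineseRemainder hcop with hE
  have hu : IsUnit (E.symm ((1 : ZMod m'), (-1 : ZMod f))) := by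
    have h1 : IsUnit ((1 : ZMod m'), (-1 : ZMod f)) := by
      rw [Prod.isUnit_iff]
      exact ⟨isUnit_one, isUnit_one.neg⟩
    exact h1.map E.symm
  obtain ⟨u, hu⟩ := hu
  obtain ⟨s, hs⟩ := ZMod.unitsMap_surjective hmf u
  have hs' : ZMod.castHom hmf (ZMod (m' * f)) (s : ZMod n) = (u : ZMod (m' * f)) := by
    rw [← hs, ZMod.unitsMap_val]
    rfl
  have hE' : E (ZMod.castHom hmf (ZMod (m' * f)) (s : ZMod n)) = (1, -1) := by
    rw [hs', hu, RingEquiv.apply_symm_apply]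
  refine ⟨s, ?_, ?_⟩
  · have h1 : ZMod.castHom hm' (ZMod m') = (RingHom.fst (ZMod m') (ZMod f)).comp
        ((E : ZMod (m' * f) →+* ZMod m' × ZMod f).comp (ZMod.castHom hmf (ZMod (m' * f)))) :=
      Subsingleton.elim _ _
    rw [h1]
    exact congrArg Prod.fst hE'
  · have h1 : ZMod.castHom hf (ZMod f) = (RingHom.snd (ZMod m') (ZMod f)).comp
        ((E : ZMod (m' * f) →+* ZMod m' × ZMod f).comp (ZMod.castHom hmf (ZMod (m' * f)))) :=
      Subsingleton.elim _ _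
    rw [h1]
    exact congrArg Prod.snd hE'

lemma mul_eq_of_cast {z x y : ZMod n} (h : ZMod.castHom (addOrderOf_dvd_m z) (ZMod (addOrderOf z)) x
    = ZMod.castHom (addOrderOf_dvd_m z) (ZMod (addOrderOf z)) y) : x * z = y * z := by
  obtain ⟨u, hu⟩ := exists_unit_of_order (addOrderOf_dvd_m z) (a := z) rfl
  conv_lhs => rw [← hu]
  conv_rhs => rw [← hu]
  rw [jj_mul, jj_mul, h]

lemma Vx_van_cop (hf : f ∣ n) (χ : ZMod f →* ℂ) (hneg : χ (-1) = -1) {z : ZMod n}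
    (hcop : Nat.Coprime (addOrderOf z) f) : Vx hf χ z = 0 := by
  obtain ⟨s, hs1, hs2⟩ := exists_unit_pm (addOrderOf_dvd_m z) hf hcop
  have h1 : (s : ZMod n) * z = z := by
    have h2 := mul_eq_of_cast (z := z) (x := (s : ZMod n)) (y := 1) (by rw [hs1, map_one])
    rw [h2, one_mul]
  have h3 := Vx_mul hf χ s z
  rw [h1, hs2, hneg] at h3
  have h4 : (2 : ℂ) * Vx hf χ z = 0 := by linear_combination -h3
  exact (mul_eq_zero.mp h4).resolve_left two_ne_zero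

lemma Vx_van_prime (hf : f ∣ n) (hfp : f.Prime) (χ : ZMod f →* ℂ) (hneg : χ (-1) = -1)
    (z : ZMod n) (hz : ¬ f ∣ addOrderOf z) : Vx hf χ z = 0 :=
  Vx_van_cop hf χ hneg ((Nat.Prime.coprime_iff_not_dvd hfp).mpr hz).symm

lemma Vx_van_four (hf : 4 ∣ n) (χ : ZMod 4 →* ℂ) (hneg : χ (-1) = -1)
    (z : ZMod n) (hz : ¬ 4 ∣ addOrderOf z) : Vx hf χ z = 0 := by
  have hodd : ∀ w : ZMod n, ¬ 2 ∣ addOrderOf w → Vx hf χ w = 0 := by
    intro w hw
    apply Vx_van_cop hf χ hneg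
    have h1 : Nat.Coprime (addOrderOf w) 2 :=
      ((Nat.Prime.coprime_iff_not_dvd Nat.prime_two).mpr hw).symm
    have h2 : Nat.Coprime (addOrderOf w) (2 ^ 2) := h1.pow_right 2
    norm_num at h2
    exact h2
  by_cases h2 : 2 ∣ addOrderOf z
  · have h2n : 2 ∣ n := h2.trans (addOrderOf_dvd_m z)
    have h4 : ¬ 2 * 2 ∣ addOrderOf z := by
      norm_num
      exact hz
    obtain ⟨b0, hb0, hord, hoth⟩ := fib_B Nat.prime_two h2 h4
    have hodd2 : ¬ 2 ∣ addOrderOf z / 2 := by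
      intro h
      apply h4
      obtain ⟨c, hc⟩ := h
      exact ⟨c, by rw [mul_assoc, ← hc, Nat.mul_div_cancel' h2]⟩
    have h5 : Vx hf χ b0 = 0 := hodd b0 (by rw [hord]; exact hodd2)
    have h6 : Vx hf χ (((2 : ℕ) : ZMod n) * z) = 0 := hodd _ (by
      rw [addOrderOf_natCast_mul two_ne_zero h2]
      exact hodd2)
    have h7 := Vx_fib hf χ (p := 2) two_pos h2n z
    have hzb : z ≠ b0 := by
      intro h
      rw [← h] at hord
      have h8 := addOrderOf_pos z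
      omega
    have hcard : ((fib 2 z).erase b0).card = 1 := by
      rw [card_erase_of_mem hb0, card_fib two_pos h2n]
      rfl
    obtain ⟨x, hx⟩ := card_eq_one.mp hcard
    have hxz : x = z := by
      have h8 : z ∈ (fib 2 z).erase b0 := mem_erase.mpr ⟨hzb, self_mem_fib 2 z⟩
      rw [hx, mem_singleton] at h8
      exact h8.symm
    rw [h6, ← add_sum_erase _ _ hb0, hx, sum_singleton, h5, zero_add, hxz] at h7
    exact h7
  · exact hodd z h2

/-- value at the standard point -/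
lemma Vx_top (hf : f ∣ n) (hf1 : 1 < f) (χ : ZMod f →* ℂ)
    (hχ0 : ∀ x, ¬ IsUnit x → χ x = 0) [NeZero f] :
    ∃ κ : ℂ, κ ≠ 0 ∧ Vx hf χ (jj hf 1)
      = κ * ∑ x : ZMod f, χ x * ((2 * (x.val : ℤ) - f : ℤ) : ℂ) := by
  obtain ⟨κ, hκ, hκs⟩ := sum_unitsMap hf
    (fun v : (ZMod f)ˣ => χ (v : ZMod f) * ((2 * ((v : ZMod f).val : ℤ) - f : ℤ) : ℂ))
  have hne : jj hf (1 : ZMod f) ≠ 0 := by
    intro h
    have h1 := addOrderOf_jj hf (1 : ZMod f)
    rw [h, addOrderOf_zero, ZMod.addOrderOf_one] at h1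
    omega
  have hnf : ((n / f : ℕ) : ℂ) ≠ 0 := by
    have : n / f ≠ 0 := (Nat.div_pos (Nat.le_of_dvd (Nat.pos_of_ne_zero (NeZero.ne n)) hf)
      (by omega)).ne'
    exact_mod_cast this
  refine ⟨(n / f : ℕ) * κ, mul_ne_zero hnf (by exact_mod_cast hκ), ?_⟩
  have h1 : Vx hf χ (jj hf 1) = (n / f : ℕ) * ∑ t : (ZMod n)ˣ,
      (fun v : (ZMod f)ˣ => χ (v : ZMod f) * ((2 * ((v : ZMod f).val : ℤ) - f : ℤ) : ℂ))
        (ZMod.unitsMap hf t) := by
    unfold Vx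
    rw [mul_sum]
    refine sum_congr rfl fun t _ => ?_
    have h3 : ZMod.castHom hf (ZMod f) (t : ZMod n)
        = ((ZMod.unitsMap hf t : (ZMod f)ˣ) : ZMod f) := by
      rw [ZMod.unitsMap_val]; rfl
    unfold W
    rw [if_neg hne, jj_mul, mul_one, jj_val, h3]
    beta_reduce
    have h4 : (n : ℂ) = ((n / f : ℕ) : ℂ) * (f : ℂ) := by
      exact_mod_cast (Nat.div_mul_cancel hf).symm
    generalize n / f = q at h4 ⊢
    push_cast
    rw [h4]
    ring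
  have h2 : ∑ v : (ZMod f)ˣ, χ (v : ZMod f) * ((2 * ((v : ZMod f).val : ℤ) - f : ℤ) : ℂ)
      = ∑ x : ZMod f, χ x * ((2 * (x.val : ℤ) - f : ℤ) : ℂ) := by
    refine Fintype.sum_of_injective (fun v : (ZMod f)ˣ => (v : ZMod f)) Units.val_injective
      _ _ ?_ fun _ => rfl
    intro x hx
    have : ¬ IsUnit x := fun ⟨u, hu⟩ => hx ⟨u, hu⟩
    rw [hχ0 x this, zero_mul]
  rw [h1, hκs, h2]
  ring

end van

/-! ### the bounds -/

section final

variable {n : ℕ} [NeZero n]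

lemma key_sum {f : ℕ} (hf : f ∣ n) (χ : ZMod f →* ℂ)
    {h : ZMod n → ℤ} {C : ℤ} {b : ZMod n} (H : ∀ t : (ZMod n)ˣ, PH h t = C * W t b) {K : ℝ}
    (hK : ∀ a, h a ≠ 0 → ‖Vx hf χ a‖ ≤ K) :
    |(C : ℝ)| * ‖Vx hf χ b‖ ≤ ((∑ a, |h a| : ℤ) : ℝ) * K := by
  have h1 : (C : ℂ) * Vx hf χ b = ∑ a, (h a : ℂ) * Vx hf χ a := by
    rw [← sum_PH hf χ h]
    unfold Vx
    rw [mul_sum]
    refine sum_congr rfl fun t _ => ?_
    rw [H]
    push_cast
    ring
  have h2 : |(C : ℝ)| * ‖Vx hf χ b‖ = ‖∑ a, (h a : ℂ) * Vx hf χ a‖ := by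
    rw [← h1, norm_mul, Complex.norm_intCast]
  rw [h2]
  refine (norm_sum_le _ _).trans ?_
  push_cast
  rw [sum_mul]
  refine sum_le_sum fun a _ => ?_
  rw [norm_mul, Complex.norm_intCast]
  by_cases ha : h a = 0
  · rw [ha]
    simp
  · exact mul_le_mul_of_nonneg_left (hK a ha) (abs_nonneg _)

lemma chi3_neg : chi3 (-1) = -1 := by
  show ((c3 (-1) : ℤ) : ℂ) = -1
  have : c3 (-1) = -1 := by decide
  rw [this]
  norm_num

lemma chi4_neg : chi4 (-1) = -1 := by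
  show ((c4 (-1) : ℤ) : ℂ) = -1
  have : c4 (-1) = -1 := by decide
  rw [this]
  norm_num

lemma chi5_neg : chi5 (-1) = -1 := by
  show GaussianInt.toComplex (c5 (-1)) = -1
  have : c5 (-1) = -1 := by decide
  rw [this, map_neg, map_one]

lemma chi3_pos (hf : 3 ∣ n) : 0 < ‖Vx hf chi3 (jj hf 1)‖ := by
  obtain ⟨κ, hκ, h⟩ := Vx_top hf (by norm_num) chi3 (by
    intro x hx
    show ((c3 x : ℤ) : ℂ) = 0
    have h : ∀ x : ZMod 3, ¬ IsUnit x → c3 x = 0 := by decide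
    rw [h x hx, Int.cast_zero])
  rw [norm_pos_iff, h]
  refine mul_ne_zero hκ ?_
  have h1 : ∑ x : ZMod 3, chi3 x * ((2 * (x.val : ℤ) - (3 : ℕ) : ℤ) : ℂ)
      = ((∑ x : ZMod 3, c3 x * (2 * (x.val : ℤ) - 3) : ℤ) : ℂ) := by
    push_cast
    rfl
  have h2 : ∑ x : ZMod 3, c3 x * (2 * (x.val : ℤ) - 3) = -2 := by decide
  rw [h1, h2]
  norm_num

lemma chi4_pos (hf : 4 ∣ n) : 0 < ‖Vx hf chi4 (jj hf 1)‖ := by
  obtain ⟨κ, hκ, h⟩ := Vx_top hf (by norm_num) chi4 (by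
    intro x hx
    show ((c4 x : ℤ) : ℂ) = 0
    have h : ∀ x : ZMod 4, ¬ IsUnit x → c4 x = 0 := by decide
    rw [h x hx, Int.cast_zero])
  rw [norm_pos_iff, h]
  refine mul_ne_zero hκ ?_
  have h1 : ∑ x : ZMod 4, chi4 x * ((2 * (x.val : ℤ) - (4 : ℕ) : ℤ) : ℂ)
      = ((∑ x : ZMod 4, c4 x * (2 * (x.val : ℤ) - 4) : ℤ) : ℂ) := by
    push_cast
    rfl
  have h2 : ∑ x : ZMod 4, c4 x * (2 * (x.val : ℤ) - 4) = -4 := by decide
  rw [h1, h2]
  norm_num

lemma chi5_pos (hf : 5 ∣ n) : 0 < ‖Vx hf chi5 (jj hf 1)‖ := by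
  obtain ⟨κ, hκ, h⟩ := Vx_top hf (by norm_num) chi5 (by
    intro x hx
    show GaussianInt.toComplex (c5 x) = 0
    have h : ∀ x : ZMod 5, ¬ IsUnit x → c5 x = 0 := by decide
    rw [h x hx, map_zero])
  rw [norm_pos_iff, h]
  refine mul_ne_zero hκ ?_
  have h1 : ∑ x : ZMod 5, chi5 x * ((2 * (x.val : ℤ) - (5 : ℕ) : ℤ) : ℂ)
      = GaussianInt.toComplex (∑ x : ZMod 5, c5 x * ((2 * (x.val : ℤ) - 5 : ℤ) : GaussianInt)) := by
    rw [map_sum]
    refine sum_congr rfl fun x _ => ?_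
    rw [map_mul, map_intCast]
    rfl
  have h2 : ∑ x : ZMod 5, c5 x * ((2 * (x.val : ℤ) - 5 : ℤ) : GaussianInt) = ⟨-6, -2⟩ := by decide
  rw [h1, h2]
  intro h0
  have h3 := (map_eq_zero_iff GaussianInt.toComplex (by
    intro a b hab
    exact GaussianInt.toComplex_inj.mp hab)).mp h0
  exact absurd h3 (by decide)

variable {h : ZMod n → ℤ} {C : ℤ} {b : ZMod n}

/-- a multiple of a point of order `3` -/
theorem func_three (H : ∀ t : (ZMod n)ˣ, PH h t = C * W t b) (hb : addOrderOf b = 3) :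
    |C| ≤ 2 * ∑ a, |h a| := by
  have hf : 3 ∣ n := hb ▸ addOrderOf_dvd_m b
  have hz0 : addOrderOf (jj hf (1 : ZMod 3)) = 3 := addOrderOf_unit hf 1
  have hK := norm_Vx_le hf chi3 chi3_norm (Vx_van_prime hf Nat.prime_three chi3 chi3_neg)
    (c := 2) (by norm_num) (fun _ => by rw [chi3_two]; norm_num) hz0
  have hpos := chi3_pos hf
  have h1 := key_sum hf chi3 H (K := 2 * ‖Vx hf chi3 (jj hf 1)‖) (fun a _ => by
    refine (hK a).trans (mul_le_mul_of_nonneg_right ?_ hpos.le)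
    split_ifs <;> norm_num)
  rw [norm_Vx_eq hf chi3 chi3_norm (z := jj hf 1) (by rw [hb, hz0])] at h1
  have h2 : |(C : ℝ)| ≤ 2 * ((∑ a, |h a| : ℤ) : ℝ) := by
    have h3 : |(C : ℝ)| * ‖Vx hf chi3 (jj hf 1)‖
        ≤ (2 * ((∑ a, |h a| : ℤ) : ℝ)) * ‖Vx hf chi3 (jj hf 1)‖ := by
      refine h1.trans (le_of_eq ?_)
      ring
    exact le_of_mul_le_mul_right h3 hpos
  exact_mod_cast h2

/-- a multiple of a point of order `4` -/
theorem func_four (H : ∀ t : (ZMod n)ˣ, PH h t = C * W t b) (hb : addOrderOf b = 4) :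
    |C| ≤ ∑ a, |h a| := by
  have hf : 4 ∣ n := hb ▸ addOrderOf_dvd_m b
  have hz0 : addOrderOf (jj hf (1 : ZMod 4)) = 4 := addOrderOf_unit hf 1
  have hK := norm_Vx_le hf chi4 chi4_norm (Vx_van_four hf chi4 chi4_neg)
    (c := 1) le_rfl (fun h2 => absurd (by norm_num) h2) hz0
  have hpos := chi4_pos hf
  have h1 := key_sum hf chi4 H (K := ‖Vx hf chi4 (jj hf 1)‖) (fun a _ => by
    refine (hK a).trans (le_of_eq ?_)
    rw [ite_self, one_mul])
  rw [norm_Vx_eq hf chi4 chi4_norm (z := jj hf 1) (by rw [hb, hz0])] at h1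
  have h2 : |(C : ℝ)| ≤ ((∑ a, |h a| : ℤ) : ℝ) := le_of_mul_le_mul_right h1 hpos
  exact_mod_cast h2

/-- a multiple of a point of order `12` -/
theorem func_twelve (H : ∀ t : (ZMod n)ˣ, PH h t = C * W t b) (hb : addOrderOf b = 12) :
    |C| ≤ ∑ a, |h a| := by
  have h12 : 12 ∣ n := hb ▸ addOrderOf_dvd_m b
  have hf : 4 ∣ n := (by norm_num : 4 ∣ 12).trans h12
  have hz0 : addOrderOf (jj hf (1 : ZMod 4)) = 4 := addOrderOf_unit hf 1
  have hK := norm_Vx_le hf chi4 chi4_norm (Vx_van_four hf chi4 chi4_neg)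
    (c := 1) le_rfl (fun h2 => absurd (by norm_num) h2) hz0
  have hpos := chi4_pos hf
  have h1 := key_sum hf chi4 H (K := ‖Vx hf chi4 (jj hf 1)‖) (fun a _ => by
    refine (hK a).trans (le_of_eq ?_)
    rw [ite_self, one_mul])
  have h3b := Vx_B hf chi4 Nat.prime_three (z := b) (by rw [hb]; norm_num) (by rw [hb]; norm_num)
    (by rw [hb])
  have h3c : chi4 ((3 : ℕ) : ZMod 4) = -1 := chi4_three
  rw [h3c] at h3b
  have h3d : Vx hf chi4 b = Vx hf chi4 (((3 : ℕ) : ZMod n) * b) := by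
    have : (2 : ℂ) * Vx hf chi4 b = 2 * Vx hf chi4 (((3 : ℕ) : ZMod n) * b) := by
      push_cast at h3b ⊢
      linear_combination h3b
    exact mul_left_cancel₀ two_ne_zero this
  rw [h3d, norm_Vx_eq hf chi4 chi4_norm (z := jj hf 1) (by
    rw [addOrderOf_natCast_mul three_ne_zero (by rw [hb]; norm_num), hb, hz0])] at h1
  have h2 : |(C : ℝ)| ≤ ((∑ a, |h a| : ℤ) : ℝ) := le_of_mul_le_mul_right h1 hpos
  exact_mod_cast h2

lemma norm_Vx_ten (hf : 5 ∣ n) (hb : addOrderOf b = 10) :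
    ‖Vx hf chi5 b‖ = Real.sqrt 2 * ‖Vx hf chi5 (jj hf 1)‖ := by
  have hz0 : addOrderOf (jj hf (1 : ZMod 5)) = 5 := addOrderOf_unit hf 1
  have h2b := Vx_B hf chi5 Nat.prime_two (z := b) (by rw [hb]; norm_num) (by rw [hb]; norm_num)
    (by rw [hb])
  have h2c : chi5 ((2 : ℕ) : ZMod 5) = Complex.I := chi5_two
  rw [h2c] at h2b
  have h2d : Vx hf chi5 b = (1 - Complex.I) * Vx hf chi5 (((2 : ℕ) : ZMod n) * b) := by
    push_cast at h2b ⊢
    linear_combination h2b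
  rw [h2d, norm_mul, norm_one_sub_I, norm_Vx_eq hf chi5 chi5_norm (z := jj hf 1) (by
    rw [addOrderOf_natCast_mul two_ne_zero (by rw [hb]; norm_num), hb, hz0])]

/-- a multiple of a point of order `10` -/
theorem func_ten (H : ∀ t : (ZMod n)ˣ, PH h t = C * W t b) (hb : addOrderOf b = 10) :
    |C| ≤ ∑ a, |h a| := by
  have h10 : 10 ∣ n := hb ▸ addOrderOf_dvd_m b
  have hf : 5 ∣ n := (by norm_num : 5 ∣ 10).trans h10
  have hz0 : addOrderOf (jj hf (1 : ZMod 5)) = 5 := addOrderOf_unit hf 1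
  have hs1 : (1 : ℝ) ≤ Real.sqrt 2 := by
    rw [Real.one_le_sqrt]
    norm_num
  have hK := norm_Vx_le hf chi5 chi5_norm (Vx_van_prime hf Nat.prime_five chi5 chi5_neg)
    (c := Real.sqrt 2) hs1 (fun _ => by rw [chi5_two, norm_one_sub_I]) hz0
  have hpos := chi5_pos hf
  have h1 := key_sum hf chi5 H (K := Real.sqrt 2 * ‖Vx hf chi5 (jj hf 1)‖) (fun a _ => by
    refine (hK a).trans (mul_le_mul_of_nonneg_right ?_ hpos.le)
    split_ifs
    · exact le_rfl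
    · exact hs1)
  rw [norm_Vx_ten hf hb] at h1
  have h2 : |(C : ℝ)| ≤ ((∑ a, |h a| : ℤ) : ℝ) := le_of_mul_le_mul_right h1 (by positivity)
  exact_mod_cast h2

/-- a multiple of a point of order `10`, odd orders -/
theorem func_ten_odd (H : ∀ t : (ZMod n)ˣ, PH h t = C * W t b) (hb : addOrderOf b = 10)
    (hodd : ∀ a, h a ≠ 0 → Odd (addOrderOf a)) : 2 * C ^ 2 ≤ (∑ a, |h a|) ^ 2 := by
  have h10 : 10 ∣ n := hb ▸ addOrderOf_dvd_m b
  have hf : 5 ∣ n := (by norm_num : 5 ∣ 10).trans h10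
  have hz0 : addOrderOf (jj hf (1 : ZMod 5)) = 5 := addOrderOf_unit hf 1
  have hs1 : (1 : ℝ) ≤ Real.sqrt 2 := by
    rw [Real.one_le_sqrt]
    norm_num
  have hK := norm_Vx_le hf chi5 chi5_norm (Vx_van_prime hf Nat.prime_five chi5 chi5_neg)
    (c := Real.sqrt 2) hs1 (fun _ => by rw [chi5_two, norm_one_sub_I]) hz0
  have hpos := chi5_pos hf
  have h1 := key_sum hf chi5 H (K := ‖Vx hf chi5 (jj hf 1)‖) (fun a ha => by
    refine (hK a).trans (le_of_eq ?_)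
    have h2 : ¬ 2 ∣ addOrderOf a := by
      have := hodd a ha
      rw [Nat.odd_iff] at this
      omega
    rw [if_neg h2, one_mul])
  rw [norm_Vx_ten hf hb, ← mul_assoc] at h1
  have h2 : |(C : ℝ)| * Real.sqrt 2 ≤ ((∑ a, |h a| : ℤ) : ℝ) := le_of_mul_le_mul_right h1 hpos
  have h3 := pow_le_pow_left₀ (by positivity) h2 2
  rw [mul_pow, sq_abs, Real.sq_sqrt (by norm_num)] at h3
  have h4 : 2 * (C : ℝ) ^ 2 ≤ (((∑ a, |h a| : ℤ)) : ℝ) ^ 2 := by linarith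
  exact_mod_cast h4

end final

end Pool.Agent.Lib.MP_938ce2_ag_H7f
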