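import Pool.Agent.Lib.MP_938ce2_ag_H7f.Assembly

/-!
The sporadic class of degree `110` and pairs of pieces with complex multiplication by the
square root of `-55`.
-/

set_option autoImplicit false
set_option linter.style.haveILetI false
set_option linter.unusedSectionVars false

open Finset

namespace Pool.Agent.Lib.MP_938ce2_ag_H7f

open Pool.Agent.Lib.MP_938ce2_ag_h99 Pool.Agent.Lib.MP_938ce2_ag_H7e Pool.Agent.Lib.MP_938ce2_ag_h6

variable {m : ℕ} [NeZero m]

/-- the multiset `{c + r d : r = 1, 3, 4, 5, 9}` -/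
def half (c d : ZMod m) : Multiset (ZMod m) :=
  {c + d, c + 3 * d, c + 4 * d, c + 5 * d, c + 9 * d}

/-- pairs of pieces with complex multiplication by the square root of `-55` -/
def Klein (s : Multiset (ZMod m)) : Prop :=
  ∃ c d : ZMod m, 5 * c = 0 ∧ c ≠ 0 ∧ 11 * d = 0 ∧ d ≠ 0 ∧ s = half c d + half (2 * c) d

lemma half_map (f : ZMod m → ZMod m) (c d : ZMod m) : (half c d).map f =
    {f (c + d), f (c + 3 * d), f (c + 4 * d), f (c + 5 * d), f (c + 9 * d)} := by
  simp [half]

lemma Klein.neg {s : Multiset (ZMod m)} (h : Klein s) : Klein (s.map fun x => -x) := by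
  obtain ⟨c, d, h1, h2, h3, h4, rfl⟩ := h
  refine ⟨-c, -d, ?_, neg_ne_zero.mpr h2, ?_, neg_ne_zero.mpr h4, ?_⟩
  · rw [mul_neg, h1, neg_zero]
  · rw [mul_neg, h3, neg_zero]
  · rw [Multiset.map_add, half_map, half_map]
    unfold half
    congr 1 <;>
    · congr 1
      · ring
      congr 1
      · ring
      congr 1
      · ring
      congr 1
      · ring
      congr 1
      ring

/-- the basic class -/
def GK (e : Bool) (s : Multiset (ZMod m)) : Prop := Fano s ∨ e = true ∧ Klein s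

lemma GK.neg {e : Bool} {s : Multiset (ZMod m)} (h : GK e s) : GK e (s.map fun x => -x) := by
  rcases h with h | ⟨h, h'⟩
  · exact Or.inl h.neg
  · exact Or.inr ⟨h, h'.neg⟩

lemma isAlgG_mono {G G' : Multiset (ZMod m) → Prop} (hG : ∀ s, G s → G' s)
    {s : Multiset (ZMod m)} (h : IsAlgG G s) : IsAlgG G' s := by
  induction h with
  | low s h hc => exact IsAlgG.low s h hc
  | base s h hc => exact IsAlgG.base s h (hG s hc)
  | aoki p a hp hp2 hpm ha => exact IsAlgG.aoki p a hp hp2 hpm ha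
  | join s t _ _ hs ht => exact IsAlgG.join s t hs ht
  | cut s b hb _ ih => exact IsAlgG.cut s b hb ih

def L1 : List ℕ := [7, 34, 38, 57, 87, 107]
def L2 : List ℕ := [64, 104, 14, 34, 4, 108, 38, 58, 78, 48]

lemma isTate_L2 (h : 110 ∣ m) : IsTate (quad h L2) :=
  isTate_quad h _ (by decide) (by decide) (by decide)

/-- the difference at level `110` -/
lemma diff_110 : ∀ y : ZMod 110,
    oddPart (↑(L1.map (Nat.cast : ℕ → ZMod 110)) : Multiset (ZMod 110)) y
      - oddPart (↑(L2.map (Nat.cast : ℕ → ZMod 110)) : Multiset (ZMod 110)) y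
    = (od ((2 : ℕ) * 7 : ZMod 110) ((2 : ℕ) * y) - od ((2 : ℕ) * 7 : ZMod 110) y)
      + (od ((2 : ℕ) * 57 : ZMod 110) ((2 : ℕ) * y) - od ((2 : ℕ) * 57 : ZMod 110) y)
      + (od ((2 : ℕ) * 87 : ZMod 110) ((2 : ℕ) * y) - od ((2 : ℕ) * 87 : ZMod 110) y)
      + (od ((2 : ℕ) * 107 : ZMod 110) ((2 : ℕ) * y) - od ((2 : ℕ) * 107 : ZMod 110) y) := by
  decide +kernel

lemma od_unit (s : (ZMod m)ˣ) (c x : ZMod m) :
    od ((s : ZMod m) * c) x = od c (((s⁻¹ : (ZMod m)ˣ) : ZMod m) * x) := by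
  have h : ∀ c : ZMod m, (x = (s : ZMod m) * c) ↔ (((s⁻¹ : (ZMod m)ˣ) : ZMod m) * x = c) := by
    intro c
    rw [Units.inv_mul_eq_iff_eq_mul]
  unfold od
  rw [← mul_neg]
  simp only [h]

/-- the relation functions used -/
noncomputable def RR (h : 110 ∣ m) (s : (ZMod m)ˣ) (a : ZMod 110) : ZMod m → ℤ :=
  rel 2 (od (((2 : ℕ) : ZMod m) * ((s : ZMod m) * jj h a)))

lemma RR_mem (h : 110 ∣ m) (s : (ZMod m)ˣ) (a : ZMod 110) : RR h s a ∈ relSub m :=
  rel_od_mem_relSub Nat.prime_two ((by norm_num : 2 ∣ 110).trans h) _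

lemma RR_eq (h : 110 ∣ m) (s : (ZMod m)ˣ) (a : ZMod 110) (x : ZMod m) :
    RR h s a x = rel 2 (od (((2 : ℕ) : ZMod m) * jj h a)) (((s⁻¹ : (ZMod m)ˣ) : ZMod m) * x) := by
  unfold RR rel
  rw [mul_left_comm, od_unit, od_unit]
  congr 2
  ring

lemma diff_m (h : 110 ∣ m) (x : ZMod m) :
    oddPart (quad h L1) x - oddPart (quad h L2) x
      = rel 2 (od (((2 : ℕ) : ZMod m) * jj h 7)) x + rel 2 (od (((2 : ℕ) : ZMod m) * jj h 57)) x
      + rel 2 (od (((2 : ℕ) : ZMod m) * jj h 87)) x
      + rel 2 (od (((2 : ℕ) : ZMod m) * jj h 107)) x := by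
  by_cases hx : ∃ y, jj h y = x
  · obtain ⟨y, rfl⟩ := hx
    have h1 : oddPart (quad h L1) (jj h y)
        = oddPart (↑(L1.map (Nat.cast : ℕ → ZMod 110)) : Multiset (ZMod 110)) y :=
      oddPart_lift_apply h _ _
    have h2 : oddPart (quad h L2) (jj h y)
        = oddPart (↑(L2.map (Nat.cast : ℕ → ZMod 110)) : Multiset (ZMod 110)) y :=
      oddPart_lift_apply h _ _
    rw [h1, h2, diff_110 y]
    simp only [rel, natCast_mul_jj, od_jj]
  · push Not at hx
    have h1 : oddPart (quad h L1) x = 0 := oddPart_lift_of_forall_ne h _ hx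
    have h2 : oddPart (quad h L2) x = 0 := oddPart_lift_of_forall_ne h _ hx
    rw [h1, h2, rel_od_off h (by norm_num) 7 hx, rel_od_off h (by norm_num) 57 hx,
      rel_od_off h (by norm_num) 87 hx, rel_od_off h (by norm_num) 107 hx]
    ring

/-- the pair of pieces attached to the sporadic character -/
noncomputable def kl (h : 110 ∣ m) (s : (ZMod m)ˣ) : Multiset (ZMod m) :=
  (quad h L2).map fun a => (s : ZMod m) * a

lemma isTate_kl (h : 110 ∣ m) (s : (ZMod m)ˣ) : IsTate (kl h s) :=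
  IsTate.map_unit (isTate_L2 h) s

lemma klein_kl (h : 110 ∣ m) (s : (ZMod m)ˣ) : Klein (kl h s) := by
  have hne : ∀ a : ZMod 110, a ≠ 0 → (s : ZMod m) * jj h a ≠ 0 := by
    intro a ha h0
    have h1 : jj h a = 0 := (Units.mul_right_eq_zero s).mp h0
    exact ha (jj_injective h (by rw [h1, map_zero]))
  have hz : ∀ (n : ℕ) (a : ZMod 110), (n : ZMod 110) * a = 0 →
      (n : ZMod m) * ((s : ZMod m) * jj h a) = 0 := by
    intro n a ha
    rw [mul_left_comm, natCast_mul_jj, ha, map_zero, mul_zero]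
  refine ⟨(s : ZMod m) * jj h 44, (s : ZMod m) * jj h 20, ?_, hne _ (by decide), ?_,
    hne _ (by decide), ?_⟩
  · exact_mod_cast hz 5 44 (by decide)
  · exact_mod_cast hz 11 20 (by decide)
  · have key : ∀ (k r : ℕ) (x : ZMod 110), (k : ZMod 110) * 44 + r * 20 = x →
        (k : ZMod m) * ((s : ZMod m) * jj h 44) + r * ((s : ZMod m) * jj h 20)
          = (s : ZMod m) * jj h x := by
      intro k r x hx
      rw [mul_left_comm, natCast_mul_jj, mul_left_comm (r : ZMod m), natCast_mul_jj, ← mul_add,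
        ← map_add, hx]
    have e1 := key 1 1 64 (by decide)
    have e2 := key 1 3 104 (by decide)
    have e3 := key 1 4 14 (by decide)
    have e4 := key 1 5 34 (by decide)
    have e5 := key 1 9 4 (by decide)
    have e6 := key 2 1 108 (by decide)
    have e7 := key 2 3 38 (by decide)
    have e8 := key 2 4 58 (by decide)
    have e9 := key 2 5 78 (by decide)
    have e10 := key 2 9 48 (by decide)
    push_cast at e1 e2 e3 e4 e5 e6 e7 e8 e9 e10
    rw [one_mul] at e1 e2 e3 e4 e5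
    rw [one_mul] at e1 e6
    unfold half
    rw [e1, e2, e3, e4, e5, e6, e7, e8, e9, e10]
    unfold kl quad L2
    simp only [List.map_cons, List.map_nil, Multiset.map_coe]
    rfl

/-- the sporadic characters differ from the pairs by relations -/
lemma spor_sub_kl (h : 110 ∣ m) (s : (ZMod m)ˣ) :
    oddPart (spor h (ZMod.unitsMap h s)) - oddPart (kl h s) ∈ relSub m := by
  have e : oddPart (spor h (ZMod.unitsMap h s)) - oddPart (kl h s)
      = RR h s 7 + RR h s 57 + RR h s 87 + RR h s 107 := by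
    rw [spor_eq]
    unfold kl
    rw [oddPart_map_unit, oddPart_map_unit]
    funext x
    simp only [Pi.sub_apply, Pi.add_apply, RR_eq]
    exact diff_m h _
  rw [e]
  exact (relSub m).add_mem ((relSub m).add_mem ((relSub m).add_mem (RR_mem h s 7) (RR_mem h s 57))
    (RR_mem h s 87)) (RR_mem h s 107)

/-- the sporadic characters belong to the larger class -/
theorem isAlgG_spor (h : 110 ∣ m) (u : (ZMod 110)ˣ) : IsAlgG (GK true) (spor h u) := by
  obtain ⟨s, rfl⟩ := ZMod.unitsMap_surjective h u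
  apply isAlgG_of_mem (fun r hr => GK.neg hr) (isTate_spor h _)
  have h1 : oddPart (spor h (ZMod.unitsMap h s))
      = oddPart (kl h s) + (oddPart (spor h (ZMod.unitsMap h s)) - oddPart (kl h s)) := by abel
  rw [h1]
  apply (YY (GK true) ⊔ relSub m).add_mem
  · apply AddSubgroup.mem_sup_left
    apply AddSubgroup.subset_closure
    exact ⟨kl h s, isTate_kl h s, Or.inr (Or.inr ⟨rfl, klein_kl h s⟩), rfl⟩
  · exact AddSubgroup.mem_sup_right (spor_sub_kl h s)

/-- Characters of Fermat fourfolds. -/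
theorem fourfoldE (e : Bool) (hbase : Base) (hm : m ∣ 420 * m) {s : Multiset (ZMod m)}
    (hs : IsTate s) (h6 : s.card ≤ 6) :
    haveI : NeZero (420 * m) := ⟨mul_ne_zero (by norm_num) (NeZero.ne m)⟩
    IsAlgG (GK e) (s.map (jj hm)) ∨ e = false ∧
      (110 ∣ m ∧ ∃ (h : 110 ∣ 420 * m) (u : (ZMod 110)ˣ),
        IsAlgG (GK e) (s.map (jj hm) + spor h u)) := by
  haveI : NeZero (420 * m) := ⟨mul_ne_zero (by norm_num) (NeZero.ne m)⟩
  have hGK : ∀ s : Multiset (ZMod (420 * m)), Fano s → GK e s := fun s hs => Or.inl hs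
  rcases fourfold hbase hm hs h6 with h | ⟨h110, h, u, hu⟩
  · exact Or.inl (isAlgG_mono hGK h)
  · have h1 := isAlgG_mono hGK hu
    cases e with
    | false => exact Or.inr ⟨rfl, h110, h, u, h1⟩
    | true =>
      left
      have hneg : ∀ r : Multiset (ZMod (420 * m)), GK true r → GK true (r.map fun x => -x) :=
        fun r hr => GK.neg hr
      rw [isAlgG_iff_mem hneg (hs.lift hm)]
      have h2 := (isAlgG_iff_mem hneg h1.isTate).mp h1
      have h3 := (isAlgG_iff_mem hneg (isTate_spor h u)).mp (isAlgG_spor h u)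
      rw [oddPart_add] at h2
      have h4 := (algSubG (GK true) hneg).sub_mem h2 h3
      rwa [add_sub_cancel_right] at h4

end Pool.Agent.Lib.MP_938ce2_ag_H7f
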