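import Pool.Agent.Lib.MP_938ce2_ag_H7f.Fibre

/-!
The mean square of the odd representative (module L2).
-/

set_option autoImplicit false
set_option linter.style.haveILetI false
set_option linter.unusedSectionVars false

open Finset

namespace Pool.Agent.Lib.MP_938ce2_ag_H7f

open Pool.Agent.Lib.MP_938ce2_ag_h99 Pool.Agent.Lib.MP_938ce2_ag_H7e

variable {n : ℕ} [NeZero n]

/-- parametrisation of a fibre -/
lemma fib_param {p : ℕ} (hp : 0 < p) (hpn : p ∣ n) (b0 : ZMod n) :
    ∃ v m1 : ℕ, n = p * m1 ∧ ((p : ZMod n) * b0).val = p * v ∧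
      ∀ φ : ℕ → ℤ, ∑ b ∈ fib p b0, φ b.val = ∑ i ∈ range p, φ (v + i * m1) := by
  obtain ⟨m1, hm1⟩ := hpn
  have hm0 : 0 < n := Nat.pos_of_ne_zero (NeZero.ne n)
  have hm1p : 0 < m1 := by
    rcases Nat.eq_zero_or_pos m1 with h | h
    · rw [h, mul_zero] at hm1; omega
    · exact h
  have hmod : ∀ x y : ℕ, x ≡ y [MOD n] ↔ x ≡ y [MOD p * m1] := by
    intro x y; rw [← hm1]
  set v := b0.val % m1 with hv
  have hvlt : v < m1 := Nat.mod_lt _ hm1p
  have hlt : ∀ i, i < p → v + i * m1 < n := by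
    intro i hi
    calc v + i * m1 < m1 + i * m1 := by omega
      _ = (i + 1) * m1 := by ring
      _ ≤ p * m1 := Nat.mul_le_mul_right _ hi
      _ = n := hm1.symm
  have hkey : ∀ b : ZMod n, (p : ZMod n) * b = (p : ZMod n) * b0 ↔ b.val % m1 = v := by
    intro b
    have h1 : (p : ZMod n) * b = ((p * b.val : ℕ) : ZMod n) := by
      rw [Nat.cast_mul, ZMod.natCast_zmod_val]
    have h2 : (p : ZMod n) * b0 = ((p * b0.val : ℕ) : ZMod n) := by
      rw [Nat.cast_mul, ZMod.natCast_zmod_val]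
    rw [h1, h2, ZMod.natCast_eq_natCast_iff, hmod]
    constructor
    · intro h
      have h3 : b.val ≡ b0.val [MOD m1] := Nat.ModEq.mul_left_cancel' hp.ne' h
      rw [hv]
      exact h3
    · intro h
      exact Nat.ModEq.mul_left' p h
  have hcval : ((p : ZMod n) * b0).val = p * v := by
    have h1 : (p : ZMod n) * b0 = ((p * v : ℕ) : ZMod n) := by
      have h2 : (p : ZMod n) * b0 = ((p * b0.val : ℕ) : ZMod n) := by
        rw [Nat.cast_mul, ZMod.natCast_zmod_val]
      rw [h2, ZMod.natCast_eq_natCast_iff, hmod]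
      apply Nat.ModEq.mul_left'
      exact (Nat.mod_modEq _ _).symm
    rw [h1, ZMod.val_natCast_of_lt]
    calc p * v < p * m1 := Nat.mul_lt_mul_of_pos_left hvlt hp
      _ = n := hm1.symm
  refine ⟨v, m1, hm1, hcval, fun φ => ?_⟩
  symm
  refine sum_bij (fun i _ => ((v + i * m1 : ℕ) : ZMod n)) ?_ ?_ ?_ ?_
  · intro i hi
    rw [mem_fib, hkey, ZMod.val_natCast_of_lt (hlt i (mem_range.mp hi)), Nat.add_mul_mod_self_right,
      Nat.mod_eq_of_lt hvlt]
  · intro i hi j hj h
    have h1 := congrArg ZMod.val h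
    rw [ZMod.val_natCast_of_lt (hlt i (mem_range.mp hi)),
      ZMod.val_natCast_of_lt (hlt j (mem_range.mp hj))] at h1
    exact Nat.eq_of_mul_eq_mul_right hm1p (by omega)
  · intro b hb
    rw [mem_fib] at hb
    have h1 := (hkey b).mp hb
    refine ⟨b.val / m1, ?_, ?_⟩
    · rw [mem_range, Nat.div_lt_iff_lt_mul hm1p]
      have := ZMod.val_lt b
      rw [← hm1]
      exact this
    · rw [← h1, mul_comm (b.val / m1) m1, Nat.mod_add_div, ZMod.natCast_zmod_val]
  · intro i hi
    rw [ZMod.val_natCast_of_lt (hlt i (mem_range.mp hi))]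

lemma sum_range_id' (p : ℕ) : 2 * ∑ i ∈ range p, (i : ℤ) = p * (p - 1) := by
  induction p with
  | zero => simp
  | succ p ih =>
    rw [sum_range_succ, mul_add, ih]
    push_cast
    ring

lemma sum_range_sq' (p : ℕ) : 6 * ∑ i ∈ range p, (i : ℤ) ^ 2 = p * (p - 1) * (2 * p - 1) := by
  induction p with
  | zero => simp
  | succ p ih =>
    rw [sum_range_succ, mul_add, ih]
    push_cast
    ring

lemma fib_sq {p : ℕ} (hp : 0 < p) (hpn : p ∣ n) (x : ZMod n) :
    3 * (p : ℤ) * ∑ b ∈ fib p x, (2 * (b.val : ℤ) - n) ^ 2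
      = 3 * (2 * ((((p : ZMod n) * x).val : ℕ) : ℤ) - n) ^ 2 + (n : ℤ) ^ 2 * (p ^ 2 - 1) := by
  obtain ⟨v, m1, hn, hv, hφ⟩ := fib_param hp hpn x
  have h1 := hφ (fun k => (2 * (k : ℤ) - n) ^ 2)
  beta_reduce at h1
  rw [h1, hv]
  have hn' : (n : ℤ) = p * m1 := by exact_mod_cast hn
  rw [hn']
  have h2 : ∑ i ∈ range p, (2 * ((v + i * m1 : ℕ) : ℤ) - (p : ℤ) * m1) ^ 2
      = p * (2 * (v : ℤ) - p * m1) ^ 2 + 2 * (2 * (v : ℤ) - p * m1) * m1
        * (2 * ∑ i ∈ range p, (i : ℤ)) + 4 * m1 ^ 2 * ∑ i ∈ range p, (i : ℤ) ^ 2 := by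
    have h3 : ∀ i ∈ range p, (2 * ((v + i * m1 : ℕ) : ℤ) - (p : ℤ) * m1) ^ 2
        = (2 * (v : ℤ) - p * m1) ^ 2 + 4 * (2 * (v : ℤ) - p * m1) * m1 * (i : ℤ)
          + 4 * m1 ^ 2 * (i : ℤ) ^ 2 := by
      intro i _
      push_cast
      ring
    rw [sum_congr rfl h3, sum_add_distrib, sum_add_distrib, sum_const, card_range, nsmul_eq_mul,
      ← mul_sum, ← mul_sum]
    ring
  have h4 := sum_range_id' p
  have h5 := sum_range_sq' p
  rw [h2]
  push_cast
  linear_combination (6 * (p : ℤ) * (2 * (v : ℤ) - p * m1) * m1) * h4 + (2 * (p : ℤ) * m1 ^ 2) * h5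

/-- the deviation of the mean square -/
def DD (z : ZMod n) : ℤ :=
  ∑ t : (ZMod n)ˣ, (3 * (2 * (((t : ZMod n) * z).val : ℤ) - n) ^ 2 - (n : ℤ) ^ 2)

lemma DD_unit (s : (ZMod n)ˣ) (z : ZMod n) : DD ((s : ZMod n) * z) = DD z := by
  unfold DD
  refine Fintype.sum_equiv (Equiv.mulRight s) _ _ fun t => ?_
  rw [Equiv.coe_mulRight, Units.val_mul, mul_assoc]

lemma DD_order {z b : ZMod n} (h : addOrderOf b = addOrderOf z) : DD b = DD z := by
  obtain ⟨s, hs⟩ := exists_unit_mul h
  rw [← hs, DD_unit]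

lemma DD_fib {p : ℕ} (hp : 0 < p) (hpn : p ∣ n) (z : ZMod n) :
    (p : ℤ) * ∑ b ∈ fib p z, DD b = DD ((p : ZMod n) * z) := by
  unfold DD
  rw [sum_comm, mul_sum]
  refine sum_congr rfl fun t _ => ?_
  have h2 : ∑ b ∈ fib p z, (2 * (((t : ZMod n) * b).val : ℤ) - n) ^ 2
      = ∑ b ∈ fib p ((t : ZMod n) * z), (2 * (b.val : ℤ) - n) ^ 2 := by
    refine sum_bij' (fun b _ => (t : ZMod n) * b) (fun b _ => ((t⁻¹ : (ZMod n)ˣ) : ZMod n) * b)
      ?_ ?_ ?_ ?_ ?_
    · intro b hb
      rw [mem_fib] at hb ⊢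
      linear_combination (t : ZMod n) * hb
    · intro b hb
      rw [mem_fib] at hb ⊢
      have h3 : ((t⁻¹ : (ZMod n)ˣ) : ZMod n) * (t : ZMod n) = 1 := by
        rw [← Units.val_mul, inv_mul_cancel, Units.val_one]
      linear_combination ((t⁻¹ : (ZMod n)ˣ) : ZMod n) * hb + (p : ZMod n) * z * h3
    · intro b _
      rw [← mul_assoc, ← Units.val_mul, inv_mul_cancel, Units.val_one, one_mul]
    · intro b _
      rw [← mul_assoc, ← Units.val_mul, mul_inv_cancel, Units.val_one, one_mul]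
    · intro b _
      rfl
  have h3 := fib_sq hp hpn ((t : ZMod n) * z)
  rw [sum_sub_distrib, ← mul_sum, h2, sum_const, card_fib hp hpn, nsmul_eq_mul]
  have h5 : (p : ZMod n) * ((t : ZMod n) * z) = (t : ZMod n) * ((p : ZMod n) * z) := by ring
  rw [h5] at h3
  linear_combination h3

lemma DD_A {p : ℕ} (hp : p.Prime) {z : ZMod n} (hz : p * p ∣ addOrderOf z) :
    (p : ℤ) ^ 2 * DD z = DD ((p : ZMod n) * z) := by
  have hpn : p ∣ n := ((Dvd.intro_left p rfl).trans hz).trans (addOrderOf_dvd_m z)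
  rw [← DD_fib hp.pos hpn, sum_congr rfl fun b hb => DD_order (order_fib_A hp hz hb), sum_const,
    card_fib hp.pos hpn, nsmul_eq_mul]
  ring

lemma DD_B {p : ℕ} (hp : p.Prime) {z : ZMod n} (hz : p ∣ addOrderOf z)
    (hz' : ¬ p * p ∣ addOrderOf z) : (p : ℤ) * DD z = - DD ((p : ZMod n) * z) := by
  have hpn : p ∣ n := hz.trans (addOrderOf_dvd_m z)
  obtain ⟨b0, hb0, hord, hoth⟩ := fib_B hp hz hz'
  have h1 : ∀ b ∈ (fib p z).erase b0, DD b = DD z := by
    intro b hb
    rw [mem_erase] at hb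
    exact DD_order (hoth b hb.2 hb.1)
  have h2 : DD b0 = DD ((p : ZMod n) * z) :=
    DD_order (by rw [hord, addOrderOf_natCast_mul hp.ne_zero hz])
  have h3 := DD_fib hp.pos hpn z
  rw [← add_sum_erase _ _ hb0, sum_congr rfl h1, sum_const, card_erase_of_mem hb0,
    card_fib hp.pos hpn, h2, nsmul_eq_mul, Nat.cast_sub hp.one_le] at h3
  push_cast at h3
  have h4 : ((p : ℤ) - 1) * ((p : ℤ) * DD z) = ((p : ℤ) - 1) * (- DD ((p : ZMod n) * z)) := by
    linear_combination h3
  have h5 : ((p : ℤ) - 1) ≠ 0 := by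
    have : (2 : ℤ) ≤ p := by exact_mod_cast hp.two_le
    omega
  exact mul_left_cancel₀ h5 h4

lemma DD_zero : DD (0 : ZMod n) = 2 * (n : ℤ) ^ 2 * Nat.totient n := by
  unfold DD
  have h1 : ∀ t : (ZMod n)ˣ, 3 * (2 * (((t : ZMod n) * 0).val : ℤ) - n) ^ 2 - (n : ℤ) ^ 2
      = 2 * (n : ℤ) ^ 2 := by
    intro t
    rw [mul_zero, ZMod.val_zero]
    push_cast
    ring
  rw [sum_congr rfl fun t _ => h1 t, sum_const, card_univ, ZMod.card_units_eq_totient, nsmul_eq_mul]
  ring

/-- the deviation decays -/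
theorem abs_DD_le (z : ZMod n) :
    (addOrderOf z : ℤ) * |DD z| ≤ 2 * (n : ℤ) ^ 2 * Nat.totient n := by
  have key : ∀ k : ℕ, ∀ z : ZMod n, addOrderOf z = k →
      (k : ℤ) * |DD z| ≤ 2 * (n : ℤ) ^ 2 * Nat.totient n := by
    intro k
    induction k using Nat.strong_induction_on with
    | _ k ih =>
      intro z hz
      by_cases hk1 : k = 1
      · have hz0 : z = 0 := by
          rw [← AddMonoid.addOrderOf_eq_one_iff, hz, hk1]
        rw [hz0, DD_zero, hk1, abs_of_nonneg (by positivity)]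
        push_cast
        linarith
      · obtain ⟨p, hp, hpk⟩ := Nat.exists_prime_and_dvd hk1
        obtain ⟨e, he⟩ := hpk
        have hk0 : 0 < k := hz ▸ addOrderOf_pos z
        have he0 : 0 < e := by
          rcases Nat.eq_zero_or_pos e with h | h
          · rw [h, mul_zero] at he; omega
          · exact h
        have hp2 : (2 : ℤ) ≤ p := by exact_mod_cast hp.two_le
        have hpz : p ∣ addOrderOf z := ⟨e, by rw [hz, he]⟩
        have hlt : e < k := by
          have := hp.two_le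
          nlinarith
        have hpo : addOrderOf ((p : ZMod n) * z) = e := by
          rw [addOrderOf_natCast_mul hp.ne_zero hpz, hz, he, Nat.mul_div_cancel_left _ hp.pos]
        have h1 := ih e hlt _ hpo
        have h2 : (p : ℤ) * |DD z| ≤ |DD ((p : ZMod n) * z)| := by
          have h0 := abs_nonneg (DD z)
          by_cases hpp : p * p ∣ addOrderOf z
          · have h4 : |DD ((p : ZMod n) * z)| = (p : ℤ) ^ 2 * |DD z| := by
              rw [← DD_A hp hpp, abs_mul, abs_of_nonneg (by positivity : (0 : ℤ) ≤ (p : ℤ) ^ 2)]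
            rw [h4]
            have h5 : (p : ℤ) ≤ (p : ℤ) ^ 2 := by nlinarith
            exact mul_le_mul_of_nonneg_right h5 h0
          · have h3 := DD_B hp hpz hpp
            have h4 : |DD ((p : ZMod n) * z)| = (p : ℤ) * |DD z| := by
              rw [← abs_neg, ← h3, abs_mul, abs_of_nonneg (by positivity)]
            rw [h4]
        have he' : (0 : ℤ) ≤ e := by positivity
        rw [he]
        push_cast
        calc (p : ℤ) * e * |DD z| = e * (p * |DD z|) := by ring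
          _ ≤ e * |DD ((p : ZMod n) * z)| := mul_le_mul_of_nonneg_left h2 he'
          _ ≤ _ := h1
  exact key _ z rfl

lemma DD_two_mul_prime {p : ℕ} (hp : p.Prime) {z : ZMod n} (hz : addOrderOf z = p) : DD z ≤ 0 := by
  have h1 := DD_B hp (z := z) (by rw [hz]) (by
    rw [hz]
    intro h
    have h2 := Nat.le_of_dvd hp.pos h
    have := hp.two_le
    nlinarith)
  have h2 : (p : ZMod n) * z = 0 := by
    rw [← nsmul_eq_mul, ← hz, addOrderOf_nsmul_eq_zero]
  rw [h2, DD_zero] at h1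
  have hp2 : (0 : ℤ) < p := by exact_mod_cast hp.pos
  have h3 : (0 : ℤ) ≤ 2 * (n : ℤ) ^ 2 * Nat.totient n := by positivity
  by_contra hc
  push Not at hc
  have := mul_pos hp2 hc
  linarith

/-- The mean square of the odd representative is at most `4 / 9`. -/
theorem sum_W_sq_le {z : ZMod n} (hz : z ≠ 0) :
    9 * ∑ t : (ZMod n)ˣ, W t z ^ 2 ≤ 4 * (n : ℤ) ^ 2 * Nat.totient n := by
  have h1 : 3 * ∑ t : (ZMod n)ˣ, W t z ^ 2 = DD z + (n : ℤ) ^ 2 * Nat.totient n := by
    unfold DD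
    rw [sum_sub_distrib, sum_const, card_univ, ZMod.card_units_eq_totient, nsmul_eq_mul, mul_sum]
    have h2 : ∀ t : (ZMod n)ˣ, 3 * W t z ^ 2 = 3 * (2 * (((t : ZMod n) * z).val : ℤ) - n) ^ 2 := by
      intro t
      unfold W
      rw [if_neg hz]
    rw [sum_congr rfl fun t _ => h2 t]
    ring
  have hN : (0 : ℤ) ≤ (n : ℤ) ^ 2 * Nat.totient n := by positivity
  have h2 : 3 * DD z ≤ (n : ℤ) ^ 2 * Nat.totient n := by
    have hk := abs_DD_le z
    have hk1 : addOrderOf z ≠ 1 := by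
      intro h
      rw [AddMonoid.addOrderOf_eq_one_iff] at h
      exact hz h
    have hk0 := addOrderOf_pos z
    by_cases h6 : 6 ≤ addOrderOf z
    · have h6' : (6 : ℤ) ≤ (addOrderOf z : ℤ) := by exact_mod_cast h6
      have h3 := abs_nonneg (DD z)
      have h4 := le_abs_self (DD z)
      nlinarith
    · have hneg : DD z ≤ 0 := by
        have hc : addOrderOf z = 2 ∨ addOrderOf z = 3 ∨ addOrderOf z = 4 ∨ addOrderOf z = 5 := by
          omega
        rcases hc with h | h | h | h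
        · exact DD_two_mul_prime Nat.prime_two h
        · exact DD_two_mul_prime Nat.prime_three h
        · have h3 := DD_A Nat.prime_two (z := z) (by rw [h])
          have h4 : DD (((2 : ℕ) : ZMod n) * z) ≤ 0 := by
            apply DD_two_mul_prime Nat.prime_two
            rw [addOrderOf_natCast_mul two_ne_zero (by rw [h]; norm_num), h]
          push_cast at h3 h4
          linarith
        · exact DD_two_mul_prime Nat.prime_five h
      linarith
  linarith

end Pool.Agent.Lib.MP_938ce2_ag_H7f
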