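import Pool.Agent.Lib.MP_938ce2_ag_H7f.SplitFour
import Pool.Agent.Lib.MP_938ce2_ag_h99.MainA

/-!
Peeling at levels with four primes.
-/

set_option autoImplicit false
set_option linter.style.haveILetI false
set_option linter.unusedSectionVars false

open Finset

namespace Pool.Agent.Lib.MP_938ce2_ag_h99

variable {m : ℕ} [NeZero m]

/-- Levels with four primes `p, q, r, s`, when the parity over the box is even. -/
lemma level_four {f : ℕ} [NeZero f] (hf : f ∣ m) {p q r s : ℕ}
    (hp : p.Prime) (hq : q.Prime) (hr : r.Prime) (hs : s.Prime)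
    (hpf : p ∣ f) (hqf : q ∣ f) (hrf : r ∣ f) (hsf : s ∣ f)
    (hnd : [p, q, r, s].Nodup)
    (hall : ∀ t, t.Prime → t ∣ f → t ∈ [s, r, p, q])
    (hcard : Nat.card (Kp f p) * (Nat.card (Kp f q) * (Nat.card (Kp f r) * Nat.card (Kp f s)))
      = f.totient)
    (h1 : ¬ f ∣ 2 * (p * (r * s))) (h2 : ¬ f ∣ 2 * (q * (r * s))) (h3 : ¬ f ∣ 2 * (p * (q * s)))
    (h4 : ¬ f ∣ 2 * (p * (q * r)))
    {c1 c2 c3 c4 : (ZMod f)ˣ} (hc1 : c1 ∈ Kp f p) (hc2 : c2 ∈ Kp f q) (hc3 : c3 ∈ Kp f r)
    (hc4 : c4 ∈ Kp f s) (hc : -1 = c1 * (c2 * (c3 * c4))) (hcc3 : c3 * c3 = 1) (hcc4 : c4 * c4 = 1)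
    (F : ZMod m → ℤ) (hodd : OddF F) (hT : TateF F)
    (hsup : ∀ a, F a ≠ 0 → f ∣ addOrderOf a → addOrderOf a = f)
    (hpar : Even (F (jj hf ((1 : (ZMod f)ˣ) : ZMod f)) + F (jj hf (c1 : ZMod f))
      + F (jj hf (c2 : ZMod f)) + F (jj hf (c3 : ZMod f)) + F (jj hf ((c1 * c2 : (ZMod f)ˣ) : ZMod f))
      + F (jj hf ((c1 * c3 : (ZMod f)ˣ) : ZMod f)) + F (jj hf ((c2 * c3 : (ZMod f)ˣ) : ZMod f))
      + F (jj hf ((c1 * c2 * c3 : (ZMod f)ˣ) : ZMod f)))) : ∃ F', Peeled f F F' := by
  have hpq : p ≠ q := fun h => by simp [h] at hnd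
  have hpr : p ≠ r := fun h => by simp [h] at hnd
  have hps : p ≠ s := fun h => by simp [h] at hnd
  have hqr : q ≠ r := fun h => by simp [h] at hnd
  have hqs : q ≠ s := fun h => by simp [h] at hnd
  have hrs : r ≠ s := fun h => by simp [h] at hnd
  have hprime : ∀ t ∈ [s, r, p, q], t.Prime ∧ t ∣ f := by
    intro t ht
    simp only [List.mem_cons, List.not_mem_nil, or_false] at ht
    rcases ht with rfl | rfl | rfl | rfl
    · exact ⟨hs, hsf⟩
    · exact ⟨hr, hrf⟩
    · exact ⟨hp, hpf⟩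
    · exact ⟨hq, hqf⟩
  have hprime' : ∀ l : List ℕ, (∀ t ∈ l, t ∈ [s, r, p, q]) → ∀ t ∈ l, t.Prime ∧ t ∣ f :=
    fun l h t ht => hprime t (h t ht)
  have hI := indep_Kp [s, r, p, q] hprime (by
    simp [hpq, Ne.symm hpr, Ne.symm hqr, Ne.symm hrs, Ne.symm hps, Ne.symm hqs])
  have hI1 := indep_Kp [p, q, r, s] (hprime' _ (by
    intro t ht
    simp only [List.mem_cons, List.not_mem_nil, or_false] at ht ⊢
    tauto)) (by simp [hpq, hpr, hqr, hps, hqs, hrs])
  have hI3 := indep_Kp [r, p, q, s] (hprime' _ (by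
    intro t ht
    simp only [List.mem_cons, List.not_mem_nil, or_false] at ht ⊢
    tauto)) (by simp [hpq, Ne.symm hpr, Ne.symm hqr, hps, hqs, hrs])
  simp only [List.map_cons, List.map_nil] at hI hI1 hI3
  have hd4 : Disjoint (Kp f s) (Kp f r ⊔ (Kp f p ⊔ Kp f q)) := by
    have := hI.1
    simpa [spanL] using this
  have hd1 : Disjoint (Kp f p) (Kp f q ⊔ (Kp f r ⊔ Kp f s)) := by
    have := hI1.1
    simpa [spanL] using this
  have hd3 : Disjoint (Kp f r) ((Kp f p ⊔ Kp f q) ⊔ Kp f s) := by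
    have := hI3.1
    simpa [spanL, sup_assoc] using this
  have hd2 : Disjoint (Kp f q) (Kp f r ⊔ Kp f s) := by
    have := hI1.2.1
    simpa [spanL] using this
  have hd34 : Disjoint (Kp f r) (Kp f s) := by
    have := hI1.2.2.1
    simpa [spanL] using this
  have htop : Kp f p ⊔ (Kp f q ⊔ (Kp f r ⊔ Kp f s)) = ⊤ := by
    apply Subgroup.eq_top_of_card_eq
    rw [card_sup hd1, card_sup hd2, card_sup hd34, hcard, Nat.card_eq_fintype_card,
      ZMod.card_units_eq_totient]
  have n1 : (-1 : (ZMod f)ˣ) ∉ Kp f p ⊔ (Kp f r ⊔ Kp f s) := by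
    have := neg_one_not_mem_span (f := f) (p * (r * s)) [p, r, s] (by
      intro t ht
      simp only [List.mem_cons, List.not_mem_nil, or_false] at ht
      rcases ht with rfl | rfl | rfl
      · exact dvd_mul_right _ _
      · exact (dvd_mul_right _ _).mul_left _
      · exact (dvd_mul_left _ _).mul_left _) h1
    simpa [spanL] using this
  have n2 : (-1 : (ZMod f)ˣ) ∉ Kp f q ⊔ (Kp f r ⊔ Kp f s) := by
    have := neg_one_not_mem_span (f := f) (q * (r * s)) [q, r, s] (by
      intro t ht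
      simp only [List.mem_cons, List.not_mem_nil, or_false] at ht
      rcases ht with rfl | rfl | rfl
      · exact dvd_mul_right _ _
      · exact (dvd_mul_right _ _).mul_left _
      · exact (dvd_mul_left _ _).mul_left _) h2
    simpa [spanL] using this
  have n3 : (-1 : (ZMod f)ˣ) ∉ (Kp f p ⊔ Kp f q) ⊔ Kp f s := by
    have := neg_one_not_mem_span (f := f) (p * (q * s)) [p, q, s] (by
      intro t ht
      simp only [List.mem_cons, List.not_mem_nil, or_false] at ht
      rcases ht with rfl | rfl | rfl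
      · exact dvd_mul_right _ _
      · exact (dvd_mul_right _ _).mul_left _
      · exact (dvd_mul_left _ _).mul_left _) h3
    simpa [spanL, sup_assoc] using this
  have n4 : (-1 : (ZMod f)ˣ) ∉ Kp f p ⊔ (Kp f q ⊔ Kp f r) := by
    have := neg_one_not_mem_span (f := f) (p * (q * r)) [p, q, r] (by
      intro t ht
      simp only [List.mem_cons, List.not_mem_nil, or_false] at ht
      rcases ht with rfl | rfl | rfl
      · exact dvd_mul_right _ _
      · exact (dvd_mul_right _ _).mul_left _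
      · exact (dvd_mul_left _ _).mul_left _) h4
    simpa [spanL] using this
  have hMD := MD_top hf F hodd hT hsup [s, r, p, q] hall
  simp only [List.map_cons, List.map_nil] at hMD
  obtain ⟨G1, G2, G3, G4, g1, g2, g3, g4, g5, g6, g7, g8, g9⟩ := split_four (-1) c1 c2 c3 c4
    (by simp) hcc3 hcc4 (Kp f p) (Kp f q) (Kp f r) (Kp f s) hI.2 hd1 hd3 hd4 htop hc1 hc2 hc3 hc4 hc
    n1 n2 n3 n4 (fun u : (ZMod f)ˣ => F (jj hf (u : ZMod f))) hMD (odd_top hf hodd) hpar
  refine Peeled.of_peel hf hodd hT [s, r, p, q] hprime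
    (fun t => if t = p then G1 else if t = q then G2 else if t = r then G3 else G4) ?_ ?_ ?_
  · intro t ht z hz u
    simp only [List.mem_cons, List.not_mem_nil, or_false] at ht
    rcases ht with rfl | rfl | rfl | rfl
    · rw [if_neg (Ne.symm hps), if_neg (Ne.symm hqs), if_neg (Ne.symm hrs)]
      exact g4 z hz u
    · rw [if_neg (Ne.symm hpr), if_neg (Ne.symm hqr), if_pos rfl]
      exact g3 z hz u
    · rw [if_pos rfl]
      exact g1 z hz u
    · rw [if_neg (Ne.symm hpq), if_pos rfl]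
      exact g2 z hz u
  · intro u
    simp only [List.map_cons, List.map_nil, List.sum_cons, List.sum_nil, add_zero, if_true,
      if_neg (Ne.symm hpr), if_neg (Ne.symm hqr), if_neg (Ne.symm hpq), if_neg (Ne.symm hps),
      if_neg (Ne.symm hqs), if_neg (Ne.symm hrs)]
    rw [g5 u]
    ring
  · intro t ht u
    simp only [List.mem_cons, List.not_mem_nil, or_false] at ht
    rcases ht with rfl | rfl | rfl | rfl
    · rw [if_neg (Ne.symm hps), if_neg (Ne.symm hqs), if_neg (Ne.symm hrs)]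
      exact g9 u
    · rw [if_neg (Ne.symm hpr), if_neg (Ne.symm hqr), if_pos rfl]
      exact g8 u
    · rw [if_pos rfl]
      exact g6 u
    · rw [if_neg (Ne.symm hpq), if_pos rfl]
      exact g7 u

end Pool.Agent.Lib.MP_938ce2_ag_h99
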