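import Pool.Agent.Lib.MP_938ce2_ag_H7f.Core

/-!
Mixed differences at the top level for relations without parity.
-/

set_option autoImplicit false
set_option linter.style.haveILetI false
set_option linter.unusedSectionVars false

open Finset

namespace Pool.Agent.Lib.MP_938ce2_ag_H7f

open Pool.Agent.Lib.MP_938ce2_ag_h99 Pool.Agent.Lib.MP_938ce2_ag_H7e

variable {m r : ℕ} [NeZero m] [NeZero r]

/-- both parts of `H` are rational relations -/
structure TP0 (e : ZMod r → ℤ) (H : ZMod m → ℤ) : Prop where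
  o : TateF (fun a => H a - H (-a))
  ev : TateF (sharp m r e (fun a => H a + H (-a)))

lemma TateF_zero : TateF (0 : ZMod m → ℤ) := by
  intro t
  simp

lemma TateF_neg {F : ZMod m → ℤ} (h : TateF F) : TateF (-F) := by
  have := TateF_zero.sub h
  rwa [zero_sub] at this

lemma TP0.sub {e : ZMod r → ℤ} {H G : ZMod m → ℤ} (hH : TP0 e H) (hG : TP0 e G) :
    TP0 e (H - G) where
  o := by
    have := hH.o.sub hG.o
    convert this using 1
    funext a
    simp only [Pi.sub_apply]
    ring
  ev := by
    have := hH.ev.add (TateF_neg hG.ev)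
    rw [← sharp_neg, ← sharp_add] at this
    convert this using 2
    funext a
    simp only [Pi.sub_apply, Pi.add_apply, Pi.neg_apply]
    ring

lemma TP0.zero {e : ZMod r → ℤ} : TP0 e (0 : ZMod m → ℤ) where
  o := by
    convert (TateF_zero (m := m)) using 1
    funext a
    simp
  ev := by
    have h0 : (fun a => (0 : ZMod m → ℤ) a + (0 : ZMod m → ℤ) (-a)) = (0 : ZMod m → ℤ) := by
      funext a
      simp
    rw [h0, sharp_zero]
    exact TateF_zero

lemma TP0.add {e : ZMod r → ℤ} {H G : ZMod m → ℤ} (hH : TP0 e H) (hG : TP0 e G) :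
    TP0 e (H + G) := by
  have h1 := TP0.zero.sub hG
  have h2 := hH.sub h1
  convert h2 using 1
  abel

lemma TP0.list_sum {e : ZMod r → ℤ} : ∀ (L : List (ZMod m → ℤ)), (∀ h ∈ L, TP0 e h) →
    TP0 e L.sum
  | [], _ => TP0.zero
  | h :: L, hL => by
      rw [List.sum_cons]
      exact (hL h List.mem_cons_self).add (TP0.list_sum L fun h' hh' =>
        hL h' (List.mem_cons_of_mem _ hh'))

lemma TP0.of_rel {e : ZMod r → ℤ} (he : Aux m r e)
    {p : ℕ} (hp : p.Prime) (hpm : p ∣ m) {h : ZMod m → ℤ}
    (hs : ∀ a, h a ≠ 0 → ∃ b, a = (p : ZMod m) * b) : TP0 e (rel p h) := by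
  have hs' : ∀ a, h (-a) ≠ 0 → ∃ b, a = (p : ZMod m) * b := by
    intro a ha
    obtain ⟨b, hb⟩ := hs _ ha
    exact ⟨-b, by rw [mul_neg, ← hb, neg_neg]⟩
  constructor
  · have h1 : (fun a => rel p h a - rel p h (-a)) = rel p (fun a => h a - h (-a)) := by
      funext a
      unfold rel
      rw [mul_neg]
      ring
    rw [h1]
    apply rel_tate hp.pos hpm
    · intro a; beta_reduce; rw [neg_neg]; ring
    · intro a ha
      by_contra hc
      apply ha
      have h2 : h a = 0 := by_contra fun h2 => hc (hs a h2)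
      have h3 : h (-a) = 0 := by_contra fun h2 => hc (hs' a h2)
      rw [h2, h3, sub_zero]
  · have h1 : (fun a => rel p h a + rel p h (-a)) = rel p (fun a => h a + h (-a)) := by
      funext a
      unfold rel
      rw [mul_neg]
      ring
    rw [h1, sharp_rel he hp hpm]
    apply rel_tate hp.pos (hpm.trans (Dvd.intro _ rfl))
    · apply sharp_odd he
      intro a
      beta_reduce
      rw [neg_neg, add_comm]
    · apply sharp_supp hpm
      intro a ha
      by_contra hc
      apply ha
      have h2 : h a = 0 := by_contra fun h2 => hc (hs a h2)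
      have h3 : h (-a) = 0 := by_contra fun h2 => hc (hs' a h2)
      rw [h2, h3, add_zero]

/-- mixed differences at the top level -/
theorem MD_all0 {f : ℕ} (hfm : f ∣ m) [NeZero f] {e : ZMod r → ℤ} (he : Aux m r e)
    (H : ZMod m → ℤ) (hT : TP0 e H)
    (hsup : ∀ a, H a ≠ 0 → f ∣ addOrderOf a → addOrderOf a = f)
    (ps : List ℕ) (hps : ∀ p, p.Prime → p ∣ f → p ∈ ps) :
    MD (ps.map (Kp f)) (fun u : (ZMod f)ˣ => H (jj hfm (u : ZMod f))) := by
  have hrm : Nat.Coprime r m := he.cop
  have hr := he.hr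
  haveI : Fact r.Prime := ⟨hr⟩
  have hm0 : m ≠ 0 := NeZero.ne m
  have hsup' : ∀ a, H (-a) ≠ 0 → f ∣ addOrderOf a → addOrderOf a = f := by
    intro a ha hd
    have := hsup _ ha (by rwa [addOrderOf_neg])
    rwa [addOrderOf_neg] at this
  -- the odd part
  have hMDo : MD (ps.map (Kp f))
      (fun u : (ZMod f)ˣ => H (jj hfm (u : ZMod f)) - H (-(jj hfm (u : ZMod f)))) := by
    refine MD_top hfm (fun a => H a - H (-a)) ?_ hT.o ?_ ps hps
    · intro a; beta_reduce; rw [neg_neg]; ring
    · intro a ha hd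
      by_cases h1 : H a = 0
      · by_cases h2 : H (-a) = 0
        · exact absurd (by rw [h1, h2, sub_zero]) ha
        · exact hsup' a h2 hd
      · exact hsup a h1 hd
  -- the even part
  set He : ZMod m → ℤ := fun a => H a + H (-a) with hHe
  have hHe0 : ∀ a, He a ≠ 0 → H a ≠ 0 ∨ H (-a) ≠ 0 := by
    intro a ha
    by_contra hc
    push Not at hc
    exact ha (by rw [hHe]; beta_reduce; rw [hc.1, hc.2, add_zero])
  have hf' : f * r ∣ m * r := Nat.mul_dvd_mul_right hfm r
  haveI : NeZero (f * r) := ⟨mul_ne_zero (NeZero.ne f) (NeZero.ne r)⟩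
  have hff' : f ∣ f * r := Dvd.intro _ rfl
  have hrf' : r ∣ f * r := Dvd.intro_left _ rfl
  have hcopfr : Nat.Coprime f r := (Nat.Coprime.coprime_dvd_right hfm hrm).symm
  have hMDe' : MD ((r :: ps).map (Kp (f * r)))
      (fun w : (ZMod (f * r))ˣ => sharp m r e He (jj hf' (w : ZMod (f * r)))) := by
    refine MD_top hf' (sharp m r e He) ?_ hT.ev ?_ (r :: ps) ?_
    · apply sharp_odd he
      intro a
      rw [hHe]
      beta_reduce
      rw [neg_neg, add_comm]
    · intro a ha hd
      have h1 : He (ZMod.castHom (Dvd.intro _ rfl : m ∣ m * r) (ZMod m) a) ≠ 0 := by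
        intro h0; apply ha; unfold sharp; rw [h0, zero_mul]
      have h2 : ZMod.castHom (Dvd.intro_left _ rfl : r ∣ m * r) (ZMod r) a ≠ 0 := by
        intro h0; apply ha; unfold sharp; rw [h0, he.zero, mul_zero]
      have h3 := order_sharp hr hrm a h2
      rw [h3] at hd ⊢
      have h4 : f ∣ addOrderOf (ZMod.castHom (Dvd.intro _ rfl : m ∣ m * r) (ZMod m) a) :=
        Nat.dvd_of_mul_dvd_mul_right hr.pos hd
      congr 1
      rcases hHe0 _ h1 with h | h
      · exact hsup _ h h4
      · exact hsup' _ h h4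
    · intro p hp hpg
      rcases hp.dvd_mul.mp hpg with h | h
      · exact List.mem_cons_of_mem _ (hps p hp h)
      · rw [(Nat.prime_dvd_prime_iff_eq hp hr).mp h]
        exact List.mem_cons_self
  -- values of the transferred function
  set φ := ZMod.unitsMap hff' with hφ
  set ρ := ZMod.unitsMap hrf' with hρ
  have hdiv : (m * r) / (f * r) = m / f := Nat.mul_div_mul_right _ _ hr.pos
  have hcdvd : m / f ∣ m := Nat.div_dvd_of_dvd hfm
  have hval : ∀ w : (ZMod (f * r))ˣ, sharp m r e He (jj hf' (w : ZMod (f * r)))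
      = He (jj hfm ((φ w : (ZMod f)ˣ) : ZMod f)) * e ((ρ w : (ZMod r)ˣ) : ZMod r) := by
    intro w
    have h0 : jj hf' (w : ZMod (f * r))
        = ((m / f * (w : ZMod (f * r)).val : ℕ) : ZMod (m * r)) := by
      conv_lhs => rw [← ZMod.natCast_zmod_val (w : ZMod (f * r))]
      rw [jj_natCast, hdiv]
    unfold sharp
    rw [h0, map_natCast, map_natCast]
    congr 1
    · congr 1
      have h1 : ((φ w : (ZMod f)ˣ) : ZMod f)
          = (((w : ZMod (f * r)).val : ℕ) : ZMod f) := by
        rw [hφ, ZMod.unitsMap_val, ZMod.cast_eq_val]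
      rw [h1, jj_natCast]
    · have h1 : ((ρ w : (ZMod r)ˣ) : ZMod r)
          = (((w : ZMod (f * r)).val : ℕ) : ZMod r) := by
        rw [hρ, ZMod.unitsMap_val, ZMod.cast_eq_val]
      rw [h1, Nat.cast_mul, he.mul, aux_dvd he _ hcdvd hm0, one_mul]
  have hMDe : MD (ps.map (Kp f))
      (fun u : (ZMod f)ˣ => He (jj hfm (u : ZMod f))) := by
    -- remove the auxiliary prime
    have h1 : MD (ps.map (Kp (f * r)))
        (fun w : (ZMod (f * r))ˣ => He (jj hfm ((φ w : (ZMod f)ˣ) : ZMod f))
          * e ((ρ w : (ZMod r)ˣ) : ZMod r)) := by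
      apply MD.of_two
      rw [List.map_cons, MD_cons] at hMDe'
      obtain ⟨k, hk1, hk2⟩ := exists_lift2 (NeZero.ne (f * r)) rfl
        hcopfr hff' hrf' (1 : (ZMod f)ˣ) (-1 : (ZMod r)ˣ)
      have hkK : k ∈ Kp (f * r) r := by
        rw [mem_Kp_iff_unitsMap hrf']
        have hdd : f * r / r = f := Nat.mul_div_cancel _ hr.pos
        apply Units.ext
        rw [ZMod.unitsMap_val, Units.val_one]
        have h3 := congrArg Units.val hk1
        rw [ZMod.unitsMap_val, Units.val_one] at h3
        rw [ZMod.cast_eq_val] at h3 ⊢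
        rw [← Nat.cast_one, ZMod.natCast_eq_natCast_iff] at h3 ⊢
        rw [hdd]
        exact h3
      have h2 := hMDe' k hkK
      convert h2 using 2 with w
      rw [hval, hval]
      have e1 : φ (k * w) = φ w := by rw [map_mul, hφ, hk1, one_mul]
      have e2 : ((ρ (k * w) : (ZMod r)ˣ) : ZMod r) = -1 * ((ρ w : (ZMod r)ˣ) : ZMod r) := by
        rw [map_mul, hρ, hk2, Units.val_mul, Units.val_neg, Units.val_one]
      rw [e1, e2, he.mul, he.neg]
      ring
    intro x
    obtain ⟨w, hw1, hw2⟩ := exists_lift2 (NeZero.ne (f * r)) rfl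
        hcopfr hff' hrf' x (1 : (ZMod r)ˣ)
    have h2 := h1 w
    rw [← hw1]
    refine MD.transfer φ ρ.ker (fun w => e ((ρ w : (ZMod r)ˣ) : ZMod r)) ?_
      (ps.map (Kp f)) (ps.map (Kp (f * r))) ?_
      (fun u : (ZMod f)ˣ => He (jj hfm (u : ZMod f))) w ?_ h2
    · intro k hk w
      rw [MonoidHom.mem_ker] at hk
      beta_reduce
      rw [map_mul, hk, one_mul]
    · rw [List.forall₂_map_left_iff, List.forall₂_map_right_iff, List.forall₂_same]
      intro p _ k hk
      obtain ⟨k', hk'1, hk'2⟩ := exists_lift2 (NeZero.ne (f * r)) rfl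
        hcopfr hff' hrf' k (1 : (ZMod r)ˣ)
      refine ⟨k', ?_, ?_, hk'1⟩
      · rw [mem_Kp] at hk ⊢
        have h3 : (((k' : ZMod (f * r)).val * p : ℕ) : ZMod (f * r))
            = (p : ZMod (f * r)) := by
          rw [ZMod.natCast_eq_natCast_iff]
          have h4 : (k' : ZMod (f * r)).val * p ≡ p [MOD f] := by
            rw [← ZMod.natCast_eq_natCast_iff, Nat.cast_mul]
            have h5 := congrArg Units.val hk'1
            rw [ZMod.unitsMap_val, ZMod.cast_eq_val] at h5
            rw [h5, hk]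
          have h6 : (k' : ZMod (f * r)).val * p ≡ p [MOD r] := by
            have h5 := congrArg Units.val hk'2
            rw [ZMod.unitsMap_val, ZMod.cast_eq_val, Units.val_one] at h5
            rw [← ZMod.natCast_eq_natCast_iff, Nat.cast_mul, h5, one_mul]
          exact (Nat.modEq_and_modEq_iff_modEq_mul hcopfr).mp ⟨h4, h6⟩
        rw [Nat.cast_mul, ZMod.natCast_zmod_val] at h3
        exact h3
      · rw [MonoidHom.mem_ker]
        exact hk'2
    · beta_reduce
      rw [hρ, hw2, Units.val_one, he.one]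
  -- combine
  apply MD.of_two
  have := MD.add hMDo hMDe
  convert this using 2 with u
  rw [hHe]
  ring

end Pool.Agent.Lib.MP_938ce2_ag_H7f
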