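import Pool.Agent.Lib.MP_938ce2_ag_H7f.MD0

/-!
Peeling without parity, and the parity argument at one level.
-/

set_option autoImplicit false
set_option linter.style.haveILetI false
set_option linter.unusedSectionVars false

open Finset

namespace Pool.Agent.Lib.MP_938ce2_ag_H7f

open Pool.Agent.Lib.MP_938ce2_ag_h99 Pool.Agent.Lib.MP_938ce2_ag_H7e

variable {m r : ℕ} [NeZero m] [NeZero r]

/-- relations inside the `D`-torsion -/
def relD (m D : ℕ) : AddSubgroup (ZMod m → ℤ) :=
  AddSubgroup.closure {h | ∃ (p : ℕ) (g : ZMod m → ℤ), p.Prime ∧ p ∣ D ∧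
    (∀ a, g a ≠ 0 → addOrderOf a ∣ D / p) ∧ h = rel p g}

/-- the relation with a given top part -/
theorem exists_R {f D : ℕ} (hf : f ∣ m) (hfD : f ∣ D) [NeZero f] {e : ZMod r → ℤ} (he : Aux m r e)
    (ps : List ℕ)
    (hnd : ps.Nodup) (hps : ∀ p ∈ ps, p.Prime ∧ p ∣ f) (g : ZMod m → ℤ)
    (hMD : MD (ps.map (Kp f)) (fun u : (ZMod f)ˣ => g (jj hf (u : ZMod f)))) :
    ∃ R : ZMod m → ℤ, TP0 e R ∧ (∀ a, addOrderOf a = f → R a = g a) ∧
      (∀ a, R a ≠ 0 → addOrderOf a = f ∨ ∃ p ∈ ps, addOrderOf a = f / p) ∧ R ∈ relD m D := by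
  obtain ⟨G, hG1, hG2⟩ := int_split0 (Kp f) ps hnd (indep_Kp ps hps hnd) _ hMD
  refine ⟨(ps.map (RR hf G)).sum, ?_, ?_, ?_, ?_⟩
  · apply TP0.list_sum
    intro x hx
    obtain ⟨p, hp, rfl⟩ := List.mem_map.mp hx
    exact TP0.of_rel he (hps p hp).1 ((hps p hp).2.trans hf) (gOf_supp hf)
  · intro a ha
    obtain ⟨u, rfl⟩ := exists_unit_of_order hf ha
    rw [list_sum_apply]
    have h2 : (ps.map fun p => RR hf G p (jj hf (u : ZMod f))) = ps.map fun p => G p u := by
      apply List.map_congr_left
      intro p hp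
      exact RR_top hf (hps p hp).1 (hps p hp).2 (hG1 p hp) u
    rw [h2]
    exact (hG2 u).symm
  · intro a ha
    rw [list_sum_apply] at ha
    obtain ⟨x, hx, hx0⟩ := List.exists_mem_ne_zero_of_sum_ne_zero ha
    obtain ⟨p, hp, rfl⟩ := List.mem_map.mp hx
    rcases RR_other hf (hps p hp).1 (hps p hp).2 hx0 with h | h
    · left; exact h
    · right; exact ⟨p, hp, h⟩
  · apply AddSubgroup.list_sum_mem
    intro x hx
    obtain ⟨p, hp, rfl⟩ := List.mem_map.mp hx
    apply AddSubgroup.subset_closure
    refine ⟨p, gOf hf p (G p), (hps p hp).1, (hps p hp).2.trans hfD, ?_, rfl⟩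
    intro a ha
    rw [gOf_order hf (hps p hp).1.ne_zero (hps p hp).2 ha]
    obtain ⟨c, hc⟩ := hfD
    rw [hc, Nat.mul_comm f c, Nat.mul_div_assoc c (hps p hp).2]
    exact Dvd.intro_left _ rfl

lemma primeList {f : ℕ} (hf0 : f ≠ 0) : ∀ p, p ∈ f.primeFactors.toList ↔ p.Prime ∧ p ∣ f := by
  intro p
  rw [Finset.mem_toList, Nat.mem_primeFactors]
  exact ⟨fun h => ⟨h.1, h.2.1⟩, fun h => ⟨h.1, h.2, hf0⟩⟩

/-- reduction of `g` to the `d`-torsion -/
theorem reduceA {d : ℕ} {e : ZMod r → ℤ} (he : Aux m r e) (δ : ZMod m → ℤ)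
    (hδ : ∀ a, δ a ≠ 0 → addOrderOf a ∣ d) : ∀ (k : ℕ) (g : ZMod m → ℤ),
    TP0 e (fun a => 2 * g a - δ a) → (∀ a, g a ≠ 0 → addOrderOf a ∣ d ∨ addOrderOf a ≤ k) →
    ∃ g' : ZMod m → ℤ, TP0 e (fun a => 2 * g' a - δ a) ∧ ∀ a, g' a ≠ 0 → addOrderOf a ∣ d := by
  intro k
  induction k with
  | zero =>
    intro g hT hs
    refine ⟨g, hT, fun a ha => ?_⟩
    rcases hs a ha with h | h
    · exact h
    · have := order_pos a
      omega
  | succ k ih =>
    intro g hT hs
    by_cases hf : (k + 1) ∣ m ∧ ¬ (k + 1) ∣ d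
    swap
    · apply ih g hT
      intro a ha
      rcases hs a ha with h | h
      · left; exact h
      · by_cases h2 : addOrderOf a = k + 1
        · left
          by_contra hc
          exact hf ⟨h2 ▸ addOrderOf_dvd_m a, h2 ▸ hc⟩
        · right; omega
    obtain ⟨hfm, hfd⟩ := hf
    set f := k + 1 with hfk
    haveI : NeZero f := ⟨by omega⟩
    have hmem := primeList (f := f) (by omega)
    have htopg : ∀ a, g a ≠ 0 → f ∣ addOrderOf a → addOrderOf a = f := by
      intro a ha hd
      rcases hs a ha with h | h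
      · exact absurd (hd.trans h) hfd
      · exact le_antisymm h (Nat.le_of_dvd (order_pos a) hd)
    have hMD2 := MD_all0 hfm he (fun a => 2 * g a - δ a) hT (by
      intro a ha hd
      by_cases h1 : g a = 0
      · have h2 : δ a ≠ 0 := by
          intro h0
          apply ha
          rw [h1, h0]; rfl
        exact absurd (hd.trans (hδ a h2)) hfd
      · exact htopg a h1 hd) f.primeFactors.toList (fun p hp hpf => (hmem p).mpr ⟨hp, hpf⟩)
    have hMD : MD (f.primeFactors.toList.map (Kp f)) (fun u : (ZMod f)ˣ => g (jj hfm (u : ZMod f))) := by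
      apply MD.of_two
      convert hMD2 using 2 with u
      have : δ (jj hfm (u : ZMod f)) = 0 := by
        by_contra h0
        have := hδ _ h0
        rw [addOrderOf_unit hfm u] at this
        exact hfd this
      rw [this, sub_zero]
    obtain ⟨R, hR1, hR2, hR3, _⟩ := exists_R hfm dvd_rfl he f.primeFactors.toList
      (Finset.nodup_toList _) (fun p hp => (hmem p).mp hp) g hMD
    apply ih (g - R)
    · have h1 := (hT.sub hR1).sub hR1
      convert h1 using 1
      funext a
      simp only [Pi.sub_apply]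
      ring
    · intro a ha
      have h0 : addOrderOf a ≠ f := by
        intro h
        apply ha
        rw [Pi.sub_apply, hR2 a h, sub_self]
      by_cases h1 : R a = 0
      · have h2 : g a ≠ 0 := by
          intro h3
          apply ha
          rw [Pi.sub_apply, h1, h3, sub_zero]
        rcases hs a h2 with h | h
        · left; exact h
        · right; omega
      · rcases hR3 a h1 with h | ⟨p, hp, h⟩
        · exact absurd h h0
        · right
          have hp' := (hmem p).mp hp
          have := Nat.div_lt_self (show 0 < f by omega) hp'.1.one_lt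
          omega

/-- a function satisfying both conditions is an integral combination of relations -/
theorem mem_relD {D : ℕ} {e : ZMod r → ℤ} (he : Aux m r e) : ∀ (k : ℕ) (H : ZMod m → ℤ),
    TP0 e H → (∀ a, H a ≠ 0 → addOrderOf a ∣ D) → (∀ a, H a ≠ 0 → addOrderOf a ≤ k) → D ≠ 0 →
    ∃ c : ℤ, H - Pi.single 0 c ∈ relD m D := by
  intro k
  induction k with
  | zero =>
    intro H hT hs hk _
    have : H = 0 := by
      funext a
      by_contra ha
      have h1 := hk a ha
      have h2 := order_pos a
      omega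
    refine ⟨0, ?_⟩
    rw [this, Pi.single_zero, sub_zero]
    exact (relD m D).zero_mem
  | succ k ih =>
    intro H hT hs hk hD0
    by_cases hf : (k + 1) ∣ m ∧ (k + 1) ∣ D
    swap
    · refine ih H hT hs ?_ hD0
      intro a ha
      have h1 := hk a ha
      have h2 : addOrderOf a ≠ k + 1 := by
        intro h
        exact hf ⟨h ▸ addOrderOf_dvd_m a, h ▸ hs a ha⟩
      omega
    obtain ⟨hfm, hfD⟩ := hf
    set f := k + 1 with hfk
    haveI : NeZero f := ⟨by omega⟩
    by_cases hf1 : f = 1
    · refine ⟨H 0, ?_⟩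
      have : H - Pi.single 0 (H 0) = 0 := by
        funext a
        rw [Pi.sub_apply]
        by_cases ha : a = 0
        · rw [ha, Pi.single_eq_same, sub_self]; rfl
        · rw [Pi.single_eq_of_ne ha, sub_zero]
          by_contra hne
          have h1 := hk a hne
          have h2 := order_pos a
          have h3 : addOrderOf a = 1 := by omega
          exact ha (AddMonoid.addOrderOf_eq_one_iff.mp h3)
      rw [this]
      exact (relD m D).zero_mem
    have hmem := primeList (f := f) (by omega)
    have hMD := MD_all0 hfm he H hT (by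
      intro a ha hd
      exact le_antisymm (hk a ha) (Nat.le_of_dvd (order_pos a) hd)) f.primeFactors.toList
      (fun p hp hpf => (hmem p).mpr ⟨hp, hpf⟩)
    obtain ⟨R, hR1, hR2, hR3, hR4⟩ := exists_R hfm hfD he f.primeFactors.toList
      (Finset.nodup_toList _) (fun p hp => (hmem p).mp hp) H hMD
    have hne : ∀ a, (H - R) a ≠ 0 → addOrderOf a ∣ D ∧ addOrderOf a ≤ k := by
      intro a ha
      have h0 : addOrderOf a ≠ f := by
        intro h
        apply ha
        rw [Pi.sub_apply, hR2 a h, sub_self]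
      by_cases h1 : R a = 0
      · have h2 : H a ≠ 0 := by
          intro h3
          apply ha
          rw [Pi.sub_apply, h1, h3, sub_zero]
        have := hk a h2
        exact ⟨hs a h2, by omega⟩
      · rcases hR3 a h1 with h | ⟨p, hp, h⟩
        · exact absurd h h0
        · have hp' := (hmem p).mp hp
          have h3 := Nat.div_lt_self (show 0 < f by omega) hp'.1.one_lt
          refine ⟨?_, by omega⟩
          rw [h]
          exact (Nat.div_dvd_of_dvd hp'.2).trans hfD
    obtain ⟨c, hc⟩ := ih (H - R) (hT.sub hR1) (fun a ha => (hne a ha).1) (fun a ha => (hne a ha).2)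
      hD0
    refine ⟨c, ?_⟩
    have := (relD m D).add_mem hc hR4
    convert this using 1
    abel

/-- a delta function modulo two has a nonzero mixed difference -/
lemma no_MD_delta {A : Type*} [CommGroup A] : ∀ (L : List (Subgroup A)), IndepL L →
    (∀ K ∈ L, K ≠ ⊥) → ∀ (g : A → ℤ) (u : A), (∀ h ∈ spanL L, (Odd (g (h * u)) ↔ h = 1)) →
    ¬ MDat L g u
  | [], _, _, g, u, hg => by
      intro h
      have h1 : g u = 0 := h
      have h2 := (hg 1 (Subgroup.one_mem _)).mpr rfl
      rw [one_mul, h1] at h2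
      exact absurd h2 (by decide)
  | K :: L, hI, hne, g, u, hg => by
      intro h
      obtain ⟨⟨k, hk⟩, hk0⟩ := Subgroup.ne_bot_iff_exists_ne_one.mp (hne K List.mem_cons_self)
      have hk1 : k ≠ 1 := fun h => hk0 (Subtype.ext h)
      refine no_MD_delta L hI.2 (fun K' hK' => hne K' (List.mem_cons_of_mem _ hK')) _ u ?_ (h k hk)
      intro y hy
      have h1 := hg y (Subgroup.mem_sup_right hy)
      have h2 := hg (k * y) (Subgroup.mul_mem_sup hk hy)
      have h3 : k * y ≠ 1 := by
        intro h4
        apply hk1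
        have h5 : k = y⁻¹ := eq_inv_of_mul_eq_one_left h4
        exact Subgroup.disjoint_def.mp hI.1 hk (h5 ▸ (spanL L).inv_mem hy)
      have h4 : ¬ Odd (g (k * y * u)) := fun h => h3 (h2.mp h)
      rw [Int.not_odd_iff_even] at h4
      rw [← mul_assoc, Int.odd_sub, ← h1]
      constructor
      · intro h5
        by_contra h6
        exact h6 (h5.mpr h4)
      · intro h5
        exact ⟨fun _ => h4, fun _ => h5⟩

end Pool.Agent.Lib.MP_938ce2_ag_H7f
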