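import Pool.Agent.Lib.MP_938ce2_ag_H7f.Par1

/-!
The parity theorem, combinatorial part at one level.
-/

set_option autoImplicit false
set_option linter.style.haveILetI false
set_option linter.unusedSectionVars false

open Finset

namespace Pool.Agent.Lib.MP_938ce2_ag_H7f

open Pool.Agent.Lib.MP_938ce2_ag_h99 Pool.Agent.Lib.MP_938ce2_ag_H7e

section
variable {f : ℕ} [NeZero f]

/-- the part of `f` prime to `p` -/
def copr (f p : ℕ) : ℕ := f / p ^ f.factorization p

lemma Kp_inj {p : ℕ} (hp : p.Prime) {k k' : (ZMod f)ˣ} (hk : k ∈ Kp f p) (hk' : k' ∈ Kp f p)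
    (h : (k : ZMod f) * (copr f p : ℕ) = (k' : ZMod f) * (copr f p : ℕ)) : k = k' := by
  have hf0 : f ≠ 0 := NeZero.ne f
  have hcop : Nat.Coprime p (copr f p) := Nat.coprime_ordCompl hp hf0
  have h1 : (k : ZMod f) * (p : ZMod f) = p := hk
  have h2 : (k' : ZMod f) * (p : ZMod f) = p := hk'
  have hbez := Nat.gcd_eq_gcd_ab p (copr f p)
  rw [hcop.gcd_eq_one] at hbez
  have h3 : (1 : ZMod f) = (p : ZMod f) * ((Nat.gcdA p (copr f p) : ℤ) : ZMod f)
      + (copr f p : ZMod f) * ((Nat.gcdB p (copr f p) : ℤ) : ZMod f) := by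
    have := congrArg (fun z : ℤ => (z : ZMod f)) hbez
    push_cast at this
    exact this
  apply Units.ext
  have key : ∀ x : ZMod f, x = (x * p) * ((Nat.gcdA p (copr f p) : ℤ) : ZMod f)
      + (x * (copr f p : ℕ)) * ((Nat.gcdB p (copr f p) : ℤ) : ZMod f) := by
    intro x
    calc x = x * 1 := (mul_one _).symm
      _ = x * ((p : ZMod f) * ((Nat.gcdA p (copr f p) : ℤ) : ZMod f)
        + (copr f p : ZMod f) * ((Nat.gcdB p (copr f p) : ℤ) : ZMod f)) := by rw [← h3]
      _ = _ := by ring
  rw [key (k : ZMod f), key (k' : ZMod f), h1, h2, h]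

lemma copr_zero {p : ℕ} (c : ℕ) (h : (c : ZMod f) * (copr f p : ℕ) = 0) :
    p ^ f.factorization p ∣ c := by
  have hf0 : f ≠ 0 := NeZero.ne f
  rw [← Nat.cast_mul, ZMod.natCast_eq_zero_iff] at h
  have h2 : p ^ (f.factorization p) * copr f p = f := Nat.ordProj_mul_ordCompl_eq_self f p
  have hpos : 0 < copr f p := Nat.pos_of_ne_zero (by
    intro h0
    rw [h0, mul_zero] at h2
    exact hf0 h2.symm)
  rw [← h2] at h
  exact Nat.dvd_of_mul_dvd_mul_right hpos (by rwa [h2] at h ⊢)

lemma Kp_ne_bot {p : ℕ} (hp : p.Prime) (hpf : p ∣ f) (hf4 : f % 4 ≠ 2) : Kp f p ≠ ⊥ := by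
  intro h
  have h1 := card_Kp hp hpf
  rw [h, Subgroup.card_bot] at h1
  split_ifs at h1 with hd
  · exact hp.one_lt.ne h1
  · have h2 : p = 2 := by have := hp.two_le; omega
    subst h2
    omega

/-- the choice of the first unit, by counting -/
lemma exists_k1 {p : ℕ} (hp : p.Prime) (hpf : p ∣ f) (S : Finset (ZMod f))
    (hS : S.card < Nat.card (Kp f p)) : ∃ k ∈ Kp f p, (k : ZMod f) * (copr f p : ℕ) ∉ S := by
  classical
  by_contra hc
  push Not at hc
  have h1 : Nat.card (Kp f p) ≤ Nat.card S := by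
    apply Nat.card_le_card_of_injective (fun k : Kp f p =>
      (⟨((k : (ZMod f)ˣ) : ZMod f) * (copr f p : ℕ), hc k.1 k.2⟩ : S))
    intro k k' h
    exact Subtype.ext (Kp_inj hp k.2 k'.2 (Subtype.mk.inj h))
  rw [Nat.card_eq_fintype_card (α := S), Fintype.card_coe] at h1
  omega

end

variable {m r : ℕ} [NeZero m] [NeZero r]

/-- the contradiction at one level -/
theorem level_contra {f : ℕ} (hfm : f ∣ m) [NeZero f] (hf4 : f % 4 ≠ 2) {e : ZMod r → ℤ}
    (he : Aux m r e) (H : ZMod m → ℤ) (hT : TP0 e H)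
    (hsup : ∀ a, H a ≠ 0 → f ∣ addOrderOf a → addOrderOf a = f)
    {p0 : ℕ} (hp0 : p0.Prime) (hp0f : p0 ∣ f) (u : (ZMod f)ˣ) (k1 : (ZMod f)ˣ)
    (hk1 : k1 ∈ Kp f p0)
    (hodd : ∀ h : (ZMod f)ˣ, (h : ZMod f) * (copr f p0 : ℕ) = (copr f p0 : ℕ) →
      (Odd (H (jj hfm ((h * u : (ZMod f)ˣ) : ZMod f))
        - H (jj hfm ((k1 * (h * u) : (ZMod f)ˣ) : ZMod f))) ↔ h = 1)) : False := by
  classical
  have hf0 : f ≠ 0 := NeZero.ne f
  set rest := (f.primeFactors.erase p0).toList with hrest
  have hr1 : ∀ p ∈ rest, p.Prime ∧ p ∣ f := by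
    intro p hp
    rw [hrest, Finset.mem_toList, Finset.mem_erase, Nat.mem_primeFactors] at hp
    exact ⟨hp.2.1, hp.2.2.1⟩
  have hp0r : p0 ∉ rest := by
    rw [hrest, Finset.mem_toList, Finset.mem_erase]
    exact fun h => h.1 rfl
  have hnd : rest.Nodup := Finset.nodup_toList _
  have hMD := MD_all0 hfm he H hT hsup (p0 :: rest) (by
    intro p hp hpf
    by_cases h : p = p0
    · rw [h]; exact List.mem_cons_self
    · apply List.mem_cons_of_mem
      rw [hrest, Finset.mem_toList, Finset.mem_erase, Nat.mem_primeFactors]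
      exact ⟨h, hp, hpf, hf0⟩)
  rw [List.map_cons, MD_cons] at hMD
  have h1 := hMD k1 hk1 u
  refine no_MD_delta (rest.map (Kp f)) (indep_Kp rest hr1 hnd) ?_ _ u ?_ h1
  · intro K hK
    obtain ⟨p, hp, rfl⟩ := List.mem_map.mp hK
    exact Kp_ne_bot (hr1 p hp).1 (hr1 p hp).2 hf4
  · intro h hh
    apply hodd
    have hcop : ∀ p ∈ rest, p ∣ copr f p0 := by
      intro p hp
      have h1 : p ∣ f := (hr1 p hp).2
      have h2 : p0 ^ (f.factorization p0) * copr f p0 = f := Nat.ordProj_mul_ordCompl_eq_self f p0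
      rw [← h2] at h1
      have hne : p ≠ p0 := fun h => hp0r (h ▸ hp)
      have h3 : Nat.Coprime p (p0 ^ (f.factorization p0)) :=
        Nat.Coprime.pow_right _ ((Nat.coprime_primes (hr1 p hp).1 hp0).mpr hne)
      exact h3.dvd_of_dvd_mul_left h1
    exact spanL_le_stab (copr f p0) rest hcop hh

/-- the delta function -/
def dl (b : ZMod m) : ZMod m → ℤ := fun a => (if a = b then 1 else 0) - (if a = -b then 1 else 0)

lemma dl_supp {b a : ZMod m} (h : dl b a ≠ 0) : addOrderOf a = addOrderOf b := by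
  unfold dl at h
  by_cases h1 : a = b
  · rw [h1]
  · by_cases h2 : a = -b
    · rw [h2, addOrderOf_neg]
    · rw [if_neg h1, if_neg h2] at h
      exact absurd rfl h

/-- even order not `2` mod `4`, or odd order: the prime must be small -/
theorem parity_A {d : ℕ} (hdm : d ∣ m) [NeZero d] (hd4 : d % 4 ≠ 2) {e : ZMod r → ℤ}
    (he : Aux m r e) {g : ZMod m → ℤ} {b : ZMod m} (hb : addOrderOf b = d)
    (hT : TP0 e (fun a => 2 * g a - dl b a)) (hsup : ∀ a, g a ≠ 0 → addOrderOf a ∣ d)
    {p0 : ℕ} (hp0 : p0.Prime) (hp0d : p0 ∣ d)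
    (hcase : 5 ≤ p0 ∨ (p0 = 3 ∧ 9 ∣ d) ∨ (p0 = 2 ∧ 8 ∣ d)) : False := by
  classical
  obtain ⟨u, rfl⟩ := exists_unit_of_order hdm hb
  have hd0 : d ≠ 0 := NeZero.ne d
  set N : ZMod d := ((copr d p0 : ℕ) : ZMod d) with hN
  set v := d.factorization p0 with hv
  have hv1 : 1 ≤ v := by
    rw [hv]
    exact (hp0.dvd_iff_one_le_factorization hd0).mp hp0d
  -- the choice of `k1`
  have hk : ∃ k ∈ Kp d p0, (k : ZMod d) * N ≠ N ∧ (k : ZMod d) * N ≠ -N := by
    by_cases hc : 3 ≤ Nat.card (Kp d p0)
    · obtain ⟨k, hk, hk2⟩ := exists_k1 hp0 hp0d {N, -N}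
        (lt_of_le_of_lt Finset.card_le_two (by omega))
      rw [mem_insert, mem_singleton, not_or] at hk2
      exact ⟨k, hk, hk2⟩
    · have hcard := card_Kp hp0 hp0d
      rcases hcase with h | ⟨h, h9⟩ | ⟨h, h8⟩
      · split_ifs at hcard <;> omega
      · rw [h] at hcard hc
        rw [if_pos (by omega)] at hcard
        omega
      · subst h
        obtain ⟨⟨k, hk⟩, hk0⟩ := Subgroup.ne_bot_iff_exists_ne_one.mp (Kp_ne_bot hp0 hp0d hd4)
        have hk1 : k ≠ 1 := fun h => hk0 (Subtype.ext h)
        refine ⟨k, hk, ?_, ?_⟩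
        · intro h
          apply hk1
          apply Kp_inj hp0 hk (Subgroup.one_mem _)
          rw [Units.val_one, one_mul]
          exact h
        · intro h
          have h2 : (k : ZMod d) * ((2 : ℕ) : ZMod d) = (2 : ℕ) := hk
          have h3 : ((4 : ℕ) : ZMod d) * (copr d 2 : ℕ) = 0 := by
            rw [← hN]
            push_cast at h2 ⊢
            linear_combination (2 : ZMod d) * h - N * h2
          have h4 := copr_zero 4 h3
          have h5 : (2 : ℕ) ^ 3 ∣ 4 := by
            refine dvd_trans (pow_dvd_pow 2 ?_) h4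
            rw [← Nat.prime_two.pow_dvd_iff_le_factorization hd0]
            norm_num
            exact h8
          norm_num at h5
  obtain ⟨k1, hk1, hk2, hk3⟩ := hk
  refine level_contra hdm hd4 he _ hT ?_ hp0 hp0d u k1 hk1 ?_
  · intro a ha hd
    by_cases h1 : g a = 0
    · have h2 : dl (jj hdm (u : ZMod d)) a ≠ 0 := by
        intro h0
        apply ha
        beta_reduce
        rw [h1, h0]; rfl
      rw [dl_supp h2, hb]
    · exact Nat.dvd_antisymm (hsup a h1) hd
  · intro h hh
    have e1 : ∀ x : (ZMod d)ˣ, dl (jj hdm (u : ZMod d)) (jj hdm ((x * u : (ZMod d)ˣ) : ZMod d))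
        = (if x = 1 then 1 else 0) - (if x = -1 then 1 else 0) := by
      intro x
      unfold dl
      congr 1
      · congr 1
        apply propext
        rw [(jj_injective hdm).eq_iff, Units.val_inj]
        exact mul_eq_right
      · congr 1
        apply propext
        rw [← map_neg, (jj_injective hdm).eq_iff, ← Units.val_neg, Units.val_inj, ← neg_one_mul u,
          mul_left_inj]
    have e2 : (2 : ZMod d) * N ≠ 0 := by
      intro h0
      have h1 := copr_zero (p := p0) 2 (by rw [← hN]; push_cast; exact h0)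
      rw [← hv] at h1
      have h2 := Nat.le_of_dvd (by norm_num) h1
      have h3 : p0 ^ 1 ≤ p0 ^ v := Nat.pow_le_pow_right hp0.pos hv1
      rw [pow_one] at h3
      rcases hcase with h | ⟨h, h9⟩ | ⟨h, h8⟩
      · omega
      · omega
      · subst h
        have h5 : (2 : ℕ) ^ 3 ∣ 2 := by
          refine dvd_trans (pow_dvd_pow 2 ?_) h1
          rw [hv, ← Nat.prime_two.pow_dvd_iff_le_factorization hd0]
          norm_num
          exact h8
        norm_num at h5
    have f1 : h ≠ -1 := by
      intro h0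
      apply e2
      rw [h0, Units.val_neg, Units.val_one] at hh
      linear_combination -hh
    have f2 : k1 * h ≠ 1 := by
      intro h0
      apply hk2
      have h1 := congrArg Units.val h0
      rw [Units.val_mul, Units.val_one] at h1
      linear_combination (-(k1 : ZMod d)) * hh + N * h1
    have f3 : k1 * h ≠ -1 := by
      intro h0
      apply hk3
      have h1 := congrArg Units.val h0
      rw [Units.val_mul, Units.val_neg, Units.val_one] at h1
      linear_combination (-(k1 : ZMod d)) * hh + N * h1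
    beta_reduce
    rw [← mul_assoc, e1, e1, if_neg f1, if_neg f2, if_neg f3]
    split_ifs with h1
    · simp only [h1, iff_true]
      rw [Int.odd_iff]
      omega
    · simp only [h1, iff_false]
      rw [Int.odd_iff]
      omega

/-- order twice an odd number -/
theorem parity_B {d : ℕ} (hdm : d ∣ m) [NeZero d] (hd2 : d % 2 = 1) {e : ZMod r → ℤ}
    (he : Aux m r e) {g : ZMod m → ℤ} {b : ZMod m} (hb : addOrderOf b = d)
    (hT : TP0 e (fun a => 2 * g a - (dl (((2 : ℕ) : ZMod m) * b) a - dl b a)))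
    (hsup : ∀ a, g a ≠ 0 → addOrderOf a ∣ d)
    {p0 : ℕ} (hp0 : p0.Prime) (hp0d : p0 ∣ d)
    (hcase : 7 ≤ p0 ∨ (p0 = 5 ∧ 25 ∣ d) ∨ (p0 = 3 ∧ 9 ∣ d)) : False := by
  classical
  obtain ⟨u, rfl⟩ := exists_unit_of_order hdm hb
  have hd0 : d ≠ 0 := NeZero.ne d
  set N : ZMod d := ((copr d p0 : ℕ) : ZMod d) with hN
  set v := d.factorization p0 with hv
  have hv1 : 1 ≤ v := by
    rw [hv]
    exact (hp0.dvd_iff_one_le_factorization hd0).mp hp0d
  have h2u : IsUnit ((2 : ℕ) : ZMod d) := by
    rw [ZMod.isUnit_iff_coprime, Nat.coprime_two_left, Nat.odd_iff]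
    exact hd2
  obtain ⟨w2, hw2⟩ := h2u
  have hw2' : (w2 : ZMod d) = 2 := by rw [hw2]; norm_num
  -- smallness
  have hcz : ∀ c : ℕ, 0 < c → (c ≤ 6 ∧ c ≠ 5 ) → (p0 = 5 → 25 ∣ d) → (c : ZMod d) * N ≠ 0 := by
    intro c hc0 hc _ h0
    have h1 := copr_zero (p := p0) c h0
    rw [← hv] at h1
    have h2 := Nat.le_of_dvd hc0 h1
    have h3 : p0 ^ 1 ≤ p0 ^ v := Nat.pow_le_pow_right hp0.pos hv1
    rw [pow_one] at h3
    rcases hcase with h | ⟨h, h25⟩ | ⟨h, h9⟩
    · omega
    · have h5 : p0 ∣ c := (dvd_pow_self p0 (by omega)).trans h1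
      rw [h] at h5
      omega
    · subst h
      have h5 : (3 : ℕ) ^ 2 ∣ c := by
        refine dvd_trans (pow_dvd_pow 3 ?_) h1
        rw [hv, ← Nat.prime_three.pow_dvd_iff_le_factorization hd0]
        norm_num
        exact h9
      norm_num at h5
      have := Nat.le_of_dvd hc0 h5
      omega
  have hp5 : p0 = 5 → 25 ∣ d := by
    intro h
    rcases hcase with h' | ⟨_, h25⟩ | ⟨h', _⟩
    · omega
    · exact h25
    · omega
  -- the choice of `k1`
  have hk : ∃ k ∈ Kp d p0, (k : ZMod d) * N ≠ N ∧ (k : ZMod d) * N ≠ -N ∧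
      (k : ZMod d) * N ≠ 2 * N ∧ (k : ZMod d) * N ≠ - (2 * N) := by
    by_cases hc : 5 ≤ Nat.card (Kp d p0)
    · obtain ⟨k, hk, hk2⟩ := exists_k1 hp0 hp0d {N, -N, 2 * N, -(2 * N)}
        (lt_of_le_of_lt Finset.card_le_four (by omega))
      simp only [mem_insert, mem_singleton, not_or] at hk2
      exact ⟨k, hk, hk2⟩
    · have hcard := card_Kp hp0 hp0d
      rcases hcase with h | ⟨h, h25⟩ | ⟨h, h9⟩
      · split_ifs at hcard <;> omega
      · rw [h] at hcard hc
        rw [if_pos (by omega)] at hcard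
        omega
      · subst h
        rw [if_pos (by omega)] at hcard
        obtain ⟨k, hk, hk2⟩ := exists_k1 hp0 hp0d {N, -(2 * N)}
          (lt_of_le_of_lt Finset.card_le_two (by omega))
        simp only [mem_insert, mem_singleton, not_or] at hk2
        have h3 : (k : ZMod d) * ((3 : ℕ) : ZMod d) = (3 : ℕ) := hk
        push_cast at h3
        refine ⟨k, hk, hk2.1, ?_, ?_, hk2.2⟩
        · intro h
          apply hcz 6 (by norm_num) (by norm_num) hp5
          push_cast
          linear_combination (3 : ZMod d) * h - N * h3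
        · intro h
          apply hcz 3 (by norm_num) (by norm_num) hp5
          push_cast
          linear_combination (-3 : ZMod d) * h + N * h3
  obtain ⟨k1, hk1, hk2, hk3, hk4, hk5⟩ := hk
  refine level_contra hdm (by omega) he _ hT ?_ hp0 hp0d u k1 hk1 ?_
  · intro a ha hd
    by_cases h1 : g a = 0
    · by_cases h2 : dl (jj hdm (u : ZMod d)) a = 0
      · have h3 : dl (((2 : ℕ) : ZMod m) * jj hdm (u : ZMod d)) a ≠ 0 := by
          intro h0
          apply ha
          beta_reduce
          rw [h1, h2, h0]; rfl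
        have h4 := dl_supp h3
        rw [← hw2'] at *
        rw [natCast_mul_jj] at h4
        have h5 : ((2 : ℕ) : ZMod d) * (u : ZMod d) = ((w2 * u : (ZMod d)ˣ) : ZMod d) := by
          rw [Units.val_mul, hw2]
        rw [h5, addOrderOf_unit] at h4
        exact h4
      · rw [dl_supp h2, hb]
    · exact Nat.dvd_antisymm (hsup a h1) hd
  · intro h hh
    have e1 : ∀ x : (ZMod d)ˣ, dl (jj hdm (u : ZMod d)) (jj hdm ((x * u : (ZMod d)ˣ) : ZMod d))
        = (if x = 1 then 1 else 0) - (if x = -1 then 1 else 0) := by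
      intro x
      unfold dl
      congr 1
      · congr 1
        apply propext
        rw [(jj_injective hdm).eq_iff, Units.val_inj]
        exact mul_eq_right
      · congr 1
        apply propext
        rw [← map_neg, (jj_injective hdm).eq_iff, ← Units.val_neg, Units.val_inj, ← neg_one_mul u,
          mul_left_inj]
    have e1' : ∀ x : (ZMod d)ˣ, dl (((2 : ℕ) : ZMod m) * jj hdm (u : ZMod d))
          (jj hdm ((x * u : (ZMod d)ˣ) : ZMod d))
        = (if x = w2 then 1 else 0) - (if x = -w2 then 1 else 0) := by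
      intro x
      have h5 : ((2 : ℕ) : ZMod d) * (u : ZMod d) = ((w2 * u : (ZMod d)ˣ) : ZMod d) := by
        rw [Units.val_mul, hw2]
      rw [natCast_mul_jj, h5]
      unfold dl
      congr 1
      · congr 1
        apply propext
        rw [(jj_injective hdm).eq_iff, Units.val_inj, mul_left_inj]
      · congr 1
        apply propext
        rw [← map_neg, (jj_injective hdm).eq_iff, ← Units.val_neg, Units.val_inj, ← neg_mul,
          mul_left_inj]
    have f0 : ∀ x : (ZMod d)ˣ, (k1 * h : (ZMod d)ˣ) = x → (k1 : ZMod d) * N = x * N := by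
      intro x h0
      have h1 := congrArg Units.val h0
      rw [Units.val_mul] at h1
      linear_combination (-(k1 : ZMod d)) * hh + N * h1
    have f1 : h ≠ -1 := by
      intro h0
      apply hcz 2 (by norm_num) (by norm_num) hp5
      rw [h0, Units.val_neg, Units.val_one] at hh
      push_cast
      linear_combination -hh
    have f2 : k1 * h ≠ 1 := by
      intro h0
      have := f0 _ h0
      rw [Units.val_one, one_mul] at this
      exact hk2 this
    have f3 : k1 * h ≠ -1 := by
      intro h0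
      have := f0 _ h0
      rw [Units.val_neg, Units.val_one, neg_one_mul] at this
      exact hk3 this
    have f4 : h ≠ w2 := by
      intro h0
      apply hcz 1 (by norm_num) (by norm_num) hp5
      rw [h0, hw2'] at hh
      push_cast
      linear_combination hh
    have f5 : h ≠ -w2 := by
      intro h0
      apply hcz 3 (by norm_num) (by norm_num) hp5
      rw [h0, Units.val_neg, hw2'] at hh
      push_cast
      linear_combination -hh
    have f6 : k1 * h ≠ w2 := by
      intro h0
      have := f0 _ h0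
      rw [hw2'] at this
      exact hk4 this
    have f7 : k1 * h ≠ -w2 := by
      intro h0
      have := f0 _ h0
      rw [Units.val_neg, hw2', neg_mul] at this
      exact hk5 this
    beta_reduce
    rw [← mul_assoc, e1, e1, e1', e1', if_neg f1, if_neg f2, if_neg f3, if_neg f4, if_neg f5,
      if_neg f6, if_neg f7]
    split_ifs with h1
    · simp only [h1, iff_true]
      rw [Int.odd_iff]
      omega
    · simp only [h1, iff_false]
      rw [Int.odd_iff]
      omega

end Pool.Agent.Lib.MP_938ce2_ag_H7f
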