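import Pool.Agent.Lib.MP_938ce2_ag_H7f.Par2
import Pool.Agent.Lib.MP_938ce2_ag_H7f.Fibre

/-!
The parity theorem.
-/

set_option autoImplicit false
set_option linter.style.haveILetI false
set_option linter.unusedSectionVars false

open Finset

namespace Pool.Agent.Lib.MP_938ce2_ag_H7f

open Pool.Agent.Lib.MP_938ce2_ag_h99 Pool.Agent.Lib.MP_938ce2_ag_H7e

variable {m r : ℕ} [NeZero m] [NeZero r]

lemma W_neg (t : (ZMod m)ˣ) (b : ZMod m) : W t (-b) = - W t b := by
  unfold W
  by_cases hb : b = 0
  · simp [hb]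
  · have h0 : (t : ZMod m) * b ≠ 0 := fun h => hb ((Units.mul_right_eq_zero t).mp h)
    haveI : NeZero ((t : ZMod m) * b) := ⟨h0⟩
    rw [if_neg hb, if_neg (neg_ne_zero.mpr hb), mul_neg, ZMod.val_neg_of_ne_zero]
    have := (ZMod.val_lt ((t : ZMod m) * b)).le
    push_cast [Nat.cast_sub this]
    ring

lemma PH_dl (b : ZMod m) (t : (ZMod m)ˣ) : PH (dl b) t = 2 * W t b := by
  rw [PH_eq]
  unfold dl
  simp only [sub_mul, ite_mul, one_mul, zero_mul, sum_sub_distrib, sum_ite_eq', mem_univ, if_true,
    W_neg]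
  ring

lemma dl_neg_arg (b a : ZMod m) : dl b (-a) = - dl b a := by
  unfold dl
  simp only [neg_eq_iff_eq_neg, neg_neg]
  ring

lemma two_torsion (h2 : 2 ∣ m) {x0 x : ZMod m} (hx0 : x0 ≠ 0) (h20 : (2 : ZMod m) * x0 = 0)
    (hx : (2 : ZMod m) * x = 0) : x = 0 ∨ x = x0 := by
  classical
  have h1 := card_ker (n := m) (p := 2) (by norm_num) h2
  have h3 : ({0, x0} : Finset (ZMod m))
      = univ.filter (fun b : ZMod m => ((2 : ℕ) : ZMod m) * b = 0) := by
    apply eq_of_subset_of_card_le
    · intro y hy
      rw [mem_insert, mem_singleton] at hy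
      rw [mem_filter]
      refine ⟨mem_univ _, ?_⟩
      push_cast
      rcases hy with rfl | rfl
      · rw [mul_zero]
      · exact h20
    · rw [h1, card_pair hx0.symm]
  have h4 : x ∈ ({0, x0} : Finset (ZMod m)) := by
    rw [h3, mem_filter]
    refine ⟨mem_univ _, ?_⟩
    push_cast
    exact hx
  rwa [mem_insert, mem_singleton] at h4

/-- the relation at `2` -/
lemma rel_two (h2 : 2 ∣ m) {b b' : ZMod m} (hne : b ≠ b')
    (hbb : ((2 : ℕ) : ZMod m) * b = ((2 : ℕ) : ZMod m) * b') :
    rel 2 (dl (((2 : ℕ) : ZMod m) * b')) = fun a => dl b a + dl b' a - dl (((2 : ℕ) : ZMod m) * b') a := by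
  funext a
  have key : ∀ a : ZMod m, (((2 : ℕ) : ZMod m) * a = ((2 : ℕ) : ZMod m) * b') ↔ (a = b ∨ a = b') := by
    intro a
    constructor
    · intro h
      push_cast at h hbb
      rcases two_torsion h2 (x0 := b - b') (x := a - b') (sub_ne_zero.mpr hne)
        (by linear_combination hbb) (by linear_combination h) with h | h
      · right; exact sub_eq_zero.mp h
      · left; exact sub_left_injective h
    · rintro (rfl | rfl)
      · exact hbb
      · rfl
  unfold rel
  have e1 : dl (((2 : ℕ) : ZMod m) * b') (((2 : ℕ) : ZMod m) * a)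
      = (if a = b ∨ a = b' then 1 else 0) - (if -a = b ∨ -a = b' then 1 else 0) := by
    unfold dl
    congr 1
    · congr 1
      exact propext (key a)
    · congr 1
      apply propext
      rw [← key, mul_neg, neg_eq_iff_eq_neg]
  rw [e1]
  congr 1
  unfold dl
  have h1 : (if a = b ∨ a = b' then (1 : ℤ) else 0) = (if a = b then 1 else 0) + (if a = b' then 1 else 0) := by
    by_cases h1 : a = b
    · have : a ≠ b' := fun h => hne (h1.symm.trans h)
      simp [h1, hne]
    · simp [h1]
  have h2 : (if -a = b ∨ -a = b' then (1 : ℤ) else 0) = (if a = -b then 1 else 0) + (if a = -b' then 1 else 0) := by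
    simp only [neg_eq_iff_eq_neg]
    by_cases h1 : a = -b
    · have h3 : ¬ (-b = -b') := fun h => hne (neg_injective h)
      simp [h1, hne]
    · simp [h1]
  rw [h1, h2]
  ring

/-- the class modulo two at level thirty -/
def psi30 (x : ZMod 30) : ZMod 2 :=
  if x ∈ ({7, 9, 11, 12, 13, 21, 22, 24, 28, 29} : Finset (ZMod 30)) then 1 else 0

lemma psi30_two : ∀ c : ZMod 30, (15 : ZMod 30) * c = 0 →
    ∑ y ∈ univ.filter (fun y : ZMod 30 => ((2 : ℕ) : ZMod 30) * y = c), psi30 y = psi30 c := by
  decide

lemma psi30_three : ∀ c : ZMod 30, (10 : ZMod 30) * c = 0 →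
    ∑ y ∈ univ.filter (fun y : ZMod 30 => ((3 : ℕ) : ZMod 30) * y = c), psi30 y = psi30 c := by
  decide

lemma psi30_five : ∀ c : ZMod 30, (6 : ZMod 30) * c = 0 →
    ∑ y ∈ univ.filter (fun y : ZMod 30 => ((5 : ℕ) : ZMod 30) * y = c), psi30 y = psi30 c := by
  decide

lemma psi30_unit : ∀ c : ZMod 30, Nat.Coprime c.val 30 → psi30 c + psi30 (-c) = 1 := by
  decide

lemma psi30_rel {p : ℕ} (hp : p.Prime) (hp30 : p ∣ 30) (c : ZMod 30) (hc : addOrderOf c ∣ 30 / p) :
    ∑ y ∈ univ.filter (fun y : ZMod 30 => (p : ZMod 30) * y = c), psi30 y = psi30 c := by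
  have h1 : ((30 / p : ℕ) : ZMod 30) * c = 0 := by
    rw [← nsmul_eq_mul]
    exact addOrderOf_dvd_iff_nsmul_eq_zero.mp hc
  have h2 : p ∈ Nat.divisors 30 := Nat.mem_divisors.mpr ⟨hp30, by norm_num⟩
  have h3 : Nat.divisors 30 = {1, 2, 3, 5, 6, 10, 15, 30} := by decide
  rw [h3] at h2
  simp only [mem_insert, mem_singleton] at h2
  rcases h2 with rfl | rfl | rfl | rfl | rfl | rfl | rfl | rfl
  · exact absurd hp (by norm_num)
  · exact psi30_two c (by simpa using h1)
  · exact psi30_three c (by simpa using h1)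
  · exact psi30_five c (by simpa using h1)
  all_goals exact absurd hp (by norm_num)

/-- the functional -/
noncomputable def Lam (h30 : 30 ∣ m) (H : ZMod m → ℤ) : ZMod 2 := ∑ y : ZMod 30, psi30 y * ((H (jj h30 y) : ℤ) : ZMod 2)

lemma Lam_add (h30 : 30 ∣ m) (H G : ZMod m → ℤ) : Lam h30 (H + G) = Lam h30 H + Lam h30 G := by
  unfold Lam
  rw [← sum_add_distrib]
  refine sum_congr rfl fun y _ => ?_
  rw [Pi.add_apply]; push_cast; ring

lemma Lam_relD (h30 : 30 ∣ m) {H : ZMod m → ℤ} (hH : H ∈ relD m 30) : Lam h30 H = 0 := by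
  unfold relD at hH
  induction hH using AddSubgroup.closure_induction with
  | mem x hx =>
    obtain ⟨p, g, hp, hpD, hs, rfl⟩ := hx
    unfold Lam rel
    have h1 : ∑ y : ZMod 30, psi30 y * ((g ((p : ZMod m) * jj h30 y) - g (jj h30 y) : ℤ) : ZMod 2)
        = ∑ y : ZMod 30, psi30 y * ((g (jj h30 ((p : ZMod 30) * y)) : ℤ) : ZMod 2)
          - ∑ y : ZMod 30, psi30 y * ((g (jj h30 y) : ℤ) : ZMod 2) := by
      rw [← sum_sub_distrib]
      refine sum_congr rfl fun y _ => ?_
      rw [natCast_mul_jj]
      push_cast; ring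
    rw [h1, ← Finset.sum_fiberwise_of_maps_to (s := univ) (t := univ)
      (g := fun y : ZMod 30 => (p : ZMod 30) * y) (fun _ _ => mem_univ _), ← sum_sub_distrib]
    apply sum_eq_zero
    intro c _
    have h2 : ∑ y ∈ univ.filter (fun y : ZMod 30 => (p : ZMod 30) * y = c),
        psi30 y * ((g (jj h30 ((p : ZMod 30) * y)) : ℤ) : ZMod 2)
        = (∑ y ∈ univ.filter (fun y : ZMod 30 => (p : ZMod 30) * y = c), psi30 y)
          * ((g (jj h30 c) : ℤ) : ZMod 2) := by
      rw [sum_mul]
      refine sum_congr rfl fun y hy => ?_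
      rw [(mem_filter.mp hy).2]
    rw [h2]
    by_cases h3 : g (jj h30 c) = 0
    · rw [h3]; simp
    · have h4 := hs _ h3
      rw [addOrderOf_jj] at h4
      rw [psi30_rel hp hpD c h4, sub_self]
  | zero => unfold Lam; simp
  | add x y _ _ hx hy => rw [Lam_add, hx, hy, add_zero]
  | neg x _ hx =>
    have h1 := Lam_add h30 x (-x)
    rw [add_neg_cancel, hx, zero_add] at h1
    rw [← h1]
    unfold Lam
    simp

lemma dvd_twelve {d : ℕ} (h5 : ∀ p, p.Prime → p ∣ d → p < 5) (h9 : ¬ 9 ∣ d)
    (h8 : ¬ 8 ∣ d) : d ∣ 12 := by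
  rw [Nat.dvd_iff_prime_pow_dvd_dvd]
  intro p k hp hk
  rcases Nat.eq_zero_or_pos k with rfl | hk0
  · rw [pow_zero]; exact one_dvd _
  have hpd : p ∣ d := (dvd_pow_self p (by omega)).trans hk
  have hlt := h5 p hp hpd
  have h2 := hp.two_le
  interval_cases p
  · have hk3 : k < 3 := by
      by_contra hc
      push Not at hc
      exact h8 ((pow_dvd_pow 2 hc).trans hk)
    interval_cases k <;> norm_num
  · have hk3 : k < 2 := by
      by_contra hc
      push Not at hc
      exact h9 ((pow_dvd_pow 3 hc).trans hk)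
    interval_cases k; norm_num
  · exact absurd hp (by norm_num)

lemma dvd_fifteen {d : ℕ} (hodd : d % 2 = 1) (h5 : ∀ p, p.Prime → p ∣ d → p < 7)
    (h25 : ¬ 25 ∣ d) (h9 : ¬ 9 ∣ d) : d ∣ 15 := by
  rw [Nat.dvd_iff_prime_pow_dvd_dvd]
  intro p k hp hk
  rcases Nat.eq_zero_or_pos k with rfl | hk0
  · rw [pow_zero]; exact one_dvd _
  have hpd : p ∣ d := (dvd_pow_self p (by omega)).trans hk
  have hlt := h5 p hp hpd
  have h2 := hp.two_le
  interval_cases p
  · omega
  · have hk3 : k < 2 := by
      by_contra hc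
      push Not at hc
      exact h9 ((pow_dvd_pow 3 hc).trans hk)
    interval_cases k; norm_num
  · exact absurd hp (by norm_num)
  · have hk3 : k < 2 := by
      by_contra hc
      push Not at hc
      exact h25 ((pow_dvd_pow 5 hc).trans hk)
    interval_cases k; norm_num
  · exact absurd hp (by norm_num)

/-- The parity theorem. -/
theorem parity {g : ZMod m → ℤ} (hev : EvRel g) {b : ZMod m} (hb : b ≠ 0)
    (hPH : ∀ t, PH g t = W t b) :
    addOrderOf b = 2 ∨ addOrderOf b = 3 ∨ addOrderOf b = 4 ∨ addOrderOf b = 6 ∨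
      addOrderOf b = 10 ∨ addOrderOf b = 12 := by
  obtain ⟨r, _, e, _, he, hE⟩ := hev
  set d := addOrderOf b with hd
  have hdm : d ∣ m := addOrderOf_dvd_m b
  have hd0 : d ≠ 0 := (order_pos b).ne'
  haveI : NeZero d := ⟨hd0⟩
  have hd1 : d ≠ 1 := fun h => hb (AddMonoid.addOrderOf_eq_one_iff.mp (hd ▸ h))
  have hT : TP0 e (fun a => 2 * g a - dl b a) := by
    constructor
    · have h1 : OddF (fun a => (fun a => 2 * g a - dl b a) a - (fun a => 2 * g a - dl b a) (-a)) := by
        intro a
        beta_reduce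
        rw [neg_neg]; ring
      intro t
      have h2 := PH_odd h1 t
      have h3 : PH (fun a => (fun a => 2 * g a - dl b a) a - (fun a => 2 * g a - dl b a) (-a)) t
          = 0 := by
        have h4 : (fun a => (fun a => 2 * g a - dl b a) a - (fun a => 2 * g a - dl b a) (-a))
            = (fun a => 2 * g a) + (-(fun a => (fun a => 2 * g a) (-a))) + (fun a => (-2) * dl b a) := by
          funext a
          simp only [Pi.add_apply, Pi.neg_apply]
          rw [dl_neg_arg]
          ring
        have h5 := PH_comp_neg (fun a => 2 * g a) t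
        rw [h4, PH_add, PH_add, PH_neg, h5, PH_smul, PH_smul, PH_dl, hPH]
        ring
      rw [h3] at h2
      have h5 : SS (fun a => (fun a => 2 * g a - dl b a) a - (fun a => 2 * g a - dl b a) (-a)) t
          = 0 := by linarith
      exact h5
    · have h1 := hE.add hE
      rw [← sharp_add] at h1
      convert h1 using 2
      funext a
      simp only [Pi.add_apply]
      rw [dl_neg_arg]
      ring
  by_cases hd4 : d % 4 = 2
  swap
  · obtain ⟨g', hT', hs'⟩ := reduceA (d := d) he (dl b) (fun a ha => by rw [dl_supp ha]) m g hT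
      (fun a _ => Or.inr (Nat.le_of_dvd (Nat.pos_of_ne_zero (NeZero.ne m)) (addOrderOf_dvd_m a)))
    have h12 : d ∣ 12 := by
      apply dvd_twelve
      · intro p hp hpd
        by_contra hc
        push Not at hc
        exact parity_A hdm hd4 he hd.symm hT' hs' hp hpd (Or.inl hc)
      · intro h9
        exact parity_A hdm hd4 he hd.symm hT' hs' Nat.prime_three ((by norm_num : 3 ∣ 9).trans h9)
          (Or.inr (Or.inl ⟨rfl, h9⟩))
      · intro h8
        exact parity_A hdm hd4 he hd.symm hT' hs' Nat.prime_two ((by norm_num : 2 ∣ 8).trans h8)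
          (Or.inr (Or.inr ⟨rfl, h8⟩))
    have hle := Nat.le_of_dvd (by norm_num) h12
    interval_cases d <;> omega
  · obtain ⟨c, hc⟩ : 2 ∣ d := by omega
    have hcodd : c % 2 = 1 := by omega
    have hc0 : c ≠ 0 := by omega
    haveI : NeZero c := ⟨hc0⟩
    have h2m : 2 ∣ m := (Dvd.intro c hc.symm).trans hdm
    have hcm : c ∣ m := (Dvd.intro_left 2 hc.symm).trans hdm
    set b' : ZMod m := ((c + 1 : ℕ) : ZMod m) * b with hb'
    have hcb : ((2 : ℕ) : ZMod m) * ((c : ZMod m) * b) = 0 := by
      rw [← mul_assoc, ← Nat.cast_mul, ← hc, ← nsmul_eq_mul, hd, addOrderOf_nsmul_eq_zero]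
    have hcb0 : (c : ZMod m) * b ≠ 0 := by
      intro h0
      rw [← nsmul_eq_mul] at h0
      have := addOrderOf_dvd_of_nsmul_eq_zero h0
      rw [← hd] at this
      have := Nat.le_of_dvd (Nat.pos_of_ne_zero hc0) this
      omega
    have hbb : ((2 : ℕ) : ZMod m) * b = ((2 : ℕ) : ZMod m) * b' := by
      rw [hb']
      push_cast at hcb ⊢
      linear_combination -hcb
    have hne : b ≠ b' := by
      intro h0
      apply hcb0
      rw [hb'] at h0
      push_cast at h0
      linear_combination -h0
    have ho2b : addOrderOf (((2 : ℕ) : ZMod m) * b') = c := by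
      rw [← hbb, addOrderOf_natCast_mul (by norm_num) (by rw [← hd]; omega), ← hd, hc]
      omega
    have hob' : addOrderOf b' = c := by
      apply Nat.dvd_antisymm
      · apply addOrderOf_dvd_of_nsmul_eq_zero
        obtain ⟨k, hk⟩ : 2 ∣ c + 1 := by omega
        rw [nsmul_eq_mul, hb', hk]
        push_cast at hcb ⊢
        linear_combination (k : ZMod m) * hcb
      · rw [← ho2b]
        apply addOrderOf_dvd_of_nsmul_eq_zero
        rw [nsmul_eq_mul, ← mul_assoc, mul_comm ((addOrderOf b' : ℕ) : ZMod m), mul_assoc,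
          ← nsmul_eq_mul (addOrderOf b'), addOrderOf_nsmul_eq_zero, mul_zero]
    have hT2 : TP0 e (fun a => 2 * g a - (dl (((2 : ℕ) : ZMod m) * b') a - dl b' a)) := by
      have h1 : TP0 e (rel 2 (dl (((2 : ℕ) : ZMod m) * b'))) := by
        apply TP0.of_rel he Nat.prime_two h2m
        intro a ha
        unfold dl at ha
        by_cases h1 : a = ((2 : ℕ) : ZMod m) * b'
        · exact ⟨b', h1⟩
        · by_cases h2 : a = -(((2 : ℕ) : ZMod m) * b')
          · exact ⟨-b', by rw [mul_neg]; exact h2⟩
          · rw [if_neg h1, if_neg h2] at ha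
            exact absurd rfl ha
      have h2 := hT.add h1
      convert h2 using 1
      rw [rel_two h2m hne hbb]
      funext a
      simp only [Pi.add_apply]
      ring
    obtain ⟨g', hT', hs'⟩ := reduceA (d := c) he
      (fun a => dl (((2 : ℕ) : ZMod m) * b') a - dl b' a) (fun a ha => by
        by_cases h1 : dl b' a = 0
        · have h2 : dl (((2 : ℕ) : ZMod m) * b') a ≠ 0 := by
            intro h0; apply ha; beta_reduce; rw [h1, h0]; rfl
          rw [dl_supp h2, ho2b]
        · rw [dl_supp h1, hob']) m g hT2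
      (fun a _ => Or.inr (Nat.le_of_dvd (Nat.pos_of_ne_zero (NeZero.ne m)) (addOrderOf_dvd_m a)))
    have h15 : c ∣ 15 := by
      apply dvd_fifteen hcodd
      · intro p hp hpd
        by_contra hc
        push Not at hc
        exact parity_B hcm hcodd he hob' hT' hs' hp hpd (Or.inl hc)
      · intro h25
        exact parity_B hcm hcodd he hob' hT' hs' Nat.prime_five ((by norm_num : 5 ∣ 25).trans h25)
          (Or.inr (Or.inl ⟨rfl, h25⟩))
      · intro h9
        exact parity_B hcm hcodd he hob' hT' hs' Nat.prime_three ((by norm_num : 3 ∣ 9).trans h9)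
          (Or.inr (Or.inr ⟨rfl, h9⟩))
    have hc15 : c ≠ 15 := by
      intro h
      have hd30 : d = 30 := by omega
      have h30 : 30 ∣ m := hd30 ▸ hdm
      obtain ⟨g', hT', hs'⟩ := reduceA (d := d) he (dl b) (fun a ha => by rw [dl_supp ha]) m g hT
        (fun a _ => Or.inr (Nat.le_of_dvd (Nat.pos_of_ne_zero (NeZero.ne m)) (addOrderOf_dvd_m a)))
      obtain ⟨c0, hc0⟩ := mem_relD (D := 30) he m _ hT' (by
        intro a ha
        rw [← hd30]
        by_cases h1 : g' a = 0
        · have h2 : dl b a ≠ 0 := by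
            intro h0; apply ha; beta_reduce; rw [h1, h0]; rfl
          rw [dl_supp h2]
        · exact hs' a h1) (fun a _ => Nat.le_of_dvd (Nat.pos_of_ne_zero (NeZero.ne m))
          (addOrderOf_dvd_m a)) (by norm_num)
      have h1 := Lam_relD h30 hc0
      obtain ⟨u, hu⟩ := exists_unit_of_order h30 (a := b) (by rw [← hd]; exact hd30)
      have h2 : Lam h30 ((fun a => 2 * g' a - dl b a) - Pi.single 0 c0)
          = psi30 u + psi30 (-u) := by
        unfold Lam
        have h3 : ∀ y : ZMod 30, psi30 y * (((((fun a => 2 * g' a - dl b a) - Pi.single 0 c0 :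
            ZMod m → ℤ) (jj h30 y)) : ℤ) : ZMod 2)
            = (if y = (u : ZMod 30) then psi30 y else 0) + (if y = -(u : ZMod 30) then psi30 y else 0) := by
          intro y
          rw [Pi.sub_apply]
          have h4 : psi30 y * ((((Pi.single 0 c0 : ZMod m → ℤ) (jj h30 y)) : ℤ) : ZMod 2) = 0 := by
            by_cases hy : y = 0
            · rw [hy]
              have : psi30 0 = 0 := by decide
              rw [this, zero_mul]
            · rw [Pi.single_eq_of_ne]
              · simp
              · intro h0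
                apply hy
                apply jj_injective h30
                rw [h0, map_zero]
          rw [Int.cast_sub, mul_sub, h4, sub_zero]
          beta_reduce
          unfold dl
          simp only [← hu, ← map_neg, (jj_injective h30).eq_iff]
          have h20 : (2 : ZMod 2) = 0 := by decide
          by_cases e1 : y = (u : ZMod 30)
          · by_cases e2 : y = -(u : ZMod 30)
            · rw [if_pos e1, if_pos e2, if_pos e1, if_pos e2]
              push_cast
              linear_combination (psi30 y * (g' (jj h30 y) : ZMod 2) - psi30 y) * h20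
            · rw [if_pos e1, if_neg e2, if_pos e1, if_neg e2]
              push_cast
              linear_combination (psi30 y * (g' (jj h30 y) : ZMod 2) - psi30 y) * h20
          · by_cases e2 : y = -(u : ZMod 30)
            · rw [if_neg e1, if_pos e2, if_neg e1, if_pos e2]
              push_cast
              linear_combination (psi30 y * (g' (jj h30 y) : ZMod 2)) * h20
            · rw [if_neg e1, if_neg e2, if_neg e1, if_neg e2]
              push_cast
              linear_combination (psi30 y * (g' (jj h30 y) : ZMod 2)) * h20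
        rw [sum_congr rfl fun y _ => h3 y, sum_add_distrib, sum_ite_eq', sum_ite_eq',
          if_pos (mem_univ _), if_pos (mem_univ _)]
      rw [h1, psi30_unit _ (ZMod.val_coe_unit_coprime u)] at h2
      exact absurd h2 (by decide)
    have hle := Nat.le_of_dvd (by norm_num) h15
    interval_cases c <;> omega

end Pool.Agent.Lib.MP_938ce2_ag_H7f
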