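import Pool.Agent.Lib.MP_938ce2_ag_H7f.Up2
import Pool.Agent.Lib.MP_938ce2_ag_H7f.Fibre

/-!
Pull-backs from the level prime to `q`; bounds; existence of the point `b`.
-/

set_option autoImplicit false
set_option linter.style.haveILetI false
set_option linter.unusedSectionVars false

open Finset

namespace Pool.Agent.Lib.MP_938ce2_ag_H7f

open Pool.Agent.Lib.MP_938ce2_ag_h99 Pool.Agent.Lib.MP_938ce2_ag_H7e

variable {m Q n q : ℕ} [NeZero m]

lemma natCast_mul_eq_jj (hD : Dat m Q n q) [NeZero n] (x : ZMod m) :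
    (Q : ZMod m) * x = jj hD.nm (ZMod.castHom hD.nm (ZMod n) x) := by
  have h1 := jj_mul hD.nm x (1 : ZMod n)
  rw [mul_one] at h1
  rw [← h1]
  have h2 : jj hD.nm (1 : ZMod n) = (Q : ZMod m) := by
    have h3 := jj_natCast hD.nm 1
    rw [Nat.cast_one, mul_one] at h3
    rw [h3]
    congr 1
    rw [hD.hm, Nat.mul_div_cancel _ (Nat.pos_of_ne_zero hD.hn)]
  rw [h2, mul_comm]

lemma W_Q_mul (hD : Dat m Q n q) [NeZero n] (t : (ZMod m)ˣ) (x : ZMod m) :
    W t ((Q : ZMod m) * x) = Q * W (ZMod.unitsMap hD.nm t) (ZMod.castHom hD.nm (ZMod n) x) := by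
  have hQ : (Q : ℤ) ≠ 0 := by exact_mod_cast hD.Qpos.ne'
  set y := ZMod.castHom hD.nm (ZMod n) x with hy
  have h1 : (Q : ZMod m) * x = jj hD.nm y := natCast_mul_eq_jj hD x
  unfold W
  by_cases hy0 : y = 0
  · rw [h1, hy0, map_zero, if_pos rfl, if_pos rfl, mul_zero]
  · have h2 : jj hD.nm y ≠ 0 := by
      intro h0
      apply hy0
      apply jj_injective hD.nm
      rw [h0, map_zero]
    rw [h1, if_neg h2, if_neg hy0, jj_mul, jj_val]
    have h3 : ZMod.castHom hD.nm (ZMod n) (t : ZMod m) = ((ZMod.unitsMap hD.nm t : (ZMod n)ˣ) : ZMod n) := by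
      rw [ZMod.unitsMap_val]
      rfl
    rw [h3]
    have h4 : m / n = Q := by rw [hD.hm, Nat.mul_div_cancel _ (Nat.pos_of_ne_zero hD.hn)]
    rw [h4]
    have h5 : (m : ℤ) = Q * n := by exact_mod_cast hD.hm
    rw [h5]
    push_cast
    ring

/-- sums of pull-backs -/
theorem PH_pull (hD : Dat m Q n q) [NeZero n] (h : ZMod n → ℤ) (t : (ZMod m)ˣ) :
    PH (fun a => h (ZMod.castHom hD.nm (ZMod n) a)) t = Q * PH h (ZMod.unitsMap hD.nm t) := by
  classical
  rw [PH_eq, PH_eq, mul_sum]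
  rw [← Finset.sum_fiberwise_of_maps_to (s := univ) (t := univ)
      (g := fun a : ZMod m => ZMod.castHom hD.nm (ZMod n) a) (fun _ _ => mem_univ _)]
  refine sum_congr rfl fun y _ => ?_
  obtain ⟨a0, ha0⟩ := ZMod.castHom_surjective hD.nm y
  have h1 : univ.filter (fun a : ZMod m => ZMod.castHom hD.nm (ZMod n) a = y) = fib Q a0 := by
    ext a
    rw [mem_filter, mem_fib, natCast_mul_eq_jj hD, natCast_mul_eq_jj hD,
      (jj_injective hD.nm).eq_iff, ha0]
    simp
  have h2 : ∑ a ∈ univ.filter (fun a : ZMod m => ZMod.castHom hD.nm (ZMod n) a = y),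
      h (ZMod.castHom hD.nm (ZMod n) a) * W t a
      = h y * ∑ a ∈ fib Q a0, W t a := by
    rw [← h1, mul_sum]
    refine sum_congr rfl fun a ha => ?_
    rw [(mem_filter.mp ha).2]
  rw [h2, sum_fib_W hD.Qpos hD.Qm, W_Q_mul hD, ha0]
  ring

lemma PH_mul_arg [NeZero n] (g : ZMod n → ℤ) (s t : (ZMod n)ˣ) :
    PH (fun y => g ((s : ZMod n) * y)) (s * t) = PH g t := by
  rw [PH_eq, PH_eq]
  refine Fintype.sum_equiv (Units.mulLeft s) _ _ fun y => ?_
  rw [Units.mulLeft_apply, mul_comm s t, ← W_unit_mul]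

lemma castHom_mul_natCast (hD : Dat m Q n q) (k : ℕ) (b : ZMod m) :
    ZMod.castHom hD.nm (ZMod n) ((k : ZMod m) * b) = (k : ZMod n) * ZMod.castHom hD.nm (ZMod n) b := by
  rw [map_mul, map_natCast]

lemma PH_relN {d : ZMod m → ℤ} (hnm : n ∣ m) (hd : d ∈ relN m n) :
    ∀ t : (ZMod m)ˣ, PH d t = 0 := by
  unfold relN at hd
  induction hd using AddSubgroup.closure_induction with
  | mem x hx =>
    obtain ⟨p, g, hp, hpn, hs, rfl⟩ := hx
    exact PH_rel hp.pos (hpn.trans hnm) hs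
  | zero =>
    intro t
    rw [PH_eq]
    simp
  | add x y _ _ hx hy =>
    intro t
    rw [PH_add, hx, hy, add_zero]
  | neg x _ hx =>
    intro t
    rw [PH_neg, hx, neg_zero]

/-- the invariance of `g` when there is no part prime to `q` -/
theorem PH_inv (hD : Dat m Q n q) [NeZero n] {E : ZMod m → ℤ} (hE1 : GInv Q E)
    (hE2 : ∀ a, E a ≠ 0 → Q ∣ addOrderOf a) (hE0 : ∀ t, PH E t = 0) (s t : (ZMod n)ˣ)
    (hs : (s : ZMod n) = q) :
    PH (fun y => E (hD.crt.symm (1, y))) (s * t) = PH (fun y => E (hD.crt.symm (1, y))) t := by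
  set g : ZMod n → ℤ := fun y => E (hD.crt.symm (1, y)) with hg
  set π := ZMod.castHom hD.nm (ZMod n) with hπ
  have hval : ∀ a, Q ∣ addOrderOf a → E a = g (π a) := by
    intro a ha
    set x := (hD.crt a).1 with hx
    set y := (hD.crt a).2 with hy
    have hy' : y = π a := hD.crt_snd a
    have ha2 : a = hD.crt.symm (x, y) := by
      rw [hx, hy, Prod.mk.eta, RingEquiv.symm_apply_apply]
    have hxu : IsUnit x := by
      by_contra hx
      have := not_dvd_order hD hx y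
      rw [← ha2] at this
      exact this ha
    obtain ⟨xu, hxu⟩ := hxu
    have h1 := hE1 _ (crt_unit_mem hD xu) (hD.crt.symm (1, y))
    have h3 : ((Units.map (hD.crt.symm : ZMod Q × ZMod n →* ZMod m)
          (MulEquiv.prodUnits.symm (xu, 1)) : (ZMod m)ˣ) : ZMod m)
            = hD.crt.symm ((xu : ZMod Q), 1) := rfl
    rw [h3, ← map_mul, Prod.mk_mul_mk, mul_one, one_mul, hxu, ← ha2] at h1
    rw [h1, hg, ← hy']
  set P' : ZMod m → ℤ := fun a => by classical exact if Q ∣ addOrderOf a then 0 else g (π a)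
    with hP'
  have hPE : (fun a => g (π a)) = P' + E := by
    funext a
    rw [Pi.add_apply]
    simp only [hP']
    split_ifs with h
    · rw [hval a h, zero_add]
    · have : E a = 0 := by
        by_contra h0
        exact h (hE2 a h0)
      rw [this, add_zero]
  have hP'2 : (fun b => g ((q : ZMod n) * π b)) = P' + rel q P' := by
    funext b
    rw [Pi.add_apply]
    unfold rel
    have h1 : P' ((q : ZMod m) * b) = g ((q : ZMod n) * π b) := by
      simp only [hP']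
      rw [if_neg (not_Q_dvd_mul hD b), hπ, castHom_mul_natCast hD]
    rw [h1]
    ring
  obtain ⟨T, hT⟩ := ZMod.unitsMap_surjective hD.nm (s * t)
  have hrel : PH (rel q P') T = 0 := by
    apply PH_rel hD.hq.pos (hD.qQ.trans hD.Qm)
    intro a ha
    apply exists_of_not_dvd hD
    intro hd
    apply ha
    simp only [hP']
    rw [if_pos hd]
  have e1 : PH (fun a => g (π a)) T = PH P' T := by
    rw [hPE, PH_add, hE0, add_zero]
  have e2 : PH (fun b => g ((q : ZMod n) * π b)) T = PH P' T := by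
    rw [hP'2, PH_add, hrel, add_zero]
  have e3 := PH_pull hD g T
  have e4 := PH_pull hD (fun y => g ((q : ZMod n) * y)) T
  rw [hT] at e3 e4
  have hQ : (Q : ℤ) ≠ 0 := by exact_mod_cast hD.Qpos.ne'
  have e5 : PH (fun y => g ((q : ZMod n) * y)) (s * t) = PH g t := by
    rw [← hs]
    exact PH_mul_arg g s t
  rw [e5] at e4
  have e6 : (Q : ℤ) * PH g (s * t) = Q * PH g t := by
    rw [← e3, ← e4, e1, ← e2]
  exact mul_left_cancel₀ hQ e6

lemma abs_W_le [NeZero n] (h2 : 2 ≤ n) (t : (ZMod n)ˣ) (a : ZMod n) : |W t a| ≤ n - 2 := by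
  unfold W
  have hn : (2 : ℤ) ≤ n := by exact_mod_cast h2
  split_ifs with h
  · rw [abs_zero]; linarith
  · have h0 : (t : ZMod n) * a ≠ 0 := fun h' => h ((Units.mul_right_eq_zero t).mp h')
    have h1 : ((t : ZMod n) * a).val < n := ZMod.val_lt _
    have h3 : 0 < ((t : ZMod n) * a).val := by
      rw [ZMod.val_pos]; exact h0
    rw [abs_le]
    constructor <;> push_cast <;> omega

lemma PH_le2 [NeZero n] (h2 : 2 ≤ n) (h : ZMod n → ℤ) (t : (ZMod n)ˣ) :
    |PH h t| ≤ (n - 2) * ∑ a, |h a| := by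
  rw [PH_eq, mul_sum]
  refine (abs_sum_le_sum_abs _ _).trans (sum_le_sum fun a _ => ?_)
  rw [abs_mul, mul_comm]
  exact mul_le_mul_of_nonneg_right (abs_W_le h2 t a) (abs_nonneg _)

/-- bound for the class `g` -/
theorem g_bound (hD : Dat m Q n q) [NeZero n] (h2 : 2 ≤ n) {K : ℕ} (hQ : Q = q ^ K)
    {F1 : ZMod m → ℤ} (hs1 : ∀ a, F1 a ≠ 0 → q ∣ addOrderOf a) {g : ZMod n → ℤ}
    (hg : ∀ t : (ZMod n)ˣ, PH (push hD (upF Q q K F1)) t = Q.totient * PH g t) (t : (ZMod n)ˣ) :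
    (q - 1) * |PH g t| ≤ (n - 2) * ∑ a, |F1 a| := by
  have hK : 1 ≤ K := by
    obtain ⟨K', hK', hQ'⟩ := hD.hQ
    by_contra h
    have : K = 0 := by omega
    rw [this, pow_zero] at hQ
    rw [hQ] at hQ'
    have := Nat.one_lt_pow hK' hD.hq.one_lt
    omega
  have hn : (2 : ℤ) ≤ n := by exact_mod_cast h2
  have hq1 : (1 : ℤ) ≤ q := by exact_mod_cast hD.hq.one_lt.le
  have hφ : (Q.totient : ℤ) = q ^ (K - 1) * (q - 1) := by
    obtain ⟨k, rfl⟩ : ∃ k, K = k + 1 := ⟨K - 1, by omega⟩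
    rw [hQ, Nat.totient_prime_pow_succ hD.hq]
    rw [Nat.cast_mul, Nat.cast_pow, Nat.cast_sub hD.hq.one_lt.le]
    simp
  have h1 := PH_le2 h2 (push hD (upF Q q K F1)) t
  have h3 := push_norm hD (upF Q q K F1)
  have h4 := upF_norm hD hQ F1 hs1
  rw [hg t, hφ, abs_mul, abs_of_nonneg (by positivity)] at h1
  have h5 : (n - 2 : ℤ) * ∑ a, |push hD (upF Q q K F1) a| ≤ (n - 2) * (q ^ (K - 1) * ∑ a, |F1 a|) :=
    mul_le_mul_of_nonneg_left (h3.trans h4) (by linarith)
  have h6 : (q : ℤ) ^ (K - 1) * ((q - 1) * |PH g t|) ≤ (q : ℤ) ^ (K - 1) * ((n - 2) * ∑ a, |F1 a|) := by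
    calc (q : ℤ) ^ (K - 1) * ((q - 1) * |PH g t|) = (q : ℤ) ^ (K - 1) * (q - 1) * |PH g t| := by ring
      _ ≤ _ := h1
      _ ≤ _ := h5
      _ = _ := by ring
  exact le_of_mul_le_mul_left h6 (pow_pos (by linarith) _)

/-- the point `b`, up to multiples of `2 n` -/
theorem exists_b0 [NeZero n] (h2 : 2 ∣ n) (g : ZMod n → ℤ) : ∃ b : ZMod n, ∀ t : (ZMod n)ˣ,
    ∃ k : ℤ, PH g t = 2 * ((((t : ZMod n) * b).val : ℕ) : ℤ) - n + 2 * n * k := by
  obtain ⟨h, hh⟩ := h2
  have hhn : (n : ℤ) = 2 * h := by exact_mod_cast hh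
  set G : ℤ := ∑ a, if a = 0 then 0 else g a with hG
  have hPH : ∀ t, PH g t = 2 * SS g t - n * G := by
    intro t
    unfold PH SS
    rw [hG, mul_sum, mul_sum, ← sum_sub_distrib]
    refine sum_congr rfl fun a _ => ?_
    by_cases ha : a = 0
    · rw [if_pos ha, if_pos ha, ha]
      simp
    · rw [if_neg ha, if_neg ha]; ring
  set b : ZMod n := ((SS g 1 + h * (1 - G) : ℤ) : ZMod n) with hb
  refine ⟨b, fun t => ?_⟩
  -- `t h = h`
  have hth : (t : ZMod n) * (h : ZMod n) = h := by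
    have hcop := ZMod.val_coe_unit_coprime t
    have hodd : (t : ZMod n).val % 2 = 1 := by
      by_contra hc
      have h3 : 2 ∣ (t : ZMod n).val := by omega
      have h4 : 2 ∣ Nat.gcd (t : ZMod n).val n := Nat.dvd_gcd h3 (Dvd.intro h hh.symm)
      rw [hcop.gcd_eq_one] at h4
      omega
    obtain ⟨j, hj⟩ : ∃ j, (t : ZMod n).val = 2 * j + 1 := ⟨(t : ZMod n).val / 2, by omega⟩
    rw [← ZMod.natCast_zmod_val (t : ZMod n), hj]
    have h5 : ((2 * h : ℕ) : ZMod n) = 0 := by rw [← hh, ZMod.natCast_self]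
    push_cast at h5 ⊢
    linear_combination (j : ZMod n) * h5
  have h3 : (((SS g t + h * (1 - G)) - ((((t : ZMod n) * b).val : ℕ) : ℤ) : ℤ) : ZMod n) = 0 := by
    push_cast
    rw [SS_cast, ZMod.natCast_zmod_val, hb]
    push_cast
    linear_combination (-(1 - (G : ZMod n))) * hth
  rw [ZMod.intCast_zmod_eq_zero_iff_dvd] at h3
  obtain ⟨k, hk⟩ := h3
  refine ⟨k, ?_⟩
  rw [hPH]
  rw [hhn] at hk ⊢
  linarith

theorem exists_b [NeZero n] (h2 : 2 ∣ n) (g : ZMod n → ℤ) (hs : ∀ t : (ZMod n)ˣ, |PH g t| < n) :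
    ∃ b : ZMod n, b ≠ 0 ∧ ∀ t : (ZMod n)ˣ, PH g t = W t b := by
  obtain ⟨b, hb⟩ := exists_b0 h2 g
  have hn : 0 < n := Nat.pos_of_ne_zero (NeZero.ne n)
  have hn' : (0 : ℤ) < n := by exact_mod_cast hn
  have hb0 : b ≠ 0 := by
    rintro rfl
    obtain ⟨k, hk⟩ := hb 1
    have h3 := abs_lt.mp (hs 1)
    rw [hk, mul_zero, ZMod.val_zero, Nat.cast_zero] at h3
    have h4 : 0 < k := by
      by_contra hc
      push Not at hc
      nlinarith [h3.1]
    nlinarith [h3.2]
  refine ⟨b, hb0, fun t => ?_⟩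
  obtain ⟨k, hk⟩ := hb t
  have h3 := abs_lt.mp (hs t)
  have h4 : ((t : ZMod n) * b).val < n := ZMod.val_lt _
  have h4' : ((((t : ZMod n) * b).val : ℕ) : ℤ) < n := by exact_mod_cast h4
  have h5 : (0 : ℤ) ≤ ((((t : ZMod n) * b).val : ℕ) : ℤ) := Int.natCast_nonneg _
  have hk0 : k = 0 := by
    rw [hk] at h3
    have h6 : -1 < k := by
      by_contra hc
      push Not at hc
      nlinarith [h3.1]
    have h7 : k < 1 := by
      by_contra hc
      push Not at hc
      nlinarith [h3.2]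
    omega
  unfold W
  rw [if_neg hb0, hk, hk0]
  ring

end Pool.Agent.Lib.MP_938ce2_ag_H7f
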