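import Pool.Agent.Lib.MP_938ce2_ag_h99.ExcData2

/-!
Functions supported on the `f`-torsion, as functions at level `f`.
-/

set_option autoImplicit false
set_option linter.style.haveILetI false
set_option linter.unusedSectionVars false

open Finset

namespace Pool.Agent.Lib.MP_938ce2_ag_H7f

open Pool.Agent.Lib.MP_938ce2_ag_h99 Pool.Agent.Lib.MP_938ce2_ag_h6

variable {m f : ℕ} [NeZero m] [NeZero f]

/-- extension by zero -/
noncomputable def extZ (hf : f ∣ m) (F : ZMod f → ℤ) : ZMod m → ℤ := fun a =>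
  by classical exact if h : ∃ y : ZMod f, jj hf y = a then F h.choose else 0

lemma extZ_jj (hf : f ∣ m) (F : ZMod f → ℤ) (y : ZMod f) : extZ hf F (jj hf y) = F y := by
  unfold extZ
  have h : ∃ z : ZMod f, jj hf z = jj hf y := ⟨y, rfl⟩
  rw [dif_pos h]
  congr 1
  exact jj_injective hf h.choose_spec

lemma extZ_out (hf : f ∣ m) (F : ZMod f → ℤ) {a : ZMod m} (h : ∀ y, jj hf y ≠ a) :
    extZ hf F a = 0 := by
  unfold extZ
  rw [dif_neg]
  rintro ⟨y, hy⟩
  exact h y hy

lemma ext_cases (hf : f ∣ m) {G H : ZMod m → ℤ} (h1 : ∀ y : ZMod f, G (jj hf y) = H (jj hf y))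
    (h2 : ∀ a, (∀ y, jj hf y ≠ a) → G a = H a) : G = H := by
  funext a
  by_cases h : ∃ y, jj hf y = a
  · obtain ⟨y, rfl⟩ := h
    exact h1 y
  · push Not at h
    exact h2 a h

lemma extZ_add (hf : f ∣ m) (F G : ZMod f → ℤ) : extZ hf (F + G) = extZ hf F + extZ hf G := by
  apply ext_cases hf
  · intro y
    rw [Pi.add_apply, extZ_jj, extZ_jj, extZ_jj, Pi.add_apply]
  · intro a ha
    rw [Pi.add_apply, extZ_out hf _ ha, extZ_out hf _ ha, extZ_out hf _ ha, add_zero]

lemma extZ_neg (hf : f ∣ m) (F : ZMod f → ℤ) : extZ hf (-F) = - extZ hf F := by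
  apply ext_cases hf
  · intro y
    rw [Pi.neg_apply, extZ_jj, extZ_jj, Pi.neg_apply]
  · intro a ha
    rw [Pi.neg_apply, extZ_out hf _ ha, extZ_out hf _ ha, neg_zero]

lemma extZ_zero (hf : f ∣ m) : extZ hf (0 : ZMod f → ℤ) = 0 := by
  apply ext_cases hf
  · intro y
    rw [extZ_jj]; rfl
  · intro a ha
    rw [extZ_out hf _ ha]; rfl

lemma extZ_oddPart (hf : f ∣ m) (s : Multiset (ZMod f)) :
    extZ hf (oddPart s) = oddPart (s.map (jj hf)) := by
  apply ext_cases hf
  · intro y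
    rw [extZ_jj, oddPart_lift_apply]
  · intro a ha
    rw [extZ_out hf _ ha, oddPart_lift_of_forall_ne hf s ha]

lemma exists_jj (hf : f ∣ m) {a : ZMod m} (h : addOrderOf a ∣ f) : ∃ y : ZMod f, jj hf y = a :=
  exists_of_smul hf (by
    obtain ⟨c, hc⟩ := h
    rw [hc, mul_comm, mul_smul, addOrderOf_nsmul_eq_zero, smul_zero])

lemma order_jj_dvd (hf : f ∣ m) (y : ZMod f) : addOrderOf (jj hf y) ∣ f := by
  rw [addOrderOf_jj]
  exact addOrderOf_dvd_m y

/-- the multiples of a prime dividing `f` -/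
lemma jj_of_mul (hf : f ∣ m) {p : ℕ} (hp : p.Prime) (hpf : ¬ p ∣ m / f) {a : ZMod m}
    {y : ZMod f} (h : jj hf y = (p : ZMod m) * a) : ∃ z, jj hf z = a := by
  apply exists_jj hf
  have h1 : addOrderOf ((p : ZMod m) * a) ∣ f := by
    rw [← h]
    exact order_jj_dvd hf y
  have h2 : addOrderOf a ∣ p * f := by
    apply addOrderOf_dvd_of_nsmul_eq_zero
    obtain ⟨c, hc⟩ := h1
    have h3 := addOrderOf_nsmul_eq_zero ((p : ZMod m) * a)
    rw [nsmul_eq_mul] at h3 ⊢
    rw [hc]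
    push_cast
    linear_combination (c : ZMod m) * h3
  have h3 : addOrderOf a ∣ m := addOrderOf_dvd_m a
  have h4 : addOrderOf a ∣ Nat.gcd (p * f) m := Nat.dvd_gcd h2 h3
  have h5 : Nat.gcd (p * f) m = f := by
    obtain ⟨c, hc⟩ := hf
    have hf0 : 0 < f := Nat.pos_of_ne_zero (NeZero.ne f)
    rw [hc, Nat.mul_div_cancel_left c hf0] at hpf
    rw [hc, mul_comm p f, Nat.gcd_mul_left, ((Nat.Prime.coprime_iff_not_dvd hp).mpr hpf).gcd_eq_one,
      mul_one]
  rwa [h5] at h4

lemma extZ_rel (hf : f ∣ m) {p : ℕ} (hp : p.Prime) (hpf : ¬ p ∣ m / f) (g : ZMod f → ℤ) :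
    extZ hf (rel p g) = rel p (extZ hf g) := by
  apply ext_cases hf
  · intro y
    unfold rel
    rw [extZ_jj, natCast_mul_jj, extZ_jj, extZ_jj]
  · intro a ha
    unfold rel
    rw [extZ_out hf _ ha, extZ_out hf _ ha, extZ_out, sub_zero]
    intro y hy
    obtain ⟨z, hz⟩ := jj_of_mul hf hp hpf hy
    exact ha z hz

lemma extZ_odd (hf : f ∣ m) {g : ZMod f → ℤ} (hg : OddF g) : OddF (extZ hf g) := by
  intro a
  by_cases h : ∃ y, jj hf y = a
  · obtain ⟨y, rfl⟩ := h
    rw [← map_neg, extZ_jj, extZ_jj, hg]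
  · push Not at h
    rw [extZ_out hf _ h, extZ_out hf, neg_zero]
    intro y hy
    exact h (-y) (by rw [map_neg, hy, neg_neg])

lemma extZ_relSub (hf : f ∣ m) (hpart : ∀ p, p.Prime → p ∣ f → ¬ p ∣ m / f) {F : ZMod f → ℤ}
    (h : F ∈ relSub f) : extZ hf F ∈ relSub m := by
  unfold relSub at h
  induction h using AddSubgroup.closure_induction with
  | mem x hx =>
    obtain ⟨p, g, hp, hpf, hg, hs, rfl⟩ := hx
    rw [extZ_rel hf hp (hpart p hp hpf)]
    apply AddSubgroup.subset_closure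
    refine ⟨p, extZ hf g, hp, hpf.trans hf, extZ_odd hf hg, ?_, rfl⟩
    intro a ha
    by_cases h : ∃ y, jj hf y = a
    · obtain ⟨y, rfl⟩ := h
      rw [extZ_jj] at ha
      obtain ⟨z, rfl⟩ := hs y ha
      exact ⟨jj hf z, (natCast_mul_jj hf p z).symm⟩
    · push Not at h
      exact absurd (extZ_out hf _ h) ha
  | zero =>
    rw [extZ_zero]
    exact (relSub m).zero_mem
  | add x y _ _ hx hy =>
    rw [extZ_add]
    exact (relSub m).add_mem hx hy
  | neg x _ hx =>
    rw [extZ_neg]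
    exact (relSub m).neg_mem hx

lemma Fano.lift (hf : f ∣ m) {s : Multiset (ZMod f)} (h : Fano s) : Fano (s.map (jj hf)) := by
  obtain ⟨k, a, g, μ, c, d, hk, hs, hg, h1, h2, h3, h4, h5, h6⟩ := h
  refine ⟨k, fun i => jj hf (a i), g, μ, c, d, hk, ?_, hg, ?_, ?_, h3, h4, h5, h6⟩
  · rw [hs, Multiset.map_map]
    rfl
  · intro b
    rw [← map_sum, h1, map_zero]
  · intro j
    have h7 := congrArg (jj hf) (h2 j)
    rw [map_sum, map_zero] at h7
    rw [← h7]
    refine sum_congr rfl fun i _ => ?_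
    rw [natCast_mul_jj]

lemma extZ_XF (hf : f ∣ m) {F : ZMod f → ℤ} (h : F ∈ XF f) : extZ hf F ∈ XF m := by
  unfold XF YY at h
  induction h using AddSubgroup.closure_induction with
  | mem x hx =>
    obtain ⟨r, hr, hc, rfl⟩ := hx
    rw [extZ_oddPart]
    apply AddSubgroup.subset_closure
    refine ⟨r.map (jj hf), hr.lift hf, ?_, rfl⟩
    rcases hc with h | h
    · left; rwa [Multiset.card_map]
    · right; exact Fano.lift hf h
  | zero =>
    rw [extZ_zero]
    exact (XF m).zero_mem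
  | add x y _ _ hx hy =>
    rw [extZ_add]
    exact (XF m).add_mem hx hy
  | neg x _ hx =>
    rw [extZ_neg]
    exact (XF m).neg_mem hx

lemma extZ_sup (hf : f ∣ m) (hpart : ∀ p, p.Prime → p ∣ f → ¬ p ∣ m / f) {F : ZMod f → ℤ}
    (h : F ∈ XF f ⊔ relSub f) : extZ hf F ∈ XF m ⊔ relSub m := by
  obtain ⟨x, hx, y, hy, rfl⟩ := AddSubgroup.mem_sup.mp h
  rw [extZ_add]
  exact AddSubgroup.add_mem_sup (extZ_XF hf hx) (extZ_relSub hf hpart hy)

/-- sums over the `f`-torsion -/
lemma sum_jj (hf : f ∣ m) {G : ZMod m → ℤ} (hs : ∀ a, G a ≠ 0 → addOrderOf a ∣ f) :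
    ∑ y, G (jj hf y) = ∑ a, G a := by
  apply Finset.sum_of_injOn (jj hf)
  · exact fun x _ y _ h => jj_injective hf h
  · intro x _
    exact mem_univ _
  · intro a _ ha
    by_contra h0
    obtain ⟨y, hy⟩ := exists_jj hf (hs a h0)
    exact ha ⟨y, by simp, hy⟩
  · intro y _
    rfl

/-- a function supported on the `f`-torsion belongs to the group at level `m` as soon as its
restriction belongs to the group at level `f` -/
theorem transfer (hf : f ∣ m) (hpart : ∀ p, p.Prime → p ∣ f → ¬ p ∣ m / f) {F : ZMod m → ℤ}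
    (ho : OddF F) (hT : TateF F) (hs : ∀ a, F a ≠ 0 → addOrderOf a ∣ f)
    (hbase : ∀ G : ZMod f → ℤ, OddF G → TateF G → ∑ y, |G y| ≤ ∑ a, |F a| →
      G ∈ XF f ⊔ relSub f) : F ∈ XF m ⊔ relSub m := by
  set G : ZMod f → ℤ := fun y => F (jj hf y) with hG
  have hFG : extZ hf G = F := by
    apply ext_cases hf
    · intro y
      rw [extZ_jj]
    · intro a ha
      rw [extZ_out hf _ ha]
      by_contra h0
      obtain ⟨y, hy⟩ := exists_jj hf (hs a (fun h => h0 h.symm))
      exact ha y hy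
  rw [← hFG]
  apply extZ_sup hf hpart
  apply hbase
  · intro y
    simp only [hG]
    rw [map_neg, ho]
  · intro t
    obtain ⟨T, hTt⟩ := ZMod.unitsMap_surjective hf t
    have h1 := hT T
    rw [← sum_jj hf (G := fun a => F a * (((T : ZMod m) * a).val : ℤ)) (by
      intro a ha
      apply hs
      intro h0
      apply ha
      beta_reduce
      rw [h0, zero_mul])] at h1
    have h2 : ∀ y : ZMod f, F (jj hf y) * (((T : ZMod m) * jj hf y).val : ℤ)
        = (m / f : ℕ) * (G y * (((t : ZMod f) * y).val : ℤ)) := by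
      intro y
      rw [jj_mul, jj_val]
      have h3 : ZMod.castHom hf (ZMod f) (T : ZMod m) = (t : ZMod f) := by
        rw [← hTt, ZMod.unitsMap_val]
        rfl
      rw [h3]
      push_cast
      ring
    rw [sum_congr rfl fun y _ => h2 y, ← mul_sum] at h1
    have h3 : ((m / f : ℕ) : ℤ) ≠ 0 := by
      have : 0 < m / f := Nat.div_pos (Nat.le_of_dvd (Nat.pos_of_ne_zero (NeZero.ne m)) hf)
        (Nat.pos_of_ne_zero (NeZero.ne f))
      exact_mod_cast this.ne'
    exact (mul_eq_zero.mp h1).resolve_left h3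
  · apply le_of_eq
    exact sum_jj hf (G := fun a => |F a|) (fun a ha => hs a (fun h0 => ha (by
      beta_reduce; rw [h0, abs_zero])))

end Pool.Agent.Lib.MP_938ce2_ag_H7f
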