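import Pool.Agent.Lib.MP_938ce2_ag_H7f.Step2
import Pool.Agent.Lib.MP_938ce2_ag_H7f.Transfer

/-!
All primes `q ≥ 11` are removed from the orders.
-/

set_option autoImplicit false
set_option linter.style.haveILetI false
set_option linter.unusedSectionVars false

open Finset

namespace Pool.Agent.Lib.MP_938ce2_ag_H7f

open Pool.Agent.Lib.MP_938ce2_ag_h99 Pool.Agent.Lib.MP_938ce2_ag_H7e

variable {m : ℕ} [NeZero m]

lemma exists_Dat {q : ℕ} (hq : q.Prime) (hqm : q ∣ m) :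
    ∃ Q n K, Dat m Q n q ∧ Q = q ^ K ∧ NeZero n := by
  have hm0 : m ≠ 0 := NeZero.ne m
  set v := m.factorization q with hv
  have hv1 : 1 ≤ v := (hq.dvd_iff_one_le_factorization hm0).mp hqm
  have hmm : q ^ v * (m / q ^ v) = m := Nat.ordProj_mul_ordCompl_eq_self m q
  have hn0 : m / q ^ v ≠ 0 := by
    intro h
    rw [h, mul_zero] at hmm
    exact hm0 hmm.symm
  refine ⟨q ^ v, m / q ^ v, v, ⟨hmm.symm, hq, ⟨v, by omega, rfl⟩, ?_, hn0⟩, rfl, ⟨hn0⟩⟩
  exact Nat.Coprime.pow_left _ (Nat.coprime_ordCompl hq hm0)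

lemma twelve_dvd {Q n q : ℕ} (hD : Dat m Q n q) (hq : 11 ≤ q) {c : ℕ} (hc : Nat.Coprime q c)
    (h : c ∣ m) : c ∣ n := by
  obtain ⟨K, _, hK⟩ := hD.hQ
  have h1 : Nat.Coprime c Q := by
    rw [hK]
    exact (Nat.Coprime.pow_left _ hc).symm
  exact h1.dvd_of_dvd_mul_left (h.trans (dvd_of_eq hD.hm))

lemma coprime_small {q : ℕ} (hq : q.Prime) (h : 11 ≤ q) : Nat.Coprime q 12 := by
  rw [Nat.Prime.coprime_iff_not_dvd hq]
  intro hd
  have := Nat.le_of_dvd (by norm_num) hd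
  have : q = 11 ∨ q = 12 := by omega
  rcases this with rfl | rfl
  · norm_num at hd
  · exact absurd hq (by norm_num)

/-- the reference functions for points of order `3` -/
def RefThree (m : ℕ) [NeZero m] (Y : AddSubgroup (ZMod m → ℤ)) : Prop :=
  ∀ (q Q n K : ℕ) (hD : Dat m Q n q) [NeZero n], Q = q ^ K → 11 ≤ q → q ≤ 19 →
    ∀ b : ZMod n, addOrderOf b = 3 → ∃ A, Ref hD K Y b 2 A

/-- the reference functions for points of order `4` -/
def RefFour (m : ℕ) [NeZero m] (Y : AddSubgroup (ZMod m → ℤ)) : Prop :=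
  ∀ (q Q n K : ℕ) (hD : Dat m Q n q) [NeZero n], Q = q ^ K → 11 ≤ q → q ≤ 13 →
    ∀ b : ZMod n, addOrderOf b = 4 → ∃ A, Ref hD K Y b 2 A

/-- the reference functions for points of order `10` -/
def RefTen (m : ℕ) [NeZero m] (E : (ZMod m → ℤ) → Prop) : Prop :=
  ∀ (Q n K : ℕ) (hD : Dat m Q n 11) [NeZero n], Q = 11 ^ K →
    ∀ b : ZMod n, addOrderOf b = 10 → ∃ A, E A ∧ Ref hD K ⊤ b 0 A

variable {Y : AddSubgroup (ZMod m → ℤ)}

/-- one prime, with the supports -/
theorem step_one (h12 : 12 ∣ m) (h3 : RefThree m Y) (h4 : RefFour m Y) {q : ℕ} (hq : q.Prime)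
    (hq13 : 13 ≤ q) {F : ZMod m → ℤ} (ho : OddF F) (hT : TateF F) (hN : ∑ a, |F a| ≤ 12) :
    ∃ F' : ZMod m → ℤ, F - F' ∈ Y ⊔ relSub m ∧ OddF F' ∧ TateF F' ∧ ∑ a, |F' a| ≤ 12 ∧
      ∀ a, F' a ≠ 0 → ¬ q ∣ addOrderOf a ∧ (F a ≠ 0 ∨ addOrderOf a ∣ 12) := by
  by_cases hqm : q ∣ m
  swap
  · refine ⟨F, ?_, ho, hT, hN, fun a ha => ⟨fun h => hqm (h.trans (addOrderOf_dvd_m a)), Or.inl ha⟩⟩
    rw [sub_self]
    exact (Y ⊔ relSub m).zero_mem
  obtain ⟨Q, n, K, hD, hQ, hn⟩ := exists_Dat (m := m) hq hqm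
  have h12n : 12 ∣ n := twelve_dvd hD (by omega) (coprime_small hq (by omega)) h12
  obtain ⟨b, hb, hcase⟩ := step_cases hD hQ (by omega) ((by norm_num : 2 ∣ 12).trans h12n)
    (fun h b hb => h3 q Q n K hD hQ (by omega) h b hb)
    (fun h b hb => h4 q Q n K hD hQ (by omega) h b hb) ho hT hN
  rcases hcase with ⟨N', A, hA, hN'⟩ | ⟨h, _⟩
  · obtain ⟨F', h1, h2, h3, h4, h5⟩ := step_ref hD hQ (two_lt_Q hD (by omega)) ho hT hA hb
    refine ⟨F', ?_, h2, h3, h5.trans hN', ?_⟩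
    · have h6 : F - F' = A + (F - F' - A) := by abel
      rw [h6]
      exact AddSubgroup.add_mem_sup hA.mem h1
    · intro a ha
      refine ⟨?_, (h4 a ha).2⟩
      intro hqa
      have h7 := hqa.trans (h4 a ha).1
      have h8 : q ∣ 1 := by
        have := Nat.dvd_gcd hD.qQ h7
        rwa [hD.hcop.gcd_eq_one] at this
      exact hq.one_lt.ne' (Nat.dvd_one.mp h8)
  · omega

theorem reduce_set (h12 : 12 ∣ m) (h3 : RefThree m Y) (h4 : RefFour m Y) (B : Finset ℕ) :
    (∀ q ∈ B, q.Prime ∧ 13 ≤ q) → ∀ F : ZMod m → ℤ, OddF F → TateF F → ∑ a, |F a| ≤ 12 →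
    (∀ a, F a ≠ 0 → ∀ p, p.Prime → p ∣ addOrderOf a → p ≤ 7 ∨ p ∈ B) →
    ∃ F' : ZMod m → ℤ, F - F' ∈ Y ⊔ relSub m ∧ OddF F' ∧ TateF F' ∧ ∑ a, |F' a| ≤ 12 ∧
      ∀ a, F' a ≠ 0 → ∀ p, p.Prime → p ∣ addOrderOf a → p ≤ 7 := by
  classical
  induction B using Finset.induction_on with
  | empty =>
    intro _ F ho hT hN hs
    refine ⟨F, ?_, ho, hT, hN, fun a ha p hp hpa => (hs a ha p hp hpa).resolve_right (by simp)⟩
    rw [sub_self]
    exact (Y ⊔ relSub m).zero_mem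
  | insert q B hqB ih =>
    intro hB F ho hT hN hs
    obtain ⟨hq, hq13⟩ := hB q (mem_insert_self q B)
    obtain ⟨F1, h1, h2, h3', h4', h5⟩ := step_one h12 h3 h4 hq hq13 ho hT hN
    obtain ⟨F2, g1, g2, g3, g4, g5⟩ := ih (fun p hp => hB p (mem_insert_of_mem hp)) F1 h2 h3' h4' (by
      intro a ha p hp hpa
      obtain ⟨h6, h7⟩ := h5 a ha
      rcases h7 with h7 | h7
      · rcases hs a h7 p hp hpa with h8 | h8
        · left; exact h8
        · right
          rcases mem_insert.mp h8 with h9 | h9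
          · rw [h9] at hpa
            exact absurd hpa h6
          · exact h9
      · left
        have h8 : p ∣ 12 := hpa.trans h7
        have h9 := Nat.le_of_dvd (by norm_num) h8
        by_contra hc
        push Not at hc
        interval_cases p <;> first | omega | exact absurd hp (by norm_num))
    refine ⟨F2, ?_, g2, g3, g4, g5⟩
    have h6 : F - F2 = (F - F1) + (F1 - F2) := by abel
    rw [h6]
    exact (Y ⊔ relSub m).add_mem h1 g1

/-- the base case -/
def Base : Prop := ∀ (f : ℕ) [NeZero f], (∀ p, p.Prime → p ∣ f → p ≤ 7) → 420 ∣ f →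
  ∀ G : ZMod f → ℤ, OddF G → TateF G → ∑ y, |G y| ≤ 12 → G ∈ XF f ⊔ relSub f

/-- functions whose orders have prime factors at most seven -/
theorem smooth_case (hbase : Base) (h420 : 420 ∣ m) {F : ZMod m → ℤ} (ho : OddF F) (hT : TateF F)
    (hN : ∑ a, |F a| ≤ 12)
    (hs : ∀ a, F a ≠ 0 → ∀ p, p.Prime → p ∣ addOrderOf a → p ≤ 7) : F ∈ XF m ⊔ relSub m := by
  classical
  have hm0 : m ≠ 0 := NeZero.ne m
  set f := ∏ p ∈ m.primeFactors.filter (· ≤ 7), p ^ m.factorization p with hf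
  set e := ∏ p ∈ m.primeFactors.filter (¬ · ≤ 7), p ^ m.factorization p with he
  have hfe : m = f * e := by
    rw [hf, he, prod_filter_mul_prod_filter_not]
    conv_lhs => rw [← Nat.prod_factorization_pow_eq_self hm0]
    rfl
  have hf0 : f ≠ 0 := by
    intro h
    rw [h, zero_mul] at hfe
    exact hm0 hfe
  haveI : NeZero f := ⟨hf0⟩
  have hfm : f ∣ m := Dvd.intro e hfe.symm
  have hdiv : m / f = e := Nat.div_eq_of_eq_mul_right (Nat.pos_of_ne_zero hf0) hfe
  have hpf : ∀ p, p.Prime → p ∣ f → p ≤ 7 := by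
    intro p hp hpf
    obtain ⟨r, hr, hpr⟩ := (hp.prime.dvd_finset_prod_iff _).mp hpf
    have h1 := hp.dvd_of_dvd_pow hpr
    rw [mem_filter] at hr
    have h2 := (Nat.prime_dvd_prime_iff_eq hp (Nat.prime_of_mem_primeFactors hr.1)).mp h1
    rw [h2]
    exact hr.2
  have hpe : ∀ p, p.Prime → p ∣ e → ¬ p ≤ 7 := by
    intro p hp hpe
    obtain ⟨r, hr, hpr⟩ := (hp.prime.dvd_finset_prod_iff _).mp hpe
    have h1 := hp.dvd_of_dvd_pow hpr
    rw [mem_filter] at hr
    have h2 := (Nat.prime_dvd_prime_iff_eq hp (Nat.prime_of_mem_primeFactors hr.1)).mp h1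
    rw [h2]
    exact hr.2
  have hcopr : ∀ x : ℕ, (∀ p, p.Prime → p ∣ x → p ≤ 7) → Nat.Coprime x e := by
    intro x hx
    apply Nat.Coprime.symm
    apply Nat.coprime_of_dvd
    intro p hp hpe' hpx
    exact hpe p hp hpe' (hx p hp hpx)
  have h420f : 420 ∣ f := by
    have h1 : Nat.Coprime 420 e := hcopr 420 (by
      intro p hp h
      have h3 : p ∈ Nat.primeFactors 420 := by
        rw [Nat.mem_primeFactors]
        exact ⟨hp, h, by norm_num⟩
      have h4 : (420 : ℕ) = 2 * 2 * 3 * 5 * 7 := by norm_num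
      rw [h4] at h
      rcases hp.dvd_mul.mp h with h | h
      · rcases hp.dvd_mul.mp h with h | h
        · rcases hp.dvd_mul.mp h with h | h
          · rcases hp.dvd_mul.mp h with h | h
            · exact (Nat.le_of_dvd (by norm_num) h).trans (by norm_num)
            · exact (Nat.le_of_dvd (by norm_num) h).trans (by norm_num)
          · exact (Nat.le_of_dvd (by norm_num) h).trans (by norm_num)
        · exact (Nat.le_of_dvd (by norm_num) h).trans (by norm_num)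
      · exact Nat.le_of_dvd (by norm_num) h)
    exact h1.dvd_of_dvd_mul_right (h420.trans (dvd_of_eq hfe))
  refine transfer hfm ?_ ho hT ?_ ?_
  · intro p hp hpf' hpe'
    rw [hdiv] at hpe'
    exact hpe p hp hpe' (hpf p hp hpf')
  · intro a ha
    exact (hcopr _ (hs a ha)).dvd_of_dvd_mul_right ((addOrderOf_dvd_m a).trans (dvd_of_eq hfe))
  · intro G hG1 hG2 hG3
    exact hbase f hpf h420f G hG1 hG2 (hG3.trans hN)

/-- the main theorem on functions -/
theorem main_fun (hbase : Base) (h420 : 420 ∣ m) {E : (ZMod m → ℤ) → Prop}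
    (h3 : RefThree m (XF m)) (h4 : RefFour m (XF m)) (h10 : RefTen m E)
    {F : ZMod m → ℤ} (ho : OddF F) (hT : TateF F) (hN : ∑ a, |F a| ≤ 12) {m0 : ℕ}
    (hs : ∀ a, F a ≠ 0 → addOrderOf a ∣ m0) :
    F ∈ XF m ⊔ relSub m ∨ (110 ∣ m0 ∧ ∃ A, E A ∧ F - A ∈ XF m ⊔ relSub m) := by
  have h12 : 12 ∣ m := (by norm_num : 12 ∣ 420).trans h420
  -- the primes from `13` on, then the base case
  have key : ∀ F' : ZMod m → ℤ, OddF F' → TateF F' → ∑ a, |F' a| ≤ 12 →
      (∀ a, F' a ≠ 0 → ¬ 11 ∣ addOrderOf a) → F' ∈ XF m ⊔ relSub m := by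
    intro F' h1 h2 h5 h6
    obtain ⟨F2, g1, g2, g3, g4, g5⟩ := reduce_set h12 h3 h4
      (m.primeFactors.filter (13 ≤ ·)) (by
        intro q hq
        rw [mem_filter] at hq
        exact ⟨Nat.prime_of_mem_primeFactors hq.1, hq.2⟩) F' h1 h2 h5 (by
        intro a ha p hp hpa
        by_cases h7 : p ≤ 7
        · left; exact h7
        · right
          rw [mem_filter, Nat.mem_primeFactors]
          refine ⟨⟨hp, hpa.trans (addOrderOf_dvd_m a), NeZero.ne m⟩, ?_⟩
          by_contra hc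
          push Not at h7 hc
          have h11 : p ≠ 11 := fun h => h6 a ha (h ▸ hpa)
          interval_cases p <;> first | omega | exact absurd hp (by norm_num))
    have g6 := smooth_case hbase h420 g2 g3 g4 g5
    have g7 : F' = (F' - F2) + F2 := by abel
    rw [g7]
    exact (XF m ⊔ relSub m).add_mem g1 g6
  by_cases h11 : 11 ∣ m
  swap
  · left
    exact key F ho hT hN (fun a _ h => h11 (h.trans (addOrderOf_dvd_m a)))
  obtain ⟨Q, n, K, hD, hQ, hn⟩ := exists_Dat (m := m) (by norm_num : Nat.Prime 11) h11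
  have h12n : 12 ∣ n := twelve_dvd hD (by norm_num) (by norm_num) h12
  obtain ⟨b, hb, hcase⟩ := step_cases hD hQ (by norm_num) ((by norm_num : 2 ∣ 12).trans h12n)
    (fun h b hb => h3 11 Q n K hD hQ (by norm_num) h b hb)
    (fun h b hb => h4 11 Q n K hD hQ (by norm_num) h b hb) ho hT hN
  have hno : ∀ F' : ZMod m → ℤ, (∀ a, F' a ≠ 0 → addOrderOf a ∣ n ∧ (F a ≠ 0 ∨ addOrderOf a ∣ 12)) →
      ∀ a, F' a ≠ 0 → ¬ 11 ∣ addOrderOf a := by
    intro F' h a ha hqa
    have h7 := hqa.trans (h a ha).1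
    have h8 : 11 ∣ 1 := by
      have := Nat.dvd_gcd hD.qQ h7
      rwa [hD.hcop.gcd_eq_one] at this
    omega
  rcases hcase with ⟨N', A, hA, hN'⟩ | ⟨_, hb10⟩
  · left
    obtain ⟨F', g1, g2, g3, g4, g5⟩ := step_ref hD hQ (two_lt_Q hD (by norm_num)) ho hT hA hb
    have g6 := key F' g2 g3 (g5.trans hN') (hno F' g4)
    have g7 : F = (A + (F - F' - A)) + F' := by abel
    rw [g7]
    exact (XF m ⊔ relSub m).add_mem (AddSubgroup.add_mem_sup hA.mem g1) g6
  · right
    constructor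
    · by_contra h110
      exact no_ten hD hQ rfl hN hb10 hb h110 hs
    · obtain ⟨A, hEA, hA⟩ := h10 Q n K hD hQ b hb10
      refine ⟨A, hEA, ?_⟩
      obtain ⟨F', g1, g2, g3, g4, g5⟩ := step_ref hD hQ (two_lt_Q hD (by norm_num)) ho hT hA hb
      have hnorm := part_norm (q := 11) F
      have h5 : 0 ≤ ∑ a, |part1 11 F a| := sum_nonneg fun _ _ => abs_nonneg _
      have g6 := key F' g2 g3 (by linarith) (hno F' g4)
      have g7 : F - A = (F - F' - A) + F' := by abel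
      rw [g7]
      exact (XF m ⊔ relSub m).add_mem (AddSubgroup.mem_sup_right g1) g6

end Pool.Agent.Lib.MP_938ce2_ag_H7f
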