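import Pool.Agent.Lib.MP_938ce2_ag_H7f.Core
import Pool.Agent.Lib.MP_938ce2_ag_H7f.Par3

/-!
Removing a prime from the orders with the help of a reference function.
-/

set_option autoImplicit false
set_option linter.style.haveILetI false
set_option linter.unusedSectionVars false

open Finset

namespace Pool.Agent.Lib.MP_938ce2_ag_H7f

open Pool.Agent.Lib.MP_938ce2_ag_h99 Pool.Agent.Lib.MP_938ce2_ag_H7e

variable {m Q n q : ℕ} [NeZero m]

/-- the part of `F` of order divisible by `q` -/
noncomputable def part1 (q : ℕ) (F : ZMod m → ℤ) : ZMod m → ℤ := fun a => by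
  classical exact if q ∣ addOrderOf a then F a else 0

/-- the part of `F` of order not divisible by `q` -/
noncomputable def part0 (q : ℕ) (F : ZMod m → ℤ) : ZMod m → ℤ := fun a => by
  classical exact if q ∣ addOrderOf a then 0 else F a

lemma part_add (F : ZMod m → ℤ) : part0 q F + part1 q F = F := by
  funext a
  rw [Pi.add_apply]
  unfold part0 part1
  split_ifs <;> simp

lemma part1_odd {F : ZMod m → ℤ} (h : OddF F) : OddF (part1 q F) := by
  intro a
  unfold part1
  rw [addOrderOf_neg]
  split_ifs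
  · exact h a
  · simp

lemma part0_odd {F : ZMod m → ℤ} (h : OddF F) : OddF (part0 q F) := by
  intro a
  unfold part0
  rw [addOrderOf_neg]
  split_ifs
  · simp
  · exact h a

lemma part1_add (F G : ZMod m → ℤ) : part1 q (F + G) = part1 q F + part1 q G := by
  funext a
  simp only [part1, Pi.add_apply]
  split_ifs <;> simp

lemma part0_add (F G : ZMod m → ℤ) : part0 q (F + G) = part0 q F + part0 q G := by
  funext a
  simp only [part0, Pi.add_apply]
  split_ifs <;> simp

lemma part1_supp {F : ZMod m → ℤ} {a : ZMod m} (h : part1 q F a ≠ 0) :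
    q ∣ addOrderOf a ∧ F a ≠ 0 := by
  unfold part1 at h
  split_ifs at h with h1
  · exact ⟨h1, h⟩
  · exact absurd rfl h

lemma part0_supp {F : ZMod m → ℤ} {a : ZMod m} (h : part0 q F a ≠ 0) :
    ¬ q ∣ addOrderOf a ∧ F a ≠ 0 := by
  unfold part0 at h
  split_ifs at h with h1
  · exact absurd rfl h
  · exact ⟨h1, h⟩

lemma part_norm (F : ZMod m → ℤ) : ∑ a, |part0 q F a| + ∑ a, |part1 q F a| = ∑ a, |F a| := by
  rw [← sum_add_distrib]
  refine sum_congr rfl fun a _ => ?_
  unfold part0 part1
  split_ifs <;> simp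

lemma dvd_n_of_not_dvd (hD : Dat m Q n q) {a : ZMod m} (h : ¬ q ∣ addOrderOf a) :
    addOrderOf a ∣ n := by
  have h1 : addOrderOf a ∣ Q * n := (addOrderOf_dvd_m a).trans (dvd_of_eq hD.hm)
  obtain ⟨K, _, hK⟩ := hD.hQ
  have h2 : Nat.Coprime (addOrderOf a) Q := by
    rw [hK]
    exact Nat.Coprime.pow_right _ ((Nat.Prime.coprime_iff_not_dvd hD.hq).mpr h).symm
  exact h2.dvd_of_dvd_mul_left h1

lemma upF_add {K : ℕ} (F G : ZMod m → ℤ) : upF Q q K (F + G) = upF Q q K F + upF Q q K G := by
  have h1 := upF_sub (Q := Q) (q := q) (K := K) (F + G) G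
  rw [add_sub_cancel_right] at h1
  rw [h1, sub_add_cancel]

/-- `A` is a reference function for the point `b` -/
structure Ref (hD : Dat m Q n q) [NeZero n] (K : ℕ) (Y : AddSubgroup (ZMod m → ℤ)) (b : ZMod n)
    (N0 : ℤ) (A : ZMod m → ℤ) : Prop where
  odd : OddF A
  tate : TateF A
  mem : A ∈ Y
  psh : ∀ t : (ZMod n)ˣ, PH (push hD (upF Q q K (part1 q A))) t = Q.totient * W t b
  norm : ∑ a, |part0 q A a| ≤ N0
  supp0 : ∀ a, part0 q A a ≠ 0 → addOrderOf a ∣ 12

variable {K : ℕ} {Y : AddSubgroup (ZMod m → ℤ)}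

lemma Ref.zero (hD : Dat m Q n q) [NeZero n] {b : ZMod n} (hb : ∀ t : (ZMod n)ˣ, W t b = 0) :
    Ref hD K Y b 0 0 where
  odd := by intro a; simp
  tate := TateF_zero
  mem := Y.zero_mem
  psh := by
    intro t
    have h1 : part1 q (0 : ZMod m → ℤ) = 0 := by
      funext a; unfold part1; simp
    have h2 : upF Q q K (0 : ZMod m → ℤ) = 0 := by
      have := upF_sub (Q := Q) (q := q) (K := K) (0 : ZMod m → ℤ) 0
      rw [sub_self, sub_self] at this
      exact this
    have h3 : push hD (0 : ZMod m → ℤ) = 0 := by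
      have := push_sub hD (0 : ZMod m → ℤ) 0
      rw [sub_self, sub_self] at this
      exact this
    rw [h1, h2, h3, hb, mul_zero, PH_eq]
    simp
  norm := by
    have h1 : part0 q (0 : ZMod m → ℤ) = 0 := by
      funext a; unfold part0; simp
    rw [h1]
    simp
  supp0 := by
    intro a ha
    exact absurd rfl (part0_supp ha).2

lemma Ref.add (hD : Dat m Q n q) [NeZero n] {b b1 b2 : ZMod n} {N1 N2 : ℤ} {A1 A2 : ZMod m → ℤ}
    (h1 : Ref hD K Y b1 N1 A1) (h2 : Ref hD K Y b2 N2 A2)
    (hb : ∀ t : (ZMod n)ˣ, W t b = W t b1 + W t b2) : Ref hD K Y b (N1 + N2) (A1 + A2) where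
  odd := by
    intro a
    rw [Pi.add_apply, Pi.add_apply, h1.odd, h2.odd]
    ring
  tate := h1.tate.add h2.tate
  mem := Y.add_mem h1.mem h2.mem
  psh := by
    intro t
    rw [part1_add, upF_add, push_add, PH_add, h1.psh, h2.psh, hb]
    ring
  norm := by
    rw [part0_add]
    have h3 : ∑ a, |(part0 q A1 + part0 q A2) a| ≤ ∑ a, |part0 q A1 a| + ∑ a, |part0 q A2 a| := by
      rw [← sum_add_distrib]
      exact sum_le_sum fun a _ => abs_add_le _ _
    linarith [h1.norm, h2.norm]
  supp0 := by
    intro a ha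
    rw [part0_add, Pi.add_apply] at ha
    by_cases h : part0 q A1 a = 0
    · rw [h, zero_add] at ha
      exact h2.supp0 a ha
    · exact h1.supp0 a h

lemma two_lt_Q (hD : Dat m Q n q) (hq : 11 ≤ q) : 2 < Q := by
  obtain ⟨k, hk, rfl⟩ := hD.hQ
  have h1 : q ^ 1 ≤ q ^ k := Nat.pow_le_pow_right hD.hq.pos (by omega)
  rw [pow_one] at h1
  omega

/-- a prime is removed with the help of a reference function -/
theorem step_ref (hD : Dat m Q n q) [NeZero n] (hQ : Q = q ^ K) (h2Q : 2 < Q) {F A : ZMod m → ℤ}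
    {b : ZMod n} {N0 : ℤ} (ho : OddF F) (hT : TateF F) (hA : Ref hD K Y b N0 A)
    (hb : ∀ t : (ZMod n)ˣ, PH (push hD (upF Q q K (part1 q F))) t = Q.totient * W t b) :
    ∃ F' : ZMod m → ℤ, F - F' - A ∈ relSub m ∧ OddF F' ∧ TateF F' ∧
      (∀ a, F' a ≠ 0 → addOrderOf a ∣ n ∧ (F a ≠ 0 ∨ addOrderOf a ∣ 12)) ∧
      ∑ a, |F' a| ≤ ∑ a, |part0 q F a| + N0 := by
  set D : ZMod m → ℤ := part1 q F - part1 q A with hDdef
  have hDodd : OddF D := OddF.sub (part1_odd ho) (part1_odd hA.odd)
  have hDs : ∀ a, D a ≠ 0 → q ∣ addOrderOf a := by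
    intro a ha
    by_contra hc
    apply ha
    rw [hDdef, Pi.sub_apply]
    unfold part1
    rw [if_neg hc, if_neg hc, sub_zero]
  have hcoreF := core hD hQ (part1_odd ho) (F0 := part0 q F) (F1 := part1 q F)
    (by rw [part_add]; exact hT) (fun a ha => dvd_n_of_not_dvd hD (part0_supp ha).1)
    (fun a ha => (part1_supp ha).1)
  have hcoreA := core hD hQ (part1_odd hA.odd) (F0 := part0 q A) (F1 := part1 q A)
    (by rw [part_add]; exact hA.tate) (fun a ha => dvd_n_of_not_dvd hD (part0_supp ha).1)
    (fun a ha => (part1_supp ha).1)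
  have hS : SInv Q (upF Q q K D) := by
    rw [hDdef, upF_sub, sub_eq_add_neg]
    exact hcoreF.1.add hcoreA.1.neg
  have hodd : OddF (upF Q q K D) := upF_odd hDodd
  have hP : TateF (push hD (upF Q q K D)) := by
    intro t
    have h1 : PH (push hD (upF Q q K D)) t = 0 := by
      have h2 : upF Q q K D = upF Q q K (part1 q F) + (-(upF Q q K (part1 q A))) := by
        rw [hDdef, upF_sub, sub_eq_add_neg]
      have h3 : push hD (-(upF Q q K (part1 q A))) = - push hD (upF Q q K (part1 q A)) := by
        have h4 := push_sub hD (0 : ZMod m → ℤ) (upF Q q K (part1 q A))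
        have h5 : push hD (0 : ZMod m → ℤ) = 0 := by
          have := push_sub hD (0 : ZMod m → ℤ) 0
          rw [sub_self, sub_self] at this
          exact this
        rw [zero_sub, h5, zero_sub] at h4
        exact h4
      rw [h2, push_add, h3, PH_add, PH_neg, hb, hA.psh]
      ring
    rw [PH_odd (push_odd hD hodd)] at h1
    have h2 : SS (push hD (upF Q q K D)) t = 0 := by linarith
    exact h2
  have hmem : upF Q q K D ∈ relSub m :=
    peel2_aux hD h2Q m _ hodd hS hP upF_supp
      (fun a _ => Nat.le_of_dvd (Nat.pos_of_ne_zero (NeZero.ne m)) (addOrderOf_dvd_m a))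
  have hmem2 : upF Q q K D - D ∈ relSub m := upF_sub_mem hD hQ hDodd hDs
  have hDmem : D ∈ relSub m := by
    have := (relSub m).sub_mem hmem hmem2
    rwa [sub_sub_cancel] at this
  refine ⟨part0 q F - part0 q A, ?_, OddF.sub (part0_odd ho) (part0_odd hA.odd), ?_, ?_, ?_⟩
  · have h1 : F - (part0 q F - part0 q A) - A = D := by
      conv_lhs => rw [← part_add (q := q) F, ← part_add (q := q) A]
      rw [part_add, part_add]
      have e1 := part_add (q := q) F
      have e2 := part_add (q := q) A
      rw [hDdef]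
      funext a
      have e1' := congrFun e1 a
      have e2' := congrFun e2 a
      simp only [Pi.sub_apply, Pi.add_apply] at *
      linarith
    rw [h1]
    exact hDmem
  · have h1 : part0 q F - part0 q A = (F - A) - D := by
      have e1 := part_add (q := q) F
      have e2 := part_add (q := q) A
      rw [hDdef]
      funext a
      have e1' := congrFun e1 a
      have e2' := congrFun e2 a
      simp only [Pi.sub_apply, Pi.add_apply] at *
      linarith
    rw [h1]
    exact (hT.sub hA.tate).sub (TateF_of_mem_relSub hDmem)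
  · intro a ha
    constructor
    · apply dvd_n_of_not_dvd hD
      by_contra hc
      apply ha
      rw [Pi.sub_apply]
      unfold part0
      rw [if_pos hc, if_pos hc, sub_zero]
    · by_cases h : part0 q F a = 0
      · right
        apply hA.supp0
        intro h0
        apply ha
        rw [Pi.sub_apply, h, h0, sub_zero]
      · left
        exact (part0_supp h).2
  · have h3 : ∑ a, |(part0 q F - part0 q A) a| ≤ ∑ a, |part0 q F a| + ∑ a, |part0 q A a| := by
      rw [← sum_add_distrib]
      exact sum_le_sum fun a _ => by rw [Pi.sub_apply]; exact abs_sub _ _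
    linarith [hA.norm]

end Pool.Agent.Lib.MP_938ce2_ag_H7f
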