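import Pool.Agent.Lib.MP_938ce2_ag_H7f.RefGen

/-!
The reference functions for points of order three, four and ten.
-/

set_option autoImplicit false
set_option linter.style.haveILetI false
set_option linter.unusedSectionVars false

open Finset

namespace Pool.Agent.Lib.MP_938ce2_ag_H7f

open Pool.Agent.Lib.MP_938ce2_ag_h99 Pool.Agent.Lib.MP_938ce2_ag_H7e Pool.Agent.Lib.MP_938ce2_ag_h6

variable {m Q n q : ℕ} [NeZero m]

lemma W_neg' [NeZero n] (t : (ZMod n)ˣ) (b : ZMod n) : W t (-b) = - W t b := by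
  unfold W
  by_cases hb : b = 0
  · rw [hb]; simp
  · have h1 : (t : ZMod n) * b ≠ 0 := fun h => hb ((Units.mul_right_eq_zero t).mp h)
    haveI : NeZero ((t : ZMod n) * b) := ⟨h1⟩
    rw [if_neg (neg_ne_zero.mpr hb), if_neg hb, mul_neg, ZMod.val_neg_of_ne_zero]
    have h2 : ((t : ZMod n) * b).val ≤ n := (ZMod.val_lt _).le
    push_cast [Nat.cast_sub h2]
    ring

lemma part1_neg (F : ZMod m → ℤ) : part1 q (-F) = - part1 q F := by
  funext a
  simp only [part1, Pi.neg_apply]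
  split_ifs <;> simp

lemma part0_neg (F : ZMod m → ℤ) : part0 q (-F) = - part0 q F := by
  funext a
  simp only [part0, Pi.neg_apply]
  split_ifs <;> simp

lemma upF_neg {K : ℕ} (F : ZMod m → ℤ) : upF Q q K (-F) = - upF Q q K F := by
  funext b
  simp only [upF, Pi.neg_apply]
  split_ifs <;> simp

lemma push_neg' (hD : Dat m Q n q) (F : ZMod m → ℤ) : push hD (-F) = - push hD F := by
  funext y
  unfold push
  simp

lemma Ref.neg {hD : Dat m Q n q} [NeZero n] {K : ℕ} {Y : AddSubgroup (ZMod m → ℤ)} {b : ZMod n}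
    {N0 : ℤ} {A : ZMod m → ℤ} (h : Ref hD K Y b N0 A) : Ref hD K Y (-b) N0 (-A) where
  odd := by
    intro a
    rw [Pi.neg_apply, Pi.neg_apply, h.odd]
  tate := by
    intro t
    have := h.tate t
    simp only [Pi.neg_apply, neg_mul, sum_neg_distrib, this, neg_zero]
  mem := Y.neg_mem h.mem
  psh := by
    intro t
    rw [part1_neg, upF_neg, push_neg', PH_neg, h.psh, W_neg']
    ring
  norm := by
    rw [part0_neg]
    simpa using h.norm
  supp0 := by
    intro a ha
    rw [part0_neg, Pi.neg_apply, neg_ne_zero] at ha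
    exact h.supp0 a ha

lemma K_ne_zero (hD : Dat m Q n q) {K : ℕ} (hQ : Q = q ^ K) : K ≠ 0 := by
  rintro rfl
  have h1 := hD.qQ
  rw [hQ, pow_zero] at h1
  exact hD.hq.one_lt.ne' (Nat.dvd_one.mp h1)

lemma order_three_six {y : ZMod 6} (h3 : (3 : ℕ) • y = 0) (h0 : y ≠ 0) : y = 2 ∨ y = 4 := by
  revert y; decide

lemma order_four_four {y : ZMod 4} (h3 : ¬ (2 : ℕ) • y = 0) : y = 1 ∨ y = 3 := by
  revert y; decide

/-- reduction to one sign -/
lemma ref_three_of (hD : Dat m Q n q) [NeZero n] {K : ℕ} (h12 : 12 ∣ n) {b : ZMod n}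
    (hb : addOrderOf b = 3) {A : ZMod m → ℤ} {Y : AddSubgroup (ZMod m → ℤ)} {N0 : ℤ}
    (h : Ref hD K Y (jj ((by norm_num : 6 ∣ 12).trans h12) 2) N0 A) :
    ∃ A, Ref hD K Y b N0 A := by
  have h6 : 6 ∣ n := (by norm_num : 6 ∣ 12).trans h12
  obtain ⟨y, hy⟩ := exists_of_smul h6 (a := b) (by
    apply addOrderOf_dvd_iff_nsmul_eq_zero.mp
    rw [hb]
    norm_num)
  have h3 : (3 : ℕ) • y = 0 := by
    apply jj_injective h6
    rw [map_nsmul, hy, map_zero]
    rw [← hb]
    exact addOrderOf_nsmul_eq_zero b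
  have h0 : y ≠ 0 := by
    rintro rfl
    rw [map_zero] at hy
    rw [← hy, addOrderOf_zero] at hb
    omega
  rcases order_three_six h3 h0 with rfl | rfl
  · rw [← hy]
    exact ⟨A, h⟩
  · have h4 : (4 : ZMod 6) = - 2 := by decide
    rw [← hy, h4, map_neg]
    exact ⟨-A, h.neg⟩

lemma ref_four_of (hD : Dat m Q n q) [NeZero n] {K : ℕ} (h12 : 12 ∣ n) {b : ZMod n}
    (hb : addOrderOf b = 4) {A : ZMod m → ℤ} {Y : AddSubgroup (ZMod m → ℤ)} {N0 : ℤ}
    (h : Ref hD K Y (jj ((by norm_num : 4 ∣ 12).trans h12) 1) N0 A) :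
    ∃ A, Ref hD K Y b N0 A := by
  have h6 : 4 ∣ n := (by norm_num : 4 ∣ 12).trans h12
  obtain ⟨y, hy⟩ := exists_of_smul h6 (a := b) (by
    apply addOrderOf_dvd_iff_nsmul_eq_zero.mp
    rw [hb])
  have h3 : ¬ (2 : ℕ) • y = 0 := by
    intro h2
    have h4 : (2 : ℕ) • b = 0 := by rw [← hy, ← map_nsmul, h2, map_zero]
    have := addOrderOf_dvd_of_nsmul_eq_zero h4
    rw [hb] at this
    norm_num at this
  rcases order_four_four h3 with rfl | rfl
  · rw [← hy]
    exact ⟨A, h⟩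
  · have h4 : (3 : ZMod 4) = - 1 := by decide
    rw [← hy, h4, map_neg]
    exact ⟨-A, h.neg⟩

theorem ref_three (hD : Dat m Q n q) [NeZero n] {K : ℕ} (hQ : Q = q ^ K) (h12 : 12 ∣ n)
    (hq : q = 11 ∨ q = 13 ∨ q = 17 ∨ q = 19) {b : ZMod n} (hb : addOrderOf b = 3) :
    ∃ A, Ref hD K (XF m) b 2 A := by
  have hK := K_ne_zero hD hQ
  have h6 : 6 ∣ n := (by norm_num : 6 ∣ 12).trans h12
  have hf : q * 6 ∣ m := by
    rw [hD.hm]
    exact mul_dvd_mul hD.qQ h6
  rcases hq with rfl | rfl | rfl | rfl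
  · exact ref_three_of hD h12 hb (ref_of_list hD hK hQ (f := 66) (d := 6) (by norm_num) hf h6
      (by norm_num) [1, 25, 44, 62] (isTate_66 hf) (XX_le_YY _ (AddSubgroup.subset_closure
        ⟨_, isTate_66 hf, by rw [card_quad]; rfl, rfl⟩)) 2 (by decide +kernel) 2 (by decide +kernel)
      (by decide +kernel))
  · exact ref_three_of hD h12 hb (ref_of_list hD hK hQ (f := 78) (d := 6) (by norm_num) hf h6
      (by norm_num) [1, 32, 61, 62] (isTate_78 hf) (XX_le_YY _ (AddSubgroup.subset_closure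
        ⟨_, isTate_78 hf, by rw [card_quad]; rfl, rfl⟩)) 2 (by decide +kernel) 2 (by decide +kernel)
      (by decide +kernel))
  · exact ref_three_of hD h12 hb (ref_of_list hD hK hQ (f := 102) (d := 6) (by norm_num) hf h6
      (by norm_num) [1, 39, 62, 14, 55, 68, 73, 96] (isTate_102 hf)
      (mem_XF (isTate_102 hf) (fano_102 hf)) 2 (by decide +kernel) 2 (by decide +kernel)
      (by decide +kernel))
  · exact ref_three_of hD h12 hb (ref_of_list hD hK hQ (f := 114) (d := 6) (by norm_num) hf h6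
      (by norm_num) [1, 13, 43, 57, 61, 90, 92, 99] (isTate_114 hf)
      (mem_XF (isTate_114 hf) (fano_114 hf)) 2 (by decide +kernel) 2 (by decide +kernel)
      (by decide +kernel))

theorem ref_four (hD : Dat m Q n q) [NeZero n] {K : ℕ} (hQ : Q = q ^ K) (h12 : 12 ∣ n)
    (hq : q = 11 ∨ q = 13) {b : ZMod n} (hb : addOrderOf b = 4) :
    ∃ A, Ref hD K (XF m) b 2 A := by
  have hK := K_ne_zero hD hQ
  have h6 : 4 ∣ n := (by norm_num : 4 ∣ 12).trans h12
  have hf : q * 4 ∣ m := by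
    rw [hD.hm]
    exact mul_dvd_mul hD.qQ h6
  rcases hq with rfl | rfl
  · exact ref_four_of hD h12 hb (ref_of_list hD hK hQ (f := 44) (d := 4) (by norm_num) hf h6
      (by norm_num) [1, 13, 30, 12, 17, 29, 33, 41] (isTate_44 hf)
      (mem_XF (isTate_44 hf) (fano_44 hf)) 1 (by decide +kernel) 2 (by decide +kernel)
      (by decide +kernel))
  · exact ref_four_of hD h12 hb (ref_of_list hD hK hQ (f := 52) (d := 4) (by norm_num) hf h6
      (by norm_num) [1, 5, 46, 17, 29, 33, 36, 41] (isTate_52 hf)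
      (mem_XF (isTate_52 hf) (fano_52 hf)) 1 (by decide +kernel) 2 (by decide +kernel)
      (by decide +kernel))

end Pool.Agent.Lib.MP_938ce2_ag_H7f
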