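import Pool.Agent.Lib.MP_938ce2_ag_H7f.Pull
import Pool.Agent.Lib.MP_938ce2_ag_H7f.L2

/-!
Relations between the values of `W` at points of small order; the case `|PH g| = n`.
-/

set_option autoImplicit false
set_option linter.style.haveILetI false
set_option linter.unusedSectionVars false

open Finset

namespace Pool.Agent.Lib.MP_938ce2_ag_H7f

open Pool.Agent.Lib.MP_938ce2_ag_h99 Pool.Agent.Lib.MP_938ce2_ag_H7e

variable {n d : ℕ} [NeZero n] [NeZero d]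

lemma W_jj (hd : d ∣ n) (t : (ZMod n)ˣ) (x : ZMod d) :
    W t (jj hd x) = (n / d : ℕ) * W (ZMod.unitsMap hd t) x := by
  unfold W
  by_cases hx : x = 0
  · rw [hx, map_zero, if_pos rfl, if_pos rfl, mul_zero]
  · have h2 : jj hd x ≠ 0 := by
      intro h0
      apply hx
      apply jj_injective hd
      rw [h0, map_zero]
    rw [if_neg h2, if_neg hx, jj_mul, jj_val]
    have h3 : ZMod.castHom hd (ZMod d) (t : ZMod n) = ((ZMod.unitsMap hd t : (ZMod d)ˣ) : ZMod d) := by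
      rw [ZMod.unitsMap_val]
      rfl
    rw [h3]
    have h5 : (n : ℤ) = ((n / d : ℕ) : ℤ) * d := by
      exact_mod_cast (Nat.div_mul_cancel hd).symm
    conv_lhs => rw [h5]
    push_cast
    ring

lemma W_two_aux : ∀ s u : (ZMod 2)ˣ, W s (u : ZMod 2) = 0 := by decide

lemma W_six_aux : ∀ s u : (ZMod 6)ˣ, W s (u : ZMod 6) = W s (((2 : ℕ) : ZMod 6) * u)
    + W s (((2 : ℕ) : ZMod 6) * u) := by decide

lemma W_twelve_aux : ∀ s u : (ZMod 12)ˣ, W s (u : ZMod 12)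
    = W s (((4 : ℕ) : ZMod 12) * u) + W s (((3 : ℕ) : ZMod 12) * u) := by decide

lemma W_two {b : ZMod n} (hb : addOrderOf b = 2) (t : (ZMod n)ˣ) : W t b = 0 := by
  have hd : 2 ∣ n := hb ▸ addOrderOf_dvd_m b
  obtain ⟨u, rfl⟩ := exists_unit_of_order hd hb
  rw [W_jj, W_two_aux, mul_zero]

lemma W_six {b : ZMod n} (hb : addOrderOf b = 6) (t : (ZMod n)ˣ) :
    W t b = W t (((2 : ℕ) : ZMod n) * b) + W t (((2 : ℕ) : ZMod n) * b) := by
  have hd : 6 ∣ n := hb ▸ addOrderOf_dvd_m b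
  obtain ⟨u, rfl⟩ := exists_unit_of_order hd hb
  rw [natCast_mul_jj, W_jj, W_jj, W_six_aux]
  ring

lemma W_twelve {b : ZMod n} (hb : addOrderOf b = 12) (t : (ZMod n)ˣ) :
    W t b = W t (((4 : ℕ) : ZMod n) * b) + W t (((3 : ℕ) : ZMod n) * b) := by
  have hd : 12 ∣ n := hb ▸ addOrderOf_dvd_m b
  obtain ⟨u, rfl⟩ := exists_unit_of_order hd hb
  rw [natCast_mul_jj, natCast_mul_jj, W_jj, W_jj, W_jj, W_twelve_aux]
  ring

lemma eq_of_W {b : ZMod n} (hb : b ≠ 0) {s t : (ZMod n)ˣ} (h : W s b = W t b) :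
    (s : ZMod n) * b = (t : ZMod n) * b := by
  unfold W at h
  rw [if_neg hb, if_neg hb] at h
  apply ZMod.val_injective n
  have h1 : ((((s : ZMod n) * b).val : ℕ) : ℤ) = ((((t : ZMod n) * b).val : ℕ) : ℤ) := by linarith
  exact_mod_cast h1

/-- sums against `W` of constant absolute value are small -/
theorem no_const {h : ZMod n → ℤ} {C : ℤ} (H : ∀ t : (ZMod n)ˣ, PH h t ^ 2 = (C * n) ^ 2) :
    9 * C ^ 2 ≤ 4 * (∑ a, |h a|) ^ 2 := by
  set S := ∑ a, |h a| with hS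
  have hS0 : 0 ≤ S := sum_nonneg fun _ _ => abs_nonneg _
  -- Cauchy-Schwarz
  have h1 : ∀ t : (ZMod n)ˣ, PH h t ^ 2 ≤ S * ∑ a, |h a| * W t a ^ 2 := by
    intro t
    rw [PH_eq]
    have h2 : (∑ a, h a * W t a) ^ 2 ≤ (∑ a, |h a|) * ∑ a, |h a| * W t a ^ 2 := by
      apply Finset.sum_sq_le_sum_mul_sum_of_sq_eq_mul
      · intro a _; exact abs_nonneg _
      · intro a _; exact mul_nonneg (abs_nonneg _) (sq_nonneg _)
      · intro a _
        rw [mul_pow, ← sq_abs (h a)]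
        ring
    exact h2
  have hn : (0 : ℤ) < n := by exact_mod_cast Nat.pos_of_ne_zero (NeZero.ne n)
  have hφ : (0 : ℤ) < Nat.totient n := by
    exact_mod_cast Nat.totient_pos.mpr (Nat.pos_of_ne_zero (NeZero.ne n))
  have h3 : ∀ a, 9 * ∑ t : (ZMod n)ˣ, W t a ^ 2 ≤ 4 * (n : ℤ) ^ 2 * Nat.totient n := by
    intro a
    by_cases ha : a = 0
    · have h4 : ∑ t : (ZMod n)ˣ, W t a ^ 2 = 0 := by
        apply sum_eq_zero
        intro t _
        unfold W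
        rw [if_pos ha]; ring
      rw [h4]
      positivity
    · exact sum_W_sq_le ha
  have h4 : ∑ t : (ZMod n)ˣ, PH h t ^ 2 ≤ S * ∑ a, |h a| * ∑ t : (ZMod n)ˣ, W t a ^ 2 := by
    calc ∑ t : (ZMod n)ˣ, PH h t ^ 2 ≤ ∑ t : (ZMod n)ˣ, S * ∑ a, |h a| * W t a ^ 2 :=
          sum_le_sum fun t _ => h1 t
      _ = _ := by
        rw [← mul_sum, sum_comm]
        congr 1
        refine sum_congr rfl fun a _ => ?_
        rw [mul_sum]
  have h5 : ∑ t : (ZMod n)ˣ, PH h t ^ 2 = Nat.totient n * (C * n) ^ 2 := by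
    rw [sum_congr rfl fun t _ => H t, sum_const, card_univ, ZMod.card_units_eq_totient, nsmul_eq_mul]
  have h6 : 9 * (S * ∑ a, |h a| * ∑ t : (ZMod n)ˣ, W t a ^ 2)
      ≤ S * (S * (4 * (n : ℤ) ^ 2 * Nat.totient n)) := by
    have h7 : 9 * ∑ a, |h a| * ∑ t : (ZMod n)ˣ, W t a ^ 2 ≤ S * (4 * (n : ℤ) ^ 2 * Nat.totient n) := by
      rw [mul_sum, hS, sum_mul]
      refine sum_le_sum fun a _ => ?_
      have h8 := mul_le_mul_of_nonneg_left (h3 a) (abs_nonneg (h a))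
      linarith
    have h9 := mul_le_mul_of_nonneg_left h7 hS0
    linarith
  rw [h5] at h4
  have h7 : (Nat.totient n * (n : ℤ) ^ 2) * (9 * C ^ 2) ≤ (Nat.totient n * (n : ℤ) ^ 2) * (4 * S ^ 2) := by
    calc (Nat.totient n * (n : ℤ) ^ 2) * (9 * C ^ 2) = 9 * (Nat.totient n * (C * n) ^ 2) := by ring
      _ ≤ 9 * (S * ∑ a, |h a| * ∑ t : (ZMod n)ˣ, W t a ^ 2) := by linarith
      _ ≤ _ := h6
      _ = _ := by ring
  exact le_of_mul_le_mul_left h7 (by positivity)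

end Pool.Agent.Lib.MP_938ce2_ag_H7f
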