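import Pool.Agent.Lib.MP_938ce2_ag_H7f.Ref
import Pool.Agent.Lib.MP_938ce2_ag_H7f.Wrel
import Pool.Agent.Lib.MP_938ce2_ag_h99.ExcData2

/-!
Reference functions from explicit lists.
-/

set_option autoImplicit false
set_option linter.style.haveILetI false
set_option linter.unusedSectionVars false

open Finset

namespace Pool.Agent.Lib.MP_938ce2_ag_H7f

open Pool.Agent.Lib.MP_938ce2_ag_h99 Pool.Agent.Lib.MP_938ce2_ag_H7e Pool.Agent.Lib.MP_938ce2_ag_h6

variable {m Q n q : ℕ} [NeZero m]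

lemma PH_push (hD : Dat m Q n q) [NeZero n] (U : ZMod m → ℤ) (t : (ZMod n)ˣ) :
    PH (push hD U) t = ∑ b : ZMod m, U b * W t (ZMod.castHom hD.nm (ZMod n) b) := by
  haveI : NeZero Q := ⟨hD.Qpos.ne'⟩
  rw [PH_eq]
  have h1 : ∑ b : ZMod m, U b * W t (ZMod.castHom hD.nm (ZMod n) b)
      = ∑ z : ZMod Q × ZMod n, U (hD.crt.symm z) * W t z.2 := by
    refine Fintype.sum_equiv hD.crt.toEquiv _ _ fun b => ?_
    have h2 : hD.crt.symm (hD.crt b) = b := hD.crt.symm_apply_apply b
    show _ = U (hD.crt.symm (hD.crt b)) * W t (hD.crt b).2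
    rw [h2, hD.crt_snd]
  rw [h1, Fintype.sum_prod_type, sum_comm]
  refine sum_congr rfl fun y _ => ?_
  unfold push
  rw [sum_mul]

/-- the push-up of a function of `q`-level one -/
lemma upF_one (hD : Dat m Q n q) {K : ℕ} (hK : K ≠ 0) (hQ : Q = q ^ K) {d : ℕ} (hd : ¬ q ∣ d)
    {H : ZMod m → ℤ} (h1 : ∀ a, H a ≠ 0 → q ∣ addOrderOf a)
    (h2 : ∀ a, H a ≠ 0 → ((q * d : ℕ) : ZMod m) * a = 0) (b : ZMod m) :
    upF Q q K H b = H ((q : ZMod m) ^ (K - 1) * b) := by
  have hK1 : K - 1 + 1 = K := by omega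
  unfold upF
  split_ifs with hb
  · rw [sum_eq_single (K - 1)]
    · intro j hj hjK
      by_contra hne
      have h3 := h2 _ hne
      rw [← mul_assoc, ← Nat.cast_pow, ← Nat.cast_mul, ← nsmul_eq_mul] at h3
      have h4 := addOrderOf_dvd_of_nsmul_eq_zero h3
      have h5 : q ^ K ∣ q ^ (j + 1) * d := by
        have : q * d * q ^ j = q ^ (j + 1) * d := by ring
        rw [← this, ← hQ]
        exact hb.trans h4
      have h6 : q ^ K ∣ q ^ (j + 1) := by
        apply Nat.Coprime.dvd_of_dvd_mul_right _ h5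
        exact Nat.Coprime.pow_left K ((Nat.Prime.coprime_iff_not_dvd hD.hq).mpr hd)
      have h7 := (Nat.pow_dvd_pow_iff_le_right hD.hq.one_lt).mp h6
      rw [mem_range] at hj
      omega
    · intro h
      exact absurd (mem_range.mpr (by omega)) h
  · by_contra hne
    obtain ⟨b', rfl⟩ := exists_of_not_dvd hD hb
    have h3 := h1 _ (Ne.symm hne)
    rw [← mul_assoc, ← pow_succ, hK1] at h3
    exact not_dvd_pow_mul hD hQ b' h3

lemma exists_jj_iff {f : ℕ} (hf : f ∣ m) [NeZero f] (a : ZMod m) :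
    (∃ k, jj hf k = a) ↔ (f : ZMod m) * a = 0 := by
  constructor
  · rintro ⟨k, rfl⟩
    rw [natCast_mul_jj, ZMod.natCast_self, zero_mul, map_zero]
  · intro h
    rw [← nsmul_eq_mul] at h
    exact exists_of_smul hf h

/-- sums of pushed functions at `q`-level one -/
theorem PH_push_up_one (hD : Dat m Q n q) [NeZero n] {K : ℕ} (hK : K ≠ 0) (hQ : Q = q ^ K)
    {f d : ℕ} [NeZero f] [NeZero d] (hfe : f = q * d) (hf : f ∣ m) (hd : d ∣ n) (hdf : d ∣ f)
    {H : ZMod m → ℤ} (h0 : ZMod f → ℤ) (hH : ∀ k, H (jj hf k) = h0 k)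
    (hoff : ∀ a, (∀ k, jj hf k ≠ a) → H a = 0) (h1 : ∀ a, H a ≠ 0 → q ∣ addOrderOf a)
    (t : (ZMod n)ˣ) :
    PH (push hD (upF Q q K H)) t
      = (q ^ (K - 1) : ℕ) * (n / d : ℕ) * ∑ k : ZMod f, h0 k * W (ZMod.unitsMap hd t)
        (ZMod.castHom hdf (ZMod d) k) := by
  classical
  have hK1 : K - 1 + 1 = K := by omega
  have hqd : ¬ q ∣ d := by
    intro h
    have h3 : q ∣ 1 := by
      have := Nat.dvd_gcd hD.qQ (h.trans hd)
      rwa [hD.hcop.gcd_eq_one] at this
    exact hD.hq.one_lt.ne' (Nat.dvd_one.mp h3)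
  have h2 : ∀ a, H a ≠ 0 → ((q * d : ℕ) : ZMod m) * a = 0 := by
    intro a ha
    rw [← hfe, ← exists_jj_iff hf]
    by_contra hc
    push Not at hc
    exact ha (hoff a hc)
  have hmf : m / f = q ^ (K - 1) * (n / d) := by
    apply Nat.div_eq_of_eq_mul_left (Nat.pos_of_ne_zero (NeZero.ne f))
    have e1 : n = n / d * d := (Nat.div_mul_cancel hd).symm
    calc m = Q * n := hD.hm
      _ = q ^ (K - 1 + 1) * n := by rw [hK1, hQ]
      _ = q ^ (K - 1 + 1) * (n / d * d) := by rw [← e1]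
      _ = q ^ (K - 1) * (n / d) * f := by rw [hfe]; ring
  have hjj : ∀ k : ZMod f, jj hf k = ((q ^ (K - 1) : ℕ) : ZMod m) * ((n / d * k.val : ℕ) : ZMod m) := by
    intro k
    conv_lhs => rw [← ZMod.natCast_zmod_val k, jj_natCast, hmf]
    push_cast
    ring
  have hunit : IsUnit (((q ^ (K - 1) : ℕ)) : ZMod n) := by
    rw [ZMod.isUnit_iff_coprime]
    apply Nat.Coprime.pow_left
    exact Nat.Coprime.coprime_dvd_left hD.qQ hD.hcop
  have hpi : ∀ (b : ZMod m) (k : ZMod f), ((q ^ (K - 1) : ℕ) : ZMod m) * b = jj hf k →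
      ZMod.castHom hD.nm (ZMod n) b = jj hd (ZMod.castHom hdf (ZMod d) k) := by
    intro b k hb
    apply hunit.mul_left_cancel
    have e1 := congrArg (ZMod.castHom hD.nm (ZMod n)) hb
    rw [map_mul, map_natCast] at e1
    rw [e1, hjj, map_mul, map_natCast, map_natCast]
    congr 1
    have e2 : ZMod.castHom hdf (ZMod d) k = (k.val : ZMod d) := by
      conv_lhs => rw [← ZMod.natCast_zmod_val k, map_natCast]
    rw [e2, jj_natCast]
  rw [PH_push]
  have hstep : ∀ b : ZMod m, upF Q q K H b * W t (ZMod.castHom hD.nm (ZMod n) b)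
      = ∑ k : ZMod f, (if ((q ^ (K - 1) : ℕ) : ZMod m) * b = jj hf k then
        h0 k * W t (jj hd (ZMod.castHom hdf (ZMod d) k)) else 0) := by
    intro b
    rw [upF_one hD hK hQ hqd h1 h2, ← Nat.cast_pow]
    by_cases hb : ∃ k, jj hf k = ((q ^ (K - 1) : ℕ) : ZMod m) * b
    · obtain ⟨k, hk⟩ := hb
      rw [sum_eq_single k]
      · rw [if_pos hk.symm, ← hk, hH, hpi b k hk.symm]
      · intro k' _ hk'
        rw [if_neg]
        intro h
        exact hk' (jj_injective hf (h.symm.trans hk.symm))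
      · intro h
        exact absurd (mem_univ _) h
    · push Not at hb
      rw [hoff _ hb, zero_mul]
      symm
      apply sum_eq_zero
      intro k _
      rw [if_neg (fun h => hb k h.symm)]
  rw [sum_congr rfl fun b _ => hstep b, sum_comm, mul_sum]
  refine sum_congr rfl fun k _ => ?_
  rw [← sum_filter, sum_const, nsmul_eq_mul]
  have hcard : (univ.filter (fun b : ZMod m => ((q ^ (K - 1) : ℕ) : ZMod m) * b = jj hf k)).card
      = q ^ (K - 1) := by
    rw [hjj]
    apply card_fiber (pow_pos hD.hq.pos _)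
    rw [hD.hm, hQ]
    exact (pow_dvd_pow q (by omega)).mul_right n
  rw [hcard, W_jj]
  push_cast
  ring

/-- reference functions from explicit lists -/
theorem ref_of_list (hD : Dat m Q n q) [NeZero n] {K : ℕ} (hK : K ≠ 0) (hQ : Q = q ^ K)
    {f d : ℕ} [NeZero f] [NeZero d] (hfe : f = q * d) (hf : f ∣ m) (hd : d ∣ n) (hdf : d ∣ f)
    (L : List ℕ) {Y : AddSubgroup (ZMod m → ℤ)} (hT : IsTate (quad hf L))
    (hY : oddPart (quad hf L) ∈ Y) (b0 : ZMod d)
    (hval : ∀ τ : (ZMod d)ˣ, ∑ k : ZMod f, (if (d : ZMod f) * k = 0 then 0 else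
      oddPart (↑(L.map (Nat.cast : ℕ → ZMod f)) : Multiset (ZMod f)) k)
        * W τ (ZMod.castHom hdf (ZMod d) k) = ((q : ℤ) - 1) * W τ b0)
    (N0 : ℤ)
    (hN : ∑ k : ZMod f, |if (d : ZMod f) * k = 0 then
      oddPart (↑(L.map (Nat.cast : ℕ → ZMod f)) : Multiset (ZMod f)) k else 0| ≤ N0)
    (hS : ∀ k : ZMod f, (d : ZMod f) * k = 0 →
      oddPart (↑(L.map (Nat.cast : ℕ → ZMod f)) : Multiset (ZMod f)) k ≠ 0 → 12 * k = 0) :
    Ref hD K Y (jj hd b0) N0 (oddPart (quad hf L)) := by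
  classical
  have hqd : ¬ q ∣ d := by
    intro h
    have h3 : q ∣ 1 := by
      have := Nat.dvd_gcd hD.qQ (h.trans hd)
      rwa [hD.hcop.gcd_eq_one] at this
    exact hD.hq.one_lt.ne' (Nat.dvd_one.mp h3)
  have hord : ∀ k : ZMod f, ¬ q ∣ addOrderOf (jj hf k) ↔ (d : ZMod f) * k = 0 := by
    intro k
    rw [addOrderOf_jj]
    constructor
    · intro h
      have h1 : addOrderOf k ∣ q * d := (addOrderOf_dvd_m k).trans (dvd_of_eq hfe)
      have h2 : addOrderOf k ∣ d := by
        apply Nat.Coprime.dvd_of_dvd_mul_left _ h1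
        exact ((Nat.Prime.coprime_iff_not_dvd hD.hq).mpr h).symm
      rw [← nsmul_eq_mul]
      exact addOrderOf_dvd_iff_nsmul_eq_zero.mp h2
    · intro h h1
      rw [← nsmul_eq_mul] at h
      exact hqd (h1.trans (addOrderOf_dvd_of_nsmul_eq_zero h))
  have hval' : ∀ k : ZMod f, oddPart (quad hf L) (jj hf k)
      = oddPart (↑(L.map (Nat.cast : ℕ → ZMod f)) : Multiset (ZMod f)) k :=
    fun k => oddPart_lift_apply hf _ _
  have hoff : ∀ a, (∀ k, jj hf k ≠ a) → oddPart (quad hf L) a = 0 :=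
    fun a ha => oddPart_lift_of_forall_ne hf _ ha
  refine ⟨oddPart_odd _, (isTate_iff.mp hT).2.2, hY, ?_, ?_, ?_⟩
  · intro t
    rw [PH_push_up_one hD hK hQ hfe hf hd hdf (H := part1 q (oddPart (quad hf L)))
      (fun k => if (d : ZMod f) * k = 0 then 0 else
        oddPart (↑(L.map (Nat.cast : ℕ → ZMod f)) : Multiset (ZMod f)) k)]
    · rw [hval, W_jj]
      have h1 : (Q.totient : ℤ) = (q ^ (K - 1) : ℕ) * ((q : ℤ) - 1) := by
        rw [hQ, Nat.totient_prime_pow hD.hq (Nat.pos_of_ne_zero hK)]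
        push_cast [Nat.cast_sub hD.hq.one_lt.le]
        ring
      rw [h1]
      ring
    · intro k
      unfold part1
      by_cases h : q ∣ addOrderOf (jj hf k)
      · rw [if_pos h, if_neg (fun h0 => ((hord k).mpr h0) h), hval']
      · rw [if_neg h, if_pos ((hord k).mp h)]
    · intro a ha
      unfold part1
      rw [hoff a ha, ite_self]
    · intro a ha
      exact (part1_supp ha).1
  · refine le_trans (le_of_eq ?_) hN
    have h1 : ∑ a, |part0 q (oddPart (quad hf L)) a|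
        = ∑ a ∈ univ.image (jj hf), |part0 q (oddPart (quad hf L)) a| := by
      symm
      apply sum_subset (subset_univ _)
      intro a _ ha
      have : part0 q (oddPart (quad hf L)) a = 0 := by
        unfold part0
        rw [hoff a (fun k hk => ha (mem_image.mpr ⟨k, mem_univ _, hk⟩)), ite_self]
      rw [this, abs_zero]
    rw [h1, sum_image (fun a _ b _ h => jj_injective hf h)]
    refine sum_congr rfl fun k _ => ?_
    unfold part0
    by_cases h : q ∣ addOrderOf (jj hf k)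
    · rw [if_pos h, if_neg (fun h0 => ((hord k).mpr h0) h)]
    · rw [if_neg h, if_pos ((hord k).mp h), hval']
  · intro a ha
    obtain ⟨ha1, ha2⟩ := part0_supp ha
    have hex : ∃ k, jj hf k = a := by
      by_contra hc
      push Not at hc
      exact ha2 (hoff a hc)
    obtain ⟨k, rfl⟩ := hex
    rw [hval'] at ha2
    have h12 := hS k ((hord k).mp ha1) ha2
    apply addOrderOf_dvd_of_nsmul_eq_zero
    rw [← map_nsmul, nsmul_eq_mul]
    have : ((12 : ℕ) : ZMod f) * k = 0 := by exact_mod_cast h12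
    rw [this, map_zero]

end Pool.Agent.Lib.MP_938ce2_ag_H7f
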