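import Pool.Agent.Lib.MP_938ce2_ag_h99.IntSplit

/-!
Integral odd splittings for four subgroups spanning everything.
-/

set_option autoImplicit false
set_option linter.style.haveILetI false
set_option linter.unusedSectionVars false

open Finset

namespace Pool.Agent.Lib.MP_938ce2_ag_h99

variable {A : Type*} [CommGroup A]

/-- a coordinate along `K` which is one at one -/
lemma exists_coord1 (K H : Subgroup A) (hd : Disjoint K H) : ∃ k : A → A, (∀ x, k x ∈ K) ∧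
    (∀ z ∈ K, ∀ x, k (z * x) = z * k x) ∧ (∀ h ∈ H, ∀ x, k (h * x) = k x) ∧ k 1 = 1 := by
  obtain ⟨k, h1, h2, h3⟩ := exists_coord K H hd
  refine ⟨fun x => (k 1)⁻¹ * k x, ?_, ?_, ?_, ?_⟩
  · intro x
    exact K.mul_mem (K.inv_mem (h1 1)) (h1 x)
  · intro z hz x
    simp only
    rw [h2 z hz, mul_left_comm]
  · intro h hh x
    simp only
    rw [h3 h hh]
  · simp

/-- odd splitting for two subgroups modulo a third one -/
lemma split_two_mod (c c1 c2 c3 : A) (K1 K2 H : Subgroup A) (hd : Disjoint K1 (K2 ⊔ H))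
    (htop : K1 ⊔ (K2 ⊔ H) = ⊤) (hc1 : c1 ∈ K1) (hc3 : c3 ∈ H)
    (hc : c = c1 * (c2 * c3))
    (F : A → ℤ) (hFH : ∀ z ∈ H, ∀ x, F (z * x) = F x)
    (hF : MD [K1, K2] F) (hodd : ∀ x, F (c * x) = - F x) (hc2 : c2 ∈ K2)
    (hpar : Even (F 1 + F c2)) :
    ∃ G1 G2 : A → ℤ, (∀ z ∈ K1, ∀ x, G1 (z * x) = G1 x) ∧ (∀ z ∈ K2, ∀ x, G2 (z * x) = G2 x) ∧
      (∀ z ∈ H, ∀ x, G1 (z * x) = G1 x) ∧ (∀ z ∈ H, ∀ x, G2 (z * x) = G2 x) ∧
      (∀ x, F x = G1 x + G2 x) ∧ (∀ x, G1 (c * x) = - G1 x) ∧ (∀ x, G2 (c * x) = - G2 x) := by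
  obtain ⟨k, hk1, hk2, hk3⟩ := exists_coord K1 (K2 ⊔ H) hd
  have hspan : spanL [K2] = K2 := by simp [spanL]
  set u : A → ℤ := fun x => F ((k x)⁻¹ * x) with hu
  set v : A → ℤ := fun x => F x - u x with hv
  have huinv : ∀ z ∈ K1, ∀ x, u (z * x) = u x := by
    intro z hz x
    simp only [hu]
    rw [hk2 z hz, mul_inv_rev, mul_assoc, inv_mul_cancel_left]
  have huH : ∀ z ∈ H, ∀ x, u (z * x) = u x := by
    intro z hz x
    simp only [hu]
    rw [hk3 z (Subgroup.mem_sup_right hz), mul_left_comm, hFH z hz]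
  have hvH : ∀ z ∈ H, ∀ x, v (z * x) = v x := by
    intro z hz x
    simp only [hv]
    rw [hFH z hz, huH z hz]
  have hvMD : MD [K2] v := split_first hF k hk1 (by
    rw [hspan]; exact fun h hh => hk3 h (Subgroup.mem_sup_left hh))
  have hvinv : ∀ z ∈ K2, ∀ x, v (z * x) = v x := by
    intro z hz x
    have h1 : v x - v (z * x) = 0 := hvMD x z hz
    omega
  -- the constant
  have hconst : ∀ x y, u (c * x) + u x = u (c * y) + u y := by
    have e1 : ∀ x, u (c * x) + u x = -(v (c * x) + v x) := by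
      intro x
      simp only [hv]
      have := hodd x
      linarith
    have e2 : ∀ z ∈ K1, ∀ x, u (c * (z * x)) + u (z * x) = u (c * x) + u x := by
      intro z hz x
      rw [mul_left_comm, huinv z hz, huinv z hz]
    have e3 : ∀ z ∈ K2, ∀ x, u (c * (z * x)) + u (z * x) = u (c * x) + u x := by
      intro z hz x
      rw [e1, e1, mul_left_comm, hvinv z hz, hvinv z hz]
    have e4 : ∀ z ∈ H, ∀ x, u (c * (z * x)) + u (z * x) = u (c * x) + u x := by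
      intro z hz x
      rw [mul_left_comm, huH z hz, huH z hz]
    intro x y
    have h1 : x * y⁻¹ ∈ K1 ⊔ (K2 ⊔ H) := by rw [htop]; exact Subgroup.mem_top _
    obtain ⟨z1, hz1, w, hw, h2⟩ := Subgroup.mem_sup.mp h1
    obtain ⟨z2, hz2, z3, hz3, rfl⟩ := Subgroup.mem_sup.mp hw
    have h3 : x = z1 * (z2 * (z3 * y)) := by
      have : z1 * (z2 * (z3 * y)) = (z1 * (z2 * z3)) * y := by group
      rw [this, h2, inv_mul_cancel_right]
    rw [h3, e2 z1 hz1, e3 z2 hz2, e4 z3 hz3]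
  set e := u (c * 1) + u 1 with he
  have hpar2 : Even e := by
    have h1 : u c2 = u (c * 1) := by
      rw [mul_one, hc, huinv c1 hc1, mul_comm c2 c3, huH c3 hc3]
    have h2 : v c2 = v 1 := by
      have := hvinv c2 hc2 1
      rwa [mul_one] at this
    have h3 : F 1 + F c2 = e + 2 * v 1 := by
      have e1 : F 1 = u 1 + v 1 := by simp [hv]
      have e2 : F c2 = u c2 + v c2 := by simp [hv]
      rw [e1, e2, h1, h2, he]
      ring
    rw [h3] at hpar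
    have h4 : Even (2 * v 1) := even_two_mul _
    exact (Int.even_add.mp hpar).mpr h4
  obtain ⟨d, hd'⟩ := hpar2
  refine ⟨fun x => u x - d, fun x => v x + d, ?_, ?_, ?_, ?_, ?_, ?_, ?_⟩
  · intro z hz x
    simp only
    rw [huinv z hz]
  · intro z hz x
    simp only
    rw [hvinv z hz]
  · intro z hz x
    simp only
    rw [huH z hz]
  · intro z hz x
    simp only
    rw [hvH z hz]
  · intro x
    simp only [hv]
    ring
  · intro x
    have h1 := hconst x 1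
    rw [← he] at h1
    simp only
    linarith
  · intro x
    have h1 := hconst x 1
    rw [← he] at h1
    have h2 := hodd x
    simp only [hv]
    linarith

/-- even splitting for two subgroups when `c` is not in the span -/
lemma even_two_free (c : A) (hcc : c * c = 1) (K1 K2 H : Subgroup A)
    (hd : Disjoint K1 (K2 ⊔ H)) (hc : c ∉ (K1 ⊔ K2) ⊔ H)
    (e : A → ℤ) (heH : ∀ z ∈ H, ∀ x, e (z * x) = e x)
    (heMD : MD [K1, K2] e) (hec : ∀ x, e (c * x) = e x) :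
    ∃ e1 e2 : A → ℤ, (∀ z ∈ K1, ∀ x, e1 (z * x) = e1 x) ∧ (∀ z ∈ K2, ∀ x, e2 (z * x) = e2 x) ∧
      (∀ z ∈ H, ∀ x, e1 (z * x) = e1 x) ∧ (∀ z ∈ H, ∀ x, e2 (z * x) = e2 x) ∧
      (∀ x, e x = e1 x + e2 x) ∧ (∀ x, e1 (c * x) = e1 x) ∧ (∀ x, e2 (c * x) = e2 x) := by
  have hsp2 : spanL [K2] = K2 := by simp [spanL]
  obtain ⟨l, hl1, hl2, hl3⟩ := exists_coord K1 (K2 ⊔ H) hd
  set u : A → ℤ := fun x => e ((l x)⁻¹ * x) with hu
  set v : A → ℤ := fun x => e x - u x with hv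
  have hu1 : ∀ z ∈ K1, ∀ x, u (z * x) = u x := by
    intro z hz x
    simp only [hu]
    rw [hl2 z hz, mul_inv_rev, mul_assoc, inv_mul_cancel_left]
  have hu3 : ∀ z ∈ H, ∀ x, u (z * x) = u x := by
    intro z hz x
    simp only [hu]
    rw [hl3 z (Subgroup.mem_sup_right hz), mul_left_comm, heH z hz]
  have hv3 : ∀ z ∈ H, ∀ x, v (z * x) = v x := by
    intro z hz x
    simp only [hv]
    rw [heH z hz, hu3 z hz]
  have hvMD : MD [K2] v := split_first heMD l hl1 (by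
    rw [hsp2]; exact fun h hh => hl3 h (Subgroup.mem_sup_left hh))
  have hv2 : ∀ z ∈ K2, ∀ x, v (z * x) = v x := by
    intro z hz x
    have h1 : v x - v (z * x) = 0 := hvMD x z hz
    omega
  obtain ⟨θ, hθ, hθ'⟩ := exists_half c hcc ((K1 ⊔ K2) ⊔ H) hc
  set h : A → ℤ := fun x => u (c * x) - u x with hh
  have hh0 : ∀ x, h x = -(v (c * x) - v x) := by
    intro x
    simp only [hh, hv]
    rw [hec]
    ring
  have hh1 : ∀ z ∈ K1, ∀ x, h (z * x) = h x := by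
    intro z hz x
    simp only [hh]
    rw [mul_left_comm, hu1 z hz, hu1 z hz]
  have hh2 : ∀ z ∈ K2, ∀ x, h (z * x) = h x := by
    intro z hz x
    rw [hh0, hh0, mul_left_comm, hv2 z hz, hv2 z hz]
  have hh3 : ∀ z ∈ H, ∀ x, h (z * x) = h x := by
    intro z hz x
    simp only [hh]
    rw [mul_left_comm, hu3 z hz, hu3 z hz]
  have hhc : ∀ x, h (c * x) = - h x := by
    intro x
    simp only [hh]
    rw [← mul_assoc c c x, hcc, one_mul]
    ring
  refine ⟨fun x => u x + θ x * h x, fun x => v x - θ x * h x, ?_, ?_, ?_, ?_, ?_, ?_, ?_⟩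
  · intro z hz x
    simp only
    rw [hu1 z hz, hh1 z hz, hθ' z (Subgroup.mem_sup_left (Subgroup.mem_sup_left hz))]
  · intro z hz x
    simp only
    rw [hv2 z hz, hh2 z hz, hθ' z (Subgroup.mem_sup_left (Subgroup.mem_sup_right hz))]
  · intro z hz x
    simp only
    rw [hu3 z hz, hh3 z hz, hθ' z (Subgroup.mem_sup_right hz)]
  · intro z hz x
    simp only
    rw [hv3 z hz, hh3 z hz, hθ' z (Subgroup.mem_sup_right hz)]
  · intro x
    simp only [hv]
    ring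
  · intro x
    simp only
    rw [hθ, hhc]
    have : u (c * x) = h x + u x := by simp [hh]
    rw [this]
    ring
  · intro x
    simp only
    rw [hθ, hhc]
    have h1 := hh0 x
    have : v (c * x) = v x - h x := by linarith
    rw [this]
    ring

/-- even splitting for three subgroups spanning everything together with a fourth one -/
lemma even_three (c c1 c2 c3 c4 : A) (hcc : c * c = 1) (hcc3 : c3 * c3 = 1)
    (K1 K2 K3 H : Subgroup A)
    (hd1 : Disjoint K1 (K2 ⊔ (K3 ⊔ H))) (hd3 : Disjoint K3 ((K1 ⊔ K2) ⊔ H))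
    (htop : K1 ⊔ (K2 ⊔ (K3 ⊔ H)) = ⊤) (hc1 : c1 ∈ K1) (hc2 : c2 ∈ K2) (hc3 : c3 ∈ K3)
    (hc4 : c4 ∈ H) (hc : c = c1 * (c2 * (c3 * c4)))
    (h1 : c ∉ K1 ⊔ (K3 ⊔ H)) (h2 : c ∉ K2 ⊔ (K3 ⊔ H)) (h12 : c ∉ (K1 ⊔ K2) ⊔ H)
    (e : A → ℤ) (heH : ∀ z ∈ H, ∀ x, e (z * x) = e x)
    (heMD : MD [K3, K1, K2] e) (hec : ∀ x, e (c * x) = e x)
    (hpar : Even (e 1 + e c2 + e c3 + e (c2 * c3))) :
    ∃ e1 e2 e3 : A → ℤ, (∀ z ∈ K1, ∀ x, e1 (z * x) = e1 x) ∧
      (∀ z ∈ K2, ∀ x, e2 (z * x) = e2 x) ∧ (∀ z ∈ K3, ∀ x, e3 (z * x) = e3 x) ∧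
      (∀ z ∈ H, ∀ x, e1 (z * x) = e1 x) ∧ (∀ z ∈ H, ∀ x, e2 (z * x) = e2 x) ∧
      (∀ z ∈ H, ∀ x, e3 (z * x) = e3 x) ∧
      (∀ x, e x = e1 x + e2 x + e3 x) ∧ (∀ x, e1 (c * x) = e1 x) ∧ (∀ x, e2 (c * x) = e2 x) ∧
      (∀ x, e3 (c * x) = e3 x) := by
  have hsp12 : spanL [K1, K2] = K1 ⊔ K2 := by simp [spanL]
  obtain ⟨k, hk1, hk2, hk3, hk4⟩ := exists_coord1 K3 ((K1 ⊔ K2) ⊔ H) hd3
  set f1 : A → ℤ := fun x => e ((k x)⁻¹ * x) with hf1
  have hf13 : ∀ z ∈ K3, ∀ x, f1 (z * x) = f1 x := by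
    intro z hz x
    simp only [hf1]
    rw [hk2 z hz, mul_inv_rev, mul_assoc, inv_mul_cancel_left]
  have hf1H : ∀ z ∈ H, ∀ x, f1 (z * x) = f1 x := by
    intro z hz x
    simp only [hf1]
    rw [hk3 z (Subgroup.mem_sup_right hz), mul_left_comm, heH z hz]
  have hD0 : MD [K1, K2] (fun x => e x - f1 x) :=
    split_first heMD k hk1 (by
      rw [hsp12]; exact fun h hh => hk3 h (Subgroup.mem_sup_left hh))
  have hkc : ∀ x, k (c * x) = c3 * k x := by
    intro x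
    have : c * x = c3 * ((c1 * c2 * c4) * x) := by
      rw [hc]
      have : c1 * (c2 * (c3 * c4)) = c3 * (c1 * c2 * c4) := by
        simp only [mul_comm, mul_left_comm]
      rw [this, mul_assoc]
    rw [this, hk2 c3 hc3, hk3 _ (Subgroup.mul_mem_sup (Subgroup.mul_mem_sup hc1 hc2) hc4)]
  have hf1c : ∀ x, f1 (c * x) = e (c3⁻¹ * ((k x)⁻¹ * x)) := by
    intro x
    simp only [hf1]
    rw [hkc, mul_inv_rev, ← hec (c3⁻¹ * ((k x)⁻¹ * x))]
    congr 1
    rw [mul_comm (k x)⁻¹ c3⁻¹, mul_assoc, mul_left_comm (k x)⁻¹ c x, mul_left_comm c3⁻¹ c]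
  set e' : A → ℤ := fun x => f1 x - f1 (c * x) with he'
  have he'MD : MD [K1, K2] e' := by
    intro x
    have h1 := ((MD_cons.mp heMD) _ (K3.inv_mem hc3)).translate ((k x)⁻¹) x
    refine MDat_congr _ _ _ x ?_ h1
    intro y hy
    rw [hsp12] at hy
    simp only [he']
    rw [hf1c]
    simp only [hf1]
    rw [hk3 y (Subgroup.mem_sup_left hy)]
  have he'H : ∀ z ∈ K3 ⊔ H, ∀ x, e' (z * x) = e' x := by
    intro z hz x
    obtain ⟨z3, hz3, z4, hz4, rfl⟩ := Subgroup.mem_sup.mp hz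
    have q : ∀ y, f1 (z3 * z4 * y) = f1 y := by
      intro y
      rw [mul_assoc, hf13 z3 hz3, hf1H z4 hz4]
    simp only [he']
    rw [mul_left_comm c, q, q]
  have he'c : ∀ x, e' (c * x) = - e' x := by
    intro x
    simp only [he']
    rw [← mul_assoc c c x, hcc, one_mul]
    ring
  have hpar' : Even (e' 1 + e' c2) := by
    have q0 : k c2 = 1 := by
      have := hk3 c2 (Subgroup.mem_sup_left (Subgroup.mem_sup_right hc2)) 1
      rwa [mul_one, hk4] at this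
    have q1 : f1 1 = e 1 := by
      simp only [hf1]
      rw [hk4, inv_one, one_mul]
    have q2 : f1 c2 = e c2 := by
      simp only [hf1]
      rw [q0, inv_one, one_mul]
    have q4 : c3⁻¹ = c3 := inv_eq_of_mul_eq_one_right hcc3
    have q3 : f1 (c * 1) = e c3 := by
      rw [hf1c, hk4, inv_one, mul_one, mul_one, q4]
    have q5 : f1 (c * c2) = e (c2 * c3) := by
      rw [hf1c, q0, inv_one, one_mul, q4, mul_comm]
    have q6 : e' 1 + e' c2 = (e 1 + e c2 + e c3 + e (c2 * c3)) - 2 * (e c3 + e (c2 * c3)) := by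
      simp only [he']
      rw [q1, q2, q3, q5]
      ring
    rw [q6]
    exact hpar.sub (even_two_mul _)
  obtain ⟨u, v, hu1, hv2, huH, hvH, huv, huc, hvc⟩ := split_two_mod c c1 c2 (c3 * c4) K1 K2 (K3 ⊔ H)
    hd1 htop hc1 (Subgroup.mul_mem_sup hc3 hc4) hc e' he'H he'MD he'c hc2 hpar'
  obtain ⟨θ1, hθ1, hθ1'⟩ := exists_half c hcc (K1 ⊔ (K3 ⊔ H)) h1
  obtain ⟨θ2, hθ2, hθ2'⟩ := exists_half c hcc (K2 ⊔ (K3 ⊔ H)) h2
  set u' : A → ℤ := fun x => θ1 x * u x with hu'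
  set v' : A → ℤ := fun x => θ2 x * v x with hv'
  have hu'1 : ∀ z ∈ K1, ∀ x, u' (z * x) = u' x := by
    intro z hz x
    simp only [hu']
    rw [hθ1' z (Subgroup.mem_sup_left hz), hu1 z hz]
  have hu'3 : ∀ z ∈ K3 ⊔ H, ∀ x, u' (z * x) = u' x := by
    intro z hz x
    simp only [hu']
    rw [hθ1' z (Subgroup.mem_sup_right hz), huH z hz]
  have hv'2 : ∀ z ∈ K2, ∀ x, v' (z * x) = v' x := by
    intro z hz x
    simp only [hv']
    rw [hθ2' z (Subgroup.mem_sup_left hz), hv2 z hz]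
  have hv'3 : ∀ z ∈ K3 ⊔ H, ∀ x, v' (z * x) = v' x := by
    intro z hz x
    simp only [hv']
    rw [hθ2' z (Subgroup.mem_sup_right hz), hvH z hz]
  set w : A → ℤ := fun x => f1 x - u' x - v' x with hw
  have hwc : ∀ x, w (c * x) = w x := by
    intro x
    have q1 : f1 (c * x) = f1 x - (u x + v x) := by
      have := huv x
      simp only [he'] at this
      linarith
    simp only [hw, hu', hv']
    rw [hθ1, hθ2, huc, hvc, q1]
    ring
  have hw3 : ∀ z ∈ K3, ∀ x, w (z * x) = w x := by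
    intro z hz x
    simp only [hw]
    rw [hf13 z hz, hu'3 z (Subgroup.mem_sup_left hz), hv'3 z (Subgroup.mem_sup_left hz)]
  have hwH : ∀ z ∈ H, ∀ x, w (z * x) = w x := by
    intro z hz x
    simp only [hw]
    rw [hf1H z hz, hu'3 z (Subgroup.mem_sup_right hz), hv'3 z (Subgroup.mem_sup_right hz)]
  have hDMD : MD [K1, K2] (fun x => e x - w x) := by
    have h1 := (hD0.add (MD_of_inv [K1, K2] (K := K1) (by simp) u' hu'1)).add
      (MD_of_inv [K1, K2] (K := K2) (by simp) v' hv'2)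
    convert h1 using 2 with x
    simp only [hw]
    ring
  have hd1' : Disjoint K1 (K2 ⊔ H) := hd1.mono_right (sup_le_sup_left le_sup_right K2)
  obtain ⟨e1, e2, g1, g2, g3, g4, g5, g6, g7⟩ := even_two_free c hcc K1 K2 H hd1' h12
    (fun x => e x - w x) (fun z hz x => by rw [heH z hz, hwH z hz]) hDMD
    (fun x => by rw [hec, hwc])
  refine ⟨e1, e2, w, g1, g2, hw3, g3, g4, hwH, ?_, g6, g7, hwc⟩
  intro x
  have := g5 x
  linarith

/-- the case of four subgroups spanning everything -/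
theorem split_four (c c1 c2 c3 c4 : A) (hcc : c * c = 1) (hcc3 : c3 * c3 = 1)
    (hcc4 : c4 * c4 = 1) (K1 K2 K3 K4 : Subgroup A)
    (hI : IndepL [K3, K1, K2])
    (hd1 : Disjoint K1 (K2 ⊔ (K3 ⊔ K4))) (hd3 : Disjoint K3 ((K1 ⊔ K2) ⊔ K4))
    (hd4 : Disjoint K4 (K3 ⊔ (K1 ⊔ K2)))
    (htop : K1 ⊔ (K2 ⊔ (K3 ⊔ K4)) = ⊤) (hc1 : c1 ∈ K1) (hc2 : c2 ∈ K2) (hc3 : c3 ∈ K3)
    (hc4 : c4 ∈ K4) (hc : c = c1 * (c2 * (c3 * c4)))
    (h1 : c ∉ K1 ⊔ (K3 ⊔ K4)) (h2 : c ∉ K2 ⊔ (K3 ⊔ K4)) (h12 : c ∉ (K1 ⊔ K2) ⊔ K4)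
    (h123 : c ∉ K1 ⊔ (K2 ⊔ K3))
    (F : A → ℤ) (hF : MD [K4, K3, K1, K2] F) (hodd : ∀ x, F (c * x) = - F x)
    (hpar : Even (F 1 + F c1 + F c2 + F c3 + F (c1 * c2) + F (c1 * c3) + F (c2 * c3)
      + F (c1 * c2 * c3))) :
    ∃ G1 G2 G3 G4 : A → ℤ, (∀ z ∈ K1, ∀ x, G1 (z * x) = G1 x) ∧
      (∀ z ∈ K2, ∀ x, G2 (z * x) = G2 x) ∧ (∀ z ∈ K3, ∀ x, G3 (z * x) = G3 x) ∧
      (∀ z ∈ K4, ∀ x, G4 (z * x) = G4 x) ∧
      (∀ x, F x = G1 x + G2 x + G3 x + G4 x) ∧ (∀ x, G1 (c * x) = - G1 x) ∧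
      (∀ x, G2 (c * x) = - G2 x) ∧ (∀ x, G3 (c * x) = - G3 x) ∧ (∀ x, G4 (c * x) = - G4 x) := by
  have hsp : spanL [K3, K1, K2] = K3 ⊔ (K1 ⊔ K2) := by simp [spanL]
  obtain ⟨k, hk1, hk2, hk3, hk5⟩ := exists_coord1 K4 (K3 ⊔ (K1 ⊔ K2)) hd4
  set f0 : A → ℤ := fun x => F ((k x)⁻¹ * x) with hf0
  have hf0inv : ∀ z ∈ K4, ∀ x, f0 (z * x) = f0 x := by
    intro z hz x
    simp only [hf0]
    rw [hk2 z hz, mul_inv_rev, mul_assoc, inv_mul_cancel_left]
  have hD0 : MD [K3, K1, K2] (fun x => F x - f0 x) :=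
    split_first hF k hk1 (by rw [hsp]; exact hk3)
  have hce : c = c4 * (c3 * (c1 * c2)) := by
    rw [hc]
    simp only [mul_comm, mul_left_comm]
  have hm123 : c3 * (c1 * c2) ∈ K3 ⊔ (K1 ⊔ K2) :=
    Subgroup.mul_mem_sup hc3 (Subgroup.mul_mem_sup hc1 hc2)
  have hkc : ∀ x, k (c * x) = c4 * k x := by
    intro x
    rw [hce, mul_assoc, hk2 c4 hc4, hk3 _ hm123]
  have hf0c : ∀ x, f0 (c * x) = - F (c4⁻¹ * ((k x)⁻¹ * x)) := by
    intro x
    simp only [hf0]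
    rw [hkc, mul_inv_rev, ← hodd]
    congr 1
    rw [mul_comm (k x)⁻¹ c4⁻¹, mul_assoc, mul_left_comm (k x)⁻¹ c x, mul_left_comm c4⁻¹ c]
  set e : A → ℤ := fun x => f0 x + f0 (c * x) with he
  have heMD : MD [K3, K1, K2] e := by
    intro x
    have h1 := ((MD_cons.mp hF) _ (K4.inv_mem hc4)).translate ((k x)⁻¹) x
    refine MDat_congr _ _ _ x ?_ h1
    intro y hy
    rw [hsp] at hy
    simp only [he]
    rw [hf0c]
    simp only [hf0]
    rw [hk3 y hy]
    ring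
  have heinv : ∀ z ∈ K4, ∀ x, e (z * x) = e x := by
    intro z hz x
    simp only [he]
    rw [hf0inv z hz, mul_left_comm, hf0inv z hz]
  have hec : ∀ x, e (c * x) = e x := by
    intro x
    simp only [he]
    rw [← mul_assoc c c x, hcc, one_mul]
    ring
  have hval : ∀ y ∈ K3 ⊔ (K1 ⊔ K2), e y = F y + F (c4 * c * y) := by
    intro y hy
    have q0 : k y = 1 := by
      have := hk3 y hy 1
      rwa [mul_one, hk5] at this
    have q4 : c4⁻¹ = c4 := inv_eq_of_mul_eq_one_right hcc4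
    simp only [he]
    rw [hf0c, q0, inv_one, one_mul, q4]
    simp only [hf0]
    rw [q0, inv_one, one_mul, mul_comm c4 c, mul_assoc, hodd]
  have hc4c : c4 * c = c3 * (c1 * c2) := by
    rw [hce, ← mul_assoc, hcc4, one_mul]
  have m1 : c2 ∈ K3 ⊔ (K1 ⊔ K2) := Subgroup.mem_sup_right (Subgroup.mem_sup_right hc2)
  have m3 : c3 ∈ K3 ⊔ (K1 ⊔ K2) := Subgroup.mem_sup_left hc3
  have hcc12 : c1 * c2 * (c1 * c2) = 1 := by
    have q : c3 * (c1 * c2) * (c3 * (c1 * c2)) = 1 := by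
      rw [← hc4c, mul_mul_mul_comm, hcc4, hcc, one_mul]
    rwa [mul_mul_mul_comm, hcc3, one_mul] at q
  have hd12 : Disjoint K1 K2 := hd1.mono_right le_sup_left
  have hcc2 : c2 * c2 = 1 := by
    have q : c1 * c1 * (c2 * c2) = 1 := by rwa [mul_mul_mul_comm] at hcc12
    have q1 : c2 * c2 = (c1 * c1)⁻¹ := (inv_eq_of_mul_eq_one_right q).symm
    have q2 : c2 * c2 ∈ K1 := by
      rw [q1]
      exact K1.inv_mem (K1.mul_mem hc1 hc1)
    exact Subgroup.disjoint_def.mp hd12 q2 (K2.mul_mem hc2 hc2)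
  have hparE : Even (e 1 + e c2 + e c3 + e (c2 * c3)) := by
    rw [hval 1 (Subgroup.one_mem _), hval c2 m1, hval c3 m3, hval (c2 * c3) (mul_mem m1 m3), hc4c]
    have q1 : c3 * (c1 * c2) * 1 = c1 * c2 * c3 := by
      rw [mul_one, mul_comm]
    have q2 : c3 * (c1 * c2) * c2 = c1 * c3 := by
      rw [mul_assoc, mul_assoc c1, hcc2, mul_one, mul_comm]
    have q3 : c3 * (c1 * c2) * c3 = c1 * c2 := by
      rw [mul_comm c3, mul_assoc, hcc3, mul_one]
    have q4 : c3 * (c1 * c2) * (c2 * c3) = c1 := by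
      rw [mul_comm c2 c3, ← mul_assoc, q3, mul_assoc, hcc2, mul_one]
    rw [q1, q2, q3, q4]
    convert hpar using 1
    ring
  obtain ⟨e1, e2, e3, g1, g2, g3, g4, g5, g6, g7, g8, g9, g10⟩ := even_three c c1 c2 c3 c4 hcc hcc3
    K1 K2 K3 K4 hd1 hd3 htop hc1 hc2 hc3 hc4 hc h1 h2 h12 e heinv heMD hec hparE
  have n1 : c ∉ K1 ⊔ K4 := fun h => h1 (sup_le_sup_left le_sup_right K1 h)
  have n2 : c ∉ K2 ⊔ K4 := fun h => h2 (sup_le_sup_left le_sup_right K2 h)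
  have n3 : c ∉ K3 ⊔ K4 := fun h => h1 (Subgroup.mem_sup_right h)
  obtain ⟨θ1, hθ1, hθ1'⟩ := exists_half c hcc (K1 ⊔ K4) n1
  obtain ⟨θ2, hθ2, hθ2'⟩ := exists_half c hcc (K2 ⊔ K4) n2
  obtain ⟨θ3, hθ3, hθ3'⟩ := exists_half c hcc (K3 ⊔ K4) n3
  set B : A → ℤ := fun x => f0 x - θ1 x * e1 x - θ2 x * e2 x - θ3 x * e3 x with hB
  have hB4 : ∀ z ∈ K4, ∀ x, B (z * x) = B x := by
    intro z hz x
    simp only [hB]
    rw [hf0inv z hz, g4 z hz, g5 z hz, g6 z hz, hθ1' z (Subgroup.mem_sup_right hz),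
      hθ2' z (Subgroup.mem_sup_right hz), hθ3' z (Subgroup.mem_sup_right hz)]
  have hBodd : ∀ x, B (c * x) = - B x := by
    intro x
    have q : f0 (c * x) = e1 x + e2 x + e3 x - f0 x := by
      have := g7 x
      simp only [he] at this
      linarith
    simp only [hB]
    rw [hθ1, hθ2, hθ3, g8, g9, g10, q]
    ring
  have hDMD : MD [K3, K1, K2] (fun x => F x - B x) := by
    have q1 := ((hD0.add (MD_of_inv [K3, K1, K2] (K := K1) (by simp) (fun x => θ1 x * e1 x)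
      (fun z hz x => by rw [hθ1' z (Subgroup.mem_sup_left hz), g1 z hz]))).add
      (MD_of_inv [K3, K1, K2] (K := K2) (by simp) (fun x => θ2 x * e2 x)
      (fun z hz x => by rw [hθ2' z (Subgroup.mem_sup_left hz), g2 z hz]))).add
      (MD_of_inv [K3, K1, K2] (K := K3) (by simp) (fun x => θ3 x * e3 x)
      (fun z hz x => by rw [hθ3' z (Subgroup.mem_sup_left hz), g3 z hz]))
    convert q1 using 2 with x
    simp only [hB]
    ring
  set KK : ℕ → Subgroup A := fun i => if i = 0 then K3 else if i = 1 then K1 else K2 with hKK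
  have hmap : [0, 1, 2].map KK = [K3, K1, K2] := by simp [hKK]
  have hcs : c ∉ spanL ([0, 1, 2].map KK) := by
    rw [hmap, hsp]
    intro h
    apply h123
    rwa [sup_comm, sup_assoc] at h
  obtain ⟨G, hG1, hG2, hG3⟩ := int_split c hcc KK [0, 1, 2] (by simp)
    (by rw [hmap]; exact hI) hcs (fun x => F x - B x)
    (by rw [hmap]; exact hDMD) (fun x => by rw [hodd, hBodd]; ring)
  refine ⟨G 1, G 2, G 0, B, ?_, ?_, ?_, hB4, ?_, ?_, ?_, ?_, hBodd⟩
  · intro z hz x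
    exact hG1 1 (by simp) z (by simpa [hKK] using hz) x
  · intro z hz x
    exact hG1 2 (by simp) z (by simpa [hKK] using hz) x
  · intro z hz x
    exact hG1 0 (by simp) z (by simpa [hKK] using hz) x
  · intro x
    have := hG2 x
    simp only [List.map_cons, List.map_nil, List.sum_cons, List.sum_nil, add_zero] at this
    linarith
  · exact hG3 1 (by simp)
  · exact hG3 2 (by simp)
  · exact hG3 0 (by simp)

end Pool.Agent.Lib.MP_938ce2_ag_h99
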