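import Pool.Agent.Lib.MP_938ce2_ag_H7f.Ref
import Pool.Agent.Lib.MP_938ce2_ag_H7f.Wrel
import Pool.Agent.Lib.MP_938ce2_ag_H7f.Func2

/-!
One prime `q ≥ 11` is removed from the orders.
-/

set_option autoImplicit false
set_option linter.style.haveILetI false
set_option linter.unusedSectionVars false

open Finset

namespace Pool.Agent.Lib.MP_938ce2_ag_H7f

open Pool.Agent.Lib.MP_938ce2_ag_h99 Pool.Agent.Lib.MP_938ce2_ag_H7e

variable {m Q n q : ℕ} [NeZero m]

lemma odd_small {F : ZMod m → ℤ} (ho : OddF F) (h : ∑ a, |F a| ≤ 1) : F = 0 := by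
  classical
  funext a
  by_contra ha
  have ha' : F a ≠ 0 := ha
  have h1 : F (-a) ≠ 0 := by rw [ho]; exact neg_ne_zero.mpr ha'
  have h2 : a ≠ -a := by
    intro h3
    have h4 := ho a
    rw [← h3] at h4
    omega
  have h5 : |F a| + |F (-a)| ≤ ∑ x, |F x| := by
    have h6 : ∑ x ∈ ({a, -a} : Finset (ZMod m)), |F x| ≤ ∑ x, |F x| :=
      sum_le_univ_sum_of_nonneg fun _ => abs_nonneg _
    rwa [sum_pair h2] at h6
  have h6 := Int.one_le_abs ha'
  have h7 := Int.one_le_abs h1
  linarith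

lemma K_pos (hD : Dat m Q n q) {K : ℕ} (hQ : Q = q ^ K) : 1 ≤ K := by
  obtain ⟨K', hK', hQ'⟩ := hD.hQ
  by_contra h
  have : K = 0 := by omega
  rw [this, pow_zero] at hQ
  rw [hQ] at hQ'
  have := Nat.one_lt_pow hK' hD.hq.one_lt
  omega

lemma tot_eq (hD : Dat m Q n q) {K : ℕ} (hQ : Q = q ^ K) :
    (Q.totient : ℤ) = q ^ (K - 1) * (q - 1) := by
  have hK := K_pos hD hQ
  obtain ⟨k, rfl⟩ : ∃ k, K = k + 1 := ⟨K - 1, by omega⟩
  rw [hQ, Nat.totient_prime_pow_succ hD.hq]
  rw [Nat.cast_mul, Nat.cast_pow, Nat.cast_sub hD.hq.one_lt.le]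
  simp

/-- the bound for `q` -/
lemma q_bound (hD : Dat m Q n q) [NeZero n] {K : ℕ} (hQ : Q = q ^ K)
    {F1 : ZMod m → ℤ} (hs1 : ∀ a, F1 a ≠ 0 → q ∣ addOrderOf a) {c e : ℤ} (hc : 0 ≤ c)
    (he : 0 ≤ e)
    (h : |e * (Q.totient : ℤ)| ≤ c * ∑ a, |push hD (upF Q q K F1) a|) :
    e * (q - 1) ≤ c * ∑ a, |F1 a| := by
  have h3 := push_norm hD (upF Q q K F1)
  have h4 := upF_norm hD hQ F1 hs1
  have hq1 : (1 : ℤ) ≤ q := by exact_mod_cast hD.hq.one_lt.le
  have h1 := (le_abs_self _).trans h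
  rw [tot_eq hD hQ] at h1
  have h5 := mul_le_mul_of_nonneg_left (h3.trans h4) hc
  have h6 : (q : ℤ) ^ (K - 1) * (e * (q - 1)) ≤ (q : ℤ) ^ (K - 1) * (c * ∑ a, |F1 a|) := by
    calc (q : ℤ) ^ (K - 1) * (e * (q - 1)) = e * (q ^ (K - 1) * (q - 1)) := by ring
      _ ≤ _ := h1
      _ ≤ _ := h5
      _ = _ := by ring
  exact le_of_mul_le_mul_left h6 (pow_pos (by linarith) _)

/-- the point `b` -/
theorem exists_point (hD : Dat m Q n q) [NeZero n] {K : ℕ} (hQ : Q = q ^ K) (hq : 11 ≤ q)
    (h2 : 2 ∣ n) {F : ZMod m → ℤ} (ho : OddF F) (hT : TateF F) (hN : ∑ a, |F a| ≤ 12) :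
    ∃ b : ZMod n, (addOrderOf b = 2 ∨ addOrderOf b = 3 ∨ addOrderOf b = 4 ∨ addOrderOf b = 6 ∨
      addOrderOf b = 10 ∨ addOrderOf b = 12) ∧
      (∀ t : (ZMod n)ˣ, PH (push hD (upF Q q K (part1 q F))) t = Q.totient * W t b) ∧
      (∑ a, |part0 q F a| ≤ 1 → ((q - 1 : ℕ) : ZMod n) * b = 0) ∧
      (q < 1 + ∑ a, |part1 q F a| → addOrderOf b = 2 ∨ addOrderOf b = 10) := by
  have hn0 : 0 < n := Nat.pos_of_ne_zero (NeZero.ne n)
  have hn2 : 2 ≤ n := Nat.le_of_dvd hn0 h2
  have hn2' : (2 : ℤ) ≤ n := by exact_mod_cast hn2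
  have hq' : (11 : ℤ) ≤ q := by exact_mod_cast hq
  have hs1 : ∀ a, part1 q F a ≠ 0 → q ∣ addOrderOf a := fun a ha => (part1_supp ha).1
  obtain ⟨hS, g, hEv, hg, hZ⟩ := core hD hQ (part1_odd ho) (F0 := part0 q F) (F1 := part1 q F)
    (by rw [part_add]; exact hT) (fun a ha => dvd_n_of_not_dvd hD (part0_supp ha).1) hs1
  have hnorm := part_norm (q := q) F
  set N0 := ∑ a, |part0 q F a| with hN0
  set N1 := ∑ a, |part1 q F a| with hN1
  have hN0' : 0 ≤ N0 := sum_nonneg fun _ _ => abs_nonneg _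
  have hN1' : 0 ≤ N1 := sum_nonneg fun _ _ => abs_nonneg _
  -- the unit `q`
  have hcop : Nat.Coprime q n := by
    obtain ⟨k, hk, hQ'⟩ := hD.hQ
    have h1 := hD.hcop
    rw [hQ'] at h1
    exact Nat.Coprime.coprime_dvd_left (dvd_pow_self q hk) h1
  set s : (ZMod n)ˣ := ZMod.unitOfCoprime q hcop with hs
  have hsq : (s : ZMod n) = q := ZMod.coe_unitOfCoprime q hcop
  have hZ' : N0 ≤ 1 → ∀ t : (ZMod n)ˣ, PH g (s * t) = PH g t := by
    intro h1 t
    exact hZ (odd_small (part0_odd ho) h1) s t hsq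
  have hZb : ∀ b : ZMod n, (q : ZMod n) * b = b → ((q - 1 : ℕ) : ZMod n) * b = 0 := by
    intro b hb
    rw [Nat.cast_sub hD.hq.one_lt.le, Nat.cast_one, sub_mul, hb, one_mul, sub_self]
  have hbound := g_bound hD hn2 hQ hs1 hg
  by_cases hcase : N1 ≤ q - 1
  · -- the generic case
    have hlt : ∀ t : (ZMod n)ˣ, |PH g t| < n := by
      intro t
      have h1 := hbound t
      have h3 : (q - 1 : ℤ) * |PH g t| ≤ (q - 1) * (n - 2) := by
        have := mul_le_mul_of_nonneg_left hcase (by linarith : (0 : ℤ) ≤ n - 2)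
        linarith
      have h4 := le_of_mul_le_mul_left h3 (by linarith)
      linarith
    obtain ⟨b, hb0, hb⟩ := exists_b h2 g hlt
    refine ⟨b, parity hEv hb0 hb, fun t => by rw [hg, hb], ?_, ?_⟩
    · intro h1
      apply hZb
      have h3 := hZ' h1 1
      rw [mul_one, hb, hb] at h3
      have h4 := eq_of_W hb0 h3
      rw [hsq, Units.val_one, one_mul] at h4
      exact h4
    · intro h
      linarith
  · -- `q = 11` and `F = F1`
    push Not at hcase
    have hq11 : q = 11 := by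
      have : (q : ℤ) < 12 + 1 := by linarith
      have h3 : q < 13 := by exact_mod_cast this
      have h4 : q ≠ 12 := by
        intro h
        have := hD.hq
        rw [h] at this
        exact absurd this (by norm_num)
      omega
    have hqz : (q : ℤ) = 11 := by exact_mod_cast hq11
    have hN0s : N0 ≤ 1 := by
      rw [hqz] at hcase
      linarith
    have hinv := hZ' hN0s
    have hbd : ∀ t : (ZMod n)ˣ, 10 * |PH g t| ≤ (n - 2) * 12 := by
      intro t
      have h1 := hbound t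
      rw [hqz] at h1
      have h3 : (n - 2 : ℤ) * N1 ≤ (n - 2) * 12 :=
        mul_le_mul_of_nonneg_left (by linarith) (by linarith)
      linarith
    obtain ⟨b, hb⟩ := exists_b0 h2 g
    -- `10 b = 0`
    have hval : ∀ t : (ZMod n)ˣ, ((((s * t : (ZMod n)ˣ) : ZMod n) * b).val : ℤ)
        = ((((t : ZMod n) * b).val : ℕ) : ℤ) := by
      intro t
      obtain ⟨k1, hk1⟩ := hb (s * t)
      obtain ⟨k2, hk2⟩ := hb t
      have h3 := hinv t
      rw [hk1, hk2] at h3
      have h4 : (((s * t : (ZMod n)ˣ) : ZMod n) * b).val < n := ZMod.val_lt _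
      have h5 : ((t : ZMod n) * b).val < n := ZMod.val_lt _
      have h4' : ((((s * t : (ZMod n)ˣ) : ZMod n) * b).val : ℤ) < n := by exact_mod_cast h4
      have h5' : ((((t : ZMod n) * b).val : ℕ) : ℤ) < n := by exact_mod_cast h5
      have h6 : (0 : ℤ) ≤ ((((s * t : (ZMod n)ˣ) : ZMod n) * b).val : ℤ) := Int.natCast_nonneg _
      have h7 : (0 : ℤ) ≤ ((((t : ZMod n) * b).val : ℕ) : ℤ) := Int.natCast_nonneg _
      have h8 : ((((s * t : (ZMod n)ˣ) : ZMod n) * b).val : ℤ)
          - ((((t : ZMod n) * b).val : ℕ) : ℤ) = n * (k2 - k1) := by linarith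
      have h9 : k2 - k1 < 1 := by
        by_contra hc
        push Not at hc
        nlinarith
      have h10 : -1 < k2 - k1 := by
        by_contra hc
        push Not at hc
        nlinarith
      have h11 : k2 - k1 = 0 := by omega
      rw [h11, mul_zero] at h8
      linarith
    have h10b : ((q - 1 : ℕ) : ZMod n) * b = 0 := by
      apply hZb
      have h3 := hval 1
      have h4 : (((s * 1 : (ZMod n)ˣ) : ZMod n) * b).val = (((1 : (ZMod n)ˣ) : ZMod n) * b).val := by
        exact_mod_cast h3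
      have h5 := ZMod.val_injective n h4
      rw [mul_one, hsq, Units.val_one, one_mul] at h5
      exact h5
    have h10 : ∀ t : (ZMod n)ˣ, ∃ v : ℤ, 10 * ((((t : ZMod n) * b).val : ℕ) : ℤ) = n * v := by
      intro t
      have h3 : ((10 * ((t : ZMod n) * b).val : ℕ) : ZMod n) = 0 := by
        rw [Nat.cast_mul, ZMod.natCast_zmod_val]
        rw [hq11] at h10b
        norm_num at h10b ⊢
        linear_combination (t : ZMod n) * h10b
      rw [ZMod.natCast_eq_zero_iff] at h3
      obtain ⟨v, hv⟩ := h3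
      exact ⟨v, by exact_mod_cast hv⟩
    -- `b ≠ 0`
    have hb0 : b ≠ 0 := by
      intro hb0
      have hsq2 : ∀ t : (ZMod n)ˣ, PH g t ^ 2 = (n : ℤ) ^ 2 := by
        intro t
        obtain ⟨k, hk⟩ := hb t
        rw [hb0, mul_zero, ZMod.val_zero, Nat.cast_zero] at hk
        have h3 := hbd t
        have h4 : k < 2 := by
          by_contra hc
          push Not at hc
          have h5 := le_abs_self (PH g t)
          nlinarith
        have h5 : -1 < k := by
          by_contra hc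
          push Not at hc
          have h5 := neg_abs_le (PH g t)
          nlinarith
        have h6 : k = 0 ∨ k = 1 := by omega
        rcases h6 with rfl | rfl
        · rw [hk]; ring
        · rw [hk]; ring
      have h3 : ∀ t : (ZMod n)ˣ, PH (push hD (upF Q q K (part1 q F))) t ^ 2
          = ((Q.totient : ℤ) * n) ^ 2 := by
        intro t
        rw [hg, mul_pow, hsq2]
        ring
      have h4 := no_const h3
      have h5 := push_norm hD (upF Q q K (part1 q F))
      have h6 := upF_norm hD hQ (part1 q F) hs1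
      rw [tot_eq hD hQ, hqz] at h4
      have h7 : ∑ a, |push hD (upF Q q K (part1 q F)) a| ≤ (11 : ℤ) ^ (K - 1) * 12 := by
        have h8 : ((q : ℤ) ^ (K - 1)) * N1 ≤ (11 : ℤ) ^ (K - 1) * 12 := by
          rw [hqz]
          apply mul_le_mul_of_nonneg_left (by linarith) (by positivity)
        linarith
      have h8 : 0 ≤ ∑ a, |push hD (upF Q q K (part1 q F)) a| := sum_nonneg fun _ _ => abs_nonneg _
      have h9 : (∑ a, |push hD (upF Q q K (part1 q F)) a|) ^ 2 ≤ ((11 : ℤ) ^ (K - 1) * 12) ^ 2 :=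
        pow_le_pow_left₀ h8 h7 2
      have h10 : (0 : ℤ) < ((11 : ℤ) ^ (K - 1)) ^ 2 := by positivity
      nlinarith
    have hgW : ∀ t : (ZMod n)ˣ, PH g t = W t b := by
      intro t
      obtain ⟨k, hk⟩ := hb t
      have h3 := hbd t
      have htb : (t : ZMod n) * b ≠ 0 := fun h' => hb0 ((Units.mul_right_eq_zero t).mp h')
      have h4 : ((t : ZMod n) * b).val < n := ZMod.val_lt _
      have h5 : 0 < ((t : ZMod n) * b).val := by
        rw [ZMod.val_pos]; exact htb
      obtain ⟨v, hv⟩ := h10 t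
      have h4' : ((((t : ZMod n) * b).val : ℕ) : ℤ) < n := by exact_mod_cast h4
      have h5' : (0 : ℤ) < ((((t : ZMod n) * b).val : ℕ) : ℤ) := by exact_mod_cast h5
      have hv1 : 1 ≤ v := by
        by_contra hc
        push Not at hc
        nlinarith
      have hv9 : v ≤ 9 := by
        by_contra hc
        push Not at hc
        nlinarith
      have h8 := le_abs_self (PH g t)
      have h9 := neg_abs_le (PH g t)
      have hk1 : k < 1 := by
        by_contra hc
        push Not at hc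
        nlinarith
      have hk2 : -1 < k := by
        by_contra hc
        push Not at hc
        nlinarith
      have hk0 : k = 0 := by omega
      unfold W
      rw [if_neg hb0, hk, hk0]
      ring
    have hpar := parity hEv hb0 hgW
    have ho10 : addOrderOf b ∣ 10 := by
      rw [addOrderOf_dvd_iff_nsmul_eq_zero, nsmul_eq_mul]
      rw [hq11] at h10b
      exact h10b
    have h210 : addOrderOf b = 2 ∨ addOrderOf b = 10 := by
      rcases hpar with h | h | h | h | h | h <;> rw [h] at ho10 ⊢ <;> omega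
    refine ⟨b, hpar, fun t => by rw [hg, hgW], fun _ => h10b, fun _ => h210⟩

end Pool.Agent.Lib.MP_938ce2_ag_H7f
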