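import Pool.Agent.Lib.MP_938ce2_ag_H7f.Step

/-!
One prime `q ≥ 11` is removed from the orders: the cases.
-/

set_option autoImplicit false
set_option linter.style.haveILetI false
set_option linter.unusedSectionVars false

open Finset

namespace Pool.Agent.Lib.MP_938ce2_ag_H7f

open Pool.Agent.Lib.MP_938ce2_ag_h99 Pool.Agent.Lib.MP_938ce2_ag_H7e

variable {m Q n q : ℕ} [NeZero m]

lemma prime_cases {q : ℕ} (hq : q.Prime) (h11 : 11 ≤ q) (h : q ≤ 25) :
    q = 11 ∨ q = 13 ∨ q = 17 ∨ q = 19 ∨ q = 23 := by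
  interval_cases q <;> first | omega | exact absurd hq (by norm_num)

theorem step_cases (hD : Dat m Q n q) [NeZero n] {K : ℕ} (hQ : Q = q ^ K) (hq : 11 ≤ q)
    (h2 : 2 ∣ n) {Y : AddSubgroup (ZMod m → ℤ)}
    (R3 : q ≤ 19 → ∀ b : ZMod n, addOrderOf b = 3 → ∃ A, Ref hD K Y b 2 A)
    (R4 : q ≤ 13 → ∀ b : ZMod n, addOrderOf b = 4 → ∃ A, Ref hD K Y b 2 A)
    {F : ZMod m → ℤ} (ho : OddF F) (hT : TateF F) (hN : ∑ a, |F a| ≤ 12) :
    ∃ b : ZMod n,
      (∀ t : (ZMod n)ˣ, PH (push hD (upF Q q K (part1 q F))) t = Q.totient * W t b) ∧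
      ((∃ (N' : ℤ) (A : ZMod m → ℤ), Ref hD K Y b N' A ∧ ∑ a, |part0 q F a| + N' ≤ 12) ∨
        (q = 11 ∧ addOrderOf b = 10)) := by
  obtain ⟨b, hord, hb, hZ, _⟩ := exists_point hD hQ hq h2 ho hT hN
  have hs1 : ∀ a, part1 q F a ≠ 0 → q ∣ addOrderOf a := fun a ha => (part1_supp ha).1
  have hnorm := part_norm (q := q) F
  set N0 := ∑ a, |part0 q F a| with hN0
  set N1 := ∑ a, |part1 q F a| with hN1
  have hN0' : 0 ≤ N0 := sum_nonneg fun _ _ => abs_nonneg _
  have hN1' : 0 ≤ N1 := sum_nonneg fun _ _ => abs_nonneg _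
  have hq' : (11 : ℤ) ≤ q := by exact_mod_cast hq
  have hlow : ∀ c : ℕ, ((c : ℕ) : ZMod n) * b = 0 → addOrderOf b ∣ c := by
    intro c hc
    rw [addOrderOf_dvd_iff_nsmul_eq_zero, nsmul_eq_mul]
    exact hc
  refine ⟨b, hb, ?_⟩
  rcases hord with h | h | h | h | h | h
  · left
    exact ⟨0, 0, Ref.zero hD (W_two h), by linarith⟩
  · left
    have h1 := func_three hb h
    have h3 := q_bound hD hQ hs1 (c := 2) (e := 1) (by norm_num) (by norm_num)
      (by rw [one_mul]; exact h1)
    rw [← hN1] at h3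
    have h4 : (q : ℤ) < 26 := by linarith
    have h5 : q < 26 := by exact_mod_cast h4
    have h6 := prime_cases hD.hq hq (by omega)
    have h19 : q ≤ 19 := by
      by_contra hc
      have h7 : q = 23 := by omega
      have h8 : (q : ℤ) = 23 := by exact_mod_cast h7
      rw [h8] at h3
      have h9 := hlow _ (hZ (by linarith))
      rw [h, h7] at h9
      norm_num at h9
    obtain ⟨A, hA⟩ := R3 h19 b h
    exact ⟨2, A, hA, by linarith⟩
  · left
    have h1 := func_four hb h
    have h3 := q_bound hD hQ hs1 (c := 1) (e := 1) (by norm_num) (by norm_num)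
      (by rw [one_mul, one_mul]; exact h1)
    rw [← hN1] at h3
    have h4 : (q : ℤ) < 14 := by linarith
    have h5 : q < 14 := by exact_mod_cast h4
    obtain ⟨A, hA⟩ := R4 (by omega) b h
    exact ⟨2, A, hA, by linarith⟩
  · left
    have ho3 : addOrderOf (((2 : ℕ) : ZMod n) * b) = 3 := by
      rw [addOrderOf_natCast_mul (by norm_num) (by rw [h]; norm_num), h]
    have h1 := func_three (h := push hD (upF Q q K (part1 q F))) (C := 2 * Q.totient)
      (b := ((2 : ℕ) : ZMod n) * b) (fun t => by rw [hb, W_six h]; ring) ho3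
    have h3 := q_bound hD hQ hs1 (c := 2) (e := 2) (by norm_num) (by norm_num) h1
    rw [← hN1] at h3
    have h4 : (q : ℤ) < 14 := by linarith
    have h5 : q < 14 := by exact_mod_cast h4
    obtain ⟨A, hA⟩ := R3 (by omega) _ ho3
    exact ⟨2 + 2, A + A, Ref.add hD hA hA (W_six h), by linarith⟩
  · have h1 := func_ten hb h
    have h3 := q_bound hD hQ hs1 (c := 1) (e := 1) (by norm_num) (by norm_num)
      (by rw [one_mul, one_mul]; exact h1)
    rw [← hN1] at h3
    have h4 : (q : ℤ) < 14 := by linarith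
    have h5 : q < 14 := by exact_mod_cast h4
    have h6 := prime_cases hD.hq hq (by omega)
    right
    refine ⟨?_, h⟩
    by_contra hc
    have h7 : q = 13 := by omega
    have h8 : (q : ℤ) = 13 := by exact_mod_cast h7
    rw [h8] at h3
    have h9 := hlow _ (hZ (by linarith))
    rw [h, h7] at h9
    norm_num at h9
  · left
    have ho3 : addOrderOf (((4 : ℕ) : ZMod n) * b) = 3 := by
      rw [addOrderOf_natCast_mul (by norm_num) (by rw [h]; norm_num), h]
    have ho4 : addOrderOf (((3 : ℕ) : ZMod n) * b) = 4 := by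
      rw [addOrderOf_natCast_mul (by norm_num) (by rw [h]; norm_num), h]
    have h1 := func_twelve hb h
    have h3 := q_bound hD hQ hs1 (c := 1) (e := 1) (by norm_num) (by norm_num)
      (by rw [one_mul, one_mul]; exact h1)
    rw [← hN1] at h3
    have h4 : (q : ℤ) < 14 := by linarith
    have h5 : q < 14 := by exact_mod_cast h4
    obtain ⟨A, hA⟩ := R3 (by omega) _ ho3
    obtain ⟨A', hA'⟩ := R4 (by omega) _ ho4
    exact ⟨2 + 2, A + A', Ref.add hD hA hA' (W_twelve h), by linarith⟩

/-- the exceptional case does not occur if the orders divide a number not divisible by `110` -/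
theorem no_ten (hD : Dat m Q n q) [NeZero n] {K : ℕ} (hQ : Q = q ^ K) (hq : q = 11)
    {F : ZMod m → ℤ} (hN : ∑ a, |F a| ≤ 12) {b : ZMod n} (hb10 : addOrderOf b = 10)
    (hb : ∀ t : (ZMod n)ˣ, PH (push hD (upF Q q K (part1 q F))) t = Q.totient * W t b)
    {m0 : ℕ} (h110 : ¬ 110 ∣ m0) (hs : ∀ a, F a ≠ 0 → addOrderOf a ∣ m0) : False := by
  have hs1 : ∀ a, part1 q F a ≠ 0 → q ∣ addOrderOf a := fun a ha => (part1_supp ha).1
  have hnorm := part_norm (q := q) F
  set N0 := ∑ a, |part0 q F a| with hN0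
  set N1 := ∑ a, |part1 q F a| with hN1
  have hN0' : 0 ≤ N0 := sum_nonneg fun _ _ => abs_nonneg _
  have hqz : (q : ℤ) = 11 := by exact_mod_cast hq
  have h1 := func_ten hb hb10
  have h3 := q_bound hD hQ hs1 (c := 1) (e := 1) (by norm_num) (by norm_num)
      (by rw [one_mul, one_mul]; exact h1)
  rw [← hN1, hqz] at h3
  -- `11` divides `m0`
  have h11 : 11 ∣ m0 := by
    have h4 : N1 ≠ 0 := by
      intro h
      rw [h] at h3
      norm_num at h3
    obtain ⟨a, _, ha⟩ := exists_ne_zero_of_sum_ne_zero h4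
    have ha' : part1 q F a ≠ 0 := fun h => ha (by rw [h, abs_zero])
    have h5 := part1_supp ha'
    rw [hq] at h5
    exact h5.1.trans (hs a h5.2)
  -- the orders in the support of the push-forward
  set h := push hD (upF Q q K (part1 q F)) with hh
  have hup : ∀ y, h y ≠ 0 → ∀ p : ℕ, p.Prime → p ≠ q → ¬ p ∣ m0 → ¬ p ∣ addOrderOf y := by
    intro y hy p hp hpq hpm0 hpy
    haveI : NeZero Q := ⟨hD.Qpos.ne'⟩
    obtain ⟨x, _, hx⟩ := exists_ne_zero_of_sum_ne_zero (show ∑ x : ZMod Q, upF Q q K (part1 q F)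
      (hD.crt.symm (x, y)) ≠ 0 from hy)
    set a := hD.crt.symm (x, y) with ha
    unfold upF at hx
    split_ifs at hx with hQa
    · obtain ⟨j, _, hj⟩ := exists_ne_zero_of_sum_ne_zero hx
      have h5 := (part1_supp hj).2
      have h6 := hs _ h5
      -- the order of `q ^ j a` is divisible by `p`
      have h7 : addOrderOf y ∣ addOrderOf a := by
        have h8 : y = (hD.crt a).2 := by rw [ha, RingEquiv.apply_symm_apply]
        have h9 : y = ((RingHom.snd (ZMod Q) (ZMod n)).comp (hD.crt : ZMod m →+* ZMod Q × ZMod n)) a := h8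
        rw [h9]
        exact addOrderOf_map_dvd (((RingHom.snd (ZMod Q) (ZMod n)).comp
          (hD.crt : ZMod m →+* ZMod Q × ZMod n)) : ZMod m →+ ZMod n) a
      have h8 : addOrderOf a ∣ q ^ j * addOrderOf ((q : ZMod m) ^ j * a) := by
        apply addOrderOf_dvd_of_nsmul_eq_zero
        have h9 := addOrderOf_nsmul_eq_zero ((q : ZMod m) ^ j * a)
        rw [nsmul_eq_mul] at h9 ⊢
        push_cast
        linear_combination h9
      have h9 : p ∣ q ^ j * addOrderOf ((q : ZMod m) ^ j * a) := (hpy.trans h7).trans h8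
      rcases hp.dvd_mul.mp h9 with h10 | h10
      · exact hpq ((Nat.prime_dvd_prime_iff_eq hp hD.hq).mp (hp.dvd_of_dvd_pow h10))
      · exact hpm0 (h10.trans h6)
    · exact absurd rfl hx
  by_cases h5 : 5 ∣ m0
  · have h2m : ¬ 2 ∣ m0 := by
      intro h2
      apply h110
      have e1 : 10 ∣ m0 := by
        have : Nat.Coprime 2 5 := by norm_num
        exact this.mul_dvd_of_dvd_of_dvd h2 h5
      have e2 : Nat.Coprime 10 11 := by norm_num
      exact e2.mul_dvd_of_dvd_of_dvd e1 h11
    have h6 := func_ten_odd hb hb10 (fun a ha => by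
      rw [← Nat.not_even_iff_odd, even_iff_two_dvd]
      exact hup a ha 2 Nat.prime_two (by omega) h2m)
    have h7 := push_norm hD (upF Q q K (part1 q F))
    have h8 := upF_norm hD hQ (part1 q F) hs1
    have hN1' : N1 ≤ 12 := by linarith
    rw [← hh] at h7
    have h9 : ∑ a, |h a| ≤ (11 : ℤ) ^ (K - 1) * 12 := by
      have h10 : (q : ℤ) ^ (K - 1) * N1 ≤ (11 : ℤ) ^ (K - 1) * 12 := by
        rw [hqz]
        exact mul_le_mul_of_nonneg_left hN1' (by positivity)
      linarith
    have h10 : 0 ≤ ∑ a, |h a| := sum_nonneg fun _ _ => abs_nonneg _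
    have h11 : (∑ a, |h a|) ^ 2 ≤ ((11 : ℤ) ^ (K - 1) * 12) ^ 2 := pow_le_pow_left₀ h10 h9 2
    rw [tot_eq hD hQ, hqz] at h6
    have h12 : (0 : ℤ) < ((11 : ℤ) ^ (K - 1)) ^ 2 := by positivity
    nlinarith
  · -- a unit congruent to one modulo the part prime to five
    have hn0 : n ≠ 0 := NeZero.ne n
    have hord5 : ∀ y, h y ≠ 0 → ¬ 5 ∣ addOrderOf y := fun y hy =>
      hup y hy 5 Nat.prime_five (by omega) h5
    have h10n : 10 ∣ n := hb10 ▸ addOrderOf_dvd_m b
    have h5n : 5 ∣ n := (by norm_num : 5 ∣ 10).trans h10n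
    set n5 := 5 ^ n.factorization 5 with hn5
    set n' := n / 5 ^ n.factorization 5 with hn'
    have hnn : n5 * n' = n := Nat.ordProj_mul_ordCompl_eq_self n 5
    have hcop' : Nat.Coprime 5 n' := Nat.coprime_ordCompl Nat.prime_five hn0
    have hcop : Nat.Coprime n5 n' := Nat.Coprime.pow_left _ hcop'
    haveI : NeZero n5 := ⟨by positivity⟩
    have hn'0 : n' ≠ 0 := by
      intro h
      rw [h, mul_zero] at hnn
      exact hn0 hnn.symm
    haveI : NeZero n' := ⟨hn'0⟩
    obtain ⟨t, ht1, ht2⟩ := exists_lift2 hn0 hnn.symm hcop (Dvd.intro n' hnn)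
      (Dvd.intro_left n5 hnn) (-1 : (ZMod n5)ˣ) (1 : (ZMod n')ˣ)
    -- `t` fixes the support
    have hfix : ∀ y, h y ≠ 0 → (t : ZMod n) * y = y := by
      intro y hy
      have h6 : addOrderOf y ∣ n' := by
        have h7 : addOrderOf y ∣ n5 * n' := (addOrderOf_dvd_m y).trans (dvd_of_eq hnn.symm)
        have h8 : Nat.Coprime (addOrderOf y) n5 :=
          Nat.Coprime.pow_right _ ((Nat.Prime.coprime_iff_not_dvd Nat.prime_five).mpr
            (hord5 y hy)).symm
        exact h8.dvd_of_dvd_mul_left h7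
      have hd := addOrderOf_dvd_m y
      obtain ⟨u, hu⟩ := exists_unit_of_order hd (a := y) rfl
      rw [← hu, jj_mul]
      congr 1
      have h7 : ZMod.castHom hd (ZMod (addOrderOf y)) (t : ZMod n) = 1 := by
        have h8 : ZMod.castHom (Dvd.intro_left n5 hnn : n' ∣ n) (ZMod n') (t : ZMod n) = 1 := by
          have := congrArg Units.val ht2
          rw [ZMod.unitsMap_val, Units.val_one] at this
          exact this
        have h9 : ZMod.castHom hd (ZMod (addOrderOf y)) (t : ZMod n)
            = ZMod.castHom h6 (ZMod (addOrderOf y)) (ZMod.castHom (Dvd.intro_left n5 hnn : n' ∣ n)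
              (ZMod n') (t : ZMod n)) := by
          have := RingHom.ext_iff.mp (RingHom.ext_zmod (ZMod.castHom hd (ZMod (addOrderOf y)))
            ((ZMod.castHom h6 (ZMod (addOrderOf y))).comp
              (ZMod.castHom (Dvd.intro_left n5 hnn : n' ∣ n) (ZMod n')))) (t : ZMod n)
          exact this
        rw [h9, h8, map_one]
      rw [h7, one_mul]
    have h6 : PH h t = PH h 1 := by
      rw [PH_eq, PH_eq]
      refine sum_congr rfl fun y _ => ?_
      by_cases hy : h y = 0
      · rw [hy, zero_mul, zero_mul]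
      · congr 1
        unfold W
        rw [hfix y hy, Units.val_one, one_mul]
    rw [hb, hb] at h6
    have hQ0 : (Q.totient : ℤ) ≠ 0 := by
      exact_mod_cast (Nat.totient_pos.mpr hD.Qpos).ne'
    have h7 := mul_left_cancel₀ hQ0 h6
    have hb0 : b ≠ 0 := by
      intro h0
      rw [h0, addOrderOf_zero] at hb10
      norm_num at hb10
    have h8 := eq_of_W hb0 h7
    rw [Units.val_one, one_mul] at h8
    -- `5` divides `t - 1` and `t + 1`
    have h9 : ZMod.castHom h5n (ZMod 5) (t : ZMod n) = 1 := by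
      have hd : 10 ∣ n := h10n
      obtain ⟨u, hu⟩ := exists_unit_of_order hd hb10
      rw [← hu, jj_mul] at h8
      have h9 := jj_injective hd h8
      have h10 : ZMod.castHom hd (ZMod 10) (t : ZMod n) = 1 := by
        have := congrArg (fun z => z * ((u⁻¹ : (ZMod 10)ˣ) : ZMod 10)) h9
        simp only [mul_assoc] at this
        rwa [Units.mul_inv, mul_one] at this
      have h11 := RingHom.ext_iff.mp (RingHom.ext_zmod (ZMod.castHom h5n (ZMod 5))
        ((ZMod.castHom (by norm_num : 5 ∣ 10) (ZMod 5)).comp (ZMod.castHom hd (ZMod 10)))) (t : ZMod n)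
      rw [h11, RingHom.comp_apply, h10, map_one]
    have h10 : ZMod.castHom h5n (ZMod 5) (t : ZMod n) = -1 := by
      have h5n5 : 5 ∣ n5 := by
        rw [hn5]
        apply dvd_pow_self
        have := (Nat.prime_five.dvd_iff_one_le_factorization hn0).mp h5n
        omega
      have h11 := RingHom.ext_iff.mp (RingHom.ext_zmod (ZMod.castHom h5n (ZMod 5))
        ((ZMod.castHom h5n5 (ZMod 5)).comp (ZMod.castHom (Dvd.intro n' hnn : n5 ∣ n) (ZMod n5))))
          (t : ZMod n)
      have h12 : ZMod.castHom (Dvd.intro n' hnn : n5 ∣ n) (ZMod n5) (t : ZMod n) = -1 := by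
        have := congrArg Units.val ht1
        rw [ZMod.unitsMap_val, Units.val_neg, Units.val_one] at this
        exact this
      rw [h11, RingHom.comp_apply, h12, map_neg, map_one]
    rw [h9] at h10
    exact absurd h10 (by decide)

end Pool.Agent.Lib.MP_938ce2_ag_H7f
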