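import Pool.Agent.Lib.MP_938ce2_ag_H7f.Step2

/-!
One prime, for functions of arbitrary norm.
-/

set_option autoImplicit false
set_option linter.style.haveILetI false
set_option linter.unusedSectionVars false

open Finset

namespace Pool.Agent.Lib.MP_938ce2_ag_H7f

open Pool.Agent.Lib.MP_938ce2_ag_h99 Pool.Agent.Lib.MP_938ce2_ag_H7e

variable {m Q n q : ℕ} [NeZero m]

/-- the point `b`, for functions of norm at most `q - 1` -/
theorem exists_point_gen (hD : Dat m Q n q) [NeZero n] {K : ℕ} (hQ : Q = q ^ K)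
    (h2 : 2 ∣ n) {F : ZMod m → ℤ} (ho : OddF F) (hT : TateF F)
    (hN : ∑ a, |part1 q F a| ≤ q - 1) :
    ∃ b : ZMod n, b ≠ 0 ∧ (addOrderOf b = 2 ∨ addOrderOf b = 3 ∨ addOrderOf b = 4 ∨
      addOrderOf b = 6 ∨ addOrderOf b = 10 ∨ addOrderOf b = 12) ∧
      (∀ t : (ZMod n)ˣ, PH (push hD (upF Q q K (part1 q F))) t = Q.totient * W t b) ∧
      (part0 q F = 0 → ((q - 1 : ℕ) : ZMod n) * b = 0) := by
  have hn0 : 0 < n := Nat.pos_of_ne_zero (NeZero.ne n)
  have hn2 : 2 ≤ n := Nat.le_of_dvd hn0 h2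
  have hn2' : (2 : ℤ) ≤ n := by exact_mod_cast hn2
  have hq' : (2 : ℤ) ≤ q := by exact_mod_cast hD.hq.two_le
  have hs1 : ∀ a, part1 q F a ≠ 0 → q ∣ addOrderOf a := fun a ha => (part1_supp ha).1
  obtain ⟨hS, g, hEv, hg, hZ⟩ := core hD hQ (part1_odd ho) (F0 := part0 q F) (F1 := part1 q F)
    (by rw [part_add]; exact hT) (fun a ha => dvd_n_of_not_dvd hD (part0_supp ha).1) hs1
  have hbound := g_bound hD hn2 hQ hs1 hg
  have hlt : ∀ t : (ZMod n)ˣ, |PH g t| < n := by
    intro t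
    have h1 := hbound t
    have h3 : (q - 1 : ℤ) * |PH g t| ≤ (q - 1) * (n - 2) := by
      have := mul_le_mul_of_nonneg_left hN (by linarith : (0 : ℤ) ≤ n - 2)
      linarith
    have h4 := le_of_mul_le_mul_left h3 (by linarith)
    linarith
  obtain ⟨b, hb0, hb⟩ := exists_b h2 g hlt
  refine ⟨b, hb0, parity hEv hb0 hb, fun t => by rw [hg, hb], ?_⟩
  intro h1
  have hcop : Nat.Coprime q n := by
    obtain ⟨k, hk, hQ'⟩ := hD.hQ
    have h1 := hD.hcop
    rw [hQ'] at h1
    exact Nat.Coprime.coprime_dvd_left (dvd_pow_self q hk) h1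
  have h3 := hZ h1 (ZMod.unitOfCoprime q hcop) 1 (ZMod.coe_unitOfCoprime q hcop)
  rw [mul_one, hb, hb] at h3
  have h4 := eq_of_W hb0 h3
  rw [ZMod.coe_unitOfCoprime, Units.val_one, one_mul] at h4
  rw [Nat.cast_sub hD.hq.one_lt.le, Nat.cast_one, sub_mul, h4, one_mul, sub_self]

/-- functions whose push-forward vanishes -/
theorem part1_mem (hD : Dat m Q n q) [NeZero n] {K : ℕ} (hQ : Q = q ^ K) (h2Q : 2 < Q)
    {F : ZMod m → ℤ} (ho : OddF F) (hT : TateF F)
    (hb : ∀ t : (ZMod n)ˣ, PH (push hD (upF Q q K (part1 q F))) t = 0) :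
    part1 q F ∈ relSub m := by
  have hs1 : ∀ a, part1 q F a ≠ 0 → q ∣ addOrderOf a := fun a ha => (part1_supp ha).1
  have hcoreF := core hD hQ (part1_odd ho) (F0 := part0 q F) (F1 := part1 q F)
    (by rw [part_add]; exact hT) (fun a ha => dvd_n_of_not_dvd hD (part0_supp ha).1) hs1
  have hodd : OddF (upF Q q K (part1 q F)) := upF_odd (part1_odd ho)
  have hP : TateF (push hD (upF Q q K (part1 q F))) := by
    intro t
    have h1 := hb t
    rw [PH_odd (push_odd hD hodd)] at h1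
    have h2 : SS (push hD (upF Q q K (part1 q F))) t = 0 := by linarith
    exact h2
  have hmem : upF Q q K (part1 q F) ∈ relSub m :=
    peel2_aux hD h2Q m _ hodd hcoreF.1 hP upF_supp
      (fun a _ => Nat.le_of_dvd (Nat.pos_of_ne_zero (NeZero.ne m)) (addOrderOf_dvd_m a))
  have hmem2 := upF_sub_mem hD hQ (part1_odd ho) hs1
  have := (relSub m).sub_mem hmem hmem2
  rwa [sub_sub_cancel] at this

/-- One prime: a function of norm less than `q - 1` on the part of order divisible by `q`. -/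
theorem step_gen (hD : Dat m Q n q) [NeZero n] {K : ℕ} (hQ : Q = q ^ K) (h2Q : 2 < Q)
    (h2 : 2 ∣ n) {F : ZMod m → ℤ} (ho : OddF F) (hT : TateF F)
    (hN : ∑ a, |part1 q F a| < q - 1) :
    part1 q F ∈ relSub m ∨ ∃ b : ZMod n, addOrderOf b = 3 ∧
      (q : ℤ) - 1 ≤ 2 * ∑ a, |part1 q F a| ∧
      ∀ t : (ZMod n)ˣ, PH (push hD (upF Q q K (part1 q F))) t = Q.totient * W t b := by
  obtain ⟨b, _, hord, hb, _⟩ := exists_point_gen hD hQ h2 ho hT hN.le
  have hs1 : ∀ a, part1 q F a ≠ 0 → q ∣ addOrderOf a := fun a ha => (part1_supp ha).1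
  rcases hord with h | h | h | h | h | h
  · left
    exact part1_mem hD hQ h2Q ho hT (fun t => by rw [hb, W_two h, mul_zero])
  · right
    have h1 := func_three hb h
    have h3 := q_bound hD hQ hs1 (c := 2) (e := 1) (by norm_num) (by norm_num)
      (by rw [one_mul]; exact h1)
    exact ⟨b, h, by linarith, hb⟩
  · exfalso
    have h1 := func_four hb h
    have h3 := q_bound hD hQ hs1 (c := 1) (e := 1) (by norm_num) (by norm_num)
      (by rw [one_mul, one_mul]; exact h1)
    linarith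
  · exfalso
    have ho3 : addOrderOf (((2 : ℕ) : ZMod n) * b) = 3 := by
      rw [addOrderOf_natCast_mul (by norm_num) (by rw [h]; norm_num), h]
    have h1 := func_three (h := push hD (upF Q q K (part1 q F))) (C := 2 * Q.totient)
      (b := ((2 : ℕ) : ZMod n) * b) (fun t => by rw [hb, W_six h]; ring) ho3
    have h3 := q_bound hD hQ hs1 (c := 2) (e := 2) (by norm_num) (by norm_num) h1
    linarith
  · exfalso
    have h1 := func_ten hb h
    have h3 := q_bound hD hQ hs1 (c := 1) (e := 1) (by norm_num) (by norm_num)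
      (by rw [one_mul, one_mul]; exact h1)
    linarith
  · exfalso
    have h1 := func_twelve hb h
    have h3 := q_bound hD hQ hs1 (c := 1) (e := 1) (by norm_num) (by norm_num)
      (by rw [one_mul, one_mul]; exact h1)
    linarith

/-- the support of the push-forward -/
theorem push_supp_dvd (hD : Dat m Q n q) [NeZero n] {K : ℕ} {F : ZMod m → ℤ}
    {m0 : ℕ} (hs : ∀ a, F a ≠ 0 → addOrderOf a ∣ m0) {y : ZMod n}
    (hy : push hD (upF Q q K (part1 q F)) y ≠ 0) {p : ℕ} (hp : p.Prime) (hpq : p ≠ q)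
    (hpm0 : ¬ p ∣ m0) : ¬ p ∣ addOrderOf y := by
  intro hpy
  haveI : NeZero Q := ⟨hD.Qpos.ne'⟩
  obtain ⟨x, _, hx⟩ := exists_ne_zero_of_sum_ne_zero (show ∑ x : ZMod Q, upF Q q K (part1 q F)
    (hD.crt.symm (x, y)) ≠ 0 from hy)
  set a := hD.crt.symm (x, y) with ha
  unfold upF at hx
  split_ifs at hx with hQa
  · obtain ⟨j, _, hj⟩ := exists_ne_zero_of_sum_ne_zero hx
    have h5 := (part1_supp hj).2
    have h6 := hs _ h5
    have h7 : addOrderOf y ∣ addOrderOf a := by
      have h8 : y = (hD.crt a).2 := by rw [ha, RingEquiv.apply_symm_apply]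
      have h9 : y = ((RingHom.snd (ZMod Q) (ZMod n)).comp
        (hD.crt : ZMod m →+* ZMod Q × ZMod n)) a := h8
      rw [h9]
      exact addOrderOf_map_dvd (((RingHom.snd (ZMod Q) (ZMod n)).comp
        (hD.crt : ZMod m →+* ZMod Q × ZMod n)) : ZMod m →+ ZMod n) a
    have h8 : addOrderOf a ∣ q ^ j * addOrderOf ((q : ZMod m) ^ j * a) := by
      apply addOrderOf_dvd_of_nsmul_eq_zero
      have h9 := addOrderOf_nsmul_eq_zero ((q : ZMod m) ^ j * a)
      rw [nsmul_eq_mul] at h9 ⊢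
      push_cast
      linear_combination h9
    have h9 : p ∣ q ^ j * addOrderOf ((q : ZMod m) ^ j * a) := (hpy.trans h7).trans h8
    rcases hp.dvd_mul.mp h9 with h10 | h10
    · exact hpq ((Nat.prime_dvd_prime_iff_eq hp hD.hq).mp (hp.dvd_of_dvd_pow h10))
    · exact hpm0 (h10.trans h6)
  · exact absurd rfl hx

/-- an odd prime dividing the order of `b` divides the orders in the support of `F` -/
theorem no_prime (hD : Dat m Q n q) [NeZero n] {K : ℕ} {F : ZMod m → ℤ} {b : ZMod n}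
    (hb : ∀ t : (ZMod n)ˣ, PH (push hD (upF Q q K (part1 q F))) t = Q.totient * W t b)
    {m0 : ℕ} (hs : ∀ a, F a ≠ 0 → addOrderOf a ∣ m0) {p : ℕ} (hp : p.Prime) (hp2 : p ≠ 2)
    (hpq : p ≠ q) (hpm0 : ¬ p ∣ m0) : ¬ p ∣ addOrderOf b := by
  intro hpb
  set h := push hD (upF Q q K (part1 q F)) with hh
  have hn0 : n ≠ 0 := NeZero.ne n
  have hord : ∀ y, h y ≠ 0 → ¬ p ∣ addOrderOf y := fun y hy => push_supp_dvd hD hs hy hp hpq hpm0
  have hpn : p ∣ n := hpb.trans (addOrderOf_dvd_m b)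
  set n5 := p ^ n.factorization p with hn5
  set n' := n / p ^ n.factorization p with hn'
  have hnn : n5 * n' = n := Nat.ordProj_mul_ordCompl_eq_self n p
  have hcop' : Nat.Coprime p n' := Nat.coprime_ordCompl hp hn0
  have hcop : Nat.Coprime n5 n' := Nat.Coprime.pow_left _ hcop'
  haveI : NeZero n5 := ⟨pow_ne_zero _ hp.ne_zero⟩
  have hn'0 : n' ≠ 0 := by
    intro h
    rw [h, mul_zero] at hnn
    exact hn0 hnn.symm
  haveI : NeZero n' := ⟨hn'0⟩
  obtain ⟨t, ht1, ht2⟩ := exists_lift2 hn0 hnn.symm hcop (Dvd.intro n' hnn)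
    (Dvd.intro_left n5 hnn) (-1 : (ZMod n5)ˣ) (1 : (ZMod n')ˣ)
  have hfix : ∀ y, h y ≠ 0 → (t : ZMod n) * y = y := by
    intro y hy
    have h6 : addOrderOf y ∣ n' := by
      have h7 : addOrderOf y ∣ n5 * n' := (addOrderOf_dvd_m y).trans (dvd_of_eq hnn.symm)
      have h8 : Nat.Coprime (addOrderOf y) n5 :=
        Nat.Coprime.pow_right _ ((Nat.Prime.coprime_iff_not_dvd hp).mpr (hord y hy)).symm
      exact h8.dvd_of_dvd_mul_left h7
    have hd := addOrderOf_dvd_m y
    obtain ⟨u, hu⟩ := exists_unit_of_order hd (a := y) rfl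
    rw [← hu, jj_mul]
    congr 1
    have h7 : ZMod.castHom hd (ZMod (addOrderOf y)) (t : ZMod n) = 1 := by
      have h8 : ZMod.castHom (Dvd.intro_left n5 hnn : n' ∣ n) (ZMod n') (t : ZMod n) = 1 := by
        have := congrArg Units.val ht2
        rw [ZMod.unitsMap_val, Units.val_one] at this
        exact this
      have h9 : ZMod.castHom hd (ZMod (addOrderOf y)) (t : ZMod n)
          = ZMod.castHom h6 (ZMod (addOrderOf y)) (ZMod.castHom (Dvd.intro_left n5 hnn : n' ∣ n)
            (ZMod n') (t : ZMod n)) := by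
        have := RingHom.ext_iff.mp (RingHom.ext_zmod (ZMod.castHom hd (ZMod (addOrderOf y)))
          ((ZMod.castHom h6 (ZMod (addOrderOf y))).comp
            (ZMod.castHom (Dvd.intro_left n5 hnn : n' ∣ n) (ZMod n')))) (t : ZMod n)
        exact this
      rw [h9, h8, map_one]
    rw [h7, one_mul]
  have h6 : PH h t = PH h 1 := by
    rw [PH_eq, PH_eq]
    refine sum_congr rfl fun y _ => ?_
    by_cases hy : h y = 0
    · rw [hy, zero_mul, zero_mul]
    · congr 1
      unfold W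
      rw [hfix y hy, Units.val_one, one_mul]
  rw [hb, hb] at h6
  have hQ0 : (Q.totient : ℤ) ≠ 0 := by
    exact_mod_cast (Nat.totient_pos.mpr hD.Qpos).ne'
  have h7 := mul_left_cancel₀ hQ0 h6
  have hb0 : b ≠ 0 := by
    intro h0
    rw [h0, addOrderOf_zero] at hpb
    exact hp.one_lt.ne' (Nat.dvd_one.mp hpb)
  have h8 := eq_of_W hb0 h7
  rw [Units.val_one, one_mul] at h8
  -- `p` divides `t - 1` and `t + 1`
  have h9 : ZMod.castHom hpn (ZMod p) (t : ZMod n) = 1 := by
    have hd := addOrderOf_dvd_m b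
    haveI : NeZero (addOrderOf b) := ⟨(order_pos b).ne'⟩
    obtain ⟨u, hu⟩ := exists_unit_of_order hd (a := b) rfl
    rw [← hu, jj_mul] at h8
    have h9 := jj_injective hd h8
    have h10 : ZMod.castHom hd (ZMod (addOrderOf b)) (t : ZMod n) = 1 := by
      have := congrArg (fun z => z * ((u⁻¹ : (ZMod (addOrderOf b))ˣ) : ZMod (addOrderOf b))) h9
      simp only [mul_assoc] at this
      rwa [Units.mul_inv, mul_one] at this
    have h11 := RingHom.ext_iff.mp (RingHom.ext_zmod (ZMod.castHom hpn (ZMod p))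
      ((ZMod.castHom hpb (ZMod p)).comp (ZMod.castHom hd (ZMod (addOrderOf b))))) (t : ZMod n)
    rw [h11, RingHom.comp_apply, h10, map_one]
  have h10 : ZMod.castHom hpn (ZMod p) (t : ZMod n) = -1 := by
    have h5n5 : p ∣ n5 := by
      rw [hn5]
      apply dvd_pow_self
      have := (hp.dvd_iff_one_le_factorization hn0).mp hpn
      omega
    have h11 := RingHom.ext_iff.mp (RingHom.ext_zmod (ZMod.castHom hpn (ZMod p))
      ((ZMod.castHom h5n5 (ZMod p)).comp (ZMod.castHom (Dvd.intro n' hnn : n5 ∣ n) (ZMod n5))))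
        (t : ZMod n)
    have h12 : ZMod.castHom (Dvd.intro n' hnn : n5 ∣ n) (ZMod n5) (t : ZMod n) = -1 := by
      have := congrArg Units.val ht1
      rw [ZMod.unitsMap_val, Units.val_neg, Units.val_one] at this
      exact this
    rw [h11, RingHom.comp_apply, h12, map_neg, map_one]
  rw [h9] at h10
  have h11 : ((2 : ℕ) : ZMod p) = 0 := by
    push_cast
    linear_combination h10
  rw [ZMod.natCast_eq_zero_iff] at h11
  exact hp2 ((Nat.prime_dvd_prime_iff_eq hp Nat.prime_two).mp h11)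

end Pool.Agent.Lib.MP_938ce2_ag_H7f
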