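import Pool.Agent.Lib.MP_938ce2_ag_H7e.SplitQ

/-!
Explicit push-up to the top level at `q`.
-/

set_option autoImplicit false
set_option linter.style.haveILetI false
set_option linter.unusedSectionVars false

open Finset

namespace Pool.Agent.Lib.MP_938ce2_ag_H7f

open Pool.Agent.Lib.MP_938ce2_ag_h99 Pool.Agent.Lib.MP_938ce2_ag_H7e

variable {m Q n q : ℕ} [NeZero m]

/-- the explicit push-up -/
noncomputable def upF (Q q K : ℕ) (F : ZMod m → ℤ) : ZMod m → ℤ := fun b =>
  by classical exact if Q ∣ addOrderOf b then ∑ j ∈ range K, F ((q : ZMod m) ^ j * b) else 0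

lemma upF_supp {K : ℕ} {F : ZMod m → ℤ} : ∀ b, upF Q q K F b ≠ 0 → Q ∣ addOrderOf b := by
  intro b hb
  by_contra h
  apply hb
  unfold upF
  rw [if_neg h]

lemma upF_odd {K : ℕ} {F : ZMod m → ℤ} (ho : OddF F) : OddF (upF Q q K F) := by
  intro b
  unfold upF
  rw [addOrderOf_neg]
  split_ifs with h
  · rw [← sum_neg_distrib]
    refine sum_congr rfl fun j _ => ?_
    rw [mul_neg, ho]
  · simp

lemma upF_sub {K : ℕ} (F G : ZMod m → ℤ) : upF Q q K (F - G) = upF Q q K F - upF Q q K G := by
  funext b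
  unfold upF
  rw [Pi.sub_apply]
  split_ifs with h
  · rw [← sum_sub_distrib]
    rfl
  · simp

/-- after `K` multiplications by `q` the order is prime to `q` -/
lemma not_dvd_pow_mul (hD : Dat m Q n q) {K : ℕ} (hQ : Q = q ^ K) (b : ZMod m) :
    ¬ q ∣ addOrderOf ((q : ZMod m) ^ K * b) := by
  intro h
  have h1 : addOrderOf ((q : ZMod m) ^ K * b) ∣ n := by
    apply addOrderOf_dvd_of_nsmul_eq_zero
    rw [nsmul_eq_mul, ← mul_assoc, ← Nat.cast_pow, ← hQ, ← Nat.cast_mul, mul_comm n Q, ← hD.hm,
      ZMod.natCast_self, zero_mul]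
  have h2 : q ∣ 1 := by
    have := Nat.dvd_gcd hD.qQ (h.trans h1)
    rwa [hD.hcop.gcd_eq_one] at this
  exact hD.hq.one_lt.ne' (Nat.dvd_one.mp h2)

lemma not_Q_dvd_mul (hD : Dat m Q n q) (b : ZMod m) : ¬ Q ∣ addOrderOf ((q : ZMod m) * b) := by
  intro h
  have h1 := coprime_val hD h
  have hqm : q ∣ m := hD.qQ.trans hD.Qm
  have h2 : q ∣ ((q : ZMod m) * b).val := (exists_mul_iff hqm _).mp ⟨b, rfl⟩
  have h3 : q ∣ 1 := by
    have := Nat.dvd_gcd hD.qQ h2
    rwa [h1.gcd_eq_one] at this
  exact hD.hq.one_lt.ne' (Nat.dvd_one.mp h3)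

lemma upF_sub_mem (hD : Dat m Q n q) {K : ℕ} (hQ : Q = q ^ K) {F : ZMod m → ℤ} (ho : OddF F)
    (hs : ∀ a, F a ≠ 0 → q ∣ addOrderOf a) : upF Q q K F - F ∈ relSub m := by
  classical
  set h : ZMod m → ℤ := fun a => if Q ∣ addOrderOf a then 0
    else ∑ j ∈ range K, F ((q : ZMod m) ^ j * a) with hh
  have hqm : q ∣ m := hD.qQ.trans hD.Qm
  have hz : ∀ b, F ((q : ZMod m) ^ K * b) = 0 := by
    intro b
    by_contra hne
    exact not_dvd_pow_mul hD hQ b (hs _ hne)
  have key : upF Q q K F - F = rel q h := by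
    funext b
    have e1 : h ((q : ZMod m) * b) = ∑ j ∈ range K, F ((q : ZMod m) ^ (j + 1) * b) := by
      simp only [hh]
      rw [if_neg (not_Q_dvd_mul hD b)]
      refine sum_congr rfl fun j _ => ?_
      rw [pow_succ, mul_assoc]
    have e2 : ∑ j ∈ range K, F ((q : ZMod m) ^ (j + 1) * b) + F b
        = ∑ j ∈ range K, F ((q : ZMod m) ^ j * b) := by
      have h1 := Finset.sum_range_succ' (fun j => F ((q : ZMod m) ^ j * b)) K
      have h2 := Finset.sum_range_succ (fun j => F ((q : ZMod m) ^ j * b)) K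
      rw [hz, add_zero] at h2
      rw [pow_zero, one_mul] at h1
      rw [← h1, h2]
    show upF Q q K F b - F b = h ((q : ZMod m) * b) - h b
    rw [e1]
    unfold upF
    simp only [hh]
    split_ifs with hb
    · linarith
    · linarith
  rw [key]
  apply AddSubgroup.subset_closure
  refine ⟨q, h, hD.hq, hqm, ?_, ?_, rfl⟩
  · intro a
    simp only [hh]
    rw [addOrderOf_neg]
    split_ifs
    · simp
    · rw [← sum_neg_distrib]
      refine sum_congr rfl fun j _ => ?_
      rw [mul_neg, ho]
  · intro a ha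
    apply exists_of_not_dvd hD
    intro hd
    apply ha
    simp only [hh]
    rw [if_pos hd]

lemma order_mul_pow (hD : Dat m Q n q) {K : ℕ} (hQ : Q = q ^ K) {b : ZMod m}
    (hb : Q ∣ addOrderOf b) : ∀ j, j ≤ K →
    (addOrderOf ((q : ZMod m) ^ j * b)).factorization q = K - j ∧
      q ^ j * addOrderOf ((q : ZMod m) ^ j * b) = addOrderOf b := by
  intro j
  have hb0 : (addOrderOf b).factorization q = K := by
    apply le_antisymm
    · have h1 : addOrderOf b ∣ Q * n := (addOrderOf_dvd_m b).trans (dvd_of_eq hD.hm)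
      have hQn0 : Q * n ≠ 0 := mul_ne_zero hD.Qpos.ne' hD.hn
      have h2 := (Nat.factorization_le_iff_dvd (order_pos b).ne' hQn0).mpr h1 q
      rw [Nat.factorization_mul hD.Qpos.ne' hD.hn, Finsupp.add_apply, hQ,
        Nat.Prime.factorization_pow hD.hq, Finsupp.single_apply, if_pos rfl] at h2
      have h3 : n.factorization q = 0 := by
        apply Nat.factorization_eq_zero_of_not_dvd
        intro h
        have h4 : q ∣ 1 := by
          have := Nat.dvd_gcd hD.qQ h
          rwa [hD.hcop.gcd_eq_one] at this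
        exact hD.hq.one_lt.ne' (Nat.dvd_one.mp h4)
      omega
    · rw [← hD.hq.pow_dvd_iff_le_factorization (order_pos b).ne', ← hQ]
      exact hb
  induction j with
  | zero =>
    intro _
    rw [pow_zero, one_mul, pow_zero, one_mul]
    exact ⟨by rw [hb0]; rfl, rfl⟩
  | succ j ih =>
    intro hj
    obtain ⟨h1, h2⟩ := ih (by omega)
    have h3 : q ∣ addOrderOf ((q : ZMod m) ^ j * b) := by
      rw [hD.hq.dvd_iff_one_le_factorization (order_pos _).ne', h1]
      omega
    have h4 : addOrderOf ((q : ZMod m) ^ (j + 1) * b)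
        = addOrderOf ((q : ZMod m) ^ j * b) / q := by
      rw [pow_succ', mul_assoc]
      exact addOrderOf_natCast_mul hD.hq.ne_zero h3
    obtain ⟨c, hc⟩ := h3
    have hc0 : c ≠ 0 := by
      rintro rfl
      rw [mul_zero] at hc
      exact (order_pos _).ne' hc
    have h5 : addOrderOf ((q : ZMod m) ^ (j + 1) * b) = c := by
      rw [h4, hc, Nat.mul_div_cancel_left _ hD.hq.pos]
    rw [h5]
    constructor
    · rw [hc, Nat.factorization_mul hD.hq.ne_zero hc0, Finsupp.add_apply,
        hD.hq.factorization, Finsupp.single_apply, if_pos rfl] at h1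
      omega
    · rw [← h2, hc, pow_succ]
      ring

/-- norm of the push-up -/
lemma upF_norm (hD : Dat m Q n q) {K : ℕ} (hQ : Q = q ^ K) (F : ZMod m → ℤ)
    (hs : ∀ a, F a ≠ 0 → q ∣ addOrderOf a) :
    ∑ b, |upF Q q K F b| ≤ q ^ (K - 1) * ∑ a, |F a| := by
  classical
  have hK : 1 ≤ K := by
    obtain ⟨K', hK', hQ'⟩ := hD.hQ
    by_contra h
    have : K = 0 := by omega
    rw [this, pow_zero] at hQ
    rw [hQ] at hQ'
    have := Nat.one_lt_pow hK' hD.hq.one_lt
    omega
  set Fj : ℕ → ZMod m → ℤ := fun j a => if (addOrderOf a).factorization q = K - j then F a else 0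
    with hFj
  have hq1 : (1 : ℤ) ≤ q := by exact_mod_cast hD.hq.one_lt.le
  have h1 : ∀ b, |upF Q q K F b| ≤ ∑ j ∈ range K, |Fj j (((q ^ j : ℕ) : ZMod m) * b)| := by
    intro b
    unfold upF
    split_ifs with hb
    · refine (abs_sum_le_sum_abs _ _).trans (le_of_eq (sum_congr rfl fun j hj => ?_))
      have := (order_mul_pow hD hQ hb j (mem_range.mp hj).le).1
      simp only [hFj]
      rw [Nat.cast_pow, if_pos this]
    · rw [abs_zero]
      exact sum_nonneg fun _ _ => abs_nonneg _
  have h2 : ∀ j ∈ range K, ∑ b, |Fj j (((q ^ j : ℕ) : ZMod m) * b)|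
      ≤ q ^ (K - 1) * ∑ a, |Fj j a| := by
    intro j hj
    have hjK := mem_range.mp hj
    have hd : q ^ j ∣ m := by
      refine dvd_trans ?_ hD.Qm
      rw [hQ]; exact pow_dvd_pow q hjK.le
    refine (sum_comp_mul_le (pow_pos hD.hq.pos j) hd (Fj j)).trans ?_
    apply mul_le_mul_of_nonneg_right _ (sum_nonneg fun _ _ => abs_nonneg _)
    push_cast
    exact pow_le_pow_right₀ hq1 (by omega)
  have h3 : ∀ a, ∑ j ∈ range K, |Fj j a| ≤ |F a| := by
    intro a
    by_cases ha : F a = 0
    · rw [ha, abs_zero]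
      apply le_of_eq
      apply sum_eq_zero
      intro j _
      simp only [hFj]
      rw [ha]
      simp
    · have hl : 1 ≤ (addOrderOf a).factorization q :=
        (hD.hq.dvd_iff_one_le_factorization (order_pos a).ne').mp (hs a ha)
      have h4 : ∀ j ∈ range K, |Fj j a|
          = if j = K - (addOrderOf a).factorization q then |F a| else 0 := by
        intro j hj
        have hjK := mem_range.mp hj
        simp only [hFj]
        by_cases h5 : (addOrderOf a).factorization q = K - j
        · rw [if_pos h5, if_pos (by omega)]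
        · by_cases h6 : j = K - (addOrderOf a).factorization q
          · exfalso
            apply h5
            have h7 : (addOrderOf a).factorization q ≤ K := by
              have h1 : addOrderOf a ∣ Q * n := (addOrderOf_dvd_m a).trans (dvd_of_eq hD.hm)
              have hQn0 : Q * n ≠ 0 := mul_ne_zero hD.Qpos.ne' hD.hn
              have h2 := (Nat.factorization_le_iff_dvd (order_pos a).ne' hQn0).mpr h1 q
              rw [Nat.factorization_mul hD.Qpos.ne' hD.hn, Finsupp.add_apply, hQ,
                Nat.Prime.factorization_pow hD.hq, Finsupp.single_apply, if_pos rfl] at h2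
              have h3 : n.factorization q = 0 := by
                apply Nat.factorization_eq_zero_of_not_dvd
                intro h
                have h4 : q ∣ 1 := by
                  have := Nat.dvd_gcd hD.qQ h
                  rwa [hD.hcop.gcd_eq_one] at this
                exact hD.hq.one_lt.ne' (Nat.dvd_one.mp h4)
              omega
            omega
          · rw [if_neg h5, if_neg h6, abs_zero]
      rw [sum_congr rfl h4, sum_ite_eq']
      split_ifs
      · exact le_refl _
      · exact abs_nonneg _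
  calc ∑ b, |upF Q q K F b| ≤ ∑ b, ∑ j ∈ range K, |Fj j (((q ^ j : ℕ) : ZMod m) * b)| :=
        sum_le_sum fun b _ => h1 b
    _ = ∑ j ∈ range K, ∑ b, |Fj j (((q ^ j : ℕ) : ZMod m) * b)| := sum_comm
    _ ≤ ∑ j ∈ range K, q ^ (K - 1) * ∑ a, |Fj j a| := sum_le_sum h2
    _ = q ^ (K - 1) * ∑ a, ∑ j ∈ range K, |Fj j a| := by rw [← mul_sum, sum_comm]
    _ ≤ q ^ (K - 1) * ∑ a, |F a| := by
        apply mul_le_mul_of_nonneg_left (sum_le_sum fun a _ => h3 a) (by positivity)

end Pool.Agent.Lib.MP_938ce2_ag_H7f
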